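import Pool.Agent.Lib.MP_104326_lc.FP.Sys
import Pool.Agent.Lib.MP_104326_lc.KR.C1

/-!
# FP: the bits of a node (module B1)
-/

set_option autoImplicit false

namespace Pool.Agent.Lib.MP_104326_lc.FP

open Pool.Agent.Lib.PolyTime Pool.Agent.Lib.MP_104326_lc.KR

variable {α : Type} [DecidableEq α] (S : Sys α)

theorem b1_const (n : ℕ) (c : ℝ) : avgB n (fun _ => c) = c := by
  unfold avgB
  rw [Finset.sum_const, Finset.card_univ]
  simp

theorem b1_mul_left (n : ℕ) (c : ℝ) (F : List Bool → ℝ) : avgB n (fun r => c * F r) = c * avgB n F := by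
  unfold avgB
  rw [← Finset.mul_sum, mul_div_assoc]

theorem b1_mul_right (n : ℕ) (c : ℝ) (F : List Bool → ℝ) : avgB n (fun r => F r * c) = avgB n F * c := by
  unfold avgB
  rw [← Finset.sum_mul, div_mul_eq_mul_div]

private theorem b1_slot_congr (K B : ℕ) (c : ℕ × ℕ) (x y : SPool α) (us us' : ℕ → ℕ × ℕ) (J : ℕ)
    (h : ∀ i < J, us i = us' i) : S.slot K B c x y us J = S.slot K B c x y us' J := by
  induction J with
  | zero => rfl
  | succ J ih =>
    unfold Sys.slot
    rw [ih (fun i hi => h i (by omega)), h J (by omega)]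

private theorem b1_dt {β : Type} (p q : List β) (n m : ℕ) (h : n + m ≤ p.length) :
    ((p ++ q).drop n).take m = (p.drop n).take m := by
  rw [List.drop_append_of_le_length (by omega), List.take_append_of_le_length (by simp; omega)]

theorem avgB_slot (K J B : ℕ) (c : ℕ × ℕ) (x y : SPool α) (F : ℕ × α → ℝ) :
    avgB (J * (2 * B)) (fun p => F (S.slot K B c x y (Sys.usOf B p) J)) = S.avgS K B c x y J F := by
  induction J generalizing F with
  | zero =>
    rw [zero_mul, c1_zero]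
    rfl
  | succ J ih =>
    have hn : (J + 1) * (2 * B) = J * (2 * B) + (B + B) := by ring
    rw [hn, c1_append]
    unfold Sys.avgS
    rw [← ih]
    refine c1_congr (fun p1 hp1 => ?_)
    rw [c1_append]
    have h1 : ∀ q : List Bool, q.length = B → ∀ q' : List Bool, q'.length = B →
        S.slot K B c x y (Sys.usOf B (p1 ++ (q ++ q'))) (J + 1) =
          Sys.mrg B (msb q') (S.slot K B c x y (Sys.usOf B p1) J) (S.trial K c (msb q) x y) := by
      intro q hq q' hq'
      rw [Sys.slot]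
      have e1 : S.slot K B c x y (Sys.usOf B (p1 ++ (q ++ q'))) J = S.slot K B c x y (Sys.usOf B p1) J := by
        refine b1_slot_congr S K B c x y _ _ J (fun i hi => ?_)
        have hle : i * (2 * B) + (2 * B) ≤ p1.length := by
          rw [hp1]
          calc i * (2 * B) + 2 * B = (i + 1) * (2 * B) := by ring
            _ ≤ J * (2 * B) := Nat.mul_le_mul_right _ hi
        unfold Sys.usOf
        rw [b1_dt _ _ _ _ (by omega), b1_dt _ _ _ _ (by omega)]
      have e2 : Sys.usOf B (p1 ++ (q ++ q')) J = (msb q, msb q') := by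
        unfold Sys.usOf
        have e3 : (p1 ++ (q ++ q')).drop (J * (2 * B)) = q ++ q' := by rw [← hp1]; simp
        have e4 : (p1 ++ (q ++ q')).drop (J * (2 * B) + B) = q' := by
          rw [← List.drop_drop, e3, ← hq]; simp
        rw [e3, e4]
        have e5 : (q ++ q').take B = q := by rw [← hq]; simp
        have e6 : q'.take B = q' := by rw [← hq']; simp
        rw [e5, e6]
      rw [e1, e2]
    have h2 : avgB B (fun q => avgB B (fun q' => F (S.slot K B c x y (Sys.usOf B (p1 ++ (q ++ q'))) (J + 1)))) =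
        avgB B (fun q => avgB B (fun q' =>
          F (Sys.mrg B (msb q') (S.slot K B c x y (Sys.usOf B p1) J) (S.trial K c (msb q) x y)))) :=
      c1_congr (fun q hq => c1_congr (fun q' hq' => by rw [h1 q hq q' hq']))
    rw [h2]
    have h3 : ∀ q : List Bool, avgB B (fun q' =>
        F (Sys.mrg B (msb q') (S.slot K B c x y (Sys.usOf B p1) J) (S.trial K c (msb q) x y))) =
        (∑ u' ∈ Finset.range (2 ^ B),
          F (Sys.mrg B u' (S.slot K B c x y (Sys.usOf B p1) J) (S.trial K c (msb q) x y))) / 2 ^ B := fun q =>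
      c1_msb B (fun u' => F (Sys.mrg B u' (S.slot K B c x y (Sys.usOf B p1) J) (S.trial K c (msb q) x y)))
    rw [c1_congr (fun q _ => h3 q)]
    exact c1_msb B (fun u => (∑ u' ∈ Finset.range (2 ^ B),
          F (Sys.mrg B u' (S.slot K B c x y (Sys.usOf B p1) J) (S.trial K c u x y))) / 2 ^ B)

theorem avgB_piece {m N σ : ℕ} (hσ : σ < N) (F : List Bool → ℝ) :
    avgB (N * m) (fun r => F (Sys.piece m σ r)) = avgB m F := by
  obtain ⟨k, rfl⟩ : ∃ k, N = σ + 1 + k := ⟨N - (σ + 1), by omega⟩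
  have hn : (σ + 1 + k) * m = σ * m + (m + k * m) := by ring
  rw [hn, c1_append]
  have h1 : ∀ r1 : List Bool, r1.length = σ * m →
      avgB (m + k * m) (fun s => F (Sys.piece m σ (r1 ++ s))) = avgB m F := by
    intro r1 hr1
    rw [c1_append]
    have h2 : ∀ r2 : List Bool, r2.length = m →
        avgB (k * m) (fun r3 => F (Sys.piece m σ (r1 ++ (r2 ++ r3)))) = F r2 := by
      intro r2 hr2
      have h3 : ∀ r3 : List Bool, Sys.piece m σ (r1 ++ (r2 ++ r3)) = r2 := by
        intro r3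
        unfold Sys.piece
        have e1 : (r1 ++ (r2 ++ r3)).drop (σ * m) = r2 ++ r3 := by rw [← hr1]; simp
        rw [e1, ← hr2]
        simp
      simp only [h3]
      exact b1_const _ _
    exact c1_congr h2
  rw [c1_congr h1]
  exact b1_const _ _

private theorem b1_piece2_lt {m N σ τ : ℕ} (hτ : τ < N) (hlt : σ < τ) (F G : List Bool → ℝ) :
    avgB (N * m) (fun r => F (Sys.piece m σ r) * G (Sys.piece m τ r)) = avgB m F * avgB m G := by
  obtain ⟨d, rfl⟩ : ∃ d, τ = σ + 1 + d := ⟨τ - (σ + 1), by omega⟩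
  obtain ⟨k, rfl⟩ : ∃ k, N = (σ + 1 + d) + k := ⟨N - (σ + 1 + d), by omega⟩
  have hn : (σ + 1 + d + k) * m = σ * m + (m + (d + k) * m) := by ring
  rw [hn, c1_append]
  have h1 : ∀ r1 : List Bool, r1.length = σ * m →
      avgB (m + (d + k) * m) (fun s => F (Sys.piece m σ (r1 ++ s)) * G (Sys.piece m (σ + 1 + d) (r1 ++ s))) =
        avgB m F * avgB m G := by
    intro r1 hr1
    rw [c1_append]
    have h2 : ∀ r2 : List Bool, r2.length = m →
        avgB ((d + k) * m) (fun r3 => F (Sys.piece m σ (r1 ++ (r2 ++ r3))) *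
          G (Sys.piece m (σ + 1 + d) (r1 ++ (r2 ++ r3)))) = F r2 * avgB m G := by
      intro r2 hr2
      have h3 : ∀ r3 : List Bool, Sys.piece m σ (r1 ++ (r2 ++ r3)) = r2 := by
        intro r3
        unfold Sys.piece
        have e1 : (r1 ++ (r2 ++ r3)).drop (σ * m) = r2 ++ r3 := by rw [← hr1]; simp
        rw [e1, ← hr2]
        simp
      have h4 : ∀ r3 : List Bool, Sys.piece m (σ + 1 + d) (r1 ++ (r2 ++ r3)) = Sys.piece m d r3 := by
        intro r3
        unfold Sys.piece
        have e1 : (σ + 1 + d) * m = σ * m + (m + d * m) := by ring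
        have e2 : (r1 ++ (r2 ++ r3)).drop (σ * m) = r2 ++ r3 := by rw [← hr1]; simp
        have e3 : (r2 ++ r3).drop m = r3 := by rw [← hr2]; simp
        rw [e1, ← List.drop_drop, e2, ← List.drop_drop, e3]
      simp only [h3, h4]
      rw [b1_mul_left, avgB_piece (show d < d + k by omega) G]
    rw [c1_congr h2]
    exact b1_mul_right _ _ _
  rw [c1_congr h1]
  exact b1_const _ _

theorem avgB_piece2 {m N σ τ : ℕ} (hσ : σ < N) (hτ : τ < N) (hne : σ ≠ τ) (F G : List Bool → ℝ) :
    avgB (N * m) (fun r => F (Sys.piece m σ r) * G (Sys.piece m τ r)) = avgB m F * avgB m G := by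
  rcases Nat.lt_or_gt_of_ne hne with h | h
  · exact b1_piece2_lt hτ h F G
  · have := b1_piece2_lt (m := m) hσ h G F
    rw [mul_comm (avgB m F), ← this]
    refine c1_congr (fun r _ => mul_comm _ _)

private theorem b1_idx {R K : ℕ} {c : ℕ × ℕ} {s : ℕ} (h1 : c.1 < R) (h7 : c.2 < 7) (hs : s < K) :
    Sys.idx K c s < 7 * R * K := by
  unfold Sys.idx
  have h2 : c.1 * 7 + c.2 + 1 ≤ 7 * R := by omega
  calc (c.1 * 7 + c.2) * K + s < (c.1 * 7 + c.2) * K + K := by omega
    _ = (c.1 * 7 + c.2 + 1) * K := by ring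
    _ ≤ 7 * R * K := Nat.mul_le_mul_right _ h2

private theorem b1_idx_ne {K : ℕ} {c c' : ℕ × ℕ} {s s' : ℕ} (h7 : c.2 < 7) (hs : s < K) (h7' : c'.2 < 7)
    (hs' : s' < K) (hne : (c, s) ≠ (c', s')) : Sys.idx K c s ≠ Sys.idx K c' s' := by
  intro h
  apply hne
  unfold Sys.idx at h
  have hK : 0 < K := by omega
  have e1 : (c.1 * 7 + c.2) = (c'.1 * 7 + c'.2) := by
    have h3 : ((c.1 * 7 + c.2) * K + s) / K = ((c'.1 * 7 + c'.2) * K + s') / K := by rw [h]
    rwa [mul_comm _ K, mul_comm _ K, Nat.mul_add_div hK, Nat.mul_add_div hK, Nat.div_eq_of_lt hs,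
      Nat.div_eq_of_lt hs', add_zero, add_zero] at h3
  have e2 : s = s' := by
    rw [e1] at h
    omega
  have e3 : c = c' := by
    apply Prod.ext <;> omega
  rw [e2, e3]

private theorem b1_node {R K J B : ℕ} {c : ℕ × ℕ} {s : ℕ} (h1 : c.1 < R) (h7 : c.2 < 7) (h2 : 2 ≤ c.1)
    (hs : s < K) (x y : SPool α) (r : List Bool) :
    S.nodeP R K J B r x y c s = S.slot K B c x y (Sys.usOf B (Sys.piece (J * (2 * B)) (Sys.idx K c s) r)) J := by
  unfold Sys.nodeP
  rw [if_pos ⟨hs, h1, h7⟩, if_neg (by omega)]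

theorem node_one {R K J B : ℕ} {c : ℕ × ℕ} {s : ℕ} (h1 : c.1 < R) (h7 : c.2 < 7) (h2 : 2 ≤ c.1)
    (hs : s < K) (x y : SPool α) (F : ℕ × α → ℝ) :
    avgB (Sys.nodeBits R K J B) (fun r => F (S.nodeP R K J B r x y c s)) = S.avgS K B c x y J F := by
  simp only [b1_node S h1 h7 h2 hs x y]
  unfold Sys.nodeBits
  rw [avgB_piece (b1_idx h1 h7 hs) (fun p => F (S.slot K B c x y (Sys.usOf B p) J))]
  exact avgB_slot S K J B c x y F

theorem node_two {R K J B : ℕ} {c c' : ℕ × ℕ} {s s' : ℕ} (h1 : c.1 < R) (h7 : c.2 < 7) (h2 : 2 ≤ c.1)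
    (hs : s < K) (h1' : c'.1 < R) (h7' : c'.2 < 7) (h2' : 2 ≤ c'.1) (hs' : s' < K)
    (hne : (c, s) ≠ (c', s')) (x y : SPool α) (F F' : ℕ × α → ℝ) :
    avgB (Sys.nodeBits R K J B) (fun r => F (S.nodeP R K J B r x y c s) *
      F' (S.nodeP R K J B r x y c' s')) = S.avgS K B c x y J F * S.avgS K B c' x y J F' := by
  simp only [b1_node S h1 h7 h2 hs x y, b1_node S h1' h7' h2' hs' x y]
  unfold Sys.nodeBits
  rw [avgB_piece2 (b1_idx h1 h7 hs) (b1_idx h1' h7' hs') (b1_idx_ne h7 hs h7' hs' hne)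
    (fun p => F (S.slot K B c x y (Sys.usOf B p) J)) (fun p => F' (S.slot K B c' x y (Sys.usOf B p) J)),
    avgB_slot, avgB_slot]

end Pool.Agent.Lib.MP_104326_lc.FP
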