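import Pool.Agent.Lib.MP_104326_lc.FP.Sys
import Pool.Agent.Lib.MP_104326_lc.KR.C1

/-!
# FP: the bits of the whole tree (module B2)
-/

set_option autoImplicit false

namespace Pool.Agent.Lib.MP_104326_lc.FP

open Pool.Agent.Lib.PolyTime Pool.Agent.Lib.MP_104326_lc.KR

variable {α : Type} [DecidableEq α] (S : Sys α)

theorem avgB_runP (R K J B h : ℕ) (F : SPool α → ℝ) :
    avgB (Sys.nodeBits R K J B * (2 ^ h - 1)) (fun r => F (S.runP R K J B h r)) =
      S.expP R K J B h F := by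
  induction h generalizing F with
  | zero => simp [c1_zero, Sys.runP, Sys.expP]
  | succ h ih =>
    generalize hM : Sys.nodeBits R K J B = M at ih ⊢
    have hn : M * (2 ^ (h + 1) - 1) = M * (2 ^ h - 1) + (M * (2 ^ h - 1) + M) := by
      have h1 : 1 ≤ 2 ^ h := Nat.one_le_two_pow
      obtain ⟨m, hm⟩ : ∃ m, 2 ^ h = m + 1 := ⟨2 ^ h - 1, by omega⟩
      rw [pow_succ, hm]
      have h2 : (m + 1) * 2 - 1 = 2 * m + 1 := by omega
      rw [h2]
      simp
      ring
    rw [hn, c1_append]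
    have h1 : avgB (M * (2 ^ h - 1)) (fun r => avgB (M * (2 ^ h - 1) + M)
        (fun s => F (S.runP R K J B (h + 1) (r ++ s)))) =
        avgB (M * (2 ^ h - 1)) (fun r1 => avgB (M * (2 ^ h - 1)) (fun r2 => avgB M (fun r3 =>
          F (S.nodeP R K J B r3 (S.runP R K J B h r1) (S.runP R K J B h r2))))) := by
      refine c1_congr (fun r1 hr1 => ?_)
      rw [c1_append]
      refine c1_congr (fun r2 hr2 => c1_congr (fun r3 hr3 => ?_))
      rw [Sys.runP, hM]
      have e1 : (r1 ++ (r2 ++ r3)).take (M * (2 ^ h - 1)) = r1 := by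
        rw [← hr1]; simp
      have e2 : (r1 ++ (r2 ++ r3)).drop (M * (2 ^ h - 1)) = r2 ++ r3 := by
        rw [← hr1]; simp
      have e3 : (r1 ++ (r2 ++ r3)).drop (2 * (M * (2 ^ h - 1))) = r3 := by
        rw [two_mul, ← List.drop_drop, e2, ← hr2]; simp
      have e4 : (r2 ++ r3).take (M * (2 ^ h - 1)) = r2 := by
        rw [← hr2]; simp
      rw [e3, e1, e2, e4]
    rw [h1]
    have h2 : ∀ r1 : List Bool, avgB (M * (2 ^ h - 1)) (fun r2 => avgB M (fun r3 =>
          F (S.nodeP R K J B r3 (S.runP R K J B h r1) (S.runP R K J B h r2)))) =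
        S.expP R K J B h (fun y => avgB M (fun r3 => F (S.nodeP R K J B r3 (S.runP R K J B h r1) y))) :=
      fun r1 => ih (fun y => avgB M (fun r3 => F (S.nodeP R K J B r3 (S.runP R K J B h r1) y)))
    rw [c1_congr (fun r1 _ => h2 r1)]
    rw [ih (fun x => S.expP R K J B h (fun y => avgB M (fun r3 => F (S.nodeP R K J B r3 x y)))), Sys.expP, hM]

end Pool.Agent.Lib.MP_104326_lc.FP
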