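import Pool.Agent.Lib.MP_104326_lc.KR.Defs
import Pool.Agent.Lib.MP_104326_lc.KR.A1
import Pool.Agent.Lib.MP_104326_lc.KR.A2

/-!
# FP: polynomial-time approximate counting of polyominoes.  Marked polyominoes

A marked polyomino is a pair of lists of cells: the cells and the marked cells (at most six).
-/

set_option autoImplicit false

namespace Pool.Agent.Lib.MP_104326_lc.FP

open Pool.Agent.Lib.MP_104326_lc.KR

/-- Marked polyominoes: cells and marked cells. -/
abbrev MO := List NC × List NC

/-- Membership as a boolean. -/
def mem (p : NC) (L : List NC) : Bool := L.any (fun q => decide (p = q))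

/-- The number of cells of `L` which are in `W`. -/
def cw (W L : List NC) : ℕ := (L.filter (fun p => mem p W)).length

/-- The (first) component of `L` with the largest number of cells in `W`. -/
def largestW (W L : List NC) : List NC :=
  L.foldl (fun best c => if cw W best < cw W (comp L c) then comp L c else best) []

/-- One step of the search for a balanced split. -/
def stepW (W Z B : List NC) : List NC :=
  if cw W Z ≤ 4 * cw W (diff Z B) + 1 then B
  else match pick Z B with
    | none => B
    | some b => largestW W (B.filter (fun p => !decide (p = b)))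

/-- The second part of the canonical split of `Z` which is balanced with respect to `W`. -/
def splitW (W Z : List NC) : List NC := (stepW W Z)^[Z.length] Z

/-- The cells which have to be distributed evenly. -/
def heavy (O : MO) : List NC := if O.2.length ≤ 5 then O.1 else O.2

/-- The first adjacent pair of cells of `A × B`. -/
def firstAdj (A B : List NC) : NC × NC :=
  ((A.flatMap (fun p => (B.filter (fun q => isAdj p q)).map (fun q => (p, q)))).head?).getD
    ((0, 0), (0, 0))

/-- Second part. -/
def zB (O : MO) : List NC := splitW (heavy O) O.1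

/-- First part. -/
def zA (O : MO) : List NC := diff O.1 (zB O)

/-- The two cells where the parts are joined. -/
def yy (O : MO) : NC × NC := firstAdj (zA O) (zB O)

/-- First part with its marks. -/
def partA (O : MO) : MO := (zA O, (zA O).filter (fun p => mem p O.2 || decide (p = (yy O).1)))

/-- Second part with its marks. -/
def partB (O : MO) : MO := (zB O, (zB O).filter (fun p => mem p O.2 || decide (p = (yy O).2)))

/-- The lower left corner of the bounding box. -/
def minc (L : List NC) : NC :=
  (L.foldr (fun p a => min p.1 a) (L.headD (0, 0)).1, L.foldr (fun p a => min p.2 a) (L.headD (0, 0)).2)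

/-- Inverse translation. -/
def unshift (s : NC) (L : List NC) : List NC := L.map (fun p => (p.1 - s.1, p.2 - s.2))

/-- Normalization. -/
def normO (O : MO) : MO := (unshift (minc O.1) O.1, unshift (minc O.1) O.2)

/-- First part, normalized. -/
def Lf (O : MO) : MO := normO (partA O)

/-- Second part, normalized. -/
def Rf (O : MO) : MO := normO (partB O)

/-- The class of a marked polyomino: number of cells, number of marks. -/
def cl (O : MO) : ℕ × ℕ := (O.1.length, O.2.length)

/-- Digits in base `R`. -/
def dig (R w i : ℕ) : ℕ := w / R ^ i % R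

/-- The parameters of the canonical gluing. -/
def ch (R : ℕ) (O : MO) : ℕ :=
  (zA O).length + (partA O).2.length * R + (partB O).2.length * R ^ 2 +
    (minc (zA O)).1 * R ^ 3 + (minc (zA O)).2 * R ^ 4 +
    (minc (zB O)).1 * R ^ 5 + (minc (zB O)).2 * R ^ 6 +
    (if mem (yy O).1 O.2 then 1 else 0) * R ^ 7 + (if mem (yy O).2 O.2 then 1 else 0) * R ^ 8

/-- The glued object (before the test). -/
def glued (R w : ℕ) (A B : MO) : MO :=
  let Z := union R (shift (dig R w 3, dig R w 4) A.1) (shift (dig R w 5, dig R w 6) B.1)
  let y := firstAdj (shift (dig R w 3, dig R w 4) A.1) (shift (dig R w 5, dig R w 6) B.1)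
  (Z, Z.filter (fun p =>
    (mem p (shift (dig R w 3, dig R w 4) A.2) && (!decide (p = y.1) || decide (dig R w 7 = 1))) ||
    (mem p (shift (dig R w 5, dig R w 6) B.2) && (!decide (p = y.2) || decide (dig R w 8 = 1)))))

/-- The union of `A` and `B`, translated as `w` says, if these are the canonical parts of the union
and the union has the class `c`. -/
def glueM (R : ℕ) (c : ℕ × ℕ) (w : ℕ) (A B : MO) : Option MO :=
  if cl (glued R w A B) = c ∧ c.2 ≤ 6 ∧ isConn (glued R w A B).1 = true ∧
      isNorm (glued R w A B).1 = true ∧
      A.1.length = dig R w 0 ∧ A.2.length = dig R w 1 ∧ B.2.length = dig R w 2 ∧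
      dig R w 7 ≤ 1 ∧ dig R w 8 ≤ 1 ∧ isNorm A.1 = true ∧ isNorm B.1 = true ∧
      partA (glued R w A B) = (shift (dig R w 3, dig R w 4) A.1, shift (dig R w 3, dig R w 4) A.2) ∧
      partB (glued R w A B) = (shift (dig R w 5, dig R w 6) B.1, shift (dig R w 5, dig R w 6) B.2)
    then some (glued R w A B) else none

/-- The class of the left operand. -/
def lcl (R : ℕ) (_ : ℕ × ℕ) (w : ℕ) : ℕ × ℕ := (dig R w 0, dig R w 1)

/-- The class of the right operand. -/
def rcl (R : ℕ) (c : ℕ × ℕ) (w : ℕ) : ℕ × ℕ := (c.1 - dig R w 0, dig R w 2)

/-- The marked polyominoes of the class `c`. -/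
noncomputable def Om (c : ℕ × ℕ) : Finset MO :=
  (P c.1).biUnion (fun Z => ((Z.sublists.filter (fun X => decide (X.length = c.2))).toFinset).image
    (fun X => (Z, X)))

/-- The single cell, with `x` marks. -/
def unitO (x : ℕ) : MO := ([(0, 0)], if x = 0 then [] else [(0, 0)])

/-- The piece at a node of the decomposition tree. -/
def ndM : List Bool → MO → MO
  | [], O => O
  | b :: v, O => ndM v (if b then Lf O else Rf O)

/-- The node exists and its piece has at least two cells. -/
def okM : List Bool → MO → Bool
  | [], O => decide (2 ≤ O.1.length)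
  | b :: v, O => decide (2 ≤ O.1.length) && okM v (if b then Lf O else Rf O)

/-- The decomposition tree has height at most `h`. -/
def depM : ℕ → MO → Prop
  | 0, O => O.1.length ≤ 1
  | h + 1, O => 2 ≤ O.1.length → depM h (Lf O) ∧ depM h (Rf O)

/-- `t m`, and `1` for `m = 0`. -/
noncomputable def tt (m : ℕ) : ℕ := if m = 0 then 1 else t m

/-- Every cell of `Z` outside `B` is joined, outside `B`, to a neighbour of a cell of `X`. -/
def Frame (Z B X : List NC) : Prop :=
  ∀ p ∈ diff Z B, ∃ y ∈ diff Z B, (∃ x ∈ X, isAdj x y = true) ∧ Walk (diff Z B) y p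

/-- The classes. -/
def Cls (R : ℕ) : Finset (ℕ × ℕ) := Finset.Ico 1 R ×ˢ Finset.range 7

end Pool.Agent.Lib.MP_104326_lc.FP
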