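import Pool.Agent.Lib.MP_104326_lc.FP.Defs

/-!
# FP, module G1: the split which is balanced with respect to a set of cells
-/

set_option autoImplicit false

namespace Pool.Agent.Lib.MP_104326_lc.FP

open Pool.Agent.Lib.MP_104326_lc.KR

theorem g1_mem {p : NC} {L : List NC} : mem p L = true ↔ p ∈ L := by
  unfold mem
  rw [List.any_eq_true]
  constructor
  · rintro ⟨q, hq, hpq⟩
    rw [decide_eq_true_eq] at hpq
    exact hpq ▸ hq
  · intro h
    exact ⟨p, h, by simp⟩

theorem g1_cw_card (W : List NC) {L : List NC} (h : L.Nodup) :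
    cw W L = (L.toFinset.filter (fun p => p ∈ W)).card := by
  unfold cw
  rw [← List.toFinset_card_of_nodup (h.filter _)]
  congr 1
  ext p
  simp only [List.mem_toFinset, List.mem_filter, Finset.mem_filter, g1_mem]

theorem g1_cw_nil (W : List NC) : cw W [] = 0 := rfl

theorem g1_cw_mono (W : List NC) {L M : List NC} (h : L.Sublist M) : cw W L ≤ cw W M :=
  (h.filter _).length_le

theorem g1_cw_self {W Z : List NC} (hZ : Z.Nodup) (hW : W.Sublist Z) : cw W Z = W.length := by
  rw [g1_cw_card W hZ, ← List.toFinset_card_of_nodup (hW.nodup hZ)]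
  congr 1
  ext p
  simp only [List.mem_toFinset, Finset.mem_filter]
  exact ⟨fun h => h.2, fun h => ⟨hW.subset h, h⟩⟩

theorem g1_cw_diff (W : List NC) {Z B : List NC} (hZ : Z.Nodup) (hB : B.Sublist Z) :
    cw W (diff Z B) + cw W B = cw W Z := by
  have hBn : B.Nodup := hB.nodup hZ
  have h2 : (diff Z B).Nodup := (diff_sub Z B).nodup hZ
  rw [g1_cw_card W h2, g1_cw_card W hBn, g1_cw_card W hZ]
  rw [← Finset.card_union_of_disjoint]
  · congr 1
    ext p
    simp only [Finset.mem_union, Finset.mem_filter, List.mem_toFinset, mem_diff]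
    constructor
    · rintro (⟨⟨h, -⟩, h'⟩ | ⟨h, h'⟩)
      · exact ⟨h, h'⟩
      · exact ⟨hB.subset h, h'⟩
    · rintro ⟨h, h'⟩
      by_cases hp : p ∈ B
      · exact Or.inr ⟨hp, h'⟩
      · exact Or.inl ⟨⟨h, hp⟩, h'⟩
  · rw [Finset.disjoint_left]
    intro p hp hp'
    simp only [Finset.mem_filter, List.mem_toFinset, mem_diff] at hp hp'
    exact hp.1.2 hp'.1

theorem g1_cw_rem (W : List NC) {B : List NC} (hB : B.Nodup) (b : NC) :
    cw W B ≤ cw W (rem B b) + 1 := by
  have h2 : (rem B b).Nodup := hB.filter _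
  rw [g1_cw_card W h2, g1_cw_card W hB]
  have h3 : B.toFinset.filter (fun p => p ∈ W) ⊆
      insert b ((rem B b).toFinset.filter (fun p => p ∈ W)) := by
    intro p hp
    simp only [Finset.mem_filter, List.mem_toFinset, Finset.mem_insert, mem_rem] at hp ⊢
    by_cases hpb : p = b
    · exact Or.inl hpb
    · exact Or.inr ⟨⟨hp.1, hpb⟩, hp.2⟩
  exact (Finset.card_le_card h3).trans (Finset.card_insert_le _ _)

theorem g1_largest_aux (W L : List NC) : ∀ (M : List NC) (b0 : List NC),
    (∃ c ∈ L, b0 = comp L c) ∨ b0 = [] → (∀ c ∈ M, c ∈ L) →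
    let r := M.foldl (fun best c => if cw W best < cw W (comp L c) then comp L c else best) b0
    ((∃ c ∈ L, r = comp L c) ∨ r = []) ∧ cw W b0 ≤ cw W r ∧ ∀ c ∈ M, cw W (comp L c) ≤ cw W r := by
  intro M
  induction M with
  | nil =>
    intro b0 h1 h2
    exact ⟨h1, le_rfl, by simp⟩
  | cons a M ih =>
    intro b0 h1 h2
    simp only [List.foldl_cons]
    have ha : a ∈ L := h2 a (by simp)
    by_cases hb : cw W b0 < cw W (comp L a)
    · rw [if_pos hb]
      obtain ⟨i1, i2, i3⟩ := ih (comp L a) (Or.inl ⟨a, ha, rfl⟩)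
        (fun c hc => h2 c (by simp [hc]))
      refine ⟨i1, by omega, ?_⟩
      intro c hc
      rcases List.mem_cons.1 hc with rfl | hc
      · exact i2
      · exact i3 c hc
    · rw [if_neg hb]
      obtain ⟨i1, i2, i3⟩ := ih b0 h1 (fun c hc => h2 c (by simp [hc]))
      refine ⟨i1, i2, ?_⟩
      intro c hc
      rcases List.mem_cons.1 hc with rfl | hc
      · omega
      · exact i3 c hc

theorem g1_largest_spec (W L : List NC) :
    ((∃ c ∈ L, largestW W L = comp L c) ∨ largestW W L = []) ∧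
      ∀ c ∈ L, cw W (comp L c) ≤ cw W (largestW W L) := by
  have := g1_largest_aux W L L [] (Or.inr rfl) (fun _ h => h)
  exact ⟨this.1, this.2.2⟩

/-- Few neighbours, few components. -/
theorem g1_rem_le (W : List NC) {B : List NC} (hnd : B.Nodup) {b : NC} (hb : b ∈ B)
    (hc : ∀ p ∈ B, ∀ q ∈ B, Walk B p q) (N : Finset NC)
    (hN : ∀ a ∈ rem B b, isAdj b a = true → a ∈ N) :
    cw W (rem B b) ≤ N.card * cw W (largestW W (rem B b)) := by
  have hnd' : (rem B b).Nodup := hnd.filter _
  have h1 : (rem B b).toFinset.filter (fun p => p ∈ W) ⊆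
      (N.filter (fun a => a ∈ rem B b)).biUnion
        (fun a => (comp (rem B b) a).toFinset.filter (fun p => p ∈ W)) := by
    intro p hp
    rw [Finset.mem_filter, List.mem_toFinset] at hp
    obtain ⟨a, ha, hab, hw⟩ := exists_nbr (hc b hb p (mem_rem.1 hp.1).1) (mem_rem.1 hp.1).2
    rw [Finset.mem_biUnion]
    refine ⟨a, Finset.mem_filter.2 ⟨hN a ha hab, ha⟩, ?_⟩
    rw [Finset.mem_filter, List.mem_toFinset]
    exact ⟨(mem_comp ha).2 ⟨hp.1, hw⟩, hp.2⟩
  have h2 := Finset.card_le_card h1
  rw [← g1_cw_card W hnd'] at h2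
  refine h2.trans ?_
  refine (Finset.card_biUnion_le_card_mul _ _ (cw W (largestW W (rem B b))) ?_).trans ?_
  · intro a ha
    rw [Finset.mem_filter] at ha
    rw [← g1_cw_card W ((fil_comp _ a).sub.nodup hnd')]
    exact (g1_largest_spec W (rem B b)).2 a ha.2
  · exact Nat.mul_le_mul_right _ (Finset.card_filter_le _ _)

/-- The loop invariant. -/
structure G1Inv (W Z B : List NC) : Prop where
  sub : B.Sublist Z
  conn : ∀ p ∈ B, ∀ q ∈ B, Walk B p q
  dconn : ∀ p ∈ diff Z B, ∀ q ∈ diff Z B, Walk (diff Z B) p q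
  big : cw W Z ≤ 4 * cw W B + 1

/-- The effect of removing the cell `b`. -/
theorem g1_inv_step {W Z B : List NC} (hZ : Z.Nodup) (hI : G1Inv W Z B) {b : NC} (hb : b ∈ B)
    (hz : B ≠ Z → ∃ z ∈ diff Z B, isAdj b z = true)
    (h2 : 2 ≤ cw W Z) (hns : ¬ cw W Z ≤ 4 * cw W (diff Z B) + 1) :
    G1Inv W Z (largestW W (rem B b)) ∧ (largestW W (rem B b)).length < B.length := by
  have hlen := g1_cw_diff W hZ hI.sub
  have hBn : B.Nodup := hI.sub.nodup hZ
  have hrem := g1_cw_rem W hBn b
  have hrem' := diff_length_fil hZ hI.sub b hb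
  have hpos : 0 < cw W (rem B b) := by omega
  obtain ⟨hor, hmax⟩ := g1_largest_spec W (rem B b)
  have hlpos : 0 < cw W (largestW W (rem B b)) := by
    have h4 := g1_rem_le W hBn hb hI.conn (nbs b) (fun a _ h => mem_nbs h)
    rcases Nat.eq_zero_or_pos (cw W (largestW W (rem B b))) with h0 | h0
    · rw [h0, Nat.mul_zero] at h4
      omega
    · exact h0
  obtain ⟨c, hc, hl⟩ : ∃ c ∈ rem B b, largestW W (rem B b) = comp (rem B b) c := by
    rcases hor with h | h
    · exact h
    · rw [h, g1_cw_nil] at hlpos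
      omega
  have hcs : (comp (rem B b) c).Sublist (rem B b) := (fil_comp _ _).sub
  have hrs : (rem B b).Sublist B := List.filter_sublist
  have hlt : (largestW W (rem B b)).length < B.length := by
    have := hcs.length_le
    rw [← hl] at this
    omega
  refine ⟨⟨?_, ?_, ?_, ?_⟩, hlt⟩
  · rw [hl]
    exact (hcs.trans hrs).trans hI.sub
  · rw [hl]
    exact comp_conn hc
  · rw [hl]
    have hbZ : b ∈ Z := hI.sub.subset hb
    have hbD : b ∈ diff Z (comp (rem B b) c) := by
      rw [mem_diff]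
      refine ⟨hbZ, fun h => ?_⟩
      exact (mem_rem.1 (hcs.subset h)).2 rfl
    have key : ∀ p ∈ diff Z (comp (rem B b) c), Walk (diff Z (comp (rem B b) c)) b p := by
      intro p hp
      by_cases hpB : p ∈ B
      · by_cases hpb : p = b
        · rw [hpb]
          exact Walk.refl _ _
        · obtain ⟨a, ha, hab, hw⟩ := exists_nbr (hI.conn b hb p hpB) hpb
          have hpc : p ∉ comp (rem B b) c := (mem_diff.1 hp).2
          have key2 : ∀ y, Walk (rem B b) a y → y ∉ comp (rem B b) c →
              a ∉ comp (rem B b) c ∧ Walk (diff Z (comp (rem B b) c)) a y := by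
            intro y hy
            induction hy with
            | refl => exact fun h => ⟨h, Walk.refl _ _⟩
            | @tail x y h1 h2 ih =>
              intro hyc
              have hxr : x ∈ rem B b := Walk.mem ha h1
              have hxc : x ∉ comp (rem B b) c := by
                intro hxc
                apply hyc
                rw [mem_comp hc] at hxc ⊢
                exact ⟨h2.1, hxc.2.trans (Walk.step h2.1 h2.2)⟩
              obtain ⟨i1, i2⟩ := ih hxc
              refine ⟨i1, i2.trans (Walk.step ?_ h2.2)⟩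
              rw [mem_diff]
              exact ⟨hI.sub.subset (mem_rem.1 h2.1).1, hyc⟩
          obtain ⟨k1, k2⟩ := key2 p hw hpc
          refine (Walk.step ?_ hab).trans k2
          rw [mem_diff]
          exact ⟨hI.sub.subset (mem_rem.1 ha).1, k1⟩
      · have hpD : p ∈ diff Z B := mem_diff.2 ⟨(mem_diff.1 hp).1, hpB⟩
        have hBZ : B ≠ Z := by
          rintro rfl
          exact hpB (mem_diff.1 hp).1
        obtain ⟨z, hz, hbz⟩ := hz hBZ
        have hsub : ∀ x ∈ diff Z B, x ∈ diff Z (comp (rem B b) c) := by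
          intro x hx
          rw [mem_diff] at hx ⊢
          exact ⟨hx.1, fun h => hx.2 (mem_rem.1 (hcs.subset h)).1⟩
        exact (Walk.step (hsub z hz) hbz).trans ((hI.dconn z hz p hpD).mono hsub)
    intro p hp q hq
    exact (Walk.symm hbD (key p hp)).trans (key q hq)
  · by_cases hBZ : B = Z
    · have h4 := g1_rem_le W hBn hb hI.conn (nbs b) (fun a _ h => mem_nbs h)
      have h5 : (nbs b).card * cw W (largestW W (rem B b)) ≤ 4 * cw W (largestW W (rem B b)) :=
        Nat.mul_le_mul_right _ (card_nbs b)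
      have h6 : cw W B = cw W Z := by rw [hBZ]
      omega
    · obtain ⟨z, hz, hbz⟩ := hz hBZ
      have h4 := g1_rem_le W hBn hb hI.conn ((nbs b).erase z) (fun a ha h => by
        rw [Finset.mem_erase]
        refine ⟨?_, mem_nbs h⟩
        rintro rfl
        exact (mem_diff.1 hz).2 (mem_rem.1 ha).1)
      have h5 : ((nbs b).erase z).card ≤ 3 := by
        have := Finset.card_erase_add_one (mem_nbs hbz)
        have := card_nbs b
        omega
      have h6 : ((nbs b).erase z).card * cw W (largestW W (rem B b)) ≤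
          3 * cw W (largestW W (rem B b)) := Nat.mul_le_mul_right _ h5
      omega

/-- The picked cell. -/
theorem g1_pick_spec {Z B : List NC} (hZ : Z.Nodup) (hc : ∀ p ∈ Z, ∀ q ∈ Z, Walk Z p q)
    (hsub : B.Sublist Z) (hB : B ≠ []) : ∃ b, pick Z B = some b ∧ b ∈ B ∧
      (B ≠ Z → ∃ z ∈ diff Z B, isAdj b z = true) := by
  by_cases hBZ : B = Z
  · subst hBZ
    obtain ⟨b, B', rfl⟩ := List.exists_cons_of_ne_nil hB
    exact ⟨b, by simp [pick], by simp, fun h => absurd rfl h⟩
  · obtain ⟨b0, hb0⟩ := List.exists_mem_of_ne_nil B hB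
    obtain ⟨z0, hz0Z, hz0B⟩ : ∃ z ∈ Z, z ∉ B := by
      by_contra hcon
      push Not at hcon
      apply hBZ
      have hD : diff Z B = [] := by
        rw [List.eq_nil_iff_forall_not_mem]
        intro p hp
        rw [mem_diff] at hp
        exact hp.2 (hcon p hp.1)
      have hlen := diff_length hZ hsub
      rw [hD] at hlen
      simp only [List.length_nil] at hlen
      exact hsub.eq_of_length (by omega)
    obtain ⟨b1, hb1, z1, hz1, h1⟩ :=
      exists_cross hb0 (hc b0 (hsub.subset hb0) z0 hz0Z) hz0B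
    have hne : B.filter (fun p => (diff Z B).any (fun q => isAdj p q)) ≠ [] := by
      apply List.ne_nil_of_mem (a := b1)
      rw [List.mem_filter, List.any_eq_true]
      exact ⟨hb1, z1, hz1, h1⟩
    obtain ⟨b, T, hbT⟩ := List.exists_cons_of_ne_nil hne
    have hb : b ∈ B.filter (fun p => (diff Z B).any (fun q => isAdj p q)) := by
      rw [hbT]
      simp
    rw [List.mem_filter, List.any_eq_true] at hb
    refine ⟨b, ?_, hb.1, fun _ => hb.2⟩
    unfold pick
    rw [if_neg hBZ, hbT]
    rfl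

/-- One step of the loop. -/
theorem g1_step_spec {W Z B : List NC} (hZ : Z.Nodup) (hc : ∀ p ∈ Z, ∀ q ∈ Z, Walk Z p q)
    (h2 : 2 ≤ cw W Z) (hI : G1Inv W Z B) :
    G1Inv W Z (stepW W Z B) ∧ (cw W Z ≤ 4 * cw W (diff Z B) + 1 → stepW W Z B = B) ∧
      (¬ cw W Z ≤ 4 * cw W (diff Z B) + 1 → (stepW W Z B).length < B.length) := by
  by_cases hs : cw W Z ≤ 4 * cw W (diff Z B) + 1
  · have h1 : stepW W Z B = B := by
      unfold stepW
      rw [if_pos hs]
    rw [h1]
    exact ⟨hI, fun _ => rfl, fun h => absurd hs h⟩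
  · have hB : B ≠ [] := by
      rintro rfl
      have := hI.big
      rw [g1_cw_nil] at this
      omega
    obtain ⟨b, hp, hb, hz⟩ := g1_pick_spec hZ hc hI.sub hB
    have h1 : stepW W Z B = largestW W (rem B b) := by
      unfold stepW
      rw [if_neg hs, hp]
      rfl
    rw [h1]
    obtain ⟨i1, i2⟩ := g1_inv_step hZ hI hb hz h2 hs
    exact ⟨i1, fun h => absurd h hs, fun _ => i2⟩

theorem g1_iter_spec {W Z : List NC} (hZ : Z.Nodup) (hc : ∀ p ∈ Z, ∀ q ∈ Z, Walk Z p q)
    (h2 : 2 ≤ cw W Z) (i : ℕ) : G1Inv W Z ((stepW W Z)^[i] Z) ∧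
      (cw W Z ≤ 4 * cw W (diff Z ((stepW W Z)^[i] Z)) + 1 ∨
        ((stepW W Z)^[i] Z).length + i ≤ Z.length) := by
  induction i with
  | zero =>
    refine ⟨⟨List.Sublist.refl Z, hc, ?_, ?_⟩, Or.inr (by simp)⟩
    · simp only [Function.iterate_zero, id_eq]
      rw [diff_self]
      simp
    · simp only [Function.iterate_zero, id_eq]
      omega
  | succ i ih =>
    obtain ⟨ihI, ih2⟩ := ih
    rw [Function.iterate_succ_apply']
    obtain ⟨s1, s2, s3⟩ := g1_step_spec hZ hc h2 ihI
    refine ⟨s1, ?_⟩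
    by_cases hs : cw W Z ≤ 4 * cw W (diff Z ((stepW W Z)^[i] Z)) + 1
    · left
      rw [s2 hs]
      exact hs
    · right
      have := s3 hs
      rcases ih2 with h | h
      · exact absurd h hs
      · omega

/-- the canonical split of a connected list -/
theorem splitW_spec {W Z : List NC} (h : Z.Pairwise ltc) (hc : isConn Z = true) (hW : W.Sublist Z)
    (h2 : 2 ≤ W.length) :
    isConn (diff Z (splitW W Z)) = true ∧ isConn (splitW W Z) = true ∧
    (splitW W Z).Sublist Z ∧ (diff Z (splitW W Z)).Sublist Z ∧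
    (diff Z (splitW W Z)).length + (splitW W Z).length = Z.length ∧
    cw W (diff Z (splitW W Z)) + cw W (splitW W Z) = W.length ∧
    W.length ≤ 4 * cw W (diff Z (splitW W Z)) + 1 ∧ W.length ≤ 4 * cw W (splitW W Z) + 1 := by
  have hZ : Z.Nodup := by
    refine List.Pairwise.imp ?_ h
    intro a b hab hab2
    subst hab2
    unfold ltc at hab
    omega
  have hWZ : cw W Z = W.length := g1_cw_self hZ hW
  obtain ⟨hI, h3⟩ := g1_iter_spec (W := W) hZ (isConn_iff.1 hc).2 (by omega) Z.length
  change G1Inv W Z (splitW W Z) at hI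
  change (cw W Z ≤ 4 * cw W (diff Z (splitW W Z)) + 1 ∨
    (splitW W Z).length + Z.length ≤ Z.length) at h3
  have hlen := diff_length hZ hI.sub
  have hclen := g1_cw_diff W hZ hI.sub
  have hbig := hI.big
  have h4 : cw W Z ≤ 4 * cw W (diff Z (splitW W Z)) + 1 := by
    rcases h3 with h3 | h3
    · exact h3
    · exfalso
      have h5 : (splitW W Z).length = 0 := by omega
      rw [List.length_eq_zero_iff.1 h5, g1_cw_nil] at hbig
      omega
  refine ⟨?_, ?_, hI.sub, diff_sub _ _, hlen, by omega, by omega, by omega⟩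
  · rw [isConn_iff]
    refine ⟨fun h0 => ?_, hI.dconn⟩
    rw [h0, g1_cw_nil] at h4
    omega
  · rw [isConn_iff]
    refine ⟨fun h0 => ?_, hI.conn⟩
    rw [h0, g1_cw_nil] at hbig
    omega

end Pool.Agent.Lib.MP_104326_lc.FP
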