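import Pool.Agent.Lib.MP_104326_lc.FP.Defs
import Pool.Agent.Lib.MP_104326_lc.FP.G1

/-!
# FP, module G2: the parts of a marked polyomino
-/

set_option autoImplicit false

namespace Pool.Agent.Lib.MP_104326_lc.FP

open Pool.Agent.Lib.MP_104326_lc.KR

theorem mem_Om {c : ℕ × ℕ} {O : MO} :
    O ∈ Om c ↔ IsPoly O.1 ∧ O.1.length = c.1 ∧ O.2.Sublist O.1 ∧ O.2.length = c.2 := by
  unfold Om
  rw [Finset.mem_biUnion]
  constructor
  · rintro ⟨Z, hZ, h⟩
    rw [Finset.mem_image] at h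
    obtain ⟨X, hX, rfl⟩ := h
    rw [List.mem_toFinset, List.mem_filter, List.mem_sublists, decide_eq_true_eq] at hX
    obtain ⟨h1, h2⟩ := mem_P.1 hZ
    exact ⟨h1, h2, hX.1, hX.2⟩
  · rintro ⟨h1, h2, h3, h4⟩
    refine ⟨O.1, mem_P.2 ⟨h1, h2⟩, ?_⟩
    rw [Finset.mem_image]
    refine ⟨O.2, ?_, rfl⟩
    rw [List.mem_toFinset, List.mem_filter, List.mem_sublists, decide_eq_true_eq]
    exact ⟨h3, h4⟩

private theorem g2_nodup {Z : List NC} (h : Z.Pairwise ltc) : Z.Nodup := by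
  refine List.Pairwise.imp ?_ h
  intro a b hab hab2
  subst hab2
  unfold ltc at hab
  omega

private theorem g2_mem {p : NC} {L : List NC} : mem p L = true ↔ p ∈ L := by
  unfold mem
  rw [List.any_eq_true]
  constructor
  · rintro ⟨q, hq, h⟩
    rw [decide_eq_true_eq] at h
    exact h ▸ hq
  · intro h
    exact ⟨p, h, by simp⟩

private theorem g2_heavy {c : ℕ × ℕ} {O : MO} (hO : O ∈ Om c) (h2 : 2 ≤ c.1) :
    (heavy O).Sublist O.1 ∧ 2 ≤ (heavy O).length := by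
  obtain ⟨_, h3, h4, _⟩ := mem_Om.1 hO
  unfold heavy
  by_cases h : O.2.length ≤ 5
  · rw [if_pos h]
    exact ⟨List.Sublist.refl _, by omega⟩
  · rw [if_neg h]
    exact ⟨h4, by omega⟩

private theorem g2_adj {A B : List NC} (h : ∃ a ∈ A, ∃ b ∈ B, isAdj a b = true) :
    (firstAdj A B).1 ∈ A ∧ (firstAdj A B).2 ∈ B ∧
      isAdj (firstAdj A B).1 (firstAdj A B).2 = true := by
  obtain ⟨a, ha, b, hb, hab⟩ := h
  have hmem : ∀ x, x ∈ A.flatMap (fun p => (B.filter (fun q => isAdj p q)).map (fun q => (p, q))) ↔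
      x.1 ∈ A ∧ x.2 ∈ B ∧ isAdj x.1 x.2 = true := by
    intro x
    rw [List.mem_flatMap]
    constructor
    · rintro ⟨p, hp, hx⟩
      rw [List.mem_map] at hx
      obtain ⟨q, hq, rfl⟩ := hx
      rw [List.mem_filter] at hq
      exact ⟨hp, hq.1, hq.2⟩
    · rintro ⟨h1, h2, h3⟩
      refine ⟨x.1, h1, ?_⟩
      rw [List.mem_map]
      exact ⟨x.2, List.mem_filter.2 ⟨h2, h3⟩, rfl⟩
  have hne : A.flatMap (fun p => (B.filter (fun q => isAdj p q)).map (fun q => (p, q))) ≠ [] :=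
    List.ne_nil_of_mem ((hmem (a, b)).2 ⟨ha, hb, hab⟩)
  unfold firstAdj
  obtain ⟨x, T, hx⟩ := List.exists_cons_of_ne_nil hne
  have hxm := (hmem x).1 (by rw [hx]; exact List.mem_cons_self)
  rw [hx]
  exact hxm

theorem parts_spec {c : ℕ × ℕ} {O : MO} (hO : O ∈ Om c) (h2 : 2 ≤ c.1) (hx : c.2 ≤ 6) :
    (zA O).Pairwise ltc ∧ (zB O).Pairwise ltc ∧ isConn (zA O) = true ∧ isConn (zB O) = true ∧
    (zA O).Sublist O.1 ∧ (zB O).Sublist O.1 ∧ (∀ p ∈ O.1, p ∈ zA O ∨ p ∈ zB O) ∧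
    (∀ p ∈ zA O, p ∉ zB O) ∧ (zA O).length + (zB O).length = c.1 ∧
    (yy O).1 ∈ zA O ∧ (yy O).2 ∈ zB O ∧ isAdj (yy O).1 (yy O).2 = true := by
  obtain ⟨h3, h4, h5, h6⟩ := mem_Om.1 hO
  obtain ⟨hW, hW2⟩ := g2_heavy hO h2
  obtain ⟨s1, s2, s3, s4, s5, _, _, _⟩ := splitW_spec h3.1 h3.2.1 hW hW2
  change isConn (zA O) = true at s1
  change isConn (zB O) = true at s2
  change (zB O).Sublist O.1 at s3
  change (zA O).Sublist O.1 at s4
  change (zA O).length + (zB O).length = O.1.length at s5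
  have hm : ∀ p, p ∈ zA O ↔ p ∈ O.1 ∧ p ∉ zB O := fun p => mem_diff
  have hadj : ∃ a ∈ zA O, ∃ b ∈ zB O, isAdj a b = true := by
    obtain ⟨b0, hb0⟩ := List.exists_mem_of_ne_nil _ (isConn_iff.1 s2).1
    obtain ⟨y, hy⟩ := List.exists_mem_of_ne_nil _ (isConn_iff.1 s1).1
    obtain ⟨b, hb, z, hz, hbz⟩ := exists_cross hb0
      ((isConn_iff.1 h3.2.1).2 b0 (s3.subset hb0) y (s4.subset hy)) ((hm y).1 hy).2
    exact ⟨z, hz, b, hb, isAdj_symm hbz⟩
  obtain ⟨y1, y2, y3⟩ := g2_adj hadj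
  refine ⟨h3.1.sublist s4, h3.1.sublist s3, s1, s2, s4, s3, ?_, ?_, by omega, y1, y2, y3⟩
  · intro p hp
    by_cases h : p ∈ zB O
    · exact Or.inr h
    · exact Or.inl ((hm p).2 ⟨hp, h⟩)
  · intro p hp
    exact ((hm p).1 hp).2

private theorem g2_cw_le {W L : List NC} (hL : L.Nodup) : cw W L ≤ W.length := by
  unfold cw
  have h1 : (L.filter (fun p => mem p W)).Subperm W := by
    refine List.subperm_of_subset (hL.filter _) ?_
    intro p hp
    exact g2_mem.1 (List.mem_filter.1 hp).2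
  exact h1.length_le

private theorem g2_cw_self {W L : List NC} (h : ∀ p ∈ L, p ∈ W) : cw W L = L.length := by
  unfold cw
  rw [List.filter_eq_self.2]
  intro p hp
  exact g2_mem.2 (h p hp)

private theorem g2_marks (X : List NC) (y : NC) {L : List NC} (hL : L.Nodup) :
    (L.filter (fun p => mem p X || decide (p = y))).length ≤ cw X L + 1 := by
  have h1 : (L.filter (fun p => mem p X || decide (p = y))).Subperm
      (L.filter (fun p => mem p X) ++ [y]) := by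
    refine List.subperm_of_subset (hL.filter _) ?_
    intro p hp
    rw [List.mem_filter, Bool.or_eq_true, decide_eq_true_eq] at hp
    rw [List.mem_append, List.mem_filter, List.mem_singleton]
    rcases hp.2 with h | h
    · exact Or.inl ⟨hp.1, h⟩
    · exact Or.inr h
  have h2 := h1.length_le
  rw [List.length_append, List.length_singleton] at h2
  exact h2

/-- sizes and marks of the parts; `≤ 6` marks always, and the potential drops -/
theorem parts_pot {c : ℕ × ℕ} {O : MO} (hO : O ∈ Om c) (h2 : 2 ≤ c.1) (hx : c.2 ≤ 6) :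
    (partA O).2.length ≤ 6 ∧ (partB O).2.length ≤ 6 ∧
    (c.2 ≤ 5 → (partA O).2.length ≤ c.2 + 1 ∧ (partB O).2.length ≤ c.2 + 1 ∧
      8 * (zA O).length ≤ 7 * c.1 ∧ 8 * (zB O).length ≤ 7 * c.1) ∧
    (c.2 = 6 → (partA O).2.length ≤ 5 ∧ (partB O).2.length ≤ 5) := by
  obtain ⟨h3, h4, h5, h6⟩ := mem_Om.1 hO
  obtain ⟨hW, hW2⟩ := g2_heavy hO h2
  obtain ⟨s1, s2, s3, s4, s5, s6, s7, s8⟩ := splitW_spec h3.1 h3.2.1 hW hW2
  change (zB O).Sublist O.1 at s3
  change (zA O).Sublist O.1 at s4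
  change (zA O).length + (zB O).length = O.1.length at s5
  change cw (heavy O) (zA O) + cw (heavy O) (zB O) = (heavy O).length at s6
  change (heavy O).length ≤ 4 * cw (heavy O) (zA O) + 1 at s7
  change (heavy O).length ≤ 4 * cw (heavy O) (zB O) + 1 at s8
  have hZ : O.1.Nodup := g2_nodup h3.1
  have hA : (zA O).Nodup := s4.nodup hZ
  have hB : (zB O).Nodup := s3.nodup hZ
  have a1 : (partA O).2.length ≤ cw O.2 (zA O) + 1 := g2_marks O.2 _ hA
  have a2 : (partB O).2.length ≤ cw O.2 (zB O) + 1 := g2_marks O.2 _ hB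
  have b1 := g2_cw_le (W := O.2) hA
  have b2 := g2_cw_le (W := O.2) hB
  by_cases h : O.2.length ≤ 5
  · have hw : heavy O = O.1 := if_pos h
    rw [hw] at s6 s7 s8
    rw [g2_cw_self (fun p hp => s4.subset hp)] at s7
    rw [g2_cw_self (fun p hp => s3.subset hp)] at s8
    refine ⟨by omega, by omega, fun _ => ⟨by omega, by omega, by omega, by omega⟩, fun h7 => ?_⟩
    omega
  · have hw : heavy O = O.2 := if_neg h
    rw [hw] at s6 s7 s8
    refine ⟨by omega, by omega, fun h7 => ?_, fun h7 => ⟨by omega, by omega⟩⟩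
    omega

end Pool.Agent.Lib.MP_104326_lc.FP
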