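import Pool.Agent.Lib.MP_104326_lc.FP.Defs
import Pool.Agent.Lib.MP_104326_lc.FP.G2

/-!
# FP, module G3: normalization
-/

set_option autoImplicit false

namespace Pool.Agent.Lib.MP_104326_lc.FP

open Pool.Agent.Lib.MP_104326_lc.KR


/-- translation of one cell -/
private def sg (s p : NC) : NC := (p.1 + s.1, p.2 + s.2)

private theorem sg_inj (s : NC) : Function.Injective (sg s) := by
  intro p q h
  unfold sg at h
  have h1 := (Prod.ext_iff.1 h).1
  have h2 := (Prod.ext_iff.1 h).2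
  simp only at h1 h2
  exact Prod.ext (by omega) (by omega)

private theorem shift_eq (s : NC) (L : List NC) : shift s L = L.map (sg s) := rfl

private theorem isAdj_sg (s p q : NC) : isAdj (sg s p) (sg s q) = isAdj p q := by
  rw [Bool.eq_iff_iff, isAdj_iff, isAdj_iff]
  unfold sg
  omega

/-- walks translate -/
theorem G3.walk_shift {L : List NC} (s : NC) {p q : NC} (h : Walk L p q) :
    Walk (shift s L) (p.1 + s.1, p.2 + s.2) (q.1 + s.1, q.2 + s.2) := by
  unfold Walk at h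
  refine h.lift (sg s) fun a b hab => ⟨?_, ?_⟩
  · rw [shift_eq]
    exact List.mem_map_of_mem hab.1
  · rw [isAdj_sg]
    exact hab.2

/-- walks translate back -/
theorem G3.walk_of_shift {L : List NC} (s : NC) {p : NC} {y : NC} (h : Walk (shift s L) (p.1 + s.1, p.2 + s.2) y) :
    ∃ q, y = (q.1 + s.1, q.2 + s.2) ∧ Walk L p q := by
  unfold Walk at h
  induction h with
  | refl => exact ⟨p, rfl, Walk.refl _ _⟩
  | tail _ hbc ih =>
    obtain ⟨q, hq, hw⟩ := ih
    obtain ⟨hc, hadj⟩ := hbc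
    rw [shift_eq, List.mem_map] at hc
    obtain ⟨z, hz, rfl⟩ := hc
    refine ⟨z, rfl, hw.trans (Walk.step hz ?_)⟩
    rw [hq] at hadj
    have := isAdj_sg s q z
    unfold sg at this hadj
    rw [← this]
    exact hadj

theorem G3.isConn_shift (s : NC) (L : List NC) : isConn (shift s L) = isConn L := by
  rw [Bool.eq_iff_iff, isConn_iff, isConn_iff]
  constructor
  · rintro ⟨h0, h⟩
    refine ⟨fun h1 => h0 (by rw [h1]; rfl), fun p hp q hq => ?_⟩
    have h1 := h (sg s p) (by rw [shift_eq]; exact List.mem_map_of_mem hp) (sg s q)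
      (by rw [shift_eq]; exact List.mem_map_of_mem hq)
    obtain ⟨r, hr, hw⟩ := G3.walk_of_shift s (p := p) h1
    have h2 : q = r := sg_inj s hr
    rw [h2]
    exact hw
  · rintro ⟨h0, h⟩
    refine ⟨fun h1 => h0 (by rw [shift_eq] at h1; exact List.map_eq_nil_iff.1 h1), ?_⟩
    intro p hp q hq
    rw [shift_eq, List.mem_map] at hp hq
    obtain ⟨p', hp', rfl⟩ := hp
    obtain ⟨q', hq', rfl⟩ := hq
    exact G3.walk_shift s (h p' hp' q' hq')

/-- minimum of a list -/
private theorem fold_min (f : NC → ℕ) (a : ℕ) (L : List NC) :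
    L.foldr (fun p b => min (f p) b) a ≤ a ∧ (∀ p ∈ L, L.foldr (fun p b => min (f p) b) a ≤ f p) ∧
      (L.foldr (fun p b => min (f p) b) a = a ∨ ∃ p ∈ L, L.foldr (fun p b => min (f p) b) a = f p) := by
  induction L with
  | nil =>
    refine ⟨le_rfl, fun p hp => absurd hp List.not_mem_nil, Or.inl rfl⟩
  | cons x L ih =>
    obtain ⟨h1, h2, h3⟩ := ih
    rw [List.foldr_cons]
    refine ⟨(min_le_right _ _).trans h1, ?_, ?_⟩
    · intro p hp
      rcases List.mem_cons.1 hp with rfl | hp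
      · exact min_le_left _ _
      · exact (min_le_right _ _).trans (h2 p hp)
    · rcases le_total (f x) (L.foldr (fun p b => min (f p) b) a) with h | h
      · right
        exact ⟨x, List.mem_cons_self, min_eq_left h⟩
      · rw [min_eq_right h]
        rcases h3 with h3 | ⟨p, hp, h3⟩
        · exact Or.inl h3
        · exact Or.inr ⟨p, List.mem_cons_of_mem _ hp, h3⟩

/-- the corner of the bounding box -/
theorem G3.minc_spec {L : List NC} (h : L ≠ []) :
    (∀ p ∈ L, (minc L).1 ≤ p.1 ∧ (minc L).2 ≤ p.2) ∧ (∃ p ∈ L, (minc L).1 = p.1) ∧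
      ∃ p ∈ L, (minc L).2 = p.2 := by
  have hm : L.headD (0, 0) ∈ L := by
    cases L with
    | nil => exact absurd rfl h
    | cons x L => exact List.mem_cons_self
  obtain ⟨a1, a2, a3⟩ := fold_min Prod.fst (L.headD (0, 0)).1 L
  obtain ⟨b1, b2, b3⟩ := fold_min Prod.snd (L.headD (0, 0)).2 L
  refine ⟨fun p hp => ⟨a2 p hp, b2 p hp⟩, ?_, ?_⟩
  · rcases a3 with a3 | a3
    · exact ⟨_, hm, a3⟩
    · exact a3
  · rcases b3 with b3 | b3
    · exact ⟨_, hm, b3⟩
    · exact b3

/-- translation back and forth -/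
theorem G3.shift_unshift {s : NC} {L : List NC} (h : ∀ p ∈ L, s.1 ≤ p.1 ∧ s.2 ≤ p.2) :
    shift s (unshift s L) = L := by
  unfold shift unshift
  rw [List.map_map]
  conv_rhs => rw [← List.map_id L]
  refine List.map_congr_left fun p hp => ?_
  obtain ⟨h1, h2⟩ := h p hp
  simp only [Function.comp, id]
  exact Prod.ext (by simp only; omega) (by simp only; omega)

theorem unshift_shift (s : NC) (L : List NC) : unshift s (shift s L) = L := by
  unfold shift unshift
  rw [List.map_map]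
  conv_rhs => rw [← List.map_id L]
  refine List.map_congr_left fun p _ => ?_
  simp only [Function.comp, id]
  exact Prod.ext (by simp only; omega) (by simp only; omega)

theorem norm_spec {L : List NC} (h : L.Pairwise ltc) (hc : isConn L = true) :
    IsPoly (unshift (minc L) L) ∧ shift (minc L) (unshift (minc L) L) = L ∧ ∃ p ∈ L, (minc L).1 = p.1 := by
  have h0 : L ≠ [] := (isConn_iff.1 hc).1
  obtain ⟨h1, ⟨p, hp, hp1⟩, ⟨q, hq, hq1⟩⟩ := G3.minc_spec h0
  have h2 := G3.shift_unshift h1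
  refine ⟨⟨?_, ?_, ?_⟩, h2, ⟨p, hp, hp1⟩⟩
  · unfold unshift
    rw [List.pairwise_map]
    refine h.imp_of_mem fun {a b} ha hb hab => ?_
    have ha1 := h1 a ha
    have hb1 := h1 b hb
    unfold ltc at hab ⊢
    simp only
    omega
  · rw [← G3.isConn_shift (minc L), h2]
    exact hc
  · unfold isNorm
    rw [Bool.and_eq_true, List.any_eq_true, List.any_eq_true]
    refine ⟨⟨(p.1 - (minc L).1, p.2 - (minc L).2), ?_, ?_⟩, ⟨(q.1 - (minc L).1, q.2 - (minc L).2), ?_, ?_⟩⟩
    · unfold unshift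
      exact List.mem_map.2 ⟨p, hp, rfl⟩
    · rw [decide_eq_true_eq, hp1, Nat.sub_self]
    · unfold unshift
      exact List.mem_map.2 ⟨q, hq, rfl⟩
    · rw [decide_eq_true_eq, hq1, Nat.sub_self]

theorem minc_shift {L : List NC} (hn : isNorm L = true) (s : NC) : minc (shift s L) = s := by
  unfold isNorm at hn
  rw [Bool.and_eq_true, List.any_eq_true, List.any_eq_true] at hn
  obtain ⟨⟨p, hp, hp0⟩, ⟨q, hq, hq0⟩⟩ := hn
  rw [decide_eq_true_eq] at hp0 hq0
  have hne : shift s L ≠ [] := by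
    intro h
    unfold shift at h
    rw [List.map_eq_nil_iff] at h
    rw [h] at hp
    exact List.not_mem_nil hp
  obtain ⟨h1, ⟨a, ha, ha1⟩, ⟨b, hb, hb1⟩⟩ := G3.minc_spec hne
  have hp2 := h1 (p.1 + s.1, p.2 + s.2) (List.mem_map.2 ⟨p, hp, rfl⟩)
  have hq2 := h1 (q.1 + s.1, q.2 + s.2) (List.mem_map.2 ⟨q, hq, rfl⟩)
  obtain ⟨a', _, rfl⟩ := List.mem_map.1 ha
  obtain ⟨b', _, rfl⟩ := List.mem_map.1 hb
  simp only at hp2 hq2 ha1 hb1
  exact Prod.ext (by omega) (by omega)

/-- one part, normalized -/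
private theorem part_aux {A X : List NC} (hA : A.Pairwise ltc) (hc : isConn A = true) (hX : X.Sublist A) :
    normO (A, X) ∈ Om (cl (normO (A, X))) ∧ cl (normO (A, X)) = (A.length, X.length) ∧
    1 ≤ A.length ∧ shift (minc A) (normO (A, X)).1 = A ∧ shift (minc A) (normO (A, X)).2 = X := by
  have h0 : A ≠ [] := (isConn_iff.1 hc).1
  obtain ⟨h1, h2, _⟩ := norm_spec hA hc
  have h3 := (G3.minc_spec h0).1
  have e : normO (A, X) = (unshift (minc A) A, unshift (minc A) X) := rfl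
  have l1 : (unshift (minc A) A).length = A.length := by unfold unshift; rw [List.length_map]
  have l2 : (unshift (minc A) X).length = X.length := by unfold unshift; rw [List.length_map]
  refine ⟨?_, ?_, ?_, ?_, ?_⟩
  · rw [mem_Om, e]
    refine ⟨h1, rfl, ?_, rfl⟩
    unfold unshift
    exact hX.map _
  · rw [e]
    unfold cl
    rw [l1, l2]
  · exact List.length_pos_iff.2 h0
  · rw [e]
    exact h2
  · rw [e]
    exact G3.shift_unshift fun p hp => h3 p (hX.subset hp)

/-- the normalized parts -/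
theorem LfRf_spec {c : ℕ × ℕ} {O : MO} (hO : O ∈ Om c) (h2 : 2 ≤ c.1) (hx : c.2 ≤ 6) :
    Lf O ∈ Om (cl (Lf O)) ∧ Rf O ∈ Om (cl (Rf O)) ∧
    cl (Lf O) = ((zA O).length, (partA O).2.length) ∧ cl (Rf O) = ((zB O).length, (partB O).2.length) ∧
    1 ≤ (zA O).length ∧ 1 ≤ (zB O).length ∧
    shift (minc (zA O)) (Lf O).1 = zA O ∧ shift (minc (zA O)) (Lf O).2 = (partA O).2 ∧
    shift (minc (zB O)) (Rf O).1 = zB O ∧ shift (minc (zB O)) (Rf O).2 = (partB O).2 ∧
    (minc (zA O)).1 < c.1 ∧ (minc (zA O)).2 < c.1 ∧ (minc (zB O)).1 < c.1 ∧ (minc (zB O)).2 < c.1 := by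
  obtain ⟨p1, p2, p3, p4, p5, p6, _⟩ := parts_spec hO h2 hx
  obtain ⟨o1, o2, _⟩ := mem_Om.1 hO
  obtain ⟨a1, a2, a3, a4, a5⟩ := part_aux p1 p3
    (X := (zA O).filter (fun p => mem p O.2 || decide (p = (yy O).1))) List.filter_sublist
  obtain ⟨b1, b2, b3, b4, b5⟩ := part_aux p2 p4
    (X := (zB O).filter (fun p => mem p O.2 || decide (p = (yy O).2))) List.filter_sublist
  have hco := coord_lt (mem_P.2 ⟨o1, o2⟩)
  obtain ⟨_, ⟨x1, hx1, e1⟩, ⟨x2, hx2, e2⟩⟩ := G3.minc_spec (isConn_iff.1 p3).1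
  obtain ⟨_, ⟨y1, hy1, e3⟩, ⟨y2, hy2, e4⟩⟩ := G3.minc_spec (isConn_iff.1 p4).1
  refine ⟨a1, b1, a2, b2, a3, b3, a4, a5, b4, b5, ?_, ?_, ?_, ?_⟩
  · rw [e1]; exact (hco x1 (p5.subset hx1)).1
  · rw [e2]; exact (hco x2 (p5.subset hx2)).2
  · rw [e3]; exact (hco y1 (p6.subset hy1)).1
  · rw [e4]; exact (hco y2 (p6.subset hy2)).2

end Pool.Agent.Lib.MP_104326_lc.FP
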