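import Pool.Agent.Lib.MP_104326_lc.FP.Defs
import Pool.Agent.Lib.MP_104326_lc.FP.G2
import Pool.Agent.Lib.MP_104326_lc.FP.G3

/-!
# FP, module G5: the invariant of the decomposition tree

If `B` is the piece at a node of the tree of `Z`, every cell of `Z` outside `B` is joined, outside
`B`, to a neighbour of a mark of `B`.
-/

set_option autoImplicit false

namespace Pool.Agent.Lib.MP_104326_lc.FP

open Pool.Agent.Lib.PolyTime Pool.Agent.Lib.MP_104326_lc.KR

namespace G5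

theorem mem_shift {s : NC} {L : List NC} {p : NC} :
    p ∈ shift s L ↔ ∃ q ∈ L, (q.1 + s.1, q.2 + s.2) = p := by
  unfold shift; rw [List.mem_map]

theorem shift_zero (L : List NC) : shift (0, 0) L = L := by
  unfold shift; simp

theorem shift_shift (s t : NC) (L : List NC) : shift t (shift s L) = shift (s.1 + t.1, s.2 + t.2) L := by
  unfold shift
  rw [List.map_map]
  refine List.map_congr_left fun q _ => ?_
  simp only [Function.comp, Prod.mk.injEq]
  omega

theorem shift_mem_inj {t : NC} {L : List NC} {q : NC} (h : (q.1 + t.1, q.2 + t.2) ∈ shift t L) : q ∈ L := by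
  obtain ⟨q', hq', e⟩ := mem_shift.1 h
  simp only [Prod.mk.injEq] at e
  have : q' = q := Prod.ext (by omega) (by omega)
  rw [← this]; exact hq'

theorem adj_shift {t p q : NC} (h : isAdj p q = true) :
    isAdj (p.1 + t.1, p.2 + t.2) (q.1 + t.1, q.2 + t.2) = true := by
  rw [isAdj_iff] at h ⊢
  dsimp only
  omega

theorem walk_shift {t : NC} {L : List NC} {p q : NC} (h : Walk L p q) :
    Walk (shift t L) (p.1 + t.1, p.2 + t.2) (q.1 + t.1, q.2 + t.2) := by
  induction h with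
  | refl => exact Walk.refl _ _
  | tail _ h2 ih => exact ih.trans (Walk.step (mem_shift.2 ⟨_, h2.1, rfl⟩) (adj_shift h2.2))

theorem frame_step {Z X A C MA : List NC} {a c0 : NC} {O' N : MO} {t s' : NC}
    (hA : ∀ p ∈ A, p ∈ Z) (hC : ∀ p ∈ C, p ∈ Z) (hZ : ∀ p ∈ Z, p ∈ A ∨ p ∈ C)
    (hd : ∀ p ∈ A, p ∉ C) (hc : isConn C = true) (ha : a ∈ A) (hc0 : c0 ∈ C)
    (hadj : isAdj a c0 = true) (hX : ∀ p ∈ X, p ∈ A → p ∈ MA) (haM : a ∈ MA)
    (h1 : shift t O'.1 = A) (h2 : shift t O'.2 = MA)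
    (i1 : ∀ p ∈ shift s' N.1, p ∈ O'.1) (i2 : Frame O'.1 (shift s' N.1) (shift s' N.2))
    (i3 : ∀ p ∈ O'.2, p ∈ shift s' N.1 → p ∈ shift s' N.2) :
    ∃ s : NC, (∀ p ∈ shift s N.1, p ∈ Z) ∧ Frame Z (shift s N.1) (shift s N.2) ∧
      ∀ p ∈ X, p ∈ shift s N.1 → p ∈ shift s N.2 := by
  refine ⟨(s'.1 + t.1, s'.2 + t.2), ?_⟩
  rw [← shift_shift, ← shift_shift]
  -- the piece is contained in `A`
  have j1 : ∀ p ∈ shift t (shift s' N.1), p ∈ A := by
    intro p hp
    obtain ⟨q, hq, rfl⟩ := mem_shift.1 hp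
    rw [← h1]
    exact mem_shift.2 ⟨q, i1 q hq, rfl⟩
  -- marks of the part in the piece are marks of the piece
  have j3 : ∀ p ∈ MA, p ∈ shift t (shift s' N.1) → p ∈ shift t (shift s' N.2) := by
    intro p hp hpN
    rw [← h2] at hp
    obtain ⟨q, hq, rfl⟩ := mem_shift.1 hp
    exact mem_shift.2 ⟨q, i3 q hq (shift_mem_inj hpN), rfl⟩
  -- the frame inside `A`
  have j2 : ∀ p ∈ A, p ∉ shift t (shift s' N.1) → ∃ y ∈ diff Z (shift t (shift s' N.1)),
      (∃ x ∈ shift t (shift s' N.2), isAdj x y = true) ∧ Walk (diff Z (shift t (shift s' N.1))) y p := by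
    intro p hp hpN
    rw [← h1] at hp
    obtain ⟨q, hq, rfl⟩ := mem_shift.1 hp
    have hqd : q ∈ diff O'.1 (shift s' N.1) :=
      mem_diff.2 ⟨hq, fun h => hpN (mem_shift.2 ⟨q, h, rfl⟩)⟩
    obtain ⟨y, hy, ⟨x, hx, hxy⟩, hw⟩ := i2 q hqd
    have hsub : ∀ z ∈ shift t (diff O'.1 (shift s' N.1)), z ∈ diff Z (shift t (shift s' N.1)) := by
      intro z hz
      obtain ⟨z', hz', rfl⟩ := mem_shift.1 hz
      obtain ⟨k1, k2⟩ := mem_diff.1 hz'
      refine mem_diff.2 ⟨hA _ ?_, fun h => k2 (shift_mem_inj h)⟩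
      rw [← h1]
      exact mem_shift.2 ⟨z', k1, rfl⟩
    refine ⟨(y.1 + t.1, y.2 + t.2), hsub _ (mem_shift.2 ⟨y, hy, rfl⟩),
      ⟨(x.1 + t.1, x.2 + t.2), mem_shift.2 ⟨x, hx, rfl⟩, adj_shift hxy⟩, (walk_shift hw).mono hsub⟩
  have hCd : ∀ z ∈ C, z ∈ diff Z (shift t (shift s' N.1)) := fun z hz =>
    mem_diff.2 ⟨hC z hz, fun h => hd z (j1 z h) hz⟩
  refine ⟨fun p hp => hA p (j1 p hp), ?_, fun p hp hpN => j3 p (hX p hp (j1 p hpN)) hpN⟩
  intro p hp
  obtain ⟨hpZ, hpN⟩ := mem_diff.1 hp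
  rcases hZ p hpZ with hpA | hpC
  · exact j2 p hpA hpN
  · have hwC : Walk (diff Z (shift t (shift s' N.1))) c0 p :=
      ((isConn_iff.1 hc).2 c0 hc0 p hpC).mono hCd
    by_cases haN : a ∈ shift t (shift s' N.1)
    · exact ⟨c0, hCd c0 hc0, ⟨a, j3 a haM haN, hadj⟩, hwC⟩
    · obtain ⟨y, hy, hx, hw⟩ := j2 a ha haN
      exact ⟨y, hy, hx, hw.trans ((Walk.step (hCd c0 hc0) hadj).trans hwC)⟩

end G5

open G5

theorem frame {c : ℕ × ℕ} {O : MO} (hO : O ∈ Om c) (hx : c.2 ≤ 6) (v : List Bool)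
    (hv : okM v O = true) :
    ndM v O ∈ Om (cl (ndM v O)) ∧ (cl (ndM v O)).2 ≤ 6 ∧ (cl (ndM v O)).1 ≤ c.1 ∧
    ∃ s : NC, (∀ p ∈ shift s (ndM v O).1, p ∈ O.1) ∧
      Frame O.1 (shift s (ndM v O).1) (shift s (ndM v O).2) ∧
      ∀ p ∈ O.2, p ∈ shift s (ndM v O).1 → p ∈ shift s (ndM v O).2 := by
  induction v generalizing c O with
  | nil =>
    obtain ⟨m1, m2, m3, m4⟩ := mem_Om.1 hO
    have hcl : cl O = c := by unfold cl; rw [m2, m4]
    simp only [ndM]
    rw [hcl]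
    refine ⟨hO, hx, le_rfl, (0, 0), ?_⟩
    rw [G5.shift_zero, G5.shift_zero]
    refine ⟨fun p hp => hp, ?_, fun p hp _ => hp⟩
    intro p hp
    rw [diff_self] at hp
    exact absurd hp List.not_mem_nil
  | cons b v ih =>
    obtain ⟨m1, m2, m3, m4⟩ := mem_Om.1 hO
    simp only [okM, Bool.and_eq_true, decide_eq_true_eq] at hv
    obtain ⟨hv1, hv2⟩ := hv
    have h2 : 2 ≤ c.1 := by rw [← m2]; exact hv1
    obtain ⟨p1, p2, p3, p4, p5, p6, p7, p8, p9, p10, p11, p12⟩ := parts_spec hO h2 hx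
    obtain ⟨q1, q2, -, -⟩ := parts_pot hO h2 hx
    obtain ⟨r1, r2, r3, r4, r5, r6, r7, r8, r9, r10, -, -, -, -⟩ := LfRf_spec hO h2 hx
    simp only [ndM]
    cases b
    · simp only [Bool.false_eq_true, if_false] at hv2 ⊢
      obtain ⟨i1, i2, i3, s', i4, i5, i6⟩ := ih (c := cl (Rf O)) r2 (by rw [r4]; exact q2) hv2
      refine ⟨i1, i2, i3.trans (by rw [r4]; show (zB O).length ≤ c.1; omega), ?_⟩
      refine frame_step (A := zB O) (C := zA O) (MA := (partB O).2) (a := (yy O).2) (c0 := (yy O).1)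
        (O' := Rf O) (t := minc (zB O)) (s' := s') (fun p hp => p6.subset hp) (fun p hp => p5.subset hp)
        (fun p hp => (p7 p hp).symm) (fun p hp hp' => p8 p hp' hp) p3 p11 p10 (isAdj_symm p12)
        ?_ ?_ r9 r10 i4 i5 i6
      · intro p hp hpB
        unfold partB
        rw [List.mem_filter]
        refine ⟨hpB, ?_⟩
        rw [Bool.or_eq_true]
        left
        unfold mem
        rw [List.any_eq_true]
        exact ⟨p, hp, by simp⟩
      · unfold partB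
        rw [List.mem_filter]
        exact ⟨p11, by simp⟩
    · simp only [if_true] at hv2 ⊢
      obtain ⟨i1, i2, i3, s', i4, i5, i6⟩ := ih (c := cl (Lf O)) r1 (by rw [r3]; exact q1) hv2
      refine ⟨i1, i2, i3.trans (by rw [r3]; show (zA O).length ≤ c.1; omega), ?_⟩
      refine frame_step (A := zA O) (C := zB O) (MA := (partA O).2) (a := (yy O).1) (c0 := (yy O).2)
        (O' := Lf O) (t := minc (zA O)) (s' := s') (fun p hp => p5.subset hp) (fun p hp => p6.subset hp)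
        (fun p hp => p7 p hp) (fun p hp => p8 p hp) p4 p10 p11 p12
        ?_ ?_ r7 r8 i4 i5 i6
      · intro p hp hpA
        unfold partA
        rw [List.mem_filter]
        refine ⟨hpA, ?_⟩
        rw [Bool.or_eq_true]
        left
        unfold mem
        rw [List.any_eq_true]
        exact ⟨p, hp, by simp⟩
      · unfold partA
        rw [List.mem_filter]
        exact ⟨p10, by simp⟩

end Pool.Agent.Lib.MP_104326_lc.FP
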