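import Pool.Agent.Lib.MP_104326_lc.FP.Defs
import Pool.Agent.Lib.MP_104326_lc.KC.A3

/-!
# FP / G6: the number of lists with few components

A sorted list of `m` cells of the square of side `R` in which every cell is joined to one of `q`
cells is determined by a component (position and shape) and the rest.
-/

set_option autoImplicit false

namespace Pool.Agent.Lib.MP_104326_lc.FP

open Pool.Agent.Lib.PolyTime Pool.Agent.Lib.MP_104326_lc.KR

namespace G6

/-- translation of one cell -/
private def sg (s p : NC) : NC := (p.1 + s.1, p.2 + s.2)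

private theorem sg_inj (s : NC) : Function.Injective (sg s) := by
  intro p q h
  unfold sg at h
  have h1 := (Prod.ext_iff.1 h).1
  have h2 := (Prod.ext_iff.1 h).2
  simp only at h1 h2
  exact Prod.ext (by omega) (by omega)

private theorem shift_eq (s : NC) (L : List NC) : shift s L = L.map (sg s) := rfl

private theorem shift_inj (s : NC) : Function.Injective (shift s) := fun _ _ h =>
  List.map_injective_iff.2 (sg_inj s) h

private theorem isAdj_sg (s p q : NC) : isAdj (sg s p) (sg s q) = isAdj p q := by
  unfold isAdj sg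
  have e1 : decide (p.1 + s.1 = q.1 + s.1) = decide (p.1 = q.1) := decide_eq_decide.2 (by omega)
  have e2 : decide (p.2 + s.2 = q.2 + s.2 + 1) = decide (p.2 = q.2 + 1) := decide_eq_decide.2 (by omega)
  have e3 : decide (q.2 + s.2 = p.2 + s.2 + 1) = decide (q.2 = p.2 + 1) := decide_eq_decide.2 (by omega)
  have e4 : decide (p.2 + s.2 = q.2 + s.2) = decide (p.2 = q.2) := decide_eq_decide.2 (by omega)
  have e5 : decide (p.1 + s.1 = q.1 + s.1 + 1) = decide (p.1 = q.1 + 1) := decide_eq_decide.2 (by omega)
  have e6 : decide (q.1 + s.1 = p.1 + s.1 + 1) = decide (q.1 = p.1 + 1) := decide_eq_decide.2 (by omega)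
  simp only
  rw [e1, e2, e3, e4, e5, e6]

private theorem grow_shift (s : NC) (L X : List NC) : grow (shift s L) (shift s X) = shift s (grow L X) := by
  unfold grow
  rw [shift_eq, shift_eq, shift_eq, List.filter_map]
  congr 1
  refine List.filter_congr fun p _ => ?_
  simp only [Function.comp, List.any_map]
  congr 1
  funext q
  simp only [Function.comp]
  rw [isAdj_sg, decide_eq_decide.2 (sg_inj s).eq_iff]

private theorem comp_shift (s : NC) (L : List NC) (c : NC) : comp (shift s L) (sg s c) = shift s (comp L c) := by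
  unfold comp
  have h0 : (shift s L).filter (fun p => decide (p = sg s c)) = shift s (L.filter (fun p => decide (p = c))) := by
    rw [shift_eq, shift_eq, List.filter_map]
    congr 1
    refine List.filter_congr fun p _ => ?_
    simp only [Function.comp]
    exact decide_eq_decide.2 (sg_inj s).eq_iff
  rw [h0]
  have hl : (shift s L).length = L.length := by rw [shift_eq, List.length_map]
  rw [hl]
  have key : ∀ k : ℕ, ∀ X : List NC, (grow (shift s L))^[k] (shift s X) = shift s ((grow L)^[k] X) := by
    intro k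
    induction k with
    | zero => intro X; rfl
    | succ k ih =>
      intro X
      rw [Function.iterate_succ_apply, Function.iterate_succ_apply, grow_shift, ih]
  exact key _ _

private theorem isConn_shift (s : NC) (L : List NC) : isConn (shift s L) = isConn L := by
  unfold isConn
  have h1 : (shift s L).isEmpty = L.isEmpty := by rw [shift_eq]; cases L <;> rfl
  have h2 : (shift s L).all (fun c => decide (comp (shift s L) c = shift s L)) =
      L.all (fun c => decide (comp L c = L)) := by
    conv_lhs => rw [shift_eq s L]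
    rw [List.all_map]
    congr 1
    funext c
    simp only [Function.comp]
    rw [← shift_eq, comp_shift]
    exact decide_eq_decide.2 (shift_inj s).eq_iff
  rw [h1, h2]

private theorem ltc_sg (s p q : NC) : ltc (sg s p) (sg s q) ↔ ltc p q := by
  unfold ltc sg
  simp only
  omega

private theorem pairwise_shift (s : NC) (L : List NC) : (shift s L).Pairwise ltc ↔ L.Pairwise ltc := by
  rw [shift_eq, List.pairwise_map]
  simp only [ltc_sg]

private theorem isNorm_iff (L : List NC) : isNorm L = true ↔ (∃ p ∈ L, p.1 = 0) ∧ ∃ p ∈ L, p.2 = 0 := by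
  unfold isNorm
  simp

private theorem ltc_irrefl (p : NC) : ¬ ltc p p := by
  unfold ltc
  omega

private theorem ltc_asymm {p q : NC} (h : ltc p q) : ¬ ltc q p := by
  unfold ltc at *
  omega

private theorem ltc_trans {p q r : NC} (h : ltc p q) (h' : ltc q r) : ltc p r := by
  unfold ltc at *
  omega

/-- two sorted lists with the same members are equal -/
private theorem ext_of_pairwise : ∀ {L M : List NC}, L.Pairwise ltc → M.Pairwise ltc → (∀ p, p ∈ L ↔ p ∈ M) → L = M
  | [], [], _, _, _ => rfl
  | [], b :: M, _, _, h => absurd ((h b).2 List.mem_cons_self) List.not_mem_nil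
  | a :: L, [], _, _, h => absurd ((h a).1 List.mem_cons_self) List.not_mem_nil
  | a :: L, b :: M, hL, hM, h => by
    rw [List.pairwise_cons] at hL hM
    have hab : a = b := by
      by_contra hne
      have h1 : a ∈ M := by
        rcases List.mem_cons.1 ((h a).1 List.mem_cons_self) with h1 | h1
        · exact absurd h1 hne
        · exact h1
      have h2 : b ∈ L := by
        rcases List.mem_cons.1 ((h b).2 List.mem_cons_self) with h2 | h2
        · exact absurd h2.symm hne
        · exact h2
      exact ltc_asymm (hL.1 b h2) (hM.1 a h1)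
    subst hab
    have : L = M := ext_of_pairwise hL.2 hM.2 fun p => by
      constructor
      · intro hp
        rcases List.mem_cons.1 ((h p).1 (List.mem_cons_of_mem _ hp)) with h1 | h1
        · subst h1
          exact absurd (hL.1 p hp) (ltc_irrefl p)
        · exact h1
      · intro hp
        rcases List.mem_cons.1 ((h p).2 (List.mem_cons_of_mem _ hp)) with h1 | h1
        · subst h1
          exact absurd (hM.1 p hp) (ltc_irrefl p)
        · exact h1
    rw [this]

/-- normal form of a nonempty list -/
private theorem exists_shift {L : List NC} (hL : L ≠ []) : ∃ (s : NC) (A : List NC), shift s A = L ∧ isNorm A = true ∧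
    (∃ p ∈ L, p.1 = s.1) ∧ ∃ p ∈ L, p.2 = s.2 := by
  obtain ⟨x, hx⟩ := List.exists_mem_of_ne_nil L hL
  obtain ⟨p, hp, hpm⟩ := L.toFinset.exists_min_image Prod.fst ⟨x, List.mem_toFinset.2 hx⟩
  obtain ⟨q, hq, hqm⟩ := L.toFinset.exists_min_image Prod.snd ⟨x, List.mem_toFinset.2 hx⟩
  rw [List.mem_toFinset] at hp hq
  refine ⟨(p.1, q.2), L.map (fun z => (z.1 - p.1, z.2 - q.2)), ?_, ?_, ⟨p, hp, rfl⟩, ⟨q, hq, rfl⟩⟩
  · rw [shift_eq, List.map_map]
    conv_rhs => rw [← List.map_id L]
    refine List.map_congr_left fun z hz => ?_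
    have h1 := hpm z (List.mem_toFinset.2 hz)
    have h2 := hqm z (List.mem_toFinset.2 hz)
    simp only [Function.comp, sg, id]
    exact Prod.ext (by simp only; omega) (by simp only; omega)
  · rw [isNorm_iff]
    exact ⟨⟨_, List.mem_map.2 ⟨p, hp, rfl⟩, by simp⟩, ⟨_, List.mem_map.2 ⟨q, hq, rfl⟩, by simp⟩⟩


private theorem a1_nodup' {L : List NC} (h : L.Pairwise ltc) : L.Nodup := by
  refine List.Pairwise.imp ?_ h
  rintro a b hab rfl
  exact ltc_irrefl a hab


/-- the rest, when a component is removed -/
private theorem rest {L N : List NC} {q : ℕ} (hN : N.length ≤ q + 1) (hL : L ≠ [])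
    (h : ∀ p ∈ L, ∃ y ∈ N, y ∈ L ∧ Walk L y p) :
    ∃ y ∈ L, ∃ N' : List NC, N'.length ≤ q ∧ ∀ p ∈ diff L (comp L y),
      ∃ z ∈ N', z ∈ diff L (comp L y) ∧ Walk (diff L (comp L y)) z p := by
  obtain ⟨x, hx⟩ := List.exists_mem_of_ne_nil L hL
  obtain ⟨y, hyN, hyL, -⟩ := h x hx
  refine ⟨y, hyL, N.erase y, ?_, ?_⟩
  · rw [List.length_erase_of_mem hyN]
    omega
  · intro p hp
    obtain ⟨hpL, hpc⟩ := KR.mem_diff.1 hp
    obtain ⟨z, hzN, hzL, hw⟩ := h p hpL
    have hzc : z ∉ comp L y := by
      intro hz
      exact hpc ((mem_comp hyL).2 ⟨hpL, ((mem_comp hyL).1 hz).2.trans hw⟩)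
    have hzy : z ≠ y := by
      rintro rfl
      exact hzc ((mem_comp hyL).2 ⟨hyL, Walk.refl _ _⟩)
    have hzd : z ∈ diff L (comp L y) := KR.mem_diff.2 ⟨hzL, hzc⟩
    refine ⟨z, (List.mem_erase_of_ne hzy).2 hzN, hzd, ?_⟩
    have key : ∀ r, Walk L z r → Walk (diff L (comp L y)) z r := by
      intro r hr
      induction hr with
      | refl => exact Walk.refl _ _
      | tail h1 h2 ih =>
        rename_i b c
        refine ih.trans (Walk.step (KR.mem_diff.2 ⟨h2.1, ?_⟩) h2.2)
        intro hc
        have hzc' : Walk L z c := h1.tail h2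
        exact hzc ((mem_comp hyL).2 ⟨hzL, ((mem_comp hyL).1 hc).2.trans (Walk.symm hzL hzc')⟩)
    exact key p hw

/-- the shape of a component -/
private theorem shape {L : List NC} {R : ℕ} (hs : L.Pairwise ltc) (hR : ∀ p ∈ L, p.1 < R ∧ p.2 < R) {y : NC}
    (hy : y ∈ L) : ∃ (s : NC) (A : List NC), shift s A = comp L y ∧ A ∈ P (comp L y).length ∧ s.1 < R ∧ s.2 < R := by
  have hyc : y ∈ comp L y := (mem_comp hy).2 ⟨hy, Walk.refl _ _⟩
  have hne : comp L y ≠ [] := List.ne_nil_of_mem hyc
  obtain ⟨s, A, h1, h2, ⟨p, hp, hp1⟩, ⟨r, hr, hr1⟩⟩ := exists_shift hne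
  have hpL : p ∈ L := ((mem_comp hy).1 hp).1
  have hrL : r ∈ L := ((mem_comp hy).1 hr).1
  refine ⟨s, A, h1, mem_P.2 ⟨⟨?_, ?_, h2⟩, ?_⟩, ?_, ?_⟩
  · rw [← pairwise_shift s, h1]
    exact hs.sublist (fil_comp L y).sub
  · rw [← isConn_shift s, h1]
    exact isConn_iff.2 ⟨hne, comp_conn hy⟩
  · rw [← h1]
    unfold shift
    rw [List.length_map]
  · rw [← hp1]
    exact (hR p hpL).1
  · rw [← hr1]
    exact (hR r hrL).2

private theorem tt_mul {a b m : ℕ} (ha : 1 ≤ a) (h : a + b = m) : t a * tt b ≤ tt m := by
  unfold tt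
  rcases Nat.eq_zero_or_pos b with hb | hb
  · subst hb
    rw [if_pos rfl, if_neg (by omega), mul_one]
    have : a = m := by omega
    rw [this]
  · rw [if_neg (by omega), if_neg (by omega), ← h]
    exact t_mul_le ha hb

end G6

open G6

theorem count_joined {R q m : ℕ} (hm : m < R) (T : Finset (List NC))
    (hT : ∀ L ∈ T, L.Pairwise ltc ∧ L.length = m ∧ (∀ p ∈ L, p.1 < R ∧ p.2 < R) ∧
      ∃ N : List NC, N.length ≤ q ∧ ∀ p ∈ L, ∃ y ∈ N, y ∈ L ∧ Walk L y p) :
    T.card ≤ (R ^ 3) ^ q * tt m := by
  classical
  induction q generalizing m T with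
  | zero =>
    have hsub : T ⊆ {[]} := by
      intro L hL
      obtain ⟨-, -, -, N, hN, h⟩ := hT L hL
      have hN0 : N = [] := List.length_eq_zero_iff.1 (Nat.le_zero.1 hN)
      rw [Finset.mem_singleton, List.eq_nil_iff_forall_not_mem]
      intro p hp
      obtain ⟨y, hy, -⟩ := h p hp
      rw [hN0] at hy
      exact List.not_mem_nil hy
    have h1 : T.card ≤ 1 := (Finset.card_le_card hsub).trans (by simp)
    rcases Nat.eq_zero_or_pos m with h0 | h0
    · subst h0
      unfold tt
      simpa using h1
    · have hemp : T = ∅ := by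
        rw [Finset.eq_empty_iff_forall_notMem]
        intro L hL
        have h2 := Finset.mem_singleton.1 (hsub hL)
        have h3 := (hT L hL).2.1
        rw [h2, List.length_nil] at h3
        omega
      rw [hemp]
      simp
  | succ q ih =>
    rcases Nat.eq_zero_or_pos m with h0 | h0
    · subst h0
      have hsub : T ⊆ {[]} := by
        intro L hL
        exact Finset.mem_singleton.2 (List.length_eq_zero_iff.1 (hT L hL).2.1)
      refine (Finset.card_le_card hsub).trans ?_
      unfold tt
      rw [Finset.card_singleton, if_pos rfl, mul_one]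
      exact Nat.one_le_pow _ _ (Nat.pow_pos hm)
    have hch : ∀ L ∈ T, ∃ y : NC, y ∈ L ∧ (∃ N' : List NC, N'.length ≤ q ∧ ∀ p ∈ diff L (comp L y),
        ∃ z ∈ N', z ∈ diff L (comp L y) ∧ Walk (diff L (comp L y)) z p) := by
      intro L hL
      obtain ⟨-, hl, -, N, hN, h⟩ := hT L hL
      have hne : L ≠ [] := by
        rintro rfl
        rw [List.length_nil] at hl
        omega
      obtain ⟨y, hy, N', hN', h'⟩ := rest hN hne h
      exact ⟨y, hy, N', hN', h'⟩
    choose! y hy hrest using hch
    have hsh : ∀ L ∈ T, ∃ s : NC, ∃ A : List NC, shift s A = comp L (y L) ∧ A ∈ P (comp L (y L)).length ∧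
        s.1 < R ∧ s.2 < R := fun L hL => shape (hT L hL).1 (hT L hL).2.2.1 (hy L hL)
    choose! s A hs hA hs1 hs2 using hsh
    have hlen : ∀ L ∈ T, 1 ≤ (comp L (y L)).length ∧ (comp L (y L)).length ≤ m := by
      intro L hL
      have hyc : y L ∈ comp L (y L) := (mem_comp (hy L hL)).2 ⟨hy L hL, Walk.refl _ _⟩
      refine ⟨List.length_pos_of_mem hyc, ?_⟩
      rw [← (hT L hL).2.1]
      exact (fil_comp L (y L)).sub.length_le
    have hlend : ∀ L ∈ T, (diff L (comp L (y L))).length = m - (comp L (y L)).length := by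
      intro L hL
      have h1 := diff_length (a1_nodup' (hT L hL).1) (fil_comp L (y L)).sub
      rw [(hT L hL).2.1] at h1
      omega
    have hfib : ∀ a ∈ Finset.Icc 1 m, (T.filter (fun L => (comp L (y L)).length = a)).card ≤
        R ^ 2 * (R ^ 3) ^ q * tt m := by
      intro a ha
      rw [Finset.mem_Icc] at ha
      have hB : ((T.filter (fun L => (comp L (y L)).length = a)).image (fun L => diff L (comp L (y L)))).card ≤
          (R ^ 3) ^ q * tt (m - a) := by
        refine ih (m := m - a) (by omega) _ ?_
        intro B hB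
        obtain ⟨L, hL, rfl⟩ := Finset.mem_image.1 hB
        obtain ⟨hL, hLa⟩ := Finset.mem_filter.1 hL
        refine ⟨(hT L hL).1.sublist (diff_sub _ _), ?_, ?_, hrest L hL⟩
        · rw [hlend L hL, hLa]
        · intro p hp
          exact (hT L hL).2.2.1 p (KR.mem_diff.1 hp).1
      have hinj : (T.filter (fun L => (comp L (y L)).length = a)).card ≤
          ((Finset.range R ×ˢ Finset.range R) ×ˢ (P a ×ˢ
            ((T.filter (fun L => (comp L (y L)).length = a)).image (fun L => diff L (comp L (y L)))))).card := by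
        refine Finset.card_le_card_of_injOn (fun L => (s L, (A L, diff L (comp L (y L))))) ?_ ?_
        · intro L hL
          have hL' := hL
          obtain ⟨hL, hLa⟩ := Finset.mem_filter.1 (Finset.mem_coe.1 hL)
          rw [Finset.mem_coe, Finset.mem_product, Finset.mem_product, Finset.mem_product]
          refine ⟨⟨Finset.mem_range.2 (hs1 L hL), Finset.mem_range.2 (hs2 L hL)⟩, ?_, ?_⟩
          · have := hA L hL
            rw [hLa] at this
            exact this
          · exact Finset.mem_image.2 ⟨L, Finset.mem_coe.1 hL', rfl⟩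
        · intro L hL L' hL' he
          obtain ⟨hL, -⟩ := Finset.mem_filter.1 (Finset.mem_coe.1 hL)
          obtain ⟨hL', -⟩ := Finset.mem_filter.1 (Finset.mem_coe.1 hL')
          simp only [Prod.mk.injEq] at he
          obtain ⟨e1, e2, e3⟩ := he
          have e4 : comp L (y L) = comp L' (y L') := by
            rw [← hs L hL, ← hs L' hL', e1, e2]
          refine ext_of_pairwise (hT L hL).1 (hT L' hL').1 fun p => ?_
          have hsp : ∀ M : List NC, ∀ X : List NC, X.Sublist M → (p ∈ M ↔ p ∈ X ∨ p ∈ diff M X) := by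
            intro M X hX
            rw [KR.mem_diff]
            constructor
            · intro h
              by_cases hp : p ∈ X
              · exact Or.inl hp
              · exact Or.inr ⟨h, hp⟩
            · rintro (h | h)
              · exact hX.subset h
              · exact h.1
          rw [hsp L _ (fil_comp L (y L)).sub, hsp L' _ (fil_comp L' (y L')).sub, e3, e4]
      refine hinj.trans ?_
      rw [Finset.card_product, Finset.card_product, Finset.card_product, Finset.card_range, card_P ha.1]
      calc R * R * (t a * _) ≤ R * R * (t a * ((R ^ 3) ^ q * tt (m - a))) := by gcongr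
        _ = R ^ 2 * (R ^ 3) ^ q * (t a * tt (m - a)) := by ring
        _ ≤ R ^ 2 * (R ^ 3) ^ q * tt m := by
          gcongr
          exact tt_mul ha.1 (by omega)
    have hsum : T.card = ∑ a ∈ Finset.Icc 1 m, (T.filter (fun L => (comp L (y L)).length = a)).card :=
      Finset.card_eq_sum_card_fiberwise (f := fun L => (comp L (y L)).length) (t := Finset.Icc 1 m)
        (fun L hL => Finset.mem_coe.2 (Finset.mem_Icc.2 (hlen L (Finset.mem_coe.1 hL))))
    rw [hsum]
    calc ∑ a ∈ Finset.Icc 1 m, (T.filter (fun L => (comp L (y L)).length = a)).card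
        ≤ ∑ _a ∈ Finset.Icc 1 m, R ^ 2 * (R ^ 3) ^ q * tt m := Finset.sum_le_sum hfib
      _ = m * (R ^ 2 * (R ^ 3) ^ q * tt m) := by
        rw [Finset.sum_const, smul_eq_mul, Nat.card_Icc]
        simp
      _ ≤ R * (R ^ 2 * (R ^ 3) ^ q * tt m) := Nat.mul_le_mul_right _ hm.le
      _ = (R ^ 3) ^ (q + 1) * tt m := by ring

end Pool.Agent.Lib.MP_104326_lc.FP
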