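import Pool.Agent.Lib.MP_104326_lc.FP.Defs
import Pool.Agent.Lib.MP_104326_lc.FP.G2
import Pool.Agent.Lib.MP_104326_lc.FP.G3
import Pool.Agent.Lib.MP_104326_lc.FP.G5
import Pool.Agent.Lib.MP_104326_lc.FP.G6
import Pool.Agent.Lib.MP_104326_lc.KC.A3

/-!
# FP, module G7: the star

The number of marked polyominoes with a given piece at a given node.
-/

set_option autoImplicit false

namespace Pool.Agent.Lib.MP_104326_lc.FP

open Pool.Agent.Lib.MP_104326_lc.KR

private theorem g7_asymm {p q : NC} (h : ltc p q) (h' : ltc q p) : False := by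
  unfold ltc at h h'
  omega

private theorem g7_nodup {L : List NC} (h : L.Pairwise ltc) : L.Nodup :=
  h.imp (fun {a b} hab => by
    intro he
    rw [he] at hab
    exact g7_asymm hab hab)

private theorem g7_eq {L L' : List NC} (h : L.Pairwise ltc) (h' : L'.Pairwise ltc)
    (he : ∀ p, p ∈ L ↔ p ∈ L') : L = L' :=
  List.Perm.eq_of_pairwise (fun _ _ _ _ h1 h2 => (g7_asymm h1 h2).elim) h h'
    ((List.perm_ext_iff_of_nodup (g7_nodup h) (g7_nodup h')).2 he)

private theorem g7_sub {Z : List NC} (hZ : Z.Nodup) (x : ℕ) :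
    ((Z.sublists.filter (fun X => decide (X.length = x))).toFinset).card = Nat.choose Z.length x := by
  have h : (Z.sublists.filter (fun X => decide (X.length = x))).toFinset =
      (Z.sublistsLen x).toFinset := by
    ext X
    simp only [List.mem_toFinset, List.mem_filter, List.mem_sublists, decide_eq_true_eq,
      List.mem_sublistsLen]
  rw [h, List.toFinset_card_of_nodup (List.nodup_sublistsLen x hZ), List.length_sublistsLen]

theorem card_Om {c : ℕ × ℕ} (hc : 1 ≤ c.1) : (Om c).card = t c.1 * Nat.choose c.1 c.2 := by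
  classical
  unfold Om
  rw [Finset.card_biUnion]
  · rw [← card_P hc, Finset.card_eq_sum_ones, Finset.sum_mul]
    refine Finset.sum_congr rfl fun Z hZ => ?_
    rw [Finset.card_image_of_injective _ (fun X Y h => (Prod.mk.inj h).2), one_mul]
    obtain ⟨h1, h2⟩ := mem_P.1 hZ
    rw [g7_sub (g7_nodup h1.1), h2]
  · intro Z _ Z' _ hne
    refine Finset.disjoint_left.2 ?_
    intro O hO hO'
    obtain ⟨X, _, rfl⟩ := Finset.mem_image.1 hO
    obtain ⟨X', _, h⟩ := Finset.mem_image.1 hO'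
    exact hne (Prod.mk.inj h).1.symm

private theorem g7_choose {R a x : ℕ} (ha : a ≤ R) (hR : 1 ≤ R) (hx : x ≤ 6) :
    Nat.choose a x ≤ R ^ 6 :=
  (Nat.choose_le_pow a x).trans ((Nat.pow_le_pow_left ha x).trans (Nat.pow_le_pow_right hR hx))

private theorem g7_cls {R : ℕ} {c : ℕ × ℕ} (hc : c ∈ Cls R) : 1 ≤ c.1 ∧ c.1 < R ∧ c.2 ≤ 6 := by
  unfold Cls at hc
  rw [Finset.mem_product, Finset.mem_Ico, Finset.mem_range] at hc
  omega

theorem supM {R : ℕ} (hR : 8 ≤ R) {c : ℕ × ℕ} (hc : c ∈ Cls R) (h2 : 2 ≤ c.1) {Y : MO}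
    (hY : Y ∈ Om c) : (Om (cl (Lf Y))).card * (Om (cl (Rf Y))).card ≤ R ^ 12 * (Om c).card := by
  obtain ⟨c1, c2, c3⟩ := g7_cls hc
  obtain ⟨-, -, eL, eR, lA, lB, -⟩ := LfRf_spec hY h2 c3
  obtain ⟨-, -, -, -, -, -, -, -, hs, -⟩ := parts_spec hY h2 c3
  obtain ⟨pA, pB, -⟩ := parts_pot hY h2 c3
  obtain ⟨-, y2, y3, y4⟩ := mem_Om.1 hY
  rw [eL, eR, card_Om (c := ((zA Y).length, (partA Y).2.length)) lA,
    card_Om (c := ((zB Y).length, (partB Y).2.length)) lB, card_Om c1]
  simp only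
  have t1 := t_mul_le lA lB
  rw [hs] at t1
  have k1 := g7_choose (R := R) (a := (zA Y).length) (x := (partA Y).2.length) (by omega) (by omega) pA
  have k2 := g7_choose (R := R) (a := (zB Y).length) (x := (partB Y).2.length) (by omega) (by omega) pB
  have k3 : 1 ≤ Nat.choose c.1 c.2 := Nat.choose_pos (by have := y3.length_le; omega)
  calc t (zA Y).length * Nat.choose (zA Y).length (partA Y).2.length *
        (t (zB Y).length * Nat.choose (zB Y).length (partB Y).2.length)
      = (t (zA Y).length * t (zB Y).length) * (Nat.choose (zA Y).length (partA Y).2.length *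
        Nat.choose (zB Y).length (partB Y).2.length) := by ring
    _ ≤ t c.1 * (R ^ 6 * R ^ 6) := Nat.mul_le_mul t1 (Nat.mul_le_mul k1 k2)
    _ = R ^ 12 * (t c.1 * 1) := by ring
    _ ≤ R ^ 12 * (t c.1 * Nat.choose c.1 c.2) :=
      Nat.mul_le_mul_left _ (Nat.mul_le_mul_left _ k3)

private theorem g7_shift_len (s : NC) (L : List NC) : (shift s L).length = L.length := by
  unfold shift; rw [List.length_map]

private theorem g7_shift_pw (s : NC) {L : List NC} (h : L.Pairwise ltc) :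
    (shift s L).Pairwise ltc := by
  unfold shift
  rw [List.pairwise_map]
  refine h.imp fun {a b} hab => ?_
  unfold ltc at hab ⊢
  omega

/-- the cells `Y.1`, where `Y` runs over the marked polyominoes with translation `s` -/
private theorem g7_cells {R : ℕ} {c c' : ℕ × ℕ} (hc : c ∈ Cls R) (hc' : c' ∈ Cls R)
    {B : MO} (hB : B ∈ Om c') (s : NC) (T : Finset (List NC))
    (hT : ∀ Z ∈ T, Z ∈ P c.1 ∧ (∀ p ∈ shift s B.1, p ∈ Z) ∧ Frame Z (shift s B.1) (shift s B.2)) :
    T.card * t c'.1 ≤ (R ^ 3) ^ 24 * t c.1 := by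
  classical
  obtain ⟨c1, c2, c3⟩ := g7_cls hc
  obtain ⟨d1, d2, d3⟩ := g7_cls hc'
  obtain ⟨b1, b2, b3, b4⟩ := mem_Om.1 hB
  rcases T.eq_empty_or_nonempty with rfl | ⟨Z0, hZ0⟩
  · simp
  have hsubl : ∀ Z ∈ T, (shift s B.1).Sublist Z := by
    intro Z hZ
    obtain ⟨h1, h2, -⟩ := hT Z hZ
    have hp := (mem_P.1 h1).1.1
    have : shift s B.1 = Z.filter (fun p => decide (p ∈ shift s B.1)) := by
      refine g7_eq (g7_shift_pw s b1.1) (hp.filter _) fun p => ?_
      rw [List.mem_filter, decide_eq_true_eq]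
      exact ⟨fun h => ⟨h2 p h, h⟩, fun h => h.2⟩
    rw [this]
    exact List.filter_sublist
  have hlen : ∀ Z ∈ T, (diff Z (shift s B.1)).length = c.1 - c'.1 := by
    intro Z hZ
    obtain ⟨h1, h2, -⟩ := hT Z hZ
    have h3 := diff_length (g7_nodup (mem_P.1 h1).1.1) (hsubl Z hZ)
    rw [g7_shift_len, b2, (mem_P.1 h1).2] at h3
    omega
  have hle : c'.1 ≤ c.1 := by
    have h3 := (hsubl Z0 hZ0).length_le
    rw [g7_shift_len, b2, (mem_P.1 (hT Z0 hZ0).1).2] at h3
    exact h3
  -- the map `Z ↦ Z \ (B + s)` is injective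
  have hinj : Set.InjOn (fun Z => diff Z (shift s B.1)) (T : Set (List NC)) := by
    intro Z hZ Z' hZ' he
    simp only at he
    refine g7_eq (mem_P.1 (hT Z hZ).1).1.1 (mem_P.1 (hT Z' hZ').1).1.1 fun p => ?_
    by_cases hp : p ∈ shift s B.1
    · exact ⟨fun _ => (hT Z' hZ').2.1 p hp, fun _ => (hT Z hZ).2.1 p hp⟩
    · have e1 : p ∈ diff Z (shift s B.1) ↔ p ∈ Z := by rw [mem_diff]; tauto
      have e2 : p ∈ diff Z' (shift s B.1) ↔ p ∈ Z' := by rw [mem_diff]; tauto
      rw [← e1, he, e2]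
  have hcard : (T.image (fun Z => diff Z (shift s B.1))).card = T.card :=
    Finset.card_image_of_injOn hinj
  have hcount : (T.image (fun Z => diff Z (shift s B.1))).card ≤ (R ^ 3) ^ 24 * tt (c.1 - c'.1) := by
    refine count_joined (by omega) _ ?_
    intro L hL
    obtain ⟨Z, hZ, rfl⟩ := Finset.mem_image.1 hL
    obtain ⟨h1, h2, h3⟩ := hT Z hZ
    refine ⟨((mem_P.1 h1).1.1).sublist (diff_sub _ _), hlen Z hZ, fun p hp => ?_,
      (shift s B.2).flatMap (fun x => (nbs x).toList), ?_, ?_⟩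
    · have := coord_lt h1 p (mem_diff.1 hp).1
      omega
    · rw [List.length_flatMap]
      have hs : ((shift s B.2).map (fun x => ((nbs x).toList).length)).sum ≤
          (shift s B.2).length * 4 := by
        have := List.sum_le_card_nsmul ((shift s B.2).map (fun x => ((nbs x).toList).length)) 4
          (by
            intro y hy
            obtain ⟨x, _, rfl⟩ := List.mem_map.1 hy
            rw [Finset.length_toList]
            exact card_nbs x)
        rwa [List.length_map, smul_eq_mul] at this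
      rw [g7_shift_len, b4] at hs
      omega
    · intro p hp
      obtain ⟨y, hy, ⟨x, hx, hadj⟩, hw⟩ := h3 p hp
      refine ⟨y, ?_, hy, hw⟩
      rw [List.mem_flatMap]
      exact ⟨x, hx, Finset.mem_toList.2 (mem_nbs hadj)⟩
  have htt : tt (c.1 - c'.1) * t c'.1 ≤ t c.1 := by
    unfold tt
    split_ifs with h
    · have : c'.1 = c.1 := by omega
      rw [this, one_mul]
    · have := t_mul_le (a := c.1 - c'.1) (b := c'.1) (by omega) d1
      rwa [Nat.sub_add_cancel hle] at this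
  calc T.card * t c'.1 ≤ ((R ^ 3) ^ 24 * tt (c.1 - c'.1)) * t c'.1 :=
        Nat.mul_le_mul_right _ (hcard ▸ hcount)
    _ = (R ^ 3) ^ 24 * (tt (c.1 - c'.1) * t c'.1) := by ring
    _ ≤ _ := Nat.mul_le_mul_left _ htt

theorem starM {R : ℕ} (hR : 8 ≤ R) {c c' : ℕ × ℕ} (hc : c ∈ Cls R) (hc' : c' ∈ Cls R)
    (v : List Bool) {B : MO} (hB : B ∈ Om c') :
    ((Om c).filter (fun Y => okM v Y = true ∧ ndM v Y = B)).card * (Om c').card ≤
      R ^ 80 * (Om c).card := by
  classical
  obtain ⟨c1, c2, c3⟩ := g7_cls hc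
  obtain ⟨d1, d2, d3⟩ := g7_cls hc'
  obtain ⟨b1, b2, b3, b4⟩ := mem_Om.1 hB
  -- the cells for the translation `s`
  set T : NC → Finset (List NC) := fun s => (P c.1).filter (fun Z =>
    (∀ p ∈ shift s B.1, p ∈ Z) ∧ Frame Z (shift s B.1) (shift s B.2)) with hTdef
  have hsub : (Om c).filter (fun Y => okM v Y = true ∧ ndM v Y = B) ⊆
      (Finset.range R ×ˢ Finset.range R).biUnion (fun s => (T s).biUnion (fun Z =>
        ((Z.sublists.filter (fun X => decide (X.length = c.2))).toFinset).image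
          (fun X => (Z, X)))) := by
    intro Y hY
    obtain ⟨hY1, hY2, hY3⟩ := Finset.mem_filter.1 hY
    obtain ⟨f1, f2, f3, s, f4, f5, -⟩ := frame hY1 c3 v hY2
    rw [hY3] at f4 f5
    obtain ⟨y1, y2, y3, y4⟩ := mem_Om.1 hY1
    have hP : Y.1 ∈ P c.1 := mem_P.2 ⟨y1, y2⟩
    have hne : B.1 ≠ [] := by
      intro h0
      rw [h0] at b2
      simp only [List.length_nil] at b2
      omega
    obtain ⟨p, hp⟩ := List.exists_mem_of_ne_nil _ hne
    have hp' : (p.1 + s.1, p.2 + s.2) ∈ shift s B.1 := by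
      unfold shift
      exact List.mem_map.2 ⟨p, hp, rfl⟩
    have hlt := coord_lt hP _ (f4 _ hp')
    simp only at hlt
    refine Finset.mem_biUnion.2 ⟨s, ?_, Finset.mem_biUnion.2 ⟨Y.1, ?_, ?_⟩⟩
    · rw [Finset.mem_product, Finset.mem_range, Finset.mem_range]
      omega
    · exact Finset.mem_filter.2 ⟨hP, f4, f5⟩
    · refine Finset.mem_image.2 ⟨Y.2, ?_, rfl⟩
      rw [List.mem_toFinset, List.mem_filter, List.mem_sublists, decide_eq_true_eq]
      exact ⟨y3, y4⟩
  have h1 : ((Om c).filter (fun Y => okM v Y = true ∧ ndM v Y = B)).card ≤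
      ∑ s ∈ Finset.range R ×ˢ Finset.range R, (T s).card * Nat.choose c.1 c.2 := by
    refine (Finset.card_le_card hsub).trans (Finset.card_biUnion_le.trans
      (Finset.sum_le_sum fun s _ => Finset.card_biUnion_le.trans ?_))
    rw [Finset.card_eq_sum_ones, Finset.sum_mul]
    refine Finset.sum_le_sum fun Z hZ => ?_
    obtain ⟨z1, z2⟩ := mem_P.1 (Finset.mem_filter.1 hZ).1
    rw [one_mul, ← z2, ← g7_sub (g7_nodup z1.1) c.2]
    exact Finset.card_image_le
  have h2 : ∀ s, (T s).card * t c'.1 ≤ (R ^ 3) ^ 24 * t c.1 := fun s =>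
    g7_cells hc hc' hB s (T s) (fun Z hZ => Finset.mem_filter.1 hZ)
  rw [card_Om c1, card_Om d1]
  have k2 := g7_choose (R := R) (a := c'.1) (x := c'.2) (by omega) (by omega) d3
  calc _ ≤ (∑ s ∈ Finset.range R ×ˢ Finset.range R, (T s).card * Nat.choose c.1 c.2) *
        (t c'.1 * Nat.choose c'.1 c'.2) := Nat.mul_le_mul_right _ h1
    _ = ∑ s ∈ Finset.range R ×ˢ Finset.range R, ((T s).card * t c'.1) *
        (Nat.choose c.1 c.2 * Nat.choose c'.1 c'.2) := by
      rw [Finset.sum_mul]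
      exact Finset.sum_congr rfl fun s _ => by ring
    _ ≤ ∑ s ∈ Finset.range R ×ˢ Finset.range R, ((R ^ 3) ^ 24 * t c.1) *
        (Nat.choose c.1 c.2 * R ^ 6) := Finset.sum_le_sum fun s _ =>
      Nat.mul_le_mul (h2 s) (Nat.mul_le_mul_left _ k2)
    _ = R ^ 80 * (t c.1 * Nat.choose c.1 c.2) := by
      rw [Finset.sum_const, Finset.card_product, Finset.card_range, smul_eq_mul]
      ring

end Pool.Agent.Lib.MP_104326_lc.FP
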