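import Pool.Agent.Lib.MP_104326_lc.FP.Defs
import Pool.Agent.Lib.MP_104326_lc.FP.G2
import Pool.Agent.Lib.MP_104326_lc.FP.G3

/-!
# FP, module G8: the depth of the decomposition tree

The potential `(7 / 8) ^ l (8 / 7) ^ (number of marks) (number of cells) ^ 2`.
-/

set_option autoImplicit false

namespace Pool.Agent.Lib.MP_104326_lc.FP

open Pool.Agent.Lib.MP_104326_lc.KR

private theorem g8_iff {l x a : ℕ} :
    7 ^ l * 8 ^ x * a ^ 2 < 4 * 8 ^ l * 7 ^ x ↔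
      ((7 : ℝ) / 8) ^ l * ((8 : ℝ) / 7) ^ x * (a : ℝ) ^ 2 < 4 := by
  have h1 : ((7 : ℝ) / 8) ^ l * ((8 : ℝ) / 7) ^ x * (a : ℝ) ^ 2 =
      (7 ^ l * 8 ^ x * (a : ℝ) ^ 2) / (8 ^ l * 7 ^ x) := by
    rw [div_pow, div_pow]
    ring
  rw [h1, div_lt_iff₀ (by positivity), ← mul_assoc]
  exact_mod_cast Iff.rfl

/-- one step of the potential -/
private theorem g8_step {l n k a x : ℕ} (h : 7 ^ (l + 1) * 8 ^ k * n ^ 2 < 4 * 8 ^ (l + 1) * 7 ^ k)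
    (hx : (x ≤ k + 1 ∧ 8 * a ≤ 7 * n) ∨ (x + 1 ≤ k ∧ a ≤ n)) :
    7 ^ l * 8 ^ x * a ^ 2 < 4 * 8 ^ l * 7 ^ x := by
  rw [g8_iff] at h ⊢
  refine lt_of_le_of_lt ?_ h
  have h7 : (0 : ℝ) ≤ ((7 : ℝ) / 8) ^ l := by positivity
  rcases hx with ⟨hx, ha⟩ | ⟨hx, ha⟩
  · have h1 : ((8 : ℝ) / 7) ^ x ≤ ((8 : ℝ) / 7) ^ (k + 1) :=
      pow_le_pow_right₀ (by norm_num) hx
    have h2 : (a : ℝ) ≤ 7 / 8 * n := by
      have : (8 : ℝ) * a ≤ 7 * n := by exact_mod_cast ha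
      linarith
    have h3 : (a : ℝ) ^ 2 ≤ (7 / 8 * n) ^ 2 := pow_le_pow_left₀ (by positivity) h2 2
    calc ((7 : ℝ) / 8) ^ l * ((8 : ℝ) / 7) ^ x * (a : ℝ) ^ 2
        ≤ ((7 : ℝ) / 8) ^ l * ((8 : ℝ) / 7) ^ (k + 1) * (7 / 8 * n) ^ 2 := by gcongr
      _ = ((7 : ℝ) / 8) ^ (l + 1) * ((8 : ℝ) / 7) ^ k * (n : ℝ) ^ 2 := by
          rw [pow_succ, pow_succ]
          ring
  · have h1 : ((8 : ℝ) / 7) ^ x * (8 / 7) ≤ ((8 : ℝ) / 7) ^ k := by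
      rw [← pow_succ]
      exact pow_le_pow_right₀ (by norm_num) hx
    have h2 : (a : ℝ) ≤ n := by exact_mod_cast ha
    have h3 : (a : ℝ) ^ 2 ≤ (n : ℝ) ^ 2 := pow_le_pow_left₀ (by positivity) h2 2
    calc ((7 : ℝ) / 8) ^ l * ((8 : ℝ) / 7) ^ x * (a : ℝ) ^ 2
        = ((7 : ℝ) / 8) ^ (l + 1) * (((8 : ℝ) / 7) ^ x * (8 / 7)) * (a : ℝ) ^ 2 := by
          rw [pow_succ]
          ring
      _ ≤ ((7 : ℝ) / 8) ^ (l + 1) * ((8 : ℝ) / 7) ^ k * (n : ℝ) ^ 2 := by gcongr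

theorem depth_pot {c : ℕ × ℕ} {O : MO} (hO : O ∈ Om c) (hx : c.2 ≤ 6) (l : ℕ)
    (h : 7 ^ l * 8 ^ c.2 * c.1 ^ 2 < 4 * 8 ^ l * 7 ^ c.2) : depM l O := by
  induction l generalizing c O with
  | zero =>
    unfold depM
    have h1 : O.1.length = c.1 := (mem_Om.1 hO).2.1
    by_contra hcon
    have h2 : 2 ≤ c.1 := by omega
    have h3 : 7 ^ c.2 ≤ 8 ^ c.2 := Nat.pow_le_pow_left (by norm_num) _
    have h4 : 2 ^ 2 ≤ c.1 ^ 2 := Nat.pow_le_pow_left h2 2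
    have h5 : 7 ^ c.2 * 2 ^ 2 ≤ 8 ^ c.2 * c.1 ^ 2 := Nat.mul_le_mul h3 h4
    simp only [pow_zero, one_mul, mul_one] at h
    omega
  | succ l ih =>
    unfold depM
    intro h1
    rw [(mem_Om.1 hO).2.1] at h1
    obtain ⟨hL, hR, eL, eR, lA, lB, -⟩ := LfRf_spec hO h1 hx
    obtain ⟨-, -, -, -, -, -, -, -, hs, -⟩ := parts_spec hO h1 hx
    obtain ⟨pA, pB, p5, p6⟩ := parts_pot hO h1 hx
    constructor
    · refine ih hL (by rw [eL]; exact pA) ?_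
      rw [eL]
      refine g8_step h ?_
      simp only
      rcases Nat.lt_or_ge c.2 6 with h6 | h6
      · obtain ⟨q1, -, q3, -⟩ := p5 (by omega)
        exact Or.inl ⟨q1, q3⟩
      · obtain ⟨q1, -⟩ := p6 (by omega)
        exact Or.inr ⟨by omega, by omega⟩
    · refine ih hR (by rw [eR]; exact pB) ?_
      rw [eR]
      refine g8_step h ?_
      simp only
      rcases Nat.lt_or_ge c.2 6 with h6 | h6
      · obtain ⟨-, q2, -, q4⟩ := p5 (by omega)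
        exact Or.inl ⟨q2, q4⟩
      · obtain ⟨-, q2⟩ := p6 (by omega)
        exact Or.inr ⟨by omega, by omega⟩

theorem depth_root {ρ n : ℕ} {O : MO} (hn : n < 2 ^ ρ) (hO : O ∈ Om (n, 0)) : depM (12 * ρ) O := by
  refine depth_pot hO (Nat.zero_le _) _ ?_
  simp only [pow_zero, mul_one]
  have h1 : n ^ 2 < (2 ^ ρ) ^ 2 := Nat.pow_lt_pow_left hn (by norm_num)
  have h2 : 7 ^ (12 * ρ) * (2 ^ ρ) ^ 2 ≤ 8 ^ (12 * ρ) := by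
    have e1 : 7 ^ (12 * ρ) * (2 ^ ρ) ^ 2 = (7 ^ 12 * 2 ^ 2) ^ ρ := by
      rw [mul_pow, ← pow_mul, ← pow_mul, ← pow_mul, Nat.mul_comm ρ 2]
    rw [e1, pow_mul]
    exact Nat.pow_le_pow_left (by norm_num) ρ
  calc 7 ^ (12 * ρ) * n ^ 2 < 7 ^ (12 * ρ) * (2 ^ ρ) ^ 2 :=
        Nat.mul_lt_mul_of_pos_left h1 (by positivity)
    _ ≤ 8 ^ (12 * ρ) := h2
    _ ≤ 4 * 8 ^ (12 * ρ) := Nat.le_mul_of_pos_left _ (by norm_num)

end Pool.Agent.Lib.MP_104326_lc.FP
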