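import Pool.Agent.Lib.MP_104326_lc.FP.Defs
import Pool.Agent.Lib.MP_104326_lc.FP.G2
import Pool.Agent.Lib.MP_104326_lc.FP.G3

/-!
# FP, module G4: the gluing of marked polyominoes inverts the canonical decomposition
-/

set_option autoImplicit false

namespace Pool.Agent.Lib.MP_104326_lc.FP

open Pool.Agent.Lib.PolyTime Pool.Agent.Lib.MP_104326_lc.KR

/-! ### Digits -/

private theorem dig_zero {R a y : ℕ} (ha : a < R) : dig R (a + R * y) 0 = a := by
  unfold dig
  rw [pow_zero, Nat.div_one, Nat.add_mul_mod_self_left, Nat.mod_eq_of_lt ha]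

private theorem dig_succ {R : ℕ} (w i : ℕ) : dig R w (i + 1) = dig R (w / R) i := by
  unfold dig
  rw [pow_succ, Nat.mul_comm, ← Nat.div_div_eq_div_mul]

private theorem div_step {R a y : ℕ} (ha : a < R) : (a + R * y) / R = y := by
  rw [Nat.add_mul_div_left _ _ (by omega), Nat.div_eq_of_lt ha, zero_add]

private theorem digs_mk {R : ℕ} : ∀ (n : ℕ) (f : ℕ → ℕ), (∀ i < n, f i < R) →
    (∑ i ∈ Finset.range n, f i * R ^ i) < R ^ n ∧
      ∀ i < n, dig R (∑ i ∈ Finset.range n, f i * R ^ i) i = f i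
  | 0, f, _ => by simp
  | n + 1, f, hf => by
    have h0 := hf 0 (by omega)
    obtain ⟨h1, h2⟩ := digs_mk n (fun i => f (i + 1)) (fun i hi => hf (i + 1) (by omega))
    have e : (∑ i ∈ Finset.range (n + 1), f i * R ^ i) =
        f 0 + R * ∑ i ∈ Finset.range n, f (i + 1) * R ^ i := by
      rw [Finset.sum_range_succ', Finset.mul_sum, pow_zero, mul_one, add_comm]
      refine congrArg _ (Finset.sum_congr rfl fun i _ => ?_)
      ring
    rw [e]
    constructor
    · have h3 : (∑ i ∈ Finset.range n, f (i + 1) * R ^ i) + 1 ≤ R ^ n := h1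
      calc f 0 + R * ∑ i ∈ Finset.range n, f (i + 1) * R ^ i
          < R + R * ∑ i ∈ Finset.range n, f (i + 1) * R ^ i := by omega
        _ = R * ((∑ i ∈ Finset.range n, f (i + 1) * R ^ i) + 1) := by ring
        _ ≤ R * R ^ n := Nat.mul_le_mul_left _ h3
        _ = R ^ (n + 1) := by ring
    · intro i hi
      cases i with
      | zero => exact dig_zero h0
      | succ i => rw [dig_succ, div_step h0]; exact h2 i (by omega)

private theorem digs_sum {R : ℕ} : ∀ (n w : ℕ), w < R ^ n →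
    w = ∑ i ∈ Finset.range n, dig R w i * R ^ i
  | 0, w, h => by simpa using h
  | n + 1, w, h => by
    have h1 : w / R < R ^ n := by
      rw [pow_succ] at h
      exact Nat.div_lt_of_lt_mul (by rwa [Nat.mul_comm] at h)
    have h2 := digs_sum n (w / R) h1
    rw [Finset.sum_range_succ', pow_zero, mul_one]
    have e : (∑ i ∈ Finset.range n, dig R w (i + 1) * R ^ (i + 1)) = R * (w / R) := by
      conv_rhs => rw [h2]
      rw [Finset.mul_sum]
      refine Finset.sum_congr rfl fun i _ => ?_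
      rw [dig_succ]; ring
    rw [e]
    unfold dig
    rw [pow_zero, Nat.div_one]
    exact (Nat.div_add_mod w R).symm

/-! ### Lists -/

private theorem mem_iff (p : NC) (L : List NC) : mem p L = true ↔ p ∈ L := by
  unfold mem
  rw [List.any_eq_true]
  constructor
  · rintro ⟨q, hq, he⟩
    rw [decide_eq_true_eq] at he
    exact he ▸ hq
  · intro h
    exact ⟨p, h, by simp⟩

private theorem ltc_irrefl (p : NC) : ¬ ltc p p := by
  unfold ltc
  omega

private theorem ltc_asymm {p q : NC} (h : ltc p q) : ¬ ltc q p := by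
  unfold ltc at *
  omega

/-- two sorted lists with the same members are equal -/
private theorem ext_of_pairwise : ∀ {L M : List NC}, L.Pairwise ltc → M.Pairwise ltc → (∀ p, p ∈ L ↔ p ∈ M) → L = M
  | [], [], _, _, _ => rfl
  | [], b :: M, _, _, h => absurd ((h b).2 List.mem_cons_self) List.not_mem_nil
  | a :: L, [], _, _, h => absurd ((h a).1 List.mem_cons_self) List.not_mem_nil
  | a :: L, b :: M, hL, hM, h => by
    rw [List.pairwise_cons] at hL hM
    have hab : a = b := by
      by_contra hne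
      have h1 : a ∈ M := by
        rcases List.mem_cons.1 ((h a).1 List.mem_cons_self) with h1 | h1
        · exact absurd h1 hne
        · exact h1
      have h2 : b ∈ L := by
        rcases List.mem_cons.1 ((h b).2 List.mem_cons_self) with h2 | h2
        · exact absurd h2.symm hne
        · exact h2
      exact ltc_asymm (hL.1 b h2) (hM.1 a h1)
    subst hab
    have : L = M := ext_of_pairwise hL.2 hM.2 fun p => by
      constructor
      · intro hp
        rcases List.mem_cons.1 ((h p).1 (List.mem_cons_of_mem _ hp)) with h1 | h1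
        · subst h1
          exact absurd (hL.1 p hp) (ltc_irrefl p)
        · exact h1
      · intro hp
        rcases List.mem_cons.1 ((h p).2 (List.mem_cons_of_mem _ hp)) with h1 | h1
        · subst h1
          exact absurd (hM.1 p hp) (ltc_irrefl p)
        · exact h1
    rw [this]

private theorem mem_grid {R : ℕ} {p : NC} : p ∈ grid R ↔ p.1 < R ∧ p.2 < R := by
  unfold grid
  rw [List.mem_flatMap]
  constructor
  · rintro ⟨x, hx, hp⟩
    rw [List.mem_map] at hp
    obtain ⟨y, hy, rfl⟩ := hp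
    exact ⟨List.mem_range.1 hx, List.mem_range.1 hy⟩
  · rintro ⟨h1, h2⟩
    exact ⟨p.1, List.mem_range.2 h1, List.mem_map.2 ⟨p.2, List.mem_range.2 h2, rfl⟩⟩

private theorem grid_pairwise (R : ℕ) : (grid R).Pairwise ltc := by
  unfold grid
  rw [List.pairwise_flatMap]
  refine ⟨fun x _ => ?_, ?_⟩
  · rw [List.pairwise_map]
    refine List.pairwise_lt_range.imp ?_
    intro a b h
    exact Or.inr ⟨rfl, h⟩
  · refine List.pairwise_lt_range.imp ?_
    intro a b h p hp q hq
    rw [List.mem_map] at hp hq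
    obtain ⟨_, _, rfl⟩ := hp
    obtain ⟨_, _, rfl⟩ := hq
    exact Or.inl h

private theorem mem_union {R : ℕ} {A B : List NC} {p : NC} :
    p ∈ union R A B ↔ (p.1 < R ∧ p.2 < R) ∧ (p ∈ A ∨ p ∈ B) := by
  unfold union
  rw [List.mem_filter, mem_grid]
  simp

private theorem union_pairwise (R : ℕ) (A B : List NC) : (union R A B).Pairwise ltc :=
  (grid_pairwise R).filter _

private theorem union_eq {R : ℕ} {A B Z : List NC} (hZ : Z.Pairwise ltc) (hR : ∀ p ∈ Z, p.1 < R ∧ p.2 < R)
    (h : ∀ p, p ∈ Z ↔ p ∈ A ∨ p ∈ B) : union R A B = Z := by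
  refine ext_of_pairwise (union_pairwise R A B) hZ fun p => ?_
  rw [mem_union, ← h p]
  exact ⟨fun h => h.2, fun h => ⟨hR p h, h⟩⟩

/-! ### The digits of the parameter -/

private theorem ch_eq (R : ℕ) (O : MO) (f : ℕ → ℕ)
    (h0 : f 0 = (zA O).length) (h1 : f 1 = (partA O).2.length) (h2 : f 2 = (partB O).2.length)
    (h3 : f 3 = (minc (zA O)).1) (h4 : f 4 = (minc (zA O)).2) (h5 : f 5 = (minc (zB O)).1)
    (h6 : f 6 = (minc (zB O)).2) (h7 : f 7 = if mem (yy O).1 O.2 then 1 else 0)
    (h8 : f 8 = if mem (yy O).2 O.2 then 1 else 0) :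
    ch R O = ∑ i ∈ Finset.range 9, f i * R ^ i := by
  unfold ch
  simp only [Finset.sum_range_succ, Finset.sum_range_zero, h0, h1, h2, h3, h4, h5, h6, h7, h8,
    pow_zero, mul_one, zero_add, pow_one]

/-- the marks of the parts -/
private theorem mem_partA {O : MO} {p : NC} :
    p ∈ (partA O).2 ↔ p ∈ zA O ∧ (p ∈ O.2 ∨ p = (yy O).1) := by
  unfold partA
  rw [List.mem_filter, Bool.or_eq_true, mem_iff, decide_eq_true_eq]

private theorem mem_partB {O : MO} {p : NC} :
    p ∈ (partB O).2 ↔ p ∈ zB O ∧ (p ∈ O.2 ∨ p = (yy O).2) := by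
  unfold partB
  rw [List.mem_filter, Bool.or_eq_true, mem_iff, decide_eq_true_eq]

private theorem mem_glued {R w : ℕ} {A B : MO} {p : NC} :
    p ∈ (glued R w A B).2 ↔ p ∈ (glued R w A B).1 ∧
      ((p ∈ shift (dig R w 3, dig R w 4) A.2 ∧
        (p ≠ (firstAdj (shift (dig R w 3, dig R w 4) A.1) (shift (dig R w 5, dig R w 6) B.1)).1 ∨
          dig R w 7 = 1)) ∨
       (p ∈ shift (dig R w 5, dig R w 6) B.2 ∧
        (p ≠ (firstAdj (shift (dig R w 3, dig R w 4) A.1) (shift (dig R w 5, dig R w 6) B.1)).2 ∨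
          dig R w 8 = 1))) := by
  unfold glued
  simp only [List.mem_filter, Bool.or_eq_true, Bool.and_eq_true, mem_iff, Bool.not_eq_true',
    decide_eq_true_eq, decide_eq_false_iff_not, ne_eq]

theorem glueM_some {R : ℕ} (hR : 8 ≤ R) {c : ℕ × ℕ} (hc : c ∈ Cls R) (h2 : 2 ≤ c.1) {w : ℕ}
    (hw : w < R ^ 9) {A B O : MO} (h : glueM R c w A B = some O) :
    O ∈ Om c ∧ A = Lf O ∧ B = Rf O ∧ w = ch R O := by
  unfold glueM at h
  split_ifs at h with hcond
  obtain ⟨hcl, hc6, hconn, hnorm, hA1, hA2, hB2, h7, h8, hnA, hnB, hpA, hpB⟩ := hcond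
  have hO : glued R w A B = O := Option.some.inj h
  have hmem := @mem_glued R w A B
  have hpw : (glued R w A B).1.Pairwise ltc := union_pairwise _ _ _
  have hsub : (glued R w A B).2.Sublist (glued R w A B).1 := List.filter_sublist
  rw [hO] at hcl hconn hnorm hpA hpB hmem hpw hsub
  have hOm : O ∈ Om c := by
    refine mem_Om.2 ⟨⟨hpw, hconn, hnorm⟩, ?_, hsub, ?_⟩
    · exact congrArg Prod.fst hcl
    · exact congrArg Prod.snd hcl
  obtain ⟨p1, p2, p3, p4, p5, p6, p7, p8, p9, p10, p11, p12⟩ := parts_spec hOm h2 hc6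
  have hzA : zA O = shift (dig R w 3, dig R w 4) A.1 := congrArg Prod.fst hpA
  have hzB : zB O = shift (dig R w 5, dig R w 6) B.1 := congrArg Prod.fst hpB
  have hmA : (partA O).2 = shift (dig R w 3, dig R w 4) A.2 := congrArg Prod.snd hpA
  have hmB : (partB O).2 = shift (dig R w 5, dig R w 6) B.2 := congrArg Prod.snd hpB
  have hminA : minc (zA O) = (dig R w 3, dig R w 4) := by rw [hzA]; exact minc_shift hnA _
  have hminB : minc (zB O) = (dig R w 5, dig R w 6) := by rw [hzB]; exact minc_shift hnB _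
  have hy : firstAdj (shift (dig R w 3, dig R w 4) A.1) (shift (dig R w 5, dig R w 6) B.1) = yy O := by
    unfold yy
    rw [hzA, hzB]
  rw [hy, ← hmA, ← hmB] at hmem
  have hy1 : (yy O).1 ∈ (partA O).2 := mem_partA.2 ⟨p10, Or.inr rfl⟩
  have hy2 : (yy O).2 ∈ (partB O).2 := mem_partB.2 ⟨p11, Or.inr rfl⟩
  have e7 : (if mem (yy O).1 O.2 then 1 else 0) = dig R w 7 := by
    have h71 : (yy O).1 ∈ O.2 ↔ dig R w 7 = 1 := by
      rw [hmem]
      constructor
      · rintro ⟨-, ⟨-, h3 | h3⟩ | ⟨h3, -⟩⟩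
        · exact absurd rfl h3
        · exact h3
        · exact absurd (mem_partB.1 h3).1 (p8 _ p10)
      · intro h3
        exact ⟨p5.subset p10, Or.inl ⟨hy1, Or.inr h3⟩⟩
    by_cases h3 : dig R w 7 = 1
    · rw [if_pos ((mem_iff _ _).2 (h71.2 h3)), h3]
    · rw [if_neg (fun h4 => h3 (h71.1 ((mem_iff _ _).1 h4)))]
      omega
  have e8 : (if mem (yy O).2 O.2 then 1 else 0) = dig R w 8 := by
    have h81 : (yy O).2 ∈ O.2 ↔ dig R w 8 = 1 := by
      rw [hmem]
      constructor
      · rintro ⟨-, ⟨h3, -⟩ | ⟨-, h3 | h3⟩⟩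
        · exact absurd p11 (p8 _ (mem_partA.1 h3).1)
        · exact absurd rfl h3
        · exact h3
      · intro h3
        exact ⟨p6.subset p11, Or.inr ⟨hy2, Or.inr h3⟩⟩
    by_cases h3 : dig R w 8 = 1
    · rw [if_pos ((mem_iff _ _).2 (h81.2 h3)), h3]
    · rw [if_neg (fun h4 => h3 (h81.1 ((mem_iff _ _).1 h4)))]
      omega
  refine ⟨hOm, ?_, ?_, ?_⟩
  · unfold Lf normO
    have e : (partA O).1 = zA O := rfl
    rw [e, hminA, hzA, hmA, unshift_shift, unshift_shift]
  · unfold Rf normO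
    have e : (partB O).1 = zB O := rfl
    rw [e, hminB, hzB, hmB, unshift_shift, unshift_shift]
  · rw [ch_eq R O (dig R w) ?_ ?_ ?_ ?_ ?_ ?_ ?_ e7.symm e8.symm]
    · exact digs_sum 9 w hw
    · rw [← hA1, hzA]; unfold shift; rw [List.length_map]
    · rw [← hA2, hmA]; unfold shift; rw [List.length_map]
    · rw [← hB2, hmB]; unfold shift; rw [List.length_map]
    · rw [hminA]
    · rw [hminA]
    · rw [hminB]
    · rw [hminB]

theorem glueM_ch {R : ℕ} (hR : 8 ≤ R) {c : ℕ × ℕ} (hc : c ∈ Cls R) (h2 : 2 ≤ c.1) {O : MO}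
    (hO : O ∈ Om c) :
    ch R O < R ^ 9 ∧ glueM R c (ch R O) (Lf O) (Rf O) = some O ∧
    lcl R c (ch R O) = cl (Lf O) ∧ rcl R c (ch R O) = cl (Rf O) ∧
    cl (Lf O) ∈ Cls R ∧ cl (Rf O) ∈ Cls R ∧ Lf O ∈ Om (cl (Lf O)) ∧ Rf O ∈ Om (cl (Rf O)) ∧
    (cl (Lf O)).1 + (cl (Rf O)).1 = c.1 := by
  unfold Cls at hc
  rw [Finset.mem_product, Finset.mem_Ico, Finset.mem_range] at hc
  obtain ⟨⟨hc1, hcR⟩, hc7⟩ := hc
  have hc6 : c.2 ≤ 6 := by omega
  obtain ⟨p1, p2, p3, p4, p5, p6, p7, p8, p9, p10, p11, p12⟩ := parts_spec hO h2 hc6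
  obtain ⟨q1, q2, -, -⟩ := parts_pot hO h2 hc6
  obtain ⟨r1, r2, r3, r4, r5, r6, r7, r8, r9, r10, r11, r12, r13, r14⟩ := LfRf_spec hO h2 hc6
  obtain ⟨⟨o1, o2, o3⟩, o4, o5, o6⟩ := mem_Om.1 hO
  set f : ℕ → ℕ := fun i => match i with
    | 0 => (zA O).length
    | 1 => (partA O).2.length
    | 2 => (partB O).2.length
    | 3 => (minc (zA O)).1
    | 4 => (minc (zA O)).2
    | 5 => (minc (zB O)).1
    | 6 => (minc (zB O)).2
    | 7 => if mem (yy O).1 O.2 then 1 else 0
    | _ => if mem (yy O).2 O.2 then 1 else 0 with hf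
  have hch : ch R O = ∑ i ∈ Finset.range 9, f i * R ^ i :=
    ch_eq R O f rfl rfl rfl rfl rfl rfl rfl rfl rfl
  have hlt : ∀ i < 9, f i < R := by
    intro i hi
    rw [hf]
    interval_cases i
    · show (zA O).length < R
      omega
    · show (partA O).2.length < R
      omega
    · show (partB O).2.length < R
      omega
    · show (minc (zA O)).1 < R
      omega
    · show (minc (zA O)).2 < R
      omega
    · show (minc (zB O)).1 < R
      omega
    · show (minc (zB O)).2 < R
      omega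
    · show (if mem (yy O).1 O.2 then 1 else 0) < R
      split_ifs <;> omega
    · show (if mem (yy O).2 O.2 then 1 else 0) < R
      split_ifs <;> omega
  obtain ⟨hlt9, hdig⟩ := digs_mk 9 f hlt
  rw [← hch] at hlt9 hdig
  have d0 : dig R (ch R O) 0 = (zA O).length := hdig 0 (by omega)
  have d1 : dig R (ch R O) 1 = (partA O).2.length := hdig 1 (by omega)
  have d2 : dig R (ch R O) 2 = (partB O).2.length := hdig 2 (by omega)
  have d3 : dig R (ch R O) 3 = (minc (zA O)).1 := hdig 3 (by omega)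
  have d4 : dig R (ch R O) 4 = (minc (zA O)).2 := hdig 4 (by omega)
  have d5 : dig R (ch R O) 5 = (minc (zB O)).1 := hdig 5 (by omega)
  have d6 : dig R (ch R O) 6 = (minc (zB O)).2 := hdig 6 (by omega)
  have d7 : dig R (ch R O) 7 = if mem (yy O).1 O.2 then 1 else 0 := hdig 7 (by omega)
  have d8 : dig R (ch R O) 8 = if mem (yy O).2 O.2 then 1 else 0 := hdig 8 (by omega)
  have d34 : (dig R (ch R O) 3, dig R (ch R O) 4) = minc (zA O) := by rw [d3, d4]
  have d56 : (dig R (ch R O) 5, dig R (ch R O) 6) = minc (zB O) := by rw [d5, d6]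
  have h71 : dig R (ch R O) 7 = 1 ↔ (yy O).1 ∈ O.2 := by
    rw [d7, ← mem_iff]
    split_ifs with h3
    · exact ⟨fun _ => h3, fun _ => rfl⟩
    · exact ⟨fun h4 => (show False by simp at h4).elim, fun h4 => absurd h4 h3⟩
  have h81 : dig R (ch R O) 8 = 1 ↔ (yy O).2 ∈ O.2 := by
    rw [d8, ← mem_iff]
    split_ifs with h3
    · exact ⟨fun _ => h3, fun _ => rfl⟩
    · exact ⟨fun h4 => (show False by simp at h4).elim, fun h4 => absurd h4 h3⟩
  have hcoord : ∀ p ∈ O.1, p.1 < R ∧ p.2 < R := by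
    intro p hp
    have h3 := coord_lt (mem_P.2 ⟨⟨o1, o2, o3⟩, o4⟩) p hp
    omega
  have g1 : (glued R (ch R O) (Lf O) (Rf O)).1 = O.1 := by
    show union R (shift (dig R (ch R O) 3, dig R (ch R O) 4) (Lf O).1)
      (shift (dig R (ch R O) 5, dig R (ch R O) 6) (Rf O).1) = O.1
    rw [d34, d56, r7, r9]
    refine union_eq o1 hcoord fun p => ⟨p7 p, ?_⟩
    rintro (h3 | h3)
    · exact p5.subset h3
    · exact p6.subset h3
  have g2 : (glued R (ch R O) (Lf O) (Rf O)).2 = O.2 := by
    refine ext_of_pairwise ?_ (o1.sublist o5) fun p => ?_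
    · have h3 : (glued R (ch R O) (Lf O) (Rf O)).2.Sublist (glued R (ch R O) (Lf O) (Rf O)).1 :=
        List.filter_sublist
      rw [g1] at h3
      exact o1.sublist h3
    · rw [mem_glued, g1, d34, d56, r7, r8, r9, r10, h71, h81]
      have hy : firstAdj (zA O) (zB O) = yy O := rfl
      rw [hy, mem_partA, mem_partB]
      constructor
      · rintro ⟨hp, ⟨⟨ha, hb⟩, hd⟩ | ⟨⟨ha, hb⟩, hd⟩⟩
        · rcases hb with hb | hb
          · exact hb
          · rcases hd with hd | hd
            · exact absurd hb hd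
            · rw [hb]; exact hd
        · rcases hb with hb | hb
          · exact hb
          · rcases hd with hd | hd
            · exact absurd hb hd
            · rw [hb]; exact hd
      · intro hp
        have hp1 := o5.subset hp
        refine ⟨hp1, ?_⟩
        rcases p7 p hp1 with h3 | h3
        · left
          refine ⟨⟨h3, Or.inl hp⟩, ?_⟩
          by_cases h4 : p = (yy O).1
          · exact Or.inr (h4 ▸ hp)
          · exact Or.inl h4
        · right
          refine ⟨⟨h3, Or.inl hp⟩, ?_⟩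
          by_cases h4 : p = (yy O).2
          · exact Or.inr (h4 ▸ hp)
          · exact Or.inl h4
  have hg : glued R (ch R O) (Lf O) (Rf O) = O := Prod.ext g1 g2
  have hclL1 : (Lf O).1.length = (zA O).length := congrArg Prod.fst r3
  have hclL2 : (Lf O).2.length = (partA O).2.length := congrArg Prod.snd r3
  have hclR1 : (Rf O).1.length = (zB O).length := congrArg Prod.fst r4
  have hclR2 : (Rf O).2.length = (partB O).2.length := congrArg Prod.snd r4
  refine ⟨hlt9, ?_, ?_, ?_, ?_, ?_, r1, r2, ?_⟩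
  · unfold glueM
    rw [hg, if_pos]
    refine ⟨?_, hc6, o2, o3, ?_, ?_, ?_, ?_, ?_, (mem_Om.1 r1).1.2.2, (mem_Om.1 r2).1.2.2, ?_, ?_⟩
    · exact Prod.ext o4 o6
    · rw [d0]; exact hclL1
    · rw [d1]; exact hclL2
    · rw [d2]; exact hclR2
    · rw [d7]; split_ifs <;> omega
    · rw [d8]; split_ifs <;> omega
    · rw [d34, r7, r8]; rfl
    · rw [d56, r9, r10]; rfl
  · unfold lcl
    rw [d0, d1, r3]
  · unfold rcl
    rw [d0, d2, r4]
    exact Prod.ext (by show c.1 - (zA O).length = (zB O).length; omega) rfl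
  · rw [r3]
    unfold Cls
    rw [Finset.mem_product, Finset.mem_Ico, Finset.mem_range]
    exact ⟨⟨r5, by show (zA O).length < R; omega⟩, by show (partA O).2.length < 7; omega⟩
  · rw [r4]
    unfold Cls
    rw [Finset.mem_product, Finset.mem_Ico, Finset.mem_range]
    exact ⟨⟨r6, by show (zB O).length < R; omega⟩, by show (partB O).2.length < 7; omega⟩
  · rw [r3, r4]
    exact p9

end Pool.Agent.Lib.MP_104326_lc.FP
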