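import Pool.Agent.Lib.MP_104326_lc.FP.Sys
import Pool.Agent.Lib.MP_104326_lc.FP.G2
import Pool.Agent.Lib.MP_104326_lc.FP.G4

/-! # FP: the system of marked polyominoes -/

set_option autoImplicit false

namespace Pool.Agent.Lib.MP_104326_lc.FP

open Pool.Agent.Lib.PolyTime Pool.Agent.Lib.MP_104326_lc.KR

theorem unit_spec {c : ℕ × ℕ} (h : c.1 = 1) :
    (Om c = ∅ ∧ ¬ (c.1 = 1 ∧ c.2 ≤ 1)) ∨ (Om c = {unitO c.2} ∧ c.1 = 1 ∧ c.2 ≤ 1) := by
  obtain ⟨n, x⟩ := c
  simp only at h
  subst h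
  have h1 : ∀ O : MO, O ∈ Om (1, x) ↔ O.1 = [(0, 0)] ∧ O.2.Sublist [(0, 0)] ∧ O.2.length = x := by
    intro O
    rw [mem_Om]
    constructor
    · rintro ⟨ha, hb, hc, hd⟩
      have : O.1 ∈ P 1 := mem_P.2 ⟨ha, hb⟩
      rw [P_one, Finset.mem_singleton] at this
      rw [this] at hc
      exact ⟨this, hc, hd⟩
    · rintro ⟨ha, hb, hc⟩
      have : O.1 ∈ P 1 := by rw [P_one, Finset.mem_singleton]; exact ha
      have h2 := mem_P.1 this
      rw [ha]
      rw [ha] at h2
      exact ⟨h2.1, h2.2, hb, hc⟩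
  match x with
  | 0 =>
    right
    refine ⟨?_, rfl, by simp⟩
    ext O
    rw [h1, Finset.mem_singleton]
    constructor
    · rintro ⟨ha, hb, hc⟩
      have : O.2 = [] := List.length_eq_zero_iff.1 hc
      exact Prod.ext (by rw [ha]; rfl) (by rw [this]; rfl)
    · rintro rfl
      simp [unitO]
  | 1 =>
    right
    refine ⟨?_, rfl, by simp⟩
    ext O
    rw [h1, Finset.mem_singleton]
    constructor
    · rintro ⟨ha, hb, hc⟩
      have : O.2 = [(0, 0)] := hb.eq_of_length (by simpa using hc)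
      exact Prod.ext (by rw [ha]; rfl) (by rw [this]; rfl)
    · rintro rfl
      simp [unitO]
  | x + 2 =>
    left
    refine ⟨?_, by simp⟩
    rw [Finset.eq_empty_iff_forall_notMem]
    intro O hO
    rw [h1] at hO
    have := hO.2.1.length_le
    simp at this
    omega

/-- The system of marked polyominoes. -/
noncomputable def sysM (R : ℕ) (hR : 8 ≤ R) : Sys MO where
  Cls := Cls R
  Om := Om
  cl := cl
  Lf := Lf
  Rf := Rf
  ch := ch R
  G := glueM R
  lcl := lcl R
  rcl := rcl R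
  W := R ^ 9
  unit := fun c => if c.1 = 1 ∧ c.2 ≤ 1 then (1, unitO c.2) else (0, unitO 0)
  pos := fun c hc => by
    unfold Cls at hc
    rw [Finset.mem_product, Finset.mem_Ico] at hc
    exact hc.1.1
  cl_eq := fun c _ O hO => by
    rw [mem_Om] at hO
    exact Prod.ext hO.2.1 hO.2.2.2
  unit_card := fun c _ h => by
    rcases unit_spec h with h2 | h2
    · left
      exact ⟨h2.1, by rw [if_neg h2.2]⟩
    · right
      rw [if_pos h2.2]
      exact ⟨h2.1, rfl⟩
  G_some := fun c hc h2 w hw A B O h => glueM_some hR hc h2 hw h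
  G_ch := fun c hc h2 O hO => glueM_ch hR hc h2 hO

end Pool.Agent.Lib.MP_104326_lc.FP
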