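import Pool.Agent.Lib.MP_104326_lc.FP.P2a
import Pool.Agent.Lib.MP_104326_lc.FP.Inst

/-!
# FP / P2: the list version computes the pools of marked polyominoes
-/

set_option autoImplicit false

namespace Pool.Agent.Lib.MP_104326_lc.FP

open Pool.Agent.Lib.PolyTime Pool.Agent.Lib.MP_104326_lc.KR

theorem toP_runF {R K J B H : ℕ} (hR : 8 ≤ R) (hK : 1 ≤ K) (hJ : 1 ≤ J) (hB : 1 ≤ B)
    {r : List Bool} (hr : r.length = Sys.nodeBits R K J B * (2 ^ H - 1)) :
    toP K (runF R K J B r) = (sysM R hR).runP R K J B H r :=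
  toP_runF_of ⟨rfl, rfl, rfl, rfl, fun _ => rfl⟩ hR hK hJ hB hr

end Pool.Agent.Lib.MP_104326_lc.FP
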