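import Pool.Agent.Lib.MP_104326_lc.FP.PDefs

/-! # FP: the parameters and the output functions -/

set_option autoImplicit false

namespace Pool.Agent.Lib.MP_104326_lc.FP

open Pool.Agent.Lib.PolyTime Pool.Agent.Lib.MP_104326_lc.KR

/-- Logarithm of the number of samples of a class. -/
def kE (ρ q : ℕ) : ℕ := 215 * ρ + q

/-- Logarithm of the number of trials. -/
def jE (ρ : ℕ) : ℕ := 23 * ρ

/-- Number of random bits of one random number. -/
def bE (ρ q R : ℕ) : ℕ := 23 * ρ * (R + 1) + 474 * ρ + 3 * q + 7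

/-- Number of random bits. -/
def nbF (ρ q : ℕ) : ℕ :=
  Sys.nodeBits (2 ^ ρ) (2 ^ kE ρ q) (2 ^ jE ρ) (bE ρ q (2 ^ ρ)) * (2 ^ (12 * ρ) - 1)

/-- The total weight of the class `(p, 0)`. -/
def totW (K : ℕ) (x : LPool) (p : ℕ) : ℕ := ((List.range K).map (fun i => (pAt K x (p, 0) i).1.val)).sum

/-- The logarithm of the scale of the total weight of the class `(p, 0)`. -/
def sE (ρ q p : ℕ) : ℕ := kE ρ q + 14 * ρ * (p - 1)

/-- Number of random bits; all parameters are cut off at `M`. -/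
def nbM (ρ q M : ℕ) : ℕ :=
  Sys.nodeBits (min (2 ^ ρ) M) (min (2 ^ kE ρ q) M) (min (2 ^ jE ρ) M) (bE ρ q (min (2 ^ ρ) M)) *
    (min (2 ^ (12 * ρ)) M - 1)

/-- The final pool, from the first `nbM ρ q M` random bits; all parameters are cut off at `M`. -/
def arrF (ρ q : ℕ) (r : List Bool) (M : ℕ) : LPool :=
  runF (min (2 ^ ρ) M) (min (2 ^ kE ρ q) M) (min (2 ^ jE ρ) M) (bE ρ q (min (2 ^ ρ) M))
    (r.take (nbM ρ q M))

/-- `(y + 1) / D ≤ (2 W_p / 2 ^ (sE p)) ^ (1 / p)` for some `p` between `K` and `4 K`. -/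
def goodF (ρ q N K D : ℕ) (A : LPool) (y : ℕ) : Bool :=
  (List.range (4 * K + 1)).any (fun p => decide (K ≤ p) &&
    decide ((y + 1) ^ p * 2 ^ sE ρ q p ≤ 2 * D ^ p * totW N A p))

/-- Parameters for Klarner's constant. -/
def rL (M1 n : ℕ) : ℕ := (M1 + 15) * n

/-- Parameters for Klarner's constant. -/
def qL (M1 n : ℕ) : ℕ := (M1 + 15) * n + n + 2

/-- The approximation of Klarner's constant, times `10 ^ (n + 2)`. -/
def outLamF (M1 Lc n : ℕ) (r : List Bool) (M : ℕ) : ℕ :=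
  ((List.range (Lc * min (10 ^ (n + 2)) M)).filter
    (goodF (rL M1 n) (qL M1 n) (min (2 ^ kE (rL M1 n) (qL M1 n)) M)
      (M1 * (n + 1) * min (10 ^ (n + 2)) M) (min (10 ^ (n + 2)) M)
      (arrF (rL M1 n) (qL M1 n) r M))).length + 500

/-- Parameters for the number of polyominoes. -/
def rC (n : ℕ) : ℕ := Nat.size n + 3

/-- Parameters for the number of polyominoes. -/
def qC (j : ℕ) : ℕ := 3 * Nat.size j + 2

/-- The approximation of `t n`. -/
def outCntF (n j : ℕ) (r : List Bool) (M : ℕ) : ℕ :=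
  (2 * totW (min (2 ^ kE (rC n) (qC j)) M) (arrF (rC n) (qC j) r M) n + 2 ^ sE (rC n) (qC j) n) /
    (2 * 2 ^ sE (rC n) (qC j) n)

end Pool.Agent.Lib.MP_104326_lc.FP
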