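import Pool.Agent.Lib.MP_104326_lc.FP.V2a
import Pool.Agent.Lib.MP_104326_lc.FP.B1

/-! # FP / V2b: the recursions for the moments -/

set_option autoImplicit false
set_option linter.unusedSectionVars false

namespace Pool.Agent.Lib.MP_104326_lc.FP

open Pool.Agent.Lib.PolyTime Pool.Agent.Lib.MP_104326_lc.KR

section Abstract
variable {α : Type} [DecidableEq α] (S : Sys α)

theorem v2b_mu_nn (K : ℕ) (p : SPool α) (c : ℕ × ℕ) (O : α) : 0 ≤ Sys.mu K p c O := by
  unfold Sys.mu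
  apply div_nonneg _ (Nat.cast_nonneg _)
  refine Finset.sum_nonneg fun i _ => ?_
  split_ifs
  · exact Nat.cast_nonneg _
  · exact le_rfl

theorem v2b_nu_nn (K : ℕ) (p : SPool α) (c : ℕ × ℕ) (O : α) : 0 ≤ Sys.nu K p c O := by
  unfold Sys.nu
  apply div_nonneg _ (Nat.cast_nonneg _)
  refine Finset.sum_nonneg fun i _ => ?_
  split_ifs
  · positivity
  · exact le_rfl

/-- the indicator of an object -/
def v2b_ind (O : α) : α → ℝ := fun Z => if Z = O then 1 else 0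

theorem v2b_ind_nn (O Z : α) : 0 ≤ v2b_ind O Z := by
  unfold v2b_ind; split_ifs <;> norm_num

theorem v2b_mu_eq (K : ℕ) (p : SPool α) (c : ℕ × ℕ) (O : α) :
    Sys.mu K p c O = ∑ i ∈ Finset.range K, (1 / (K : ℝ)) * (((p c i).1 : ℝ) * v2b_ind O (p c i).2) := by
  unfold Sys.mu v2b_ind
  rw [Finset.sum_div]
  refine Finset.sum_congr rfl fun i _ => ?_
  split_ifs <;> ring

theorem v2b_nu_eq (K : ℕ) (p : SPool α) (c : ℕ × ℕ) (O : α) :
    Sys.nu K p c O =
      ∑ i ∈ Finset.range K, (1 / (K : ℝ)) * (((p c i).1 : ℝ) ^ 2 * v2b_ind O (p c i).2) := by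
  unfold Sys.nu v2b_ind
  rw [Finset.sum_div]
  refine Finset.sum_congr rfl fun i _ => ?_
  split_ifs <;> ring

theorem v2b_tm_ind (K : ℕ) {c : ℕ × ℕ} (x y : SPool α) {O : α} (hO : O ∈ S.Om c) :
    S.tm K c x y (v2b_ind O) =
      Sys.mu K x (S.cl (S.Lf O)) (S.Lf O) * Sys.mu K y (S.cl (S.Rf O)) (S.Rf O) / S.W := by
  unfold Sys.tm v2b_ind
  congr 1
  rw [Finset.sum_eq_single O]
  · rw [if_pos rfl, mul_one]
  · intro Z _ hZ
    rw [if_neg hZ, mul_zero]
  · intro h; exact absurd hO h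

theorem v2b_tq_ind (K : ℕ) {c : ℕ × ℕ} (x y : SPool α) {O : α} (hO : O ∈ S.Om c) :
    S.tq K c x y (v2b_ind O) =
      Sys.nu K x (S.cl (S.Lf O)) (S.Lf O) * Sys.nu K y (S.cl (S.Rf O)) (S.Rf O) / S.W := by
  unfold Sys.tq v2b_ind
  congr 1
  rw [Finset.sum_eq_single O]
  · rw [if_pos rfl, mul_one]
  · intro Z _ hZ
    rw [if_neg hZ, mul_zero]
  · intro h; exact absurd hO h

theorem v2b_expP_congr {R K J B : ℕ} (hJ : 1 ≤ J) (hW : 1 ≤ S.W)
    (hR : ∀ c ∈ S.Cls, c.1 < R ∧ c.2 < 7) (h : ℕ) {F F' : SPool α → ℝ}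
    (hF : ∀ p, S.Good K J p → F p = F' p) : S.expP R K J B h F = S.expP R K J B h F' :=
  le_antisymm (expP_mono S hJ hW hR h fun p hp => (hF p hp).le)
    (expP_mono S hJ hW hR h fun p hp => (hF p hp).ge)

theorem v2b_expP_nn {R K J B : ℕ} (hJ : 1 ≤ J) (hW : 1 ≤ S.W)
    (hR : ∀ c ∈ S.Cls, c.1 < R ∧ c.2 < 7) (h : ℕ) {F : SPool α → ℝ}
    (hF : ∀ p, S.Good K J p → 0 ≤ F p) : 0 ≤ S.expP R K J B h F := by
  have := expP_mono (S := S) (B := B) hJ hW hR h (F := fun _ => 0) (F' := F) hF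
  rwa [expP_const] at this

/-- two independent pools -/
theorem v2b_prod (R K J B h : ℕ) (a : ℝ) (F F' : SPool α → ℝ) :
    S.expP R K J B h (fun x => S.expP R K J B h (fun y => a * (F x * F' y))) =
      a * (S.expP R K J B h F * S.expP R K J B h F') := by
  have h1 : (fun x => S.expP R K J B h (fun y => a * (F x * F' y))) =
      fun x => (a * S.expP R K J B h F') * F x := by
    funext x
    have : (fun y => a * (F x * F' y)) = fun y => (a * F x) * F' y := by funext y; ring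
    rw [this, expP_smul]
    ring
  rw [h1, expP_smul]
  ring

section Node
variable {R K J B : ℕ} (hK : 1 ≤ K) (hJ : 1 ≤ J) (hW : 1 ≤ S.W)
  (hR : ∀ c ∈ S.Cls, c.1 < R ∧ c.2 < 7) (hB : S.W * K * K ∣ 2 ^ B) {η : ℝ} (hη0 : 0 ≤ η)
  (hη1 : η ≤ 1) (hη : (J : ℝ) * J ^ R ≤ η * 2 ^ B)
include hK hJ hW hR hB hη0 hη1 hη

theorem v2b_eta {c : ℕ × ℕ} (hc : c ∈ S.Cls) : (J : ℝ) * J ^ (c.1 - 2) ≤ η * 2 ^ B := by
  refine le_trans (mul_le_mul_of_nonneg_left ?_ (Nat.cast_nonneg _)) hη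
  apply pow_le_pow_right₀ (by exact_mod_cast hJ)
  have := (hR c hc).1
  omega

/-- the mean of `mu` over the bits of a node -/
theorem v2b_node_mu {c : ℕ × ℕ} (hc : c ∈ S.Cls) (h2 : 2 ≤ c.1) {O : α} (x y : SPool α) :
    avgB (Sys.nodeBits R K J B) (fun r => Sys.mu K (S.nodeP R K J B r x y) c O) =
      S.avgS K B c x y J (fun a => (a.1 : ℝ) * v2b_ind O a.2) := by
  obtain ⟨h1, h7⟩ := hR c hc
  simp only [v2b_mu_eq]
  rw [avgB_sum]
  have h3 : ∀ i ∈ Finset.range K, avgB (Sys.nodeBits R K J B) (fun r => (1 / (K : ℝ)) *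
      (((S.nodeP R K J B r x y c i).1 : ℝ) * v2b_ind O (S.nodeP R K J B r x y c i).2)) =
      (1 / (K : ℝ)) * S.avgS K B c x y J (fun a => (a.1 : ℝ) * v2b_ind O a.2) := by
    intro i hi
    rw [avgB_mul]
    congr 1
    exact node_one S h1 h7 h2 (Finset.mem_range.1 hi) x y (fun a => (a.1 : ℝ) * v2b_ind O a.2)
  rw [Finset.sum_congr rfl h3, Finset.sum_const, Finset.card_range, nsmul_eq_mul]
  have hK0 : (K : ℝ) ≠ 0 := by exact_mod_cast (by omega : K ≠ 0)
  field_simp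

theorem v2b_node_nu {c : ℕ × ℕ} (hc : c ∈ S.Cls) (h2 : 2 ≤ c.1) {O : α} (x y : SPool α) :
    avgB (Sys.nodeBits R K J B) (fun r => Sys.nu K (S.nodeP R K J B r x y) c O) =
      S.avgS K B c x y J (fun a => (a.1 : ℝ) ^ 2 * v2b_ind O a.2) := by
  obtain ⟨h1, h7⟩ := hR c hc
  simp only [v2b_nu_eq]
  rw [avgB_sum]
  have h3 : ∀ i ∈ Finset.range K, avgB (Sys.nodeBits R K J B) (fun r => (1 / (K : ℝ)) *
      (((S.nodeP R K J B r x y c i).1 : ℝ) ^ 2 * v2b_ind O (S.nodeP R K J B r x y c i).2)) =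
      (1 / (K : ℝ)) * S.avgS K B c x y J (fun a => (a.1 : ℝ) ^ 2 * v2b_ind O a.2) := by
    intro i hi
    rw [avgB_mul]
    congr 1
    exact node_one S h1 h7 h2 (Finset.mem_range.1 hi) x y (fun a => (a.1 : ℝ) ^ 2 * v2b_ind O a.2)
  rw [Finset.sum_congr rfl h3, Finset.sum_const, Finset.card_range, nsmul_eq_mul]
  have hK0 : (K : ℝ) ≠ 0 := by exact_mod_cast (by omega : K ≠ 0)
  field_simp

/-- upper bound for the mean of a slot -/
theorem v2b_slot_up {c : ℕ × ℕ} (hc : c ∈ S.Cls) (h2 : 2 ≤ c.1) {O : α} (hO : O ∈ S.Om c)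
    {x y : SPool α} (hx : S.Good K J x) (hy : S.Good K J y) :
    S.avgS K B c x y J (fun a => (a.1 : ℝ) * v2b_ind O a.2) ≤ (1 + η) ^ J * ((J : ℝ) / S.W) *
      (Sys.mu K x (S.cl (S.Lf O)) (S.Lf O) * Sys.mu K y (S.cl (S.Rf O)) (S.Rf O)) := by
  have h := (slot_moments S hK hJ hW hB hc h2 hx hy hη0 hη1
    (v2b_eta S hK hJ hW hR hB hη0 hη1 hη hc) (v2b_ind O) (v2b_ind_nn O)).1
  rw [v2b_tm_ind S K x y hO] at h
  refine h.trans (le_of_eq ?_)
  ring

theorem v2b_slot_lo {c : ℕ × ℕ} (hc : c ∈ S.Cls) (h2 : 2 ≤ c.1) {O : α} (hO : O ∈ S.Om c)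
    {x y : SPool α} (hx : S.Good K J x) (hy : S.Good K J y) :
    (1 - η) ^ J * ((J : ℝ) / S.W) *
      (Sys.mu K x (S.cl (S.Lf O)) (S.Lf O) * Sys.mu K y (S.cl (S.Rf O)) (S.Rf O)) ≤
      S.avgS K B c x y J (fun a => (a.1 : ℝ) * v2b_ind O a.2) := by
  have h := (slot_moments S hK hJ hW hB hc h2 hx hy hη0 hη1
    (v2b_eta S hK hJ hW hR hB hη0 hη1 hη hc) (v2b_ind O) (v2b_ind_nn O)).2.1
  rw [v2b_tm_ind S K x y hO] at h
  refine le_trans (le_of_eq ?_) h
  ring

theorem v2b_slot_nn {c : ℕ × ℕ} (hc : c ∈ S.Cls) (h2 : 2 ≤ c.1) {O : α} (hO : O ∈ S.Om c)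
    {x y : SPool α} (hx : S.Good K J x) (hy : S.Good K J y) :
    0 ≤ S.avgS K B c x y J (fun a => (a.1 : ℝ) * v2b_ind O a.2) := by
  refine le_trans ?_ (v2b_slot_lo S hK hJ hW hR hB hη0 hη1 hη hc h2 hO hx hy)
  have h1 := v2b_mu_nn K x (S.cl (S.Lf O)) (S.Lf O)
  have h3 := v2b_mu_nn K y (S.cl (S.Rf O)) (S.Rf O)
  have h4 : (0 : ℝ) ≤ (1 - η) ^ J := pow_nonneg (by linarith) _
  positivity

/-- two slots of a node -/
theorem v2b_node_two {c c' : ℕ × ℕ} (hc : c ∈ S.Cls) (h2 : 2 ≤ c.1) (hc' : c' ∈ S.Cls)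
    (h2' : 2 ≤ c'.1) {O Y : α} (hO : O ∈ S.Om c) (hY : Y ∈ S.Om c')
    {x y : SPool α} (hx : S.Good K J x) (hy : S.Good K J y) :
    avgB (Sys.nodeBits R K J B) (fun r => Sys.mu K (S.nodeP R K J B r x y) c O *
      Sys.mu K (S.nodeP R K J B r x y) c' Y) ≤
      S.avgS K B c x y J (fun a => (a.1 : ℝ) * v2b_ind O a.2) *
        S.avgS K B c' x y J (fun a => (a.1 : ℝ) * v2b_ind Y a.2) +
      (if O = Y then avgB (Sys.nodeBits R K J B)
        (fun r => Sys.nu K (S.nodeP R K J B r x y) c O) / K else 0) := by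
  obtain ⟨h1, h7⟩ := hR c hc
  obtain ⟨h1', h7'⟩ := hR c' hc'
  set A := S.avgS K B c x y J (fun a => (a.1 : ℝ) * v2b_ind O a.2) with hA
  set A' := S.avgS K B c' x y J (fun a => (a.1 : ℝ) * v2b_ind Y a.2) with hA'
  have hA0 : 0 ≤ A := v2b_slot_nn S hK hJ hW hR hB hη0 hη1 hη hc h2 hO hx hy
  have hA0' : 0 ≤ A' := v2b_slot_nn S hK hJ hW hR hB hη0 hη1 hη hc' h2' hY hx hy
  set M := Sys.nodeBits R K J B with hM
  set P := fun r => S.nodeP R K J B r x y with hP
  have hK0 : (0 : ℝ) < K := by exact_mod_cast (by omega : 0 < K)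
  -- expand
  have e1 : (fun r => Sys.mu K (P r) c O * Sys.mu K (P r) c' Y) = fun r =>
      ∑ i ∈ Finset.range K, ∑ j ∈ Finset.range K, (1 / (K : ℝ) ^ 2) *
        ((((P r c i).1 : ℝ) * v2b_ind O (P r c i).2) * (((P r c' j).1 : ℝ) * v2b_ind Y (P r c' j).2)) := by
    funext r
    rw [v2b_mu_eq, v2b_mu_eq, Finset.sum_mul_sum]
    refine Finset.sum_congr rfl fun i _ => Finset.sum_congr rfl fun j _ => ?_
    ring
  have e2 : avgB M (fun r => Sys.mu K (P r) c O * Sys.mu K (P r) c' Y) =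
      ∑ i ∈ Finset.range K, ∑ j ∈ Finset.range K, (1 / (K : ℝ) ^ 2) * avgB M (fun r =>
        (((P r c i).1 : ℝ) * v2b_ind O (P r c i).2) * (((P r c' j).1 : ℝ) * v2b_ind Y (P r c' j).2)) := by
    rw [e1, avgB_sum]
    refine Finset.sum_congr rfl fun i _ => ?_
    rw [avgB_sum]
    refine Finset.sum_congr rfl fun j _ => ?_
    rw [avgB_mul]
  show avgB M (fun r => Sys.mu K (P r) c O * Sys.mu K (P r) c' Y) ≤ _
  rw [e2]
  -- each term
  have e3 : ∀ i ∈ Finset.range K, ∀ j ∈ Finset.range K, avgB M (fun r =>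
        (((P r c i).1 : ℝ) * v2b_ind O (P r c i).2) * (((P r c' j).1 : ℝ) * v2b_ind Y (P r c' j).2)) ≤
      A * A' + (if j = i then (if O = Y then avgB M (fun r =>
        ((P r c i).1 : ℝ) ^ 2 * v2b_ind O (P r c i).2) else 0) else 0) := by
    intro i hi j hj
    rw [Finset.mem_range] at hi hj
    by_cases hne : (c, i) ≠ (c', j)
    · have h3 := node_two (R := R) (K := K) (J := J) (B := B) S h1 h7 h2 hi h1' h7' h2' hj hne x y
        (fun a => (a.1 : ℝ) * v2b_ind O a.2) (fun a => (a.1 : ℝ) * v2b_ind Y a.2)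
      refine (le_of_eq h3).trans (le_add_of_nonneg_right ?_)
      split_ifs
      · have : avgB M (fun _ => (0 : ℝ)) ≤ avgB M (fun r =>
            ((P r c i).1 : ℝ) ^ 2 * v2b_ind O (P r c i).2) := by
          apply avgB_mono
          intro r _
          exact mul_nonneg (by positivity) (v2b_ind_nn _ _)
        rwa [v2a_avgB_const] at this
      · exact le_rfl
      · exact le_rfl
    · push Not at hne
      obtain ⟨hcc, hij⟩ := Prod.mk.inj hne
      subst hij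
      subst hcc
      rw [if_pos rfl]
      by_cases hOY : O = Y
      · subst hOY
        rw [if_pos rfl]
        have h3 : (fun r => (((P r c i).1 : ℝ) * v2b_ind O (P r c i).2) *
            (((P r c i).1 : ℝ) * v2b_ind O (P r c i).2)) =
            fun r => ((P r c i).1 : ℝ) ^ 2 * v2b_ind O (P r c i).2 := by
          funext r
          unfold v2b_ind
          split_ifs <;> ring
        rw [h3]
        exact le_add_of_nonneg_left (mul_nonneg hA0 hA0')
      · rw [if_neg hOY]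
        have h3 : (fun r => (((P r c i).1 : ℝ) * v2b_ind O (P r c i).2) *
            (((P r c i).1 : ℝ) * v2b_ind Y (P r c i).2)) = fun _ => 0 := by
          funext r
          unfold v2b_ind
          by_cases hz : (P r c i).2 = O
          · rw [if_pos hz, if_neg (fun h => hOY (hz.symm.trans h))]
            ring
          · rw [if_neg hz]
            ring
        rw [h3, v2a_avgB_const, add_zero]
        exact mul_nonneg hA0 hA0'
  have e4 : ∑ i ∈ Finset.range K, ∑ j ∈ Finset.range K, (1 / (K : ℝ) ^ 2) * avgB M (fun r =>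
        (((P r c i).1 : ℝ) * v2b_ind O (P r c i).2) * (((P r c' j).1 : ℝ) * v2b_ind Y (P r c' j).2)) ≤
      ∑ i ∈ Finset.range K, ∑ j ∈ Finset.range K, (1 / (K : ℝ) ^ 2) *
        (A * A' + (if j = i then (if O = Y then avgB M (fun r =>
        ((P r c i).1 : ℝ) ^ 2 * v2b_ind O (P r c i).2) else 0) else 0)) :=
    Finset.sum_le_sum fun i hi => Finset.sum_le_sum fun j hj =>
      mul_le_mul_of_nonneg_left (e3 i hi j hj) (by positivity)
  refine e4.trans (le_of_eq ?_)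
  have e5 : ∀ i ∈ Finset.range K, ∑ j ∈ Finset.range K, (1 / (K : ℝ) ^ 2) *
        (A * A' + (if j = i then (if O = Y then avgB M (fun r =>
        ((P r c i).1 : ℝ) ^ 2 * v2b_ind O (P r c i).2) else 0) else 0)) =
      (1 / (K : ℝ)) * (A * A') + (1 / (K : ℝ) ^ 2) * (if O = Y then avgB M (fun r =>
        ((P r c i).1 : ℝ) ^ 2 * v2b_ind O (P r c i).2) else 0) := by
    intro i hi
    rw [← Finset.mul_sum, Finset.sum_add_distrib, Finset.sum_const, Finset.card_range,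
      nsmul_eq_mul, Finset.sum_ite_eq' (Finset.range K) i, if_pos hi]
    field_simp
  rw [Finset.sum_congr rfl e5, Finset.sum_add_distrib, Finset.sum_const, Finset.card_range,
    nsmul_eq_mul, ← Finset.mul_sum]
  have e6 : (K : ℝ) * (1 / (K : ℝ) * (A * A')) = A * A' := by field_simp
  rw [e6]
  congr 1
  by_cases hOY : O = Y
  · simp only [if_pos hOY]
    have e7 : avgB M (fun r => Sys.nu K (P r) c O) = ∑ i ∈ Finset.range K, (1 / (K : ℝ)) *
        avgB M (fun r => ((P r c i).1 : ℝ) ^ 2 * v2b_ind O (P r c i).2) := by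
      simp only [v2b_nu_eq]
      rw [avgB_sum]
      refine Finset.sum_congr rfl fun i _ => ?_
      rw [avgB_mul]
    show _ = avgB M (fun r => Sys.nu K (P r) c O) / K
    rw [e7, ← Finset.mul_sum]
    field_simp
  · simp only [if_neg hOY, Finset.sum_const_zero, mul_zero]

end Node

theorem moments {R K J B : ℕ} (hK : 1 ≤ K) (hJ : 1 ≤ J) (hW : 1 ≤ S.W)
    (hR : ∀ c ∈ S.Cls, c.1 < R ∧ c.2 < 7) (hB : S.W * K * K ∣ 2 ^ B) {η : ℝ} (hη0 : 0 ≤ η)
    (hη1 : η ≤ 1) (hη : (J : ℝ) * J ^ R ≤ η * 2 ^ B) :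
    S.Moments K J η (fun h O => S.expP R K J B h (fun p => Sys.mu K p (S.cl O) O))
      (fun h O Y => S.expP R K J B h (fun p => Sys.mu K p (S.cl O) O * Sys.mu K p (S.cl Y) Y))
      (fun h O => S.expP R K J B h (fun p => Sys.nu K p (S.cl O) O)) := by
  have hK0 : (0 : ℝ) < K := by exact_mod_cast (by omega : 0 < K)
  -- objects of size one
  have hunit : ∀ c ∈ S.Cls, c.1 = 1 → ∀ O ∈ S.Om c, ∀ p, S.Good K J p →
      Sys.mu K p (S.cl O) O = 1 ∧ Sys.nu K p (S.cl O) O = 1 := by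
    intro c hc h1 O hO p hp
    rw [S.cl_eq c hc O hO]
    have h3 := (hp c hc).2 h1
    rcases S.unit_card c hc h1 with ⟨h4, -⟩ | ⟨h4, h5⟩
    · rw [h4] at hO
      exact absurd hO (Finset.notMem_empty _)
    · rw [h4, Finset.mem_singleton] at hO
      constructor
      · unfold Sys.mu
        have : ∀ i ∈ Finset.range K, (if (p c i).2 = O then ((p c i).1 : ℝ) else 0) = 1 := by
          intro i hi
          rw [h3 i (Finset.mem_range.1 hi), if_pos hO.symm, h5]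
          norm_num
        rw [Finset.sum_congr rfl this, Finset.sum_const, Finset.card_range, nsmul_eq_mul, mul_one,
          div_self hK0.ne']
      · unfold Sys.nu
        have : ∀ i ∈ Finset.range K, (if (p c i).2 = O then ((p c i).1 : ℝ) ^ 2 else 0) = 1 := by
          intro i hi
          rw [h3 i (Finset.mem_range.1 hi), if_pos hO.symm, h5]
          norm_num
        rw [Finset.sum_congr rfl this, Finset.sum_const, Finset.card_range, nsmul_eq_mul, mul_one,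
          div_self hK0.ne']
  have hleaf : ∀ c ∈ S.Cls, 2 ≤ c.1 → ∀ O ∈ S.Om c, Sys.mu K (S.leafP K) (S.cl O) O = 0 ∧
      Sys.nu K (S.leafP K) (S.cl O) O = 0 := by
    intro c hc h2 O hO
    rw [S.cl_eq c hc O hO]
    have h3 : ∀ i, S.leafP K c i = (0, (S.unit (1, 0)).2) := by
      intro i
      unfold Sys.leafP
      rw [if_neg (by omega)]
    constructor
    · unfold Sys.mu
      simp [h3]
    · unfold Sys.nu
      simp [h3]
  have e_succ : ∀ (h : ℕ) (F : SPool α → ℝ), S.expP R K J B (h + 1) F =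
      S.expP R K J B h (fun x => S.expP R K J B h (fun y =>
        avgB (Sys.nodeBits R K J B) (fun r => F (S.nodeP R K J B r x y)))) := fun _ _ => rfl
  refine ⟨?_, ?_, ?_, ?_, ?_, ?_, ?_, ?_, ?_⟩
  · intro h O
    exact v2b_expP_nn S hJ hW hR h fun p _ => v2b_mu_nn K p _ _
  · intro h O Y
    exact v2b_expP_nn S hJ hW hR h fun p _ => mul_nonneg (v2b_mu_nn K p _ _) (v2b_mu_nn K p _ _)
  · intro h O
    exact v2b_expP_nn S hJ hW hR h fun p _ => v2b_nu_nn K p _ _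
  · intro h c hc h1 O hO
    have h3 := hunit c hc h1 O hO
    refine ⟨?_, ?_, fun Y => ?_, fun Y => ?_⟩
    · rw [v2b_expP_congr S hJ hW hR h (F' := fun _ => 1) (fun p hp => (h3 p hp).1), expP_const]
    · rw [v2b_expP_congr S hJ hW hR h (F' := fun _ => 1) (fun p hp => (h3 p hp).2), expP_const]
    · exact v2b_expP_congr S hJ hW hR h (fun p hp => by rw [(h3 p hp).1, one_mul])
    · exact v2b_expP_congr S hJ hW hR h (fun p hp => by rw [(h3 p hp).1, mul_one])
  · intro c hc h2 O hO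
    obtain ⟨h3, h4⟩ := hleaf c hc h2 O hO
    refine ⟨h3, h4, fun Y => ⟨?_, ?_⟩⟩
    · show Sys.mu K (S.leafP K) (S.cl O) O * _ = 0
      rw [h3, zero_mul]
    · show _ * Sys.mu K (S.leafP K) (S.cl O) O = 0
      rw [h3, mul_zero]
  · intro h c hc h2 O hO
    show S.expP R K J B (h + 1) (fun p => Sys.mu K p (S.cl O) O) ≤ _
    rw [e_succ, ← v2b_prod]
    refine expP_mono S hJ hW hR h fun x hx => expP_mono S hJ hW hR h fun y hy => ?_
    rw [S.cl_eq c hc O hO, v2b_node_mu S hK hJ hW hR hB hη0 hη1 hη hc h2]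
    exact v2b_slot_up S hK hJ hW hR hB hη0 hη1 hη hc h2 hO hx hy
  · intro h c hc h2 O hO
    show _ ≤ S.expP R K J B (h + 1) (fun p => Sys.mu K p (S.cl O) O)
    rw [e_succ, ← v2b_prod]
    refine expP_mono S hJ hW hR h fun x hx => expP_mono S hJ hW hR h fun y hy => ?_
    rw [S.cl_eq c hc O hO, v2b_node_mu S hK hJ hW hR hB hη0 hη1 hη hc h2]
    exact v2b_slot_lo S hK hJ hW hR hB hη0 hη1 hη hc h2 hO hx hy
  · intro h c hc h2 c' hc' h2' O hO Y hY
    show S.expP R K J B (h + 1) (fun p => Sys.mu K p (S.cl O) O * Sys.mu K p (S.cl Y) Y) ≤ _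
    rw [e_succ, ← v2b_prod]
    have hN : (if O = Y then S.expP R K J B (h + 1) (fun p => Sys.nu K p (S.cl O) O) / K else 0) =
        S.expP R K J B h (fun x => S.expP R K J B h (fun y => (if O = Y then
          avgB (Sys.nodeBits R K J B) (fun r => Sys.nu K (S.nodeP R K J B r x y) (S.cl O) O) / K
            else 0))) := by
      by_cases hOY : O = Y
      · simp only [if_pos hOY]
        rw [e_succ]
        have e1 : ∀ F : SPool α → SPool α → ℝ, S.expP R K J B h (fun x => S.expP R K J B h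
            (fun y => F x y / K)) = S.expP R K J B h (fun x => S.expP R K J B h (fun y => F x y)) / K := by
          intro F
          simp only [div_eq_inv_mul, expP_smul]
        rw [e1]
      · simp only [if_neg hOY]
        rw [expP_const, expP_const]
    rw [hN, ← expP_add]
    refine expP_mono S hJ hW hR h fun x hx => ?_
    rw [← expP_add]
    refine expP_mono S hJ hW hR h fun y hy => ?_
    rw [S.cl_eq c hc O hO, S.cl_eq c' hc' Y hY]
    refine (v2b_node_two S hK hJ hW hR hB hη0 hη1 hη hc h2 hc' h2' hO hY hx hy).trans ?_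
    apply add_le_add _ le_rfl
    have u1 := v2b_slot_up S hK hJ hW hR hB hη0 hη1 hη hc h2 hO hx hy
    have u2 := v2b_slot_up S hK hJ hW hR hB hη0 hη1 hη hc' h2' hY hx hy
    have n1 := v2b_slot_nn S hK hJ hW hR hB hη0 hη1 hη hc h2 hO hx hy
    have n2 := v2b_slot_nn S hK hJ hW hR hB hη0 hη1 hη hc' h2' hY hx hy
    refine (mul_le_mul u1 u2 n2 (n1.trans u1)).trans (le_of_eq ?_)
    ring
  · intro h c hc h2 O hO
    show S.expP R K J B (h + 1) (fun p => Sys.nu K p (S.cl O) O) ≤ _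
    rw [e_succ]
    -- the bound for fixed pools
    have hb : ∀ x, S.Good K J x → ∀ y, S.Good K J y →
        avgB (Sys.nodeBits R K J B) (fun r => Sys.nu K (S.nodeP R K J B r x y) (S.cl O) O) ≤
        (1 + η) ^ J * ((J : ℝ) / S.W) * (Sys.nu K x (S.cl (S.Lf O)) (S.Lf O) *
            Sys.nu K y (S.cl (S.Rf O)) (S.Rf O)) +
          ∑ Y ∈ S.Om c, (1 + η) ^ J * ((J : ℝ) / S.W) ^ 2 *
            ((Sys.mu K x (S.cl (S.Lf O)) (S.Lf O) * Sys.mu K x (S.cl (S.Lf Y)) (S.Lf Y)) *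
              (Sys.mu K y (S.cl (S.Rf O)) (S.Rf O) * Sys.mu K y (S.cl (S.Rf Y)) (S.Rf Y))) := by
      intro x hx y hy
      rw [S.cl_eq c hc O hO, v2b_node_nu S hK hJ hW hR hB hη0 hη1 hη hc h2]
      have h3 := (slot_moments S hK hJ hW hB hc h2 hx hy hη0 hη1
        (v2b_eta S hK hJ hW hR hB hη0 hη1 hη hc) (v2b_ind O) (v2b_ind_nn O)).2.2
      rw [v2b_tm_ind S K x y hO, v2b_tq_ind S K x y hO] at h3
      refine h3.trans (le_of_eq ?_)
      have e1 : S.tm K c x y (fun _ => 1) = (∑ Y ∈ S.Om c, Sys.mu K x (S.cl (S.Lf Y)) (S.Lf Y) *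
          Sys.mu K y (S.cl (S.Rf Y)) (S.Rf Y)) / S.W := by
        unfold Sys.tm
        simp only [mul_one]
      rw [e1, ← Finset.mul_sum]
      have e2 : ∑ Y ∈ S.Om c, ((Sys.mu K x (S.cl (S.Lf O)) (S.Lf O) *
            Sys.mu K x (S.cl (S.Lf Y)) (S.Lf Y)) * (Sys.mu K y (S.cl (S.Rf O)) (S.Rf O) *
            Sys.mu K y (S.cl (S.Rf Y)) (S.Rf Y))) =
          (Sys.mu K x (S.cl (S.Lf O)) (S.Lf O) * Sys.mu K y (S.cl (S.Rf O)) (S.Rf O)) *
            ∑ Y ∈ S.Om c, Sys.mu K x (S.cl (S.Lf Y)) (S.Lf Y) *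
              Sys.mu K y (S.cl (S.Rf Y)) (S.Rf Y) := by
        rw [Finset.mul_sum]
        refine Finset.sum_congr rfl fun Y _ => ?_
        ring
      rw [e2]
      ring
    have hmono := expP_mono (B := B) S hJ hW hR h (fun x hx => expP_mono (B := B) S hJ hW hR h
      (fun y hy => hb x hx y hy))
    refine hmono.trans (le_of_eq ?_)
    have e3 : ∀ x, S.expP R K J B h (fun y => (1 + η) ^ J * ((J : ℝ) / S.W) *
          (Sys.nu K x (S.cl (S.Lf O)) (S.Lf O) * Sys.nu K y (S.cl (S.Rf O)) (S.Rf O)) +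
          ∑ Y ∈ S.Om c, (1 + η) ^ J * ((J : ℝ) / S.W) ^ 2 *
            ((Sys.mu K x (S.cl (S.Lf O)) (S.Lf O) * Sys.mu K x (S.cl (S.Lf Y)) (S.Lf Y)) *
              (Sys.mu K y (S.cl (S.Rf O)) (S.Rf O) * Sys.mu K y (S.cl (S.Rf Y)) (S.Rf Y)))) =
        S.expP R K J B h (fun y => (1 + η) ^ J * ((J : ℝ) / S.W) *
          (Sys.nu K x (S.cl (S.Lf O)) (S.Lf O) * Sys.nu K y (S.cl (S.Rf O)) (S.Rf O))) +
        ∑ Y ∈ S.Om c, S.expP R K J B h (fun y => (1 + η) ^ J * ((J : ℝ) / S.W) ^ 2 *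
            ((Sys.mu K x (S.cl (S.Lf O)) (S.Lf O) * Sys.mu K x (S.cl (S.Lf Y)) (S.Lf Y)) *
              (Sys.mu K y (S.cl (S.Rf O)) (S.Rf O) * Sys.mu K y (S.cl (S.Rf Y)) (S.Rf Y)))) := by
      intro x
      rw [expP_add, expP_sum]
    simp only [e3]
    rw [expP_add, expP_sum, v2b_prod]
    have e4 : ∀ Y ∈ S.Om c, S.expP R K J B h (fun x => S.expP R K J B h (fun y =>
          (1 + η) ^ J * ((J : ℝ) / S.W) ^ 2 *
            ((Sys.mu K x (S.cl (S.Lf O)) (S.Lf O) * Sys.mu K x (S.cl (S.Lf Y)) (S.Lf Y)) *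
              (Sys.mu K y (S.cl (S.Rf O)) (S.Rf O) * Sys.mu K y (S.cl (S.Rf Y)) (S.Rf Y))))) =
        (1 + η) ^ J * ((J : ℝ) / S.W) ^ 2 *
          (S.expP R K J B h (fun p => Sys.mu K p (S.cl (S.Lf O)) (S.Lf O) *
              Sys.mu K p (S.cl (S.Lf Y)) (S.Lf Y)) *
            S.expP R K J B h (fun p => Sys.mu K p (S.cl (S.Rf O)) (S.Rf O) *
              Sys.mu K p (S.cl (S.Rf Y)) (S.Rf Y))) := by
      intro Y _
      exact v2b_prod S R K J B h _ (fun p => Sys.mu K p (S.cl (S.Lf O)) (S.Lf O) *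
              Sys.mu K p (S.cl (S.Lf Y)) (S.Lf Y)) (fun p => Sys.mu K p (S.cl (S.Rf O)) (S.Rf O) *
              Sys.mu K p (S.cl (S.Rf Y)) (S.Rf Y))
    rw [Finset.sum_congr rfl e4, ← Finset.mul_sum]
    ring

end Abstract

end Pool.Agent.Lib.MP_104326_lc.FP
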