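import Pool.Agent.Lib.MP_104326_lc.FP.Sys

/-!
# FP, module V3: the excess correlation

`Xi` is the sum over the nodes `v` of `psi (nd v O) (nd v Y)`, where
`psi k (O, Y) = κ T [O = Y] + Xi k (O_L, Y_L) Xi k (O_R, Y_R)`. The number of `Y` with a given piece at
the node `v` is bounded by `hstar`; the second term of `psi` is quadratic in `Xi`.
-/

set_option autoImplicit false

open Finset

namespace Pool.Agent.Lib.MP_104326_lc.FP

open Pool.Agent.Lib.PolyTime Pool.Agent.Lib.MP_104326_lc.KR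

namespace V3

variable {α : Type} [DecidableEq α] (S : Sys α)

theorem T_nonneg (c : ℕ × ℕ) : 0 ≤ S.T c := Nat.cast_nonneg _

theorem xi_nn {κ : ℝ} (hκ : 0 ≤ κ) (h : ℕ) (O Y : α) : 0 ≤ S.Xi κ h O Y := by
  induction h generalizing O Y with
  | zero => exact le_refl _
  | succ h ih =>
    unfold Sys.Xi
    split_ifs
    · have := ih (S.Lf O) (S.Lf Y)
      have := ih (S.Rf O) (S.Rf Y)
      have := T_nonneg S (S.cl O)
      positivity
    · have := ih (S.Lf O) (S.Lf Y)
      have := ih (S.Rf O) (S.Rf Y)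
      positivity
    · exact le_refl _

/-- The new part of the excess correlation at height `k + 1`. -/
noncomputable def psi (κ : ℝ) (k : ℕ) (O Y : α) : ℝ :=
  if S.big O && S.big Y then
    (if O = Y then κ * S.T (S.cl O) else 0) + S.Xi κ k (S.Lf O) (S.Lf Y) * S.Xi κ k (S.Rf O) (S.Rf Y)
  else 0

theorem psi_nn {κ : ℝ} (hκ : 0 ≤ κ) (k : ℕ) (O Y : α) : 0 ≤ psi S κ k O Y := by
  unfold psi
  have h1 := xi_nn S hκ k (S.Lf O) (S.Lf Y)
  have h2 := xi_nn S hκ k (S.Rf O) (S.Rf Y)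
  have h3 := T_nonneg S (S.cl O)
  split_ifs <;> positivity

theorem xi_succ (κ : ℝ) (k : ℕ) (O Y : α) : S.Xi κ (k + 1) O Y =
    psi S κ k O Y + (if S.big O && S.big Y then S.Xi κ k (S.Lf O) (S.Lf Y) + S.Xi κ k (S.Rf O) (S.Rf Y)
      else 0) := by
  unfold psi
  conv_lhs => unfold Sys.Xi
  by_cases h : (S.big O && S.big Y) = true
  · simp only [h, if_true]; ring
  · simp only [h]; simp

theorem xi_zero_left {κ : ℝ} {O : α} (hO : S.big O = false) (k : ℕ) (Y : α) : S.Xi κ k O Y = 0 := by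
  cases k with
  | zero => rfl
  | succ k => unfold Sys.Xi; simp [hO]

theorem xi_zero_right {κ : ℝ} {Y : α} (hY : S.big Y = false) (k : ℕ) (O : α) : S.Xi κ k O Y = 0 := by
  cases k with
  | zero => rfl
  | succ k => unfold Sys.Xi; simp [hY]

theorem nd_append (v : List Bool) (b : Bool) (O : α) :
    S.nd (v ++ [b]) O = if b then S.Lf (S.nd v O) else S.Rf (S.nd v O) := by
  induction v generalizing O with
  | nil => rfl
  | cons a v ih => simp only [List.cons_append, Sys.nd]; exact ih _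

theorem okv_append (v : List Bool) (b : Bool) (O : α) :
    S.okv (v ++ [b]) O = (S.okv v O && S.big (if b then S.Lf (S.nd v O) else S.Rf (S.nd v O))) := by
  induction v generalizing O with
  | nil => rfl
  | cons a v ih =>
    simp only [List.cons_append, Sys.okv, Sys.nd]
    rw [ih, Bool.and_assoc]

theorem child_mem {c : ℕ × ℕ} (hc : c ∈ S.Cls) {O : α} (hO : O ∈ S.Om c) (hb : S.big O = true) :
    S.cl (S.Lf O) ∈ S.Cls ∧ S.Lf O ∈ S.Om (S.cl (S.Lf O)) ∧
      S.cl (S.Rf O) ∈ S.Cls ∧ S.Rf O ∈ S.Om (S.cl (S.Rf O)) := by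
  have h2 : 2 ≤ c.1 := by
    unfold Sys.big at hb
    rw [decide_eq_true_iff, S.cl_eq c hc O hO] at hb
    exact hb
  obtain ⟨-, -, -, -, h5, h6, h7, h8, -⟩ := S.G_ch c hc h2 O hO
  exact ⟨h5, h7, h6, h8⟩

theorem nd_mem (v : List Bool) {c : ℕ × ℕ} (hc : c ∈ S.Cls) {O : α} (hO : O ∈ S.Om c)
    (hv : S.okv v O = true) : S.cl (S.nd v O) ∈ S.Cls ∧ S.nd v O ∈ S.Om (S.cl (S.nd v O)) := by
  induction v generalizing c O with
  | nil =>
    have : S.cl O = c := S.cl_eq c hc O hO
    simp only [Sys.nd, this]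
    exact ⟨hc, hO⟩
  | cons b v ih =>
    simp only [Sys.okv, Bool.and_eq_true] at hv
    obtain ⟨h1, h2⟩ := hv
    obtain ⟨a1, a2, a3, a4⟩ := child_mem S hc hO h1
    simp only [Sys.nd]
    cases b
    · simp only [Bool.false_eq_true, if_false] at h2 ⊢
      exact ih a3 a4 h2
    · simp only [if_true] at h2 ⊢
      exact ih a1 a2 h2

/-- The normalized sum over all objects of all classes. -/
noncomputable def nsum (f : α → ℝ) : ℝ := ∑ c ∈ S.Cls, (∑ Y ∈ S.Om c, f Y) / S.T c

theorem nsum_nn {f : α → ℝ} (hf : ∀ Y, 0 ≤ f Y) : 0 ≤ nsum S f :=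
  Finset.sum_nonneg fun c _ => div_nonneg (Finset.sum_nonneg fun Y _ => hf Y) (T_nonneg S c)

/-- the sum over the objects with a piece at the node `v` -/
theorem star_sum {Q1 : ℝ} (hQ1 : 0 ≤ Q1)
    (hstar : ∀ v, ∀ c ∈ S.Cls, ∀ c' ∈ S.Cls, ∀ B ∈ S.Om c',
      (((S.Om c).filter (fun Y => S.okv v Y = true ∧ S.nd v Y = B)).card : ℝ) * S.T c' ≤
        Q1 * S.T c) (v : List Bool) {c : ℕ × ℕ} (hc : c ∈ S.Cls) {f : α → ℝ} (hf : ∀ Y, 0 ≤ f Y) :
    ∑ Y ∈ S.Om c, (if S.okv v Y = true then f (S.nd v Y) else 0) ≤ Q1 * S.T c * nsum S f := by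
  rw [← Finset.sum_filter, Finset.sum_comp f (S.nd v)]
  have hdisj : Set.PairwiseDisjoint (S.Cls : Set (ℕ × ℕ)) S.Om := by
    intro c1 h1 c2 h2 hne
    rw [Function.onFun, Finset.disjoint_left]
    intro O hO1 hO2
    exact hne ((S.cl_eq c1 h1 O hO1).symm.trans (S.cl_eq c2 h2 O hO2))
  have hsub : ((S.Om c).filter (fun Y => S.okv v Y = true)).image (S.nd v) ⊆ S.Cls.biUnion S.Om := by
    intro B hB
    obtain ⟨Y, hY, rfl⟩ := Finset.mem_image.1 hB
    rw [Finset.mem_filter] at hY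
    obtain ⟨h1, h2⟩ := nd_mem S v hc hY.1 hY.2
    exact Finset.mem_biUnion.2 ⟨_, h1, h2⟩
  calc ∑ B ∈ ((S.Om c).filter (fun Y => S.okv v Y = true)).image (S.nd v),
        (((S.Om c).filter (fun Y => S.okv v Y = true)).filter (fun Y => S.nd v Y = B)).card • f B
      ≤ ∑ B ∈ ((S.Om c).filter (fun Y => S.okv v Y = true)).image (S.nd v),
          Q1 * S.T c * (f B / S.T (S.cl B)) := by
        refine Finset.sum_le_sum fun B hB => ?_
        obtain ⟨Y, hY, rfl⟩ := Finset.mem_image.1 hB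
        rw [Finset.mem_filter] at hY
        obtain ⟨h1, h2⟩ := nd_mem S v hc hY.1 hY.2
        have h3 := hstar v c hc _ h1 _ h2
        have hT : 0 < S.T (S.cl (S.nd v Y)) := by
          unfold Sys.T
          exact_mod_cast Finset.card_pos.2 ⟨_, h2⟩
        rw [Finset.filter_filter, nsmul_eq_mul, ← mul_div_assoc, le_div_iff₀ hT]
        have h4 := mul_le_mul_of_nonneg_right h3 (hf (S.nd v Y))
        nlinarith [h4]
    _ ≤ ∑ B ∈ S.Cls.biUnion S.Om, Q1 * S.T c * (f B / S.T (S.cl B)) := by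
        refine Finset.sum_le_sum_of_subset_of_nonneg hsub fun B _ _ => ?_
        exact mul_nonneg (mul_nonneg hQ1 (T_nonneg S c)) (div_nonneg (hf B) (T_nonneg S _))
    _ = Q1 * S.T c * nsum S f := by
        rw [Finset.sum_biUnion hdisj, nsum, Finset.mul_sum]
        refine Finset.sum_congr rfl fun c' hc' => ?_
        rw [Finset.sum_div, Finset.mul_sum]
        refine Finset.sum_congr rfl fun B hB => ?_
        rw [S.cl_eq c' hc' B hB]

/-- the sum of `psi` -/
theorem psi_sum {Q0 κ x : ℝ} {k : ℕ} (hκ : 0 ≤ κ) (hQ0 : 0 ≤ Q0) (hx : 0 ≤ x)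
    (hsup : ∀ c ∈ S.Cls, 2 ≤ c.1 → ∀ Y ∈ S.Om c, S.T (S.cl (S.Lf Y)) * S.T (S.cl (S.Rf Y)) ≤
      Q0 * S.T c)
    (hk : ∀ c ∈ S.Cls, ∀ O ∈ S.Om c, nsum S (S.Xi κ k O) ≤ x)
    {c : ℕ × ℕ} (hc : c ∈ S.Cls) {O : α} (hO : O ∈ S.Om c) :
    nsum S (psi S κ k O) ≤ κ + S.Cls.card * Q0 * S.W * x ^ 2 := by
  by_cases hb : S.big O = true
  swap
  · have : ∀ Y, psi S κ k O Y = 0 := by
      intro Y; unfold psi; simp [hb]
    unfold nsum
    simp only [this, Finset.sum_const_zero, zero_div]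
    positivity
  obtain ⟨hL1, hL2, hR1, hR2⟩ := child_mem S hc hO hb
  -- class sums of `Xi`
  have hcls : ∀ P : α, nsum S (S.Xi κ k P) ≤ x → ∀ c1 ∈ S.Cls, ∑ Y ∈ S.Om c1, S.Xi κ k P Y ≤ x * S.T c1 := by
    intro P hP c1 hc1
    have h1 : (∑ Y ∈ S.Om c1, S.Xi κ k P Y) / S.T c1 ≤ x := by
      refine le_trans ?_ hP
      exact Finset.single_le_sum (f := fun c => (∑ Y ∈ S.Om c, S.Xi κ k P Y) / S.T c)
        (fun c _ => div_nonneg (Finset.sum_nonneg fun Y _ => xi_nn S hκ k P Y) (T_nonneg S c)) hc1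
    rcases (Nat.eq_zero_or_pos (S.Om c1).card) with h0 | h0
    · rw [Finset.card_eq_zero] at h0
      rw [h0, Finset.sum_empty]
      exact mul_nonneg hx (T_nonneg S c1)
    · have hT : 0 < S.T c1 := by unfold Sys.T; exact_mod_cast h0
      rwa [div_le_iff₀ hT] at h1
  have hsplit : ∀ Y, psi S κ k O Y ≤ (if O = Y then κ * S.T (S.cl O) else 0) +
      (if S.big Y = true then S.Xi κ k (S.Lf O) (S.Lf Y) * S.Xi κ k (S.Rf O) (S.Rf Y) else 0) := by
    intro Y
    unfold psi
    have h3 := T_nonneg S (S.cl O)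
    by_cases hY : S.big Y = true
    · simp [hb, hY]
    · simp only [hb, hY, Bool.true_and]
      simp only [Bool.false_eq_true, if_false, add_zero]
      split_ifs <;> positivity
  have h1 : nsum S (fun Y => if O = Y then κ * S.T (S.cl O) else 0) ≤ κ := by
    unfold nsum
    have e1 : ∀ c' ∈ S.Cls, (∑ Y ∈ S.Om c', if O = Y then κ * S.T (S.cl O) else 0) / S.T c' =
        if c' = c then κ else 0 := by
      intro c' hc'
      rw [Finset.sum_ite_eq]
      by_cases h : c' = c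
      · subst h
        rw [if_pos hO, if_pos rfl, S.cl_eq c' hc' O hO]
        have hT : S.T c' ≠ 0 := by
          unfold Sys.T
          exact_mod_cast (Finset.card_pos.2 ⟨_, hO⟩).ne'
        field_simp
      · rw [if_neg h, if_neg, zero_div]
        intro hO'
        exact h ((S.cl_eq c' hc' O hO').symm.trans (S.cl_eq c hc O hO))
    rw [Finset.sum_congr rfl e1, Finset.sum_ite_eq', if_pos hc]
  have h2 : nsum S (fun Y => if S.big Y = true then
      S.Xi κ k (S.Lf O) (S.Lf Y) * S.Xi κ k (S.Rf O) (S.Rf Y) else 0) ≤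
      S.Cls.card * Q0 * S.W * x ^ 2 := by
    have e2 : ∀ c' ∈ S.Cls, (∑ Y ∈ S.Om c', if S.big Y = true then
        S.Xi κ k (S.Lf O) (S.Lf Y) * S.Xi κ k (S.Rf O) (S.Rf Y) else 0) / S.T c' ≤
        Q0 * S.W * x ^ 2 := by
      intro c' hc'
      rcases (Nat.eq_zero_or_pos (S.Om c').card) with h0 | h0
      · rw [Finset.card_eq_zero] at h0
        rw [h0, Finset.sum_empty, zero_div]
        positivity
      have hT : 0 < S.T c' := by unfold Sys.T; exact_mod_cast h0
      rw [div_le_iff₀ hT]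
      by_cases hc2 : 2 ≤ c'.1
      swap
      · have : ∀ Y ∈ S.Om c', (if S.big Y = true then
            S.Xi κ k (S.Lf O) (S.Lf Y) * S.Xi κ k (S.Rf O) (S.Rf Y) else 0) = 0 := by
          intro Y hY
          rw [if_neg]
          unfold Sys.big
          rw [decide_eq_true_iff, S.cl_eq c' hc' Y hY]
          exact hc2
        rw [Finset.sum_congr rfl this, Finset.sum_const_zero]
        positivity
      -- group by the parameter of the decomposition
      have hmaps : ∀ Y ∈ S.Om c', S.ch Y ∈ Finset.range S.W := fun Y hY =>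
        Finset.mem_range.2 (S.G_ch c' hc' hc2 Y hY).1
      rw [← Finset.sum_fiberwise_of_maps_to hmaps]
      have e3 : ∀ w ∈ Finset.range S.W, ∑ Y ∈ (S.Om c').filter (fun Y => S.ch Y = w),
          (if S.big Y = true then
            S.Xi κ k (S.Lf O) (S.Lf Y) * S.Xi κ k (S.Rf O) (S.Rf Y) else 0) ≤
          Q0 * S.T c' * x ^ 2 := by
        intro w _
        rcases ((S.Om c').filter (fun Y => S.ch Y = w)).eq_empty_or_nonempty with he | ⟨Y0, hY0⟩
        · rw [he, Finset.sum_empty]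
          have := T_nonneg S c'
          positivity
        rw [Finset.mem_filter] at hY0
        obtain ⟨g1, g2, g3, g4, g5, g6, g7, g8, g9⟩ := S.G_ch c' hc' hc2 Y0 hY0.1
        set c1 := S.lcl c' w with hc1
        set c2 := S.rcl c' w with hc2'
        rw [hY0.2] at g3 g4
        have hc1m : c1 ∈ S.Cls := by rw [hc1, g3]; exact g5
        have hc2m : c2 ∈ S.Cls := by rw [hc2', g4]; exact g6
        have hTT : S.T c1 * S.T c2 ≤ Q0 * S.T c' := by
          rw [hc1, hc2', g3, g4]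
          exact hsup c' hc' hc2 Y0 hY0.1
        have hle : ∑ Y ∈ (S.Om c').filter (fun Y => S.ch Y = w),
            (if S.big Y = true then
              S.Xi κ k (S.Lf O) (S.Lf Y) * S.Xi κ k (S.Rf O) (S.Rf Y) else 0) ≤
            ∑ q ∈ S.Om c1 ×ˢ S.Om c2, S.Xi κ k (S.Lf O) q.1 * S.Xi κ k (S.Rf O) q.2 := by
          have hinj : Set.InjOn (fun Y => (S.Lf Y, S.Rf Y))
              ((S.Om c').filter (fun Y => S.ch Y = w) : Finset α) := by
            intro Y hY Y' hY' hEq
            rw [Finset.coe_filter, Set.mem_ofPred_eq] at hY hY'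
            simp only [Prod.mk.injEq] at hEq
            have a1 := (S.G_ch c' hc' hc2 Y hY.1).2.1
            have a2 := (S.G_ch c' hc' hc2 Y' hY'.1).2.1
            rw [hY.2, hEq.1, hEq.2] at a1
            rw [hY'.2] at a2
            rw [a2] at a1
            exact (Option.some.inj a1).symm
          have himg : ((S.Om c').filter (fun Y => S.ch Y = w)).image (fun Y => (S.Lf Y, S.Rf Y)) ⊆
              S.Om c1 ×ˢ S.Om c2 := by
            intro q hq
            obtain ⟨Y, hY, rfl⟩ := Finset.mem_image.1 hq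
            rw [Finset.mem_filter] at hY
            obtain ⟨-, -, b3, b4, -, -, b7, b8, -⟩ := S.G_ch c' hc' hc2 Y hY.1
            rw [hY.2] at b3 b4
            rw [Finset.mem_product]
            refine ⟨?_, ?_⟩
            · show S.Lf Y ∈ S.Om c1
              rw [hc1, b3]; exact b7
            · show S.Rf Y ∈ S.Om c2
              rw [hc2', b4]; exact b8
          calc _ ≤ ∑ Y ∈ (S.Om c').filter (fun Y => S.ch Y = w),
                S.Xi κ k (S.Lf O) (S.Lf Y) * S.Xi κ k (S.Rf O) (S.Rf Y) := by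
                refine Finset.sum_le_sum fun Y _ => ?_
                have n1 := xi_nn S hκ k (S.Lf O) (S.Lf Y)
                have n2 := xi_nn S hκ k (S.Rf O) (S.Rf Y)
                split_ifs
                · exact le_refl _
                · positivity
            _ = ∑ q ∈ ((S.Om c').filter (fun Y => S.ch Y = w)).image (fun Y => (S.Lf Y, S.Rf Y)),
                S.Xi κ k (S.Lf O) q.1 * S.Xi κ k (S.Rf O) q.2 := by
                rw [Finset.sum_image hinj]
            _ ≤ _ := Finset.sum_le_sum_of_subset_of_nonneg himg fun q _ _ =>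
                mul_nonneg (xi_nn S hκ k _ _) (xi_nn S hκ k _ _)
        have hprod : ∑ q ∈ S.Om c1 ×ˢ S.Om c2, S.Xi κ k (S.Lf O) q.1 * S.Xi κ k (S.Rf O) q.2 =
            (∑ Y ∈ S.Om c1, S.Xi κ k (S.Lf O) Y) * ∑ Y ∈ S.Om c2, S.Xi κ k (S.Rf O) Y := by
          rw [Finset.sum_mul_sum, Finset.sum_product]
        rw [hprod] at hle
        refine hle.trans ?_
        have k1 := hcls (S.Lf O) (hk _ hL1 _ hL2) c1 hc1m
        have k2 := hcls (S.Rf O) (hk _ hR1 _ hR2) c2 hc2m
        have k3 : 0 ≤ ∑ Y ∈ S.Om c2, S.Xi κ k (S.Rf O) Y := Finset.sum_nonneg fun Y _ => xi_nn S hκ k _ _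
        calc _ ≤ (x * S.T c1) * (x * S.T c2) :=
              mul_le_mul k1 k2 k3 (mul_nonneg hx (T_nonneg S c1))
          _ = S.T c1 * S.T c2 * x ^ 2 := by ring
          _ ≤ _ := mul_le_mul_of_nonneg_right hTT (by positivity)
      calc _ ≤ ∑ _w ∈ Finset.range S.W, Q0 * S.T c' * x ^ 2 := Finset.sum_le_sum e3
        _ = Q0 * S.W * x ^ 2 * S.T c' := by
          rw [Finset.sum_const, Finset.card_range, nsmul_eq_mul]; ring
    unfold nsum
    calc _ ≤ ∑ _c ∈ S.Cls, Q0 * S.W * x ^ 2 := Finset.sum_le_sum e2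
      _ = _ := by rw [Finset.sum_const, nsmul_eq_mul]; ring
  have h3 : nsum S (psi S κ k O) ≤ nsum S (fun Y => if O = Y then κ * S.T (S.cl O) else 0) +
      nsum S (fun Y => if S.big Y = true then
        S.Xi κ k (S.Lf O) (S.Lf Y) * S.Xi κ k (S.Rf O) (S.Rf Y) else 0) := by
    unfold nsum
    rw [← Finset.sum_add_distrib]
    refine Finset.sum_le_sum fun c' _ => ?_
    rw [← add_div, ← Finset.sum_add_distrib]
    exact div_le_div_of_nonneg_right (Finset.sum_le_sum fun Y _ => hsplit Y) (T_nonneg S c')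
  linarith

/-- the sum over the nodes below `v` -/
theorem node_sum {Q1 κ y : ℝ} {h : ℕ} (hκ : 0 ≤ κ) (hQ1 : 0 ≤ Q1) (hy : 0 ≤ y)
    (hstar : ∀ v, ∀ c ∈ S.Cls, ∀ c' ∈ S.Cls, ∀ B ∈ S.Om c',
      (((S.Om c).filter (fun Y => S.okv v Y = true ∧ S.nd v Y = B)).card : ℝ) * S.T c' ≤
        Q1 * S.T c)
    (hpsi : ∀ k < h, ∀ c ∈ S.Cls, ∀ P ∈ S.Om c, nsum S (psi S κ k P) ≤ y) :
    ∀ j ≤ h, ∀ v : List Bool, ∀ c ∈ S.Cls, ∀ P ∈ S.Om c,
      ∑ c' ∈ S.Cls, (∑ Y ∈ S.Om c', if S.okv v Y = true then S.Xi κ j P (S.nd v Y) else 0) / S.T c' ≤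
        (2 ^ j - 1) * (S.Cls.card * Q1 * y) := by
  intro j
  induction j with
  | zero =>
    intro _ v c _ P _
    have : ∀ Y, (if S.okv v Y = true then S.Xi κ 0 P (S.nd v Y) else 0) = 0 := by
      intro Y; split_ifs <;> rfl
    simp [this]
  | succ j ih =>
    intro hj v c hc P hP
    have hE : 0 ≤ (S.Cls.card : ℝ) * Q1 * y := by positivity
    have hpow : (1 : ℝ) ≤ 2 ^ (j + 1) := one_le_pow₀ (by norm_num)
    by_cases hb : S.big P = true
    swap
    · have : ∀ Y, (if S.okv v Y = true then S.Xi κ (j + 1) P (S.nd v Y) else 0) = 0 := by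
        intro Y
        rw [xi_zero_left S (by simpa using hb)]
        simp
      simp only [this, Finset.sum_const_zero, zero_div]
      exact mul_nonneg (by linarith) hE
    obtain ⟨hL1, hL2, hR1, hR2⟩ := child_mem S hc hP hb
    have e1 : ∀ Y, (if S.okv v Y = true then S.Xi κ (j + 1) P (S.nd v Y) else 0) ≤
        (if S.okv v Y = true then psi S κ j P (S.nd v Y) else 0) +
        ((if S.okv (v ++ [true]) Y = true then S.Xi κ j (S.Lf P) (S.nd (v ++ [true]) Y) else 0) +
        (if S.okv (v ++ [false]) Y = true then S.Xi κ j (S.Rf P) (S.nd (v ++ [false]) Y) else 0)) := by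
      intro Y
      by_cases hv : S.okv v Y = true
      · simp only [hv, okv_append, nd_append, if_true, Bool.true_and, Bool.false_eq_true, if_false]
        rw [xi_succ]
        have a1 : S.Xi κ j (S.Lf P) (S.Lf (S.nd v Y)) =
            if S.big (S.Lf (S.nd v Y)) = true then S.Xi κ j (S.Lf P) (S.Lf (S.nd v Y)) else 0 := by
          split_ifs with h
          · rfl
          · exact xi_zero_right S (by simpa using h) _ _
        have a2 : S.Xi κ j (S.Rf P) (S.Rf (S.nd v Y)) =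
            if S.big (S.Rf (S.nd v Y)) = true then S.Xi κ j (S.Rf P) (S.Rf (S.nd v Y)) else 0 := by
          split_ifs with h
          · rfl
          · exact xi_zero_right S (by simpa using h) _ _
        rw [← a1, ← a2]
        have n1 := xi_nn S hκ j (S.Lf P) (S.Lf (S.nd v Y))
        have n2 := xi_nn S hκ j (S.Rf P) (S.Rf (S.nd v Y))
        split_ifs <;> linarith
      · simp only [hv, okv_append, Bool.false_and]
        simp
    have e2 : ∀ c' ∈ S.Cls, (∑ Y ∈ S.Om c', if S.okv v Y = true then S.Xi κ (j + 1) P (S.nd v Y)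
        else 0) / S.T c' ≤ Q1 * y +
        ((∑ Y ∈ S.Om c', if S.okv (v ++ [true]) Y = true then
            S.Xi κ j (S.Lf P) (S.nd (v ++ [true]) Y) else 0) / S.T c' +
          (∑ Y ∈ S.Om c', if S.okv (v ++ [false]) Y = true then
            S.Xi κ j (S.Rf P) (S.nd (v ++ [false]) Y) else 0) / S.T c') := by
      intro c' hc'
      have b1 : (∑ Y ∈ S.Om c', if S.okv v Y = true then psi S κ j P (S.nd v Y) else 0) / S.T c' ≤
          Q1 * y := by
        have b2 := star_sum S hQ1 hstar v hc' (f := psi S κ j P) (psi_nn S hκ j P)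
        have b3 := hpsi j (by omega) c hc P hP
        rcases (Nat.eq_zero_or_pos (S.Om c').card) with h0 | h0
        · rw [Finset.card_eq_zero] at h0
          rw [h0, Finset.sum_empty, zero_div]
          positivity
        have hT : 0 < S.T c' := by unfold Sys.T; exact_mod_cast h0
        rw [div_le_iff₀ hT]
        calc _ ≤ _ := b2
          _ ≤ Q1 * S.T c' * y := mul_le_mul_of_nonneg_left b3 (mul_nonneg hQ1 hT.le)
          _ = _ := by ring
      have b4 : (∑ Y ∈ S.Om c', if S.okv v Y = true then S.Xi κ (j + 1) P (S.nd v Y) else 0) / S.T c' ≤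
          (∑ Y ∈ S.Om c', if S.okv v Y = true then psi S κ j P (S.nd v Y) else 0) / S.T c' +
          ((∑ Y ∈ S.Om c', if S.okv (v ++ [true]) Y = true then
            S.Xi κ j (S.Lf P) (S.nd (v ++ [true]) Y) else 0) / S.T c' +
          (∑ Y ∈ S.Om c', if S.okv (v ++ [false]) Y = true then
            S.Xi κ j (S.Rf P) (S.nd (v ++ [false]) Y) else 0) / S.T c') := by
        rw [← add_div, ← add_div, ← Finset.sum_add_distrib, ← Finset.sum_add_distrib]
        exact div_le_div_of_nonneg_right (Finset.sum_le_sum fun Y _ => e1 Y) (T_nonneg S c')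
      linarith
    have i1 := ih (by omega) (v ++ [true]) _ hL1 _ hL2
    have i2 := ih (by omega) (v ++ [false]) _ hR1 _ hR2
    have e3 := Finset.sum_le_sum e2
    rw [Finset.sum_add_distrib, Finset.sum_add_distrib, Finset.sum_const, nsmul_eq_mul] at e3
    have e4 : (2 : ℝ) ^ (j + 1) = 2 * 2 ^ j := by ring
    rw [e4]
    nlinarith [e3, i1, i2]

end V3

open V3

variable {α : Type} [DecidableEq α] (S : Sys α)

theorem xi_bound {Q0 Q1 κ A Bq : ℝ} {D : ℕ} (hκ : 0 ≤ κ) (hQ0 : 0 ≤ Q0) (hQ1 : 0 ≤ Q1)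
    (hA : A = 2 ^ (D + 1) * S.Cls.card * Q1) (hBq : Bq = S.Cls.card * Q0 * S.W)
    (hsmall : 4 * A ^ 2 * Bq * κ ≤ 1)
    (hstar : ∀ v, ∀ c ∈ S.Cls, ∀ c' ∈ S.Cls, ∀ B ∈ S.Om c',
      (((S.Om c).filter (fun Y => S.okv v Y = true ∧ S.nd v Y = B)).card : ℝ) * S.T c' ≤
        Q1 * S.T c)
    (hsup : ∀ c ∈ S.Cls, 2 ≤ c.1 → ∀ Y ∈ S.Om c, S.T (S.cl (S.Lf Y)) * S.T (S.cl (S.Rf Y)) ≤
      Q0 * S.T c) :
    ∀ h ≤ D, ∀ c ∈ S.Cls, ∀ O ∈ S.Om c,
      ∑ c' ∈ S.Cls, (∑ Y ∈ S.Om c', S.Xi κ h O Y) / S.T c' ≤ 2 * A * κ := by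
  have hA0 : 0 ≤ A := by rw [hA]; positivity
  have hx : 0 ≤ 2 * A * κ := by positivity
  intro h
  induction h using Nat.strong_induction_on with
  | _ h ih =>
    intro hD c hc O hO
    have hpsi : ∀ k < h, ∀ c ∈ S.Cls, ∀ P ∈ S.Om c, nsum S (psi S κ k P) ≤ 2 * κ := by
      intro k hk c1 hc1 P hP
      have h1 := psi_sum S (k := k) hκ hQ0 hx hsup
        (fun c2 hc2 O2 hO2 => ih k hk (by omega) c2 hc2 O2 hO2) hc1 hP
      rw [← hBq] at h1
      have h2 : Bq * (2 * A * κ) ^ 2 ≤ κ := by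
        have : Bq * (2 * A * κ) ^ 2 = (4 * A ^ 2 * Bq * κ) * κ := by ring
        rw [this]
        calc _ ≤ 1 * κ := mul_le_mul_of_nonneg_right hsmall hκ
          _ = κ := one_mul κ
      linarith
    have h3 := node_sum S hκ hQ1 (by positivity : (0 : ℝ) ≤ 2 * κ) hstar hpsi h le_rfl [] c hc O hO
    have e1 : ∀ Y, (if S.okv [] Y = true then S.Xi κ h O (S.nd [] Y) else 0) = S.Xi κ h O Y := by
      intro Y
      simp only [Sys.okv, Sys.nd]
      split_ifs with hb
      · rfl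
      · exact (xi_zero_right S (by simpa using hb) _ _).symm
    simp only [e1] at h3
    refine h3.trans ?_
    have h4 : (2 : ℝ) ^ h - 1 ≤ 2 ^ (D + 1) := by
      have : (2 : ℝ) ^ h ≤ 2 ^ (D + 1) := pow_le_pow_right₀ (by norm_num) (by omega)
      linarith
    calc (2 ^ h - 1) * (S.Cls.card * Q1 * (2 * κ)) ≤ 2 ^ (D + 1) * (S.Cls.card * Q1 * (2 * κ)) :=
          mul_le_mul_of_nonneg_right h4 (by positivity)
      _ = 2 * A * κ := by rw [hA]; ring

end Pool.Agent.Lib.MP_104326_lc.FP
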