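import Pool.Agent.Lib.MP_104326_lc.FP.Sys

/-!
# FP: from the recursions of the moments to the variance of the total weight (module V4)
-/

set_option autoImplicit false

namespace Pool.Agent.Lib.MP_104326_lc.FP

open Pool.Agent.Lib.PolyTime Pool.Agent.Lib.MP_104326_lc.KR

variable {α : Type} [DecidableEq α] (S : Sys α)

theorem xi_nonneg {κ : ℝ} (hκ : 0 ≤ κ) (h : ℕ) (O Y : α) : 0 ≤ S.Xi κ h O Y := by
  induction h generalizing O Y with
  | zero => simp [Sys.Xi]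
  | succ h ih =>
    rw [Sys.Xi]
    split_ifs with h1 h2
    · have hT : 0 ≤ S.T (S.cl O) := Nat.cast_nonneg _
      have := ih (S.Lf O) (S.Lf Y)
      have := ih (S.Rf O) (S.Rf Y)
      positivity
    · have := ih (S.Lf O) (S.Lf Y)
      have := ih (S.Rf O) (S.Rf Y)
      positivity
    · exact le_rfl

theorem v4_succ {κ : ℝ} {c c' : ℕ × ℕ} (hc : c ∈ S.Cls) (hc' : c' ∈ S.Cls) (h2 : 2 ≤ c.1)
    (h2' : 2 ≤ c'.1) {O Y : α} (hO : O ∈ S.Om c) (hY : Y ∈ S.Om c') (h : ℕ) :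
    S.Xi κ (h + 1) O Y = (if O = Y then κ * S.T c else 0) +
      S.Xi κ h (S.Lf O) (S.Lf Y) * S.Xi κ h (S.Rf O) (S.Rf Y) +
        S.Xi κ h (S.Lf O) (S.Lf Y) + S.Xi κ h (S.Rf O) (S.Rf Y) := by
  rw [Sys.Xi, if_pos, S.cl_eq c hc O hO]
  simp [Sys.big, S.cl_eq c hc O hO, S.cl_eq c' hc' Y hY, h2, h2']

/-- The scale. -/
noncomputable def scM (J : ℕ) (c : ℕ × ℕ) : ℝ := ((J : ℝ) / S.W) ^ (c.1 - 1)

theorem scM_nonneg (J : ℕ) (c : ℕ × ℕ) : 0 ≤ scM S J c := by
  unfold scM; positivity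

theorem scM_mul {J : ℕ} {c : ℕ × ℕ} (hc : c ∈ S.Cls) (h2 : 2 ≤ c.1) {O : α} (hO : O ∈ S.Om c) :
    (J : ℝ) / S.W * (scM S J (S.cl (S.Lf O)) * scM S J (S.cl (S.Rf O))) = scM S J c := by
  obtain ⟨_, _, _, _, h5, h6, _, _, h9⟩ := S.G_ch c hc h2 O hO
  have h7 := S.pos _ h5
  have h8 := S.pos _ h6
  unfold scM
  rw [← pow_add, ← pow_succ']
  congr 1
  omega

theorem T_pos {c : ℕ × ℕ} {O : α} (hO : O ∈ S.Om c) : 1 ≤ S.T c := by
  unfold Sys.T
  exact_mod_cast Finset.card_pos.2 ⟨O, hO⟩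

theorem v4r1 {e d x : ℝ} (he : 1 ≤ e) (hd : 0 ≤ d) (hx : 0 ≤ x) : e * d ≤ e ^ 2 * d * (1 + x) := by
  have h1 : 0 ≤ (e - 1) * e * d := by
    have : 0 ≤ e - 1 := by linarith
    positivity
  have h2 : 0 ≤ e ^ 2 * d * x := by positivity
  linarith [h1, h2, (by ring : e ^ 2 * d * (1 + x) = e * d + (e - 1) * e * d + e ^ 2 * d * x)]

theorem v4r2 {i a b : ℝ} (hi : 0 ≤ i) : (1 + a) * (1 + b) ≤ 1 + (i + a * b + a + b) := by
  have : (1 + a) * (1 + b) = 1 + (a * b + a + b) := by ring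
  linarith

theorem v4r3 {G A B E s X : ℝ} (hG : 0 ≤ G) (hA : A ≤ 1 / 2 * s) (hB : B ≤ E * (s * (1 + X)))
    (hE : 1 ≤ E) (hs : 0 ≤ s) (hX0 : 0 ≤ X) (hX : X ≤ 1 / 4) (hGE : G * E ≤ 9 / 8) :
    G * (A + B) ≤ 3 * s := by
  have h1 : A ≤ E * (1 / 2 * s) := by
    have : 0 ≤ (E - 1) * (1 / 2 * s) := mul_nonneg (by linarith) (by positivity)
    linarith [(by ring : E * (1 / 2 * s) = 1 / 2 * s + (E - 1) * (1 / 2 * s))]
  have h2 : G * (A + B) ≤ G * (E * (1 / 2 * s) + E * (s * (1 + X))) :=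
    mul_le_mul_of_nonneg_left (add_le_add h1 hB) hG
  have h3 : G * (E * (1 / 2 * s) + E * (s * (1 + X))) = (G * E) * (s * (3 / 2 + X)) := by ring
  have h4 : (G * E) * (s * (3 / 2 + X)) ≤ 9 / 8 * (s * (3 / 2 + X)) :=
    mul_le_mul_of_nonneg_right hGE (by positivity)
  have h5 : s * (3 / 2 + X) ≤ s * (7 / 4) := mul_le_mul_of_nonneg_left (by linarith) hs
  linarith

theorem v4r4 {N s T K e : ℝ} (hN : N ≤ 3 * s ^ 2 * T) (hK : 0 < K) (hT : 0 ≤ T) (he : 1 ≤ e) :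
    N / K ≤ e * (s * s) * (4 / K * T) := by
  have h1 : N / K ≤ 3 * s ^ 2 * T / K := div_le_div_of_nonneg_right hN hK.le
  have h2 : 0 ≤ s ^ 2 * T / K := by positivity
  have h3 : 0 ≤ (e - 1) * (s ^ 2 * T / K) := mul_nonneg (by linarith) h2
  have h4 : e * (s * s) * (4 / K * T) = 3 * s ^ 2 * T / K + s ^ 2 * T / K +
      4 * ((e - 1) * (s ^ 2 * T / K)) := by ring
  linarith

section
variable {K J D : ℕ} {η δ X Q0 : ℝ} {m : ℕ → α → ℝ} {V : ℕ → α → α → ℝ} {N : ℕ → α → ℝ}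

theorem root_upper
    (M : S.Moments K J η m V N) (hK : 1 ≤ K) (hW : 1 ≤ S.W) (hη0 : 0 ≤ η)
    (hη : (1 + η) ^ (J * 2 ^ (D + 2)) ≤ 1 + δ)
    (hδ : δ ≤ 1 / 8) (hX0 : 0 ≤ X) (hX1 : X ≤ 1 / 4) (hQ0 : 0 ≤ Q0)
    (hJ : 18 * S.W * Q0 ≤ J)
    (hsup : ∀ c ∈ S.Cls, 2 ≤ c.1 → ∀ Y ∈ S.Om c, S.T (S.cl (S.Lf Y)) * S.T (S.cl (S.Rf Y)) ≤
      Q0 * S.T c)
    (hXi : ∀ h ≤ D, ∀ c ∈ S.Cls, ∀ O ∈ S.Om c,
      ∑ c' ∈ S.Cls, (∑ Y ∈ S.Om c', S.Xi (4 / K) h O Y) / S.T c' ≤ X) :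
    ∀ h ≤ D, (∀ c ∈ S.Cls, ∀ O ∈ S.Om c,
        m h O ≤ (1 + η) ^ (J * (2 ^ h - 1)) * scM S J c ∧ N h O ≤ 3 * scM S J c ^ 2 * S.T c) ∧
      ∀ c ∈ S.Cls, ∀ c' ∈ S.Cls, ∀ O ∈ S.Om c, ∀ Y ∈ S.Om c',
        V h O Y ≤ ((1 + η) ^ (J * (2 ^ h - 1))) ^ 2 * (scM S J c * scM S J c') *
          (1 + S.Xi (4 / K) h O Y) := by
  have hκ : (0 : ℝ) ≤ 4 / K := by positivity
  have hg0 : (0 : ℝ) ≤ (J : ℝ) / S.W := by positivity
  have hW' : (0 : ℝ) < S.W := by exact_mod_cast hW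
  have hK' : (0 : ℝ) < K := by exact_mod_cast hK
  have hg : 18 * Q0 ≤ (J : ℝ) / S.W := by
    rw [le_div_iff₀ hW']
    linarith
  have he1 : ∀ k : ℕ, 1 ≤ (1 + η) ^ k := fun k => one_le_pow₀ (by linarith)
  have hsM : ∀ c : ℕ × ℕ, 0 ≤ scM S J c := scM_nonneg S J
  have hone : ∀ c : ℕ × ℕ, c.1 = 1 → scM S J c = 1 := by
    intro c hc
    unfold scM
    rw [hc]
    simp
  -- the cases where one of the objects has size one
  have single : ∀ h : ℕ, (∀ c ∈ S.Cls, ∀ O ∈ S.Om c,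
        m h O ≤ (1 + η) ^ (J * (2 ^ h - 1)) * scM S J c) →
      ∀ c ∈ S.Cls, ∀ c' ∈ S.Cls, ∀ O ∈ S.Om c, ∀ Y ∈ S.Om c', (c.1 = 1 ∨ c'.1 = 1) →
        V h O Y ≤ ((1 + η) ^ (J * (2 ^ h - 1))) ^ 2 * (scM S J c * scM S J c') *
          (1 + S.Xi (4 / K) h O Y) := by
    intro h hm c hc c' hc' O hO Y hY h1
    have hx := xi_nonneg S hκ h O Y
    have he := he1 (J * (2 ^ h - 1))
    set e := (1 + η) ^ (J * (2 ^ h - 1)) with hedef
    have hbig : ∀ d : ℕ × ℕ, e * scM S J d ≤ e ^ 2 * scM S J d * (1 + S.Xi (4 / K) h O Y) :=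
      fun d => v4r1 he (hsM d) hx
    rcases h1 with h1 | h1
    · have h2 := (M.unit h c hc h1 O hO).2.2.1 Y
      rw [h2, hone c h1, one_mul]
      exact (hm c' hc' Y hY).trans (hbig c')
    · have h2 := (M.unit h c' hc' h1 Y hY).2.2.2 O
      rw [h2, hone c' h1, mul_one]
      exact (hm c hc O hO).trans (hbig c)
  intro h
  induction h with
  | zero =>
    intro _
    have hm : ∀ c ∈ S.Cls, ∀ O ∈ S.Om c, m 0 O ≤ (1 + η) ^ (J * (2 ^ 0 - 1)) * scM S J c := by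
      intro c hc O hO
      rcases Nat.lt_or_ge c.1 2 with h1 | h1
      · have h2 : c.1 = 1 := by have := S.pos c hc; omega
        rw [(M.unit 0 c hc h2 O hO).1, hone c h2]
        simp
      · rw [(M.zero c hc h1 O hO).1]
        exact mul_nonneg (by positivity) (hsM c)
    refine ⟨fun c hc O hO => ⟨hm c hc O hO, ?_⟩, ?_⟩
    · have hT := T_pos S hO
      rcases Nat.lt_or_ge c.1 2 with h1 | h1
      · have h2 : c.1 = 1 := by have := S.pos c hc; omega
        rw [(M.unit 0 c hc h2 O hO).2.1, hone c h2]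
        linarith
      · rw [(M.zero c hc h1 O hO).2.1]
        have := hsM c
        positivity
    · intro c hc c' hc' O hO Y hY
      by_cases h1 : c.1 = 1 ∨ c'.1 = 1
      · exact single 0 hm c hc c' hc' O hO Y hY h1
      · push Not at h1
        have h2 : 2 ≤ c.1 := by have := S.pos c hc; omega
        rw [((M.zero c hc h2 O hO).2.2 Y).1]
        have := hsM c
        have := hsM c'
        have := xi_nonneg S hκ 0 O Y
        positivity
  | succ h ih =>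
    intro hD
    obtain ⟨ih1, ih2⟩ := ih (by omega)
    have hexp : J + 2 * (J * (2 ^ h - 1)) = J * (2 ^ (h + 1) - 1) := by
      have h1 : 1 ≤ 2 ^ h := Nat.one_le_two_pow
      obtain ⟨a, ha⟩ : ∃ a, 2 ^ h = a + 1 := ⟨2 ^ h - 1, by omega⟩
      rw [pow_succ, ha]
      have h2 : (a + 1) * 2 - 1 = 2 * a + 1 := by omega
      rw [h2]
      simp
      ring
    have hee : (1 + η) ^ J * ((1 + η) ^ (J * (2 ^ h - 1))) ^ 2 = (1 + η) ^ (J * (2 ^ (h + 1) - 1)) := by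
      rw [← pow_mul, ← pow_add, ← hexp]
      congr 1
      ring
    have hm : ∀ c ∈ S.Cls, ∀ O ∈ S.Om c,
        m (h + 1) O ≤ (1 + η) ^ (J * (2 ^ (h + 1) - 1)) * scM S J c := by
      intro c hc O hO
      rcases Nat.lt_or_ge c.1 2 with h1 | h1
      · have h2 : c.1 = 1 := by have := S.pos c hc; omega
        rw [(M.unit (h + 1) c hc h2 O hO).1, hone c h2, mul_one]
        exact he1 _
      · obtain ⟨_, _, _, _, h5, h6, h7, h8, h9⟩ := S.G_ch c hc h1 O hO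
        refine (M.m_up h c hc h1 O hO).trans ?_
        rw [← hee, ← scM_mul S hc h1 hO]
        have ha := (ih1 _ h5 _ h7).1
        have hb := (ih1 _ h6 _ h8).1
        have h10 : m h (S.Lf O) * m h (S.Rf O) ≤ ((1 + η) ^ (J * (2 ^ h - 1)) * scM S J (S.cl (S.Lf O))) *
            ((1 + η) ^ (J * (2 ^ h - 1)) * scM S J (S.cl (S.Rf O))) :=
          mul_le_mul ha hb (M.m_nn _ _) (mul_nonneg (by positivity) (hsM _))
        calc (1 + η) ^ J * ((J : ℝ) / S.W) * (m h (S.Lf O) * m h (S.Rf O))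
            ≤ (1 + η) ^ J * ((J : ℝ) / S.W) * (((1 + η) ^ (J * (2 ^ h - 1)) * scM S J (S.cl (S.Lf O))) *
            ((1 + η) ^ (J * (2 ^ h - 1)) * scM S J (S.cl (S.Rf O)))) :=
              mul_le_mul_of_nonneg_left h10 (by positivity)
          _ = _ := by ring
    -- products of second moments
    have hVV : ∀ c ∈ S.Cls, 2 ≤ c.1 → ∀ c' ∈ S.Cls, 2 ≤ c'.1 → ∀ O ∈ S.Om c, ∀ Y ∈ S.Om c',
        ((J : ℝ) / S.W) ^ 2 * (V h (S.Lf O) (S.Lf Y) * V h (S.Rf O) (S.Rf Y)) ≤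
          ((1 + η) ^ (J * (2 ^ h - 1))) ^ 4 * (scM S J c * scM S J c') *
            ((1 + S.Xi (4 / K) h (S.Lf O) (S.Lf Y)) * (1 + S.Xi (4 / K) h (S.Rf O) (S.Rf Y))) := by
      intro c hc h1 c' hc' h1' O hO Y hY
      obtain ⟨_, _, _, _, h5, h6, h7, h8, h9⟩ := S.G_ch c hc h1 O hO
      obtain ⟨_, _, _, _, k5, k6, k7, k8, k9⟩ := S.G_ch c' hc' h1' Y hY
      have ha := ih2 _ h5 _ k5 _ h7 _ k7
      have hb := ih2 _ h6 _ k6 _ h8 _ k8
      have hx1 := xi_nonneg S hκ h (S.Lf O) (S.Lf Y)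
      have hx2 := xi_nonneg S hκ h (S.Rf O) (S.Rf Y)
      have s1 := hsM (S.cl (S.Lf O))
      have s2 := hsM (S.cl (S.Lf Y))
      have s3 := hsM (S.cl (S.Rf O))
      have s4 := hsM (S.cl (S.Rf Y))
      have h10 := mul_le_mul ha hb (M.V_nn _ _ _) (by positivity)
      rw [← scM_mul S hc h1 hO, ← scM_mul S hc' h1' hY]
      calc ((J : ℝ) / S.W) ^ 2 * (V h (S.Lf O) (S.Lf Y) * V h (S.Rf O) (S.Rf Y))
          ≤ ((J : ℝ) / S.W) ^ 2 * _ := mul_le_mul_of_nonneg_left h10 (by positivity)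
        _ = _ := by ring
    have hN : ∀ c ∈ S.Cls, ∀ O ∈ S.Om c, N (h + 1) O ≤ 3 * scM S J c ^ 2 * S.T c := by
      intro c hc O hO
      have hT := T_pos S hO
      rcases Nat.lt_or_ge c.1 2 with h1 | h1
      · have h2 : c.1 = 1 := by have := S.pos c hc; omega
        rw [(M.unit (h + 1) c hc h2 O hO).2.1, hone c h2]
        linarith
      · obtain ⟨_, _, _, _, h5, h6, h7, h8, h9⟩ := S.G_ch c hc h1 O hO
        refine (M.N_up h c hc h1 O hO).trans ?_
        set g := (J : ℝ) / S.W with hgdef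
        set e := (1 + η) ^ (J * (2 ^ h - 1)) with hedef
        set s := scM S J c with hs
        have hs0 : 0 ≤ s := hsM c
        set sa := scM S J (S.cl (S.Lf O)) with hsa
        set sb := scM S J (S.cl (S.Rf O)) with hsb
        have hsa0 : 0 ≤ sa := hsM _
        have hsb0 : 0 ≤ sb := hsM _
        have hmul : g * (sa * sb) = s := scM_mul S hc h1 hO
        have hTa : 0 ≤ S.T (S.cl (S.Lf O)) := Nat.cast_nonneg _
        have hTb : 0 ≤ S.T (S.cl (S.Rf O)) := Nat.cast_nonneg _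
        -- first term
        have hA : g * (N h (S.Lf O) * N h (S.Rf O)) ≤ 1 / 2 * (s ^ 2 * S.T c) := by
          have ha := (ih1 _ h5 _ h7).2
          have hb := (ih1 _ h6 _ h8).2
          have h10 := mul_le_mul ha hb (M.N_nn _ _) (by positivity)
          have h11 := hsup c hc h1 O hO
          have h12 : (3 * sa ^ 2 * S.T (S.cl (S.Lf O))) * (3 * sb ^ 2 * S.T (S.cl (S.Rf O))) ≤
              9 * (sa * sb) ^ 2 * (Q0 * S.T c) := by
            calc _ = 9 * (sa * sb) ^ 2 * (S.T (S.cl (S.Lf O)) * S.T (S.cl (S.Rf O))) := by ring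
              _ ≤ _ := mul_le_mul_of_nonneg_left h11 (by positivity)
          calc g * (N h (S.Lf O) * N h (S.Rf O)) ≤ g * (9 * (sa * sb) ^ 2 * (Q0 * S.T c)) :=
                mul_le_mul_of_nonneg_left (h10.trans h12) hg0
            _ = 1 / 2 * (g * (sa * sb) ^ 2 * S.T c) * (18 * Q0) := by ring
            _ ≤ 1 / 2 * (g * (sa * sb) ^ 2 * S.T c) * g :=
                mul_le_mul_of_nonneg_left hg (by positivity)
            _ = 1 / 2 * (s ^ 2 * S.T c) := by rw [← hmul]; ring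
        -- second term
        have hB : g ^ 2 * ∑ Y ∈ S.Om c, V h (S.Lf O) (S.Lf Y) * V h (S.Rf O) (S.Rf Y) ≤
            e ^ 4 * (s ^ 2 * S.T c * (1 + X)) := by
          rw [Finset.mul_sum]
          have h10 : ∀ Y ∈ S.Om c, g ^ 2 * (V h (S.Lf O) (S.Lf Y) * V h (S.Rf O) (S.Rf Y)) ≤
              e ^ 4 * s ^ 2 * (1 + S.Xi (4 / K) (h + 1) O Y) := by
            intro Y hY
            refine (hVV c hc h1 c hc h1 O hO Y hY).trans ?_
            rw [v4_succ S hc hc h1 h1 hO hY]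
            have h12 : (0 : ℝ) ≤ if O = Y then 4 / (K : ℝ) * S.T c else 0 := by
              split_ifs
              · positivity
              · exact le_rfl
            have h13 : (0 : ℝ) ≤ e ^ 4 * s ^ 2 := by positivity
            calc _ = e ^ 4 * s ^ 2 * ((1 + S.Xi (4 / K) h (S.Lf O) (S.Lf Y)) *
                  (1 + S.Xi (4 / K) h (S.Rf O) (S.Rf Y))) := by ring
              _ ≤ _ := mul_le_mul_of_nonneg_left (v4r2 h12) h13
          refine (Finset.sum_le_sum h10).trans ?_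
          rw [← Finset.mul_sum, Finset.sum_add_distrib]
          have h11 : ∑ Y ∈ S.Om c, S.Xi (4 / K) (h + 1) O Y ≤ X * S.T c := by
            have h12 := hXi (h + 1) hD c hc O hO
            have h13 : (∑ Y ∈ S.Om c, S.Xi (4 / K) (h + 1) O Y) / S.T c ≤
                ∑ c' ∈ S.Cls, (∑ Y ∈ S.Om c', S.Xi (4 / K) (h + 1) O Y) / S.T c' := by
              refine Finset.single_le_sum (f := fun c' =>
                (∑ Y ∈ S.Om c', S.Xi (4 / K) (h + 1) O Y) / S.T c') (fun c' _ => ?_) hc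
              exact div_nonneg (Finset.sum_nonneg fun Y _ => xi_nonneg S hκ _ _ _)
                (Nat.cast_nonneg _)
            have h14 := h13.trans h12
            rwa [div_le_iff₀ (by linarith)] at h14
          have h15 : ∑ Y ∈ S.Om c, (1 : ℝ) = S.T c := by
            simp [Sys.T]
          rw [h15]
          calc e ^ 4 * s ^ 2 * (S.T c + ∑ Y ∈ S.Om c, S.Xi (4 / K) (h + 1) O Y)
              ≤ e ^ 4 * s ^ 2 * (S.T c + X * S.T c) :=
                mul_le_mul_of_nonneg_left (by linarith) (by positivity)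
            _ = _ := by ring
        have he : 1 ≤ e := he1 _
        have he4 : 1 ≤ e ^ 4 := one_le_pow₀ he
        have hJe : (1 + η) ^ J * e ^ 4 ≤ 9 / 8 := by
          have h10 : (1 + η) ^ J * e ^ 4 = (1 + η) ^ (J + 4 * (J * (2 ^ h - 1))) := by
            rw [hedef, ← pow_mul, ← pow_add]
            congr 1
            ring
          rw [h10]
          have h11 : J + 4 * (J * (2 ^ h - 1)) ≤ J * 2 ^ (D + 2) := by
            have h12 : 2 ^ h ≤ 2 ^ D := Nat.pow_le_pow_right (by norm_num) (by omega)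
            have h13 : 1 ≤ 2 ^ h := Nat.one_le_two_pow
            have h14 : 1 + 4 * (2 ^ h - 1) ≤ 2 ^ (D + 2) := by
              rw [pow_add]
              omega
            calc J + 4 * (J * (2 ^ h - 1)) = J * (1 + 4 * (2 ^ h - 1)) := by ring
              _ ≤ _ := Nat.mul_le_mul_left _ h14
          have h12 : (1 + η) ^ (J + 4 * (J * (2 ^ h - 1))) ≤ (1 + η) ^ (J * 2 ^ (D + 2)) :=
            pow_le_pow_right₀ (by linarith) h11
          linarith
        have hsT : 0 ≤ s ^ 2 * S.T c := by positivity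
        have hJ0 : 0 ≤ (1 + η) ^ J := by positivity
        rw [mul_assoc 3]
        exact v4r3 hJ0 hA hB he4 hsT hX0 hX1 hJe
    refine ⟨fun c hc O hO => ⟨hm c hc O hO, hN c hc O hO⟩, ?_⟩
    intro c hc c' hc' O hO Y hY
    by_cases h1 : c.1 = 1 ∨ c'.1 = 1
    · exact single (h + 1) hm c hc c' hc' O hO Y hY h1
    · push Not at h1
      have h2 : 2 ≤ c.1 := by have := S.pos c hc; omega
      have h2' : 2 ≤ c'.1 := by have := S.pos c' hc'; omega
      refine (M.V_up h c hc h2 c' hc' h2' O hO Y hY).trans ?_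
      rw [v4_succ S hc hc' h2 h2' hO hY]
      have hv := hVV c hc h2 c' hc' h2' O hO Y hY
      set g := (J : ℝ) / S.W with hgdef
      set e := (1 + η) ^ (J * (2 ^ h - 1)) with hedef
      set e' := (1 + η) ^ (J * (2 ^ (h + 1) - 1)) with hedef'
      have hx1 := xi_nonneg S hκ h (S.Lf O) (S.Lf Y)
      have hx2 := xi_nonneg S hκ h (S.Rf O) (S.Rf Y)
      have s1 := hsM c
      have s2 := hsM c'
      have h3 : ((1 + η) ^ J * g) ^ 2 * (V h (S.Lf O) (S.Lf Y) * V h (S.Rf O) (S.Rf Y)) ≤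
          e' ^ 2 * (scM S J c * scM S J c') *
            ((1 + S.Xi (4 / K) h (S.Lf O) (S.Lf Y)) * (1 + S.Xi (4 / K) h (S.Rf O) (S.Rf Y))) := by
        calc ((1 + η) ^ J * g) ^ 2 * (V h (S.Lf O) (S.Lf Y) * V h (S.Rf O) (S.Rf Y))
            = ((1 + η) ^ J) ^ 2 * (g ^ 2 * (V h (S.Lf O) (S.Lf Y) * V h (S.Rf O) (S.Rf Y))) := by ring
          _ ≤ ((1 + η) ^ J) ^ 2 * _ := mul_le_mul_of_nonneg_left hv (by positivity)
          _ = _ := by rw [← hee]; ring
      have he : 1 ≤ e' := he1 _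
      have he2 : 1 ≤ e' ^ 2 := one_le_pow₀ he
      have h4 : (if O = Y then N (h + 1) O / K else 0) ≤
          e' ^ 2 * (scM S J c * scM S J c') * (if O = Y then 4 / (K : ℝ) * S.T c else 0) := by
        split_ifs with hOY
        · have hcc : c = c' := by
            rw [← S.cl_eq c hc O hO, ← S.cl_eq c' hc' Y hY, hOY]
          rw [← hcc]
          have h5 := hN c hc O hO
          have hT := T_pos S hO
          exact v4r4 h5 hK' (by linarith) he2
        · simp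
      calc _ ≤ e' ^ 2 * (scM S J c * scM S J c') *
            ((1 + S.Xi (4 / K) h (S.Lf O) (S.Lf Y)) * (1 + S.Xi (4 / K) h (S.Rf O) (S.Rf Y))) +
            e' ^ 2 * (scM S J c * scM S J c') * (if O = Y then 4 / (K : ℝ) * S.T c else 0) :=
              add_le_add h3 h4
        _ = _ := by ring

theorem root_lower
    (M : S.Moments K J η m V N) (hη0 : 0 ≤ η) (hη1 : η ≤ 1) :
    ∀ h : ℕ, ∀ c ∈ S.Cls, ∀ O ∈ S.Om c, S.dep h O →
      (1 - η) ^ (J * (2 ^ h - 1)) * scM S J c ≤ m h O := by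
  have hone : ∀ c : ℕ × ℕ, c.1 = 1 → scM S J c = 1 := by
    intro c hc
    unfold scM
    rw [hc]
    simp
  have hle : ∀ k : ℕ, (1 - η) ^ k ≤ 1 := fun k => pow_le_one₀ (by linarith) (by linarith)
  intro h
  induction h with
  | zero =>
    intro c hc O hO hd
    have h1 : c.1 = 1 := by
      simp only [Sys.dep, Sys.big, S.cl_eq c hc O hO, decide_eq_false_iff_not] at hd
      have := S.pos c hc
      omega
    rw [(M.unit 0 c hc h1 O hO).1, hone c h1, mul_one]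
    exact hle _
  | succ h ih =>
    intro c hc O hO hd
    rcases Nat.lt_or_ge c.1 2 with h1 | h1
    · have h2 : c.1 = 1 := by have := S.pos c hc; omega
      rw [(M.unit (h + 1) c hc h2 O hO).1, hone c h2, mul_one]
      exact hle _
    · obtain ⟨_, _, _, _, h5, h6, h7, h8, h9⟩ := S.G_ch c hc h1 O hO
      have hd' := hd (by simp [Sys.big, S.cl_eq c hc O hO, h1])
      refine le_trans ?_ (M.m_lo h c hc h1 O hO)
      have ha := ih _ h5 _ h7 hd'.1
      have hb := ih _ h6 _ h8 hd'.2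
      have hexp : J + 2 * (J * (2 ^ h - 1)) = J * (2 ^ (h + 1) - 1) := by
        have h1 : 1 ≤ 2 ^ h := Nat.one_le_two_pow
        obtain ⟨a, ha⟩ : ∃ a, 2 ^ h = a + 1 := ⟨2 ^ h - 1, by omega⟩
        rw [pow_succ, ha]
        have h2 : (a + 1) * 2 - 1 = 2 * a + 1 := by omega
        rw [h2]
        simp
        ring
      rw [← hexp, ← scM_mul S hc h1 hO]
      have h0 : 0 ≤ (1 - η) := by linarith
      have s1 := scM_nonneg S J (S.cl (S.Lf O))
      have s2 := scM_nonneg S J (S.cl (S.Rf O))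
      have h10 := mul_le_mul ha hb (by positivity) (M.m_nn _ _)
      calc (1 - η) ^ (J + 2 * (J * (2 ^ h - 1))) *
            ((J : ℝ) / S.W * (scM S J (S.cl (S.Lf O)) * scM S J (S.cl (S.Rf O))))
          = (1 - η) ^ J * ((J : ℝ) / S.W) *
            (((1 - η) ^ (J * (2 ^ h - 1)) * scM S J (S.cl (S.Lf O))) *
              ((1 - η) ^ (J * (2 ^ h - 1)) * scM S J (S.cl (S.Rf O)))) := by
            rw [pow_add, two_mul, pow_add]; ring
        _ ≤ _ := mul_le_mul_of_nonneg_left h10 (by positivity)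

theorem root
    (M : S.Moments K J η m V N) (hK : 1 ≤ K) (hW : 1 ≤ S.W) (hη0 : 0 ≤ η) (hη1 : η ≤ 1)
    (hη : (1 + η) ^ (J * 2 ^ (D + 2)) ≤ 1 + δ) (hη' : 1 - δ ≤ (1 - η) ^ (J * 2 ^ (D + 2)))
    (hδ : δ ≤ 1 / 8) (hX0 : 0 ≤ X) (hX1 : X ≤ 1 / 4) (hQ0 : 0 ≤ Q0)
    (hJ : 18 * S.W * Q0 ≤ J)
    (hsup : ∀ c ∈ S.Cls, 2 ≤ c.1 → ∀ Y ∈ S.Om c, S.T (S.cl (S.Lf Y)) * S.T (S.cl (S.Rf Y)) ≤
      Q0 * S.T c)
    (hXi : ∀ h ≤ D, ∀ c ∈ S.Cls, ∀ O ∈ S.Om c,
      ∑ c' ∈ S.Cls, (∑ Y ∈ S.Om c', S.Xi (4 / K) h O Y) / S.T c' ≤ X)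
    {c : ℕ × ℕ} (hc : c ∈ S.Cls) (hdep : ∀ O ∈ S.Om c, S.dep D O) :
    (∑ O ∈ S.Om c, ∑ Y ∈ S.Om c, V D O Y) ≤
      (1 + δ) * (1 + X) * (((J : ℝ) / S.W) ^ (c.1 - 1) * S.T c) ^ 2 ∧
    (1 - δ) * (((J : ℝ) / S.W) ^ (c.1 - 1) * S.T c) ≤ ∑ O ∈ S.Om c, m D O := by
  have hκ : (0 : ℝ) ≤ 4 / K := by positivity
  have hsM := scM_nonneg S J c
  have hT0 : 0 ≤ S.T c := Nat.cast_nonneg _
  have h15 : ∑ Y ∈ S.Om c, (1 : ℝ) = S.T c := by
    simp [Sys.T]
  constructor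
  · have h1 := (root_upper S M hK hW hη0 hη hδ hX0 hX1 hQ0 hJ hsup hXi D le_rfl).2 c hc c hc
    have h2 : ((1 + η) ^ (J * (2 ^ D - 1))) ^ 2 ≤ 1 + δ := by
      refine le_trans ?_ hη
      rw [← pow_mul]
      refine pow_le_pow_right₀ (by linarith) ?_
      have h3 : 2 ^ D - 1 ≤ 2 ^ D := Nat.sub_le _ _
      calc J * (2 ^ D - 1) * 2 ≤ J * 2 ^ D * 2 := by
            exact Nat.mul_le_mul_right _ (Nat.mul_le_mul_left _ h3)
        _ ≤ J * 2 ^ D * 4 := Nat.mul_le_mul_left _ (by norm_num)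
        _ = J * 2 ^ (D + 2) := by rw [pow_add]; ring
    have h3 : ∀ O ∈ S.Om c, ∑ Y ∈ S.Om c, V D O Y ≤ (1 + δ) * (1 + X) * (scM S J c ^ 2 * S.T c) := by
      intro O hO
      have hT := T_pos S hO
      have h11 : ∑ Y ∈ S.Om c, S.Xi (4 / K) D O Y ≤ X * S.T c := by
        have h12 := hXi D le_rfl c hc O hO
        have h13 : (∑ Y ∈ S.Om c, S.Xi (4 / K) D O Y) / S.T c ≤
            ∑ c' ∈ S.Cls, (∑ Y ∈ S.Om c', S.Xi (4 / K) D O Y) / S.T c' := by
          refine Finset.single_le_sum (f := fun c' =>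
            (∑ Y ∈ S.Om c', S.Xi (4 / K) D O Y) / S.T c') (fun c' _ => ?_) hc
          exact div_nonneg (Finset.sum_nonneg fun Y _ => xi_nonneg S hκ _ _ _)
            (Nat.cast_nonneg _)
        have h14 := h13.trans h12
        rwa [div_le_iff₀ (by linarith)] at h14
      calc ∑ Y ∈ S.Om c, V D O Y
          ≤ ∑ Y ∈ S.Om c, (1 + δ) * scM S J c ^ 2 * (1 + S.Xi (4 / K) D O Y) := by
            refine Finset.sum_le_sum fun Y hY => (h1 O hO Y hY).trans ?_
            have hx := xi_nonneg S hκ D O Y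
            have h16 : 0 ≤ scM S J c ^ 2 * (1 + S.Xi (4 / K) D O Y) := by positivity
            calc _ = ((1 + η) ^ (J * (2 ^ D - 1))) ^ 2 * (scM S J c ^ 2 * (1 + S.Xi (4 / K) D O Y)) := by
                  ring
              _ ≤ (1 + δ) * (scM S J c ^ 2 * (1 + S.Xi (4 / K) D O Y)) :=
                  mul_le_mul_of_nonneg_right h2 h16
              _ = _ := by ring
        _ = (1 + δ) * scM S J c ^ 2 * (S.T c + ∑ Y ∈ S.Om c, S.Xi (4 / K) D O Y) := by
            rw [← Finset.mul_sum, Finset.sum_add_distrib, h15]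
        _ ≤ (1 + δ) * scM S J c ^ 2 * (S.T c + X * S.T c) := by
            have h17 : 0 ≤ 1 + δ := by
              have : (1 : ℝ) ≤ (1 + η) ^ (J * 2 ^ (D + 2)) := one_le_pow₀ (by linarith)
              linarith
            exact mul_le_mul_of_nonneg_left (by linarith) (by positivity)
        _ = _ := by ring
    calc (∑ O ∈ S.Om c, ∑ Y ∈ S.Om c, V D O Y)
        ≤ ∑ O ∈ S.Om c, (1 + δ) * (1 + X) * (scM S J c ^ 2 * S.T c) := Finset.sum_le_sum h3
      _ = (1 + δ) * (1 + X) * (((J : ℝ) / S.W) ^ (c.1 - 1) * S.T c) ^ 2 := by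
        rw [Finset.sum_const, nsmul_eq_mul]
        change S.T c * _ = _
        unfold scM
        ring
  · have h2 : 1 - δ ≤ (1 - η) ^ (J * (2 ^ D - 1)) := by
      refine hη'.trans (pow_le_pow_of_le_one (by linarith) (by linarith) ?_)
      have h3 : 2 ^ D - 1 ≤ 2 ^ (D + 2) := by
        rw [pow_add]
        omega
      exact Nat.mul_le_mul_left _ h3
    calc (1 - δ) * (((J : ℝ) / S.W) ^ (c.1 - 1) * S.T c)
        = ∑ O ∈ S.Om c, (1 - δ) * scM S J c := by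
          rw [Finset.sum_const, nsmul_eq_mul]
          change _ = S.T c * _
          unfold scM
          ring
      _ ≤ ∑ O ∈ S.Om c, m D O := by
          refine Finset.sum_le_sum fun O hO => ?_
          exact (mul_le_mul_of_nonneg_right h2 hsM).trans
            (root_lower S M hη0 hη1 D c hc O hO (hdep O hO))

end

end Pool.Agent.Lib.MP_104326_lc.FP
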