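import Pool.Agent.Lib.MP_104326_lc.FP.Inst
import Pool.Agent.Lib.MP_104326_lc.FP.P2
import Pool.Agent.Lib.MP_104326_lc.FP.G7
import Pool.Agent.Lib.MP_104326_lc.FP.G8
import Pool.Agent.Lib.MP_104326_lc.FP.Par
import Pool.Agent.Lib.MP_104326_lc.FP.V2b
import Pool.Agent.Lib.MP_104326_lc.FP.V3
import Pool.Agent.Lib.MP_104326_lc.FP.V4
import Pool.Agent.Lib.MP_104326_lc.FP.B2
import Pool.Agent.Lib.MP_104326_lc.KR.E0

/-! # FP, module E0: the deviation of the estimates -/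

set_option autoImplicit false

namespace Pool.Agent.Lib.MP_104326_lc.FP

open Pool.Agent.Lib.PolyTime Pool.Agent.Lib.MP_104326_lc.KR

/-! ### the instance -/

theorem e0_nd {R : ℕ} (hR : 8 ≤ R) (v : List Bool) (O : MO) : (sysM R hR).nd v O = ndM v O := by
  induction v generalizing O with
  | nil => rfl
  | cons b v ih => rw [Sys.nd, ndM, ih]; rfl

theorem e0_ok {R : ℕ} (hR : 8 ≤ R) (v : List Bool) (O : MO) : (sysM R hR).okv v O = okM v O := by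
  induction v generalizing O with
  | nil => rfl
  | cons b v ih => rw [Sys.okv, okM, ih]; rfl

theorem e0_dep {R : ℕ} (hR : 8 ≤ R) (h : ℕ) (O : MO) (hd : depM h O) : (sysM R hR).dep h O := by
  induction h generalizing O with
  | zero =>
    rw [depM] at hd
    rw [Sys.dep]
    change decide (2 ≤ O.1.length) = false
    simp
    omega
  | succ h ih =>
    rw [Sys.dep]
    intro hb
    have hb' : decide (2 ≤ O.1.length) = true := hb
    rw [depM] at hd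
    have := hd (by simpa using hb')
    exact ⟨ih _ this.1, ih _ this.2⟩

theorem e0_cls {R : ℕ} (c : ℕ × ℕ) (hc : c ∈ Cls R) : c.1 < R ∧ c.2 < 7 := by
  unfold Cls at hc
  rw [Finset.mem_product, Finset.mem_Ico, Finset.mem_range] at hc
  exact ⟨hc.1.2, hc.2⟩

theorem e0_star {R : ℕ} (hR : 8 ≤ R) : ∀ v, ∀ c ∈ (sysM R hR).Cls, ∀ c' ∈ (sysM R hR).Cls,
    ∀ B ∈ (sysM R hR).Om c',
      ((((sysM R hR).Om c).filter (fun Y => (sysM R hR).okv v Y = true ∧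
        (sysM R hR).nd v Y = B)).card : ℝ) * (sysM R hR).T c' ≤ (R : ℝ) ^ 80 * (sysM R hR).T c := by
  intro v c hc c' hc' B hB
  have h1 := starM hR hc hc' v hB
  have h2 : (((sysM R hR).Om c).filter (fun Y => (sysM R hR).okv v Y = true ∧
        (sysM R hR).nd v Y = B)) = ((Om c).filter (fun Y => okM v Y = true ∧ ndM v Y = B)) := by
    change ((Om c).filter _) = _
    refine Finset.filter_congr fun Y _ => ?_
    rw [e0_ok, e0_nd]
  rw [h2]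
  unfold Sys.T
  change (_ : ℝ) * ((Om c').card : ℝ) ≤ _ * ((Om c).card : ℝ)
  exact_mod_cast h1

theorem e0_sup {R : ℕ} (hR : 8 ≤ R) : ∀ c ∈ (sysM R hR).Cls, 2 ≤ c.1 → ∀ Y ∈ (sysM R hR).Om c,
    (sysM R hR).T ((sysM R hR).cl ((sysM R hR).Lf Y)) *
      (sysM R hR).T ((sysM R hR).cl ((sysM R hR).Rf Y)) ≤ (R : ℝ) ^ 12 * (sysM R hR).T c := by
  intro c hc h2 Y hY
  have h1 := supM hR hc h2 hY
  unfold Sys.T
  change ((Om (cl (Lf Y))).card : ℝ) * ((Om (cl (Rf Y))).card : ℝ) ≤ _ * ((Om c).card : ℝ)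
  exact_mod_cast h1

theorem e0_card (R : ℕ) : ((Cls R).card : ℝ) ≤ 7 * R := by
  unfold Cls
  rw [Finset.card_product, Nat.card_Ico, Finset.card_range]
  push_cast
  have : ((R - 1 : ℕ) : ℝ) ≤ R := by exact_mod_cast Nat.sub_le _ _
  linarith

/-! ### numerical facts -/

theorem e0_pow {R : ℝ} (hR : 8 ≤ R) (a b : ℕ) (hab : a ≤ b) : 8 ^ (b - a) * R ^ a ≤ R ^ b := by
  obtain ⟨d, rfl⟩ := Nat.exists_eq_add_of_le hab
  rw [Nat.add_sub_cancel_left, pow_add, mul_comm (R ^ a)]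
  exact mul_le_mul_of_nonneg_right (pow_le_pow_left₀ (by norm_num) hR _) (by positivity)

/-- The bound for the excess correlation. -/
theorem e0_xi {R q K : ℕ} (hR : 8 ≤ R) {D : ℕ} (hD : (2 : ℝ) ^ D = (R : ℝ) ^ 12)
    (hK : K = R ^ 215 * 2 ^ q) :
    ∀ h ≤ D, ∀ c ∈ (sysM R hR).Cls, ∀ O ∈ (sysM R hR).Om c,
      ∑ c' ∈ (sysM R hR).Cls, (∑ Y ∈ (sysM R hR).Om c', (sysM R hR).Xi (4 / (K : ℕ)) h O Y) /
        (sysM R hR).T c' ≤ 1 / 2 ^ (q + 3) := by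
  have hR' : (8 : ℝ) ≤ R := by exact_mod_cast hR
  have hR0 : (0 : ℝ) < R := by linarith
  have hcard := e0_card R
  have hKr : (K : ℝ) = (R : ℝ) ^ 215 * 2 ^ q := by rw [hK]; push_cast; ring
  have hK0 : (0 : ℝ) < K := by rw [hKr]; positivity
  have hq1 : (1 : ℝ) ≤ 2 ^ q := one_le_pow₀ (by norm_num)
  set C : ℝ := ((Cls R).card : ℝ) with hC
  have hC0 : 0 ≤ C := Nat.cast_nonneg _
  set A : ℝ := 2 ^ (D + 1) * C * (R : ℝ) ^ 80 with hA
  set Bq : ℝ := C * (R : ℝ) ^ 12 * ((R ^ 9 : ℕ) : ℝ) with hBq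
  have hA1 : A ≤ 14 * (R : ℝ) ^ 93 := by
    have h1 : A = 2 * (R : ℝ) ^ 92 * C := by rw [hA, pow_succ, hD]; ring
    rw [h1]
    calc 2 * (R : ℝ) ^ 92 * C ≤ 2 * (R : ℝ) ^ 92 * (7 * R) :=
          mul_le_mul_of_nonneg_left hcard (by positivity)
      _ = _ := by ring
  have hA0 : 0 ≤ A := by positivity
  have hB1 : Bq ≤ 7 * (R : ℝ) ^ 22 := by
    have h1 : Bq = (R : ℝ) ^ 21 * C := by rw [hBq]; push_cast; ring
    rw [h1]
    calc (R : ℝ) ^ 21 * C ≤ (R : ℝ) ^ 21 * (7 * R) :=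
          mul_le_mul_of_nonneg_left hcard (by positivity)
      _ = _ := by ring
  have hB0 : 0 ≤ Bq := by positivity
  have hX : 2 * A * (4 / K) ≤ 1 / 2 ^ (q + 3) := by
    rw [hKr, pow_add]
    have h1 := e0_pow hR' 93 215 (by norm_num)
    have h2 : (896 : ℝ) * (R : ℝ) ^ 93 ≤ (R : ℝ) ^ 215 := by
      refine le_trans (mul_le_mul_of_nonneg_right ?_ (by positivity)) h1
      norm_num
    rw [div_eq_mul_one_div (4 : ℝ), ← mul_assoc, mul_one_div, div_le_div_iff₀ (by positivity) (by positivity)]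
    calc 2 * A * 4 * (2 ^ q * 2 ^ 3) = 64 * A * 2 ^ q := by ring
      _ ≤ 64 * (14 * (R : ℝ) ^ 93) * 2 ^ q := by
          apply mul_le_mul_of_nonneg_right _ (by positivity)
          exact mul_le_mul_of_nonneg_left hA1 (by norm_num)
      _ = 896 * (R : ℝ) ^ 93 * 2 ^ q := by ring
      _ ≤ (R : ℝ) ^ 215 * 2 ^ q := mul_le_mul_of_nonneg_right h2 (by positivity)
      _ = _ := by ring
  have hsmall : 4 * A ^ 2 * Bq * (4 / K) ≤ 1 := by
    rw [hKr, div_eq_mul_one_div (4 : ℝ), ← mul_assoc, mul_one_div, div_le_one (by positivity)]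
    have h1 := e0_pow hR' 208 215 (by norm_num)
    have h2 : (21952 : ℝ) * (R : ℝ) ^ 208 ≤ (R : ℝ) ^ 215 := by
      refine le_trans (mul_le_mul_of_nonneg_right ?_ (by positivity)) h1
      norm_num
    calc 4 * A ^ 2 * Bq * 4 = 16 * (A ^ 2 * Bq) := by ring
      _ ≤ 16 * ((14 * (R : ℝ) ^ 93) ^ 2 * (7 * (R : ℝ) ^ 22)) := by
          apply mul_le_mul_of_nonneg_left _ (by norm_num)
          exact mul_le_mul (pow_le_pow_left₀ hA0 hA1 2) hB1 hB0 (by positivity)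
      _ = 21952 * (R : ℝ) ^ 208 := by ring
      _ ≤ (R : ℝ) ^ 215 := h2
      _ = (R : ℝ) ^ 215 * 1 := (mul_one _).symm
      _ ≤ (R : ℝ) ^ 215 * 2 ^ q := mul_le_mul_of_nonneg_left hq1 (by positivity)
  intro h hh c hc O hO
  have := xi_bound (sysM R hR) (Q0 := (R : ℝ) ^ 12) (Q1 := (R : ℝ) ^ 80) (κ := 4 / K) (A := A)
    (Bq := Bq) (D := D) (by positivity) (by positivity) (by positivity) rfl rfl hsmall
    (e0_star hR) (e0_sup hR) h hh c hc O hO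
  exact this.trans hX

/-- Bernoulli in both directions. -/
theorem e0_eta {N : ℕ} {η x : ℝ} (hη0 : 0 ≤ η) (hη1 : η ≤ 1) (hN : N * η = x) (hx : x ≤ 1 / 2) :
    (1 + η) ^ N ≤ 1 + 2 * x ∧ 1 - 2 * x ≤ (1 - η) ^ N := by
  have h1 : 1 - x ≤ (1 - η) ^ N := by
    have := one_add_mul_le_pow (a := -η) (by linarith) N
    rw [← hN]
    calc 1 - N * η = 1 + N * -η := by ring
      _ ≤ (1 + -η) ^ N := this
      _ = (1 - η) ^ N := by ring
  have hx0 : 0 ≤ x := by rw [← hN]; positivity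
  refine ⟨?_, by linarith⟩
  have h2 : (1 + η) ^ N * (1 - η) ^ N ≤ 1 := by
    rw [← mul_pow]
    refine pow_le_one₀ ?_ ?_
    · exact mul_nonneg (by linarith) (by linarith)
    · nlinarith
  have h3 : (1 + η) ^ N * (1 - x) ≤ 1 := by
    refine le_trans (mul_le_mul_of_nonneg_left h1 (by positivity)) h2
  have h4 : 1 ≤ (1 + 2 * x) * (1 - x) := by nlinarith
  have h5 : (0 : ℝ) < 1 - x := by linarith
  exact le_of_mul_le_mul_right (h3.trans h4) h5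

/-! ### bits -/

theorem e0_take {nb L : ℕ} (h : nb ≤ L) (F : List Bool → ℝ) :
    avgB L (fun r => F (r.take nb)) = avgB nb F := by
  obtain ⟨d, rfl⟩ := Nat.exists_eq_add_of_le h
  rw [c1_append]
  refine c1_congr fun r hr => ?_
  have h1 : (fun s : List Bool => F ((r ++ s).take nb)) = fun _ => F r := by
    funext s
    rw [← hr]
    simp
  rw [h1]
  exact v2a_avgB_const d (F r)

/-- The total weight. -/
theorem e0_total {R K J : ℕ} (hR : 8 ≤ R) {c : ℕ × ℕ} (hc : c ∈ (sysM R hR).Cls) {p : SPool MO}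
    (hp : (sysM R hR).Good K J p) :
    ∑ O ∈ (sysM R hR).Om c, Sys.mu K p ((sysM R hR).cl O) O =
      (∑ i ∈ Finset.range K, ((p c i).1 : ℝ)) / K := by
  have h1 : ∀ O ∈ (sysM R hR).Om c, Sys.mu K p ((sysM R hR).cl O) O = Sys.mu K p c O := by
    intro O hO
    rw [(sysM R hR).cl_eq c hc O hO]
  rw [Finset.sum_congr rfl h1]
  unfold Sys.mu
  rw [← Finset.sum_div, Finset.sum_comm]
  congr 1
  refine Finset.sum_congr rfl fun i _ => ?_
  rw [Finset.sum_ite_eq]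
  split_ifs with h2
  · rfl
  · have := ((hp c hc).1 i).2
    by_contra h3
    exact h2 (this (fun h4 => h3 (by rw [h4]; simp)))

theorem e0_min {ρ q M : ℕ} (hM : 2 ^ kE ρ q ≤ M) : min (2 ^ ρ) M = 2 ^ ρ ∧
    min (2 ^ kE ρ q) M = 2 ^ kE ρ q ∧ min (2 ^ jE ρ) M = 2 ^ jE ρ ∧
    min (2 ^ (12 * ρ)) M = 2 ^ (12 * ρ) := by
  have h : ∀ e : ℕ, e ≤ kE ρ q → min (2 ^ e) M = 2 ^ e := fun e he =>
    min_eq_left ((Nat.pow_le_pow_right (by norm_num) he).trans hM)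
  unfold kE at *
  unfold jE
  exact ⟨h _ (by omega), h _ (by omega), h _ (by omega), h _ (by omega)⟩

theorem e0_nbM {ρ q M : ℕ} (hM : 2 ^ kE ρ q ≤ M) : nbM ρ q M = nbF ρ q := by
  obtain ⟨h1, h2, h3, h4⟩ := e0_min hM
  unfold nbM nbF
  rw [h1, h2, h3, h4]

/-! ### the second moment at the root -/

theorem e0_second {ρ q n : ℕ} (hρ : 3 ≤ ρ) (hn : 1 ≤ n) (hn2 : n < 2 ^ ρ) (hR : 8 ≤ 2 ^ ρ) :
    (sysM (2 ^ ρ) hR).expP (2 ^ ρ) (2 ^ kE ρ q) (2 ^ jE ρ) (bE ρ q (2 ^ ρ)) (12 * ρ)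
      (fun p => ((∑ i ∈ Finset.range (2 ^ kE ρ q), ((p (n, 0) i).1 : ℝ)) - 2 ^ sE ρ q n * t n) ^ 2) ≤
      1 / 2 ^ q * (2 ^ sE ρ q n * t n) ^ 2 := by
  set R := 2 ^ ρ with hRdef
  set K := 2 ^ kE ρ q with hKdef
  set J := 2 ^ jE ρ with hJdef
  set B := bE ρ q R with hBdef
  set S := sysM R hR with hS
  have hK1 : 1 ≤ K := Nat.one_le_two_pow
  have hJ1 : 1 ≤ J := Nat.one_le_two_pow
  have hSW : S.W = R ^ 9 := rfl
  have hW1 : 1 ≤ S.W := by rw [hSW]; exact Nat.one_le_pow _ _ (by omega)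
  have hcls : ∀ c ∈ S.Cls, c.1 < R ∧ c.2 < 7 := fun c hc => e0_cls c hc
  have hdvd : S.W * K * K ∣ 2 ^ B := by
    rw [hSW, hRdef, hKdef, ← pow_mul, ← pow_add, ← pow_add]
    refine pow_dvd_pow 2 ?_
    rw [hBdef]
    unfold bE kE
    have : 0 ≤ 23 * ρ * (R + 1) := Nat.zero_le _
    omega
  set η : ℝ := 1 / 2 ^ (35 * ρ + q + 7) with hη
  have hη0 : 0 ≤ η := by positivity
  have hη1 : η ≤ 1 := by
    rw [hη]
    exact div_le_one_of_le₀ (one_le_pow₀ (by norm_num)) (by positivity)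
  have hηB : (J : ℝ) * J ^ R ≤ η * 2 ^ B := by
    rw [hη, ← pow_succ', hJdef]
    push_cast
    rw [← pow_mul, div_mul_eq_mul_div, one_mul, le_div_iff₀ (by positivity), ← pow_add]
    refine pow_le_pow_right₀ (by norm_num) ?_
    rw [hBdef]
    unfold bE jE
    have : 23 * ρ * (R + 1) = 23 * ρ * (R + 1) := rfl
    omega
  have hM := moments S hK1 hJ1 hW1 hcls hdvd hη0 hη1 hηB
  have hNη : ((J * 2 ^ (12 * ρ + 2) : ℕ) : ℝ) * η = 1 / 2 ^ (q + 5) := by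
    rw [hη, hJdef]
    push_cast
    rw [← pow_add, mul_one_div, div_eq_div_iff (by positivity) (by positivity), one_mul, ← pow_add]
    congr 1
    unfold jE
    omega
  have hx2 : (1 : ℝ) / 2 ^ (q + 5) ≤ 1 / 2 := by
    apply div_le_div_of_nonneg_left (by norm_num) (by norm_num)
    calc (2 : ℝ) = 2 ^ 1 := by norm_num
      _ ≤ 2 ^ (q + 5) := pow_le_pow_right₀ (by norm_num) (by omega)
  obtain ⟨hup, hlo⟩ := e0_eta hη0 hη1 hNη hx2
  set δ : ℝ := 2 * (1 / 2 ^ (q + 5)) with hδ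
  set X : ℝ := 1 / 2 ^ (q + 3) with hX
  have hq0 : (0 : ℝ) < 2 ^ q := by positivity
  have hq1 : (1 : ℝ) ≤ 2 ^ q := one_le_pow₀ (by norm_num)
  have hinv : (1 : ℝ) / 2 ^ q ≤ 1 := div_le_one_of_le₀ hq1 hq0.le
  have hinv0 : (0 : ℝ) ≤ 1 / 2 ^ q := by positivity
  have hδe : δ = 1 / 16 * (1 / 2 ^ q) := by rw [hδ, pow_add]; field_simp; norm_num
  have hXe : X = 1 / 8 * (1 / 2 ^ q) := by rw [hX, pow_add]; field_simp; norm_num
  have hD : (2 : ℝ) ^ (12 * ρ) = ((R : ℕ) : ℝ) ^ 12 := by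
    rw [hRdef]
    push_cast
    rw [← pow_mul, mul_comm]
  have hKR : K = R ^ 215 * 2 ^ q := by
    rw [hKdef, hRdef, ← pow_mul, ← pow_add]
    congr 1
    unfold kE
    ring
  have hXi := e0_xi (R := R) (q := q) (K := K) hR hD hKR
  have hc : ((n, 0) : ℕ × ℕ) ∈ S.Cls := by
    change ((n, 0) : ℕ × ℕ) ∈ Cls R
    unfold Cls
    rw [Finset.mem_product, Finset.mem_Ico, Finset.mem_range]
    exact ⟨⟨hn, hn2⟩, by norm_num⟩
  have hJQ : (18 : ℝ) * S.W * (R : ℝ) ^ 12 ≤ J := by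
    have hR' : (8 : ℝ) ≤ (R : ℕ) := by exact_mod_cast hR
    have h1 := e0_pow hR' 21 23 (by norm_num)
    have h2 : (J : ℝ) = ((R : ℕ) : ℝ) ^ 23 := by
      rw [hJdef, hRdef]
      push_cast
      rw [← pow_mul]
      congr 1
      unfold jE
      ring
    rw [h2, hSW]
    push_cast
    calc (18 : ℝ) * (R : ℝ) ^ 9 * (R : ℝ) ^ 12 = 18 * (R : ℝ) ^ 21 := by ring
      _ ≤ 8 ^ (23 - 21) * (R : ℝ) ^ 21 := mul_le_mul_of_nonneg_right (by norm_num) (by positivity)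
      _ ≤ _ := h1
  have hdep : ∀ O ∈ S.Om (n, 0), S.dep (12 * ρ) O := fun O hO =>
    e0_dep hR _ O (depth_root hn2 hO)
  have hroot := root S (X := X) (δ := δ) hM hK1 hW1 hη0 hη1 hup hlo (by rw [hδe]; linarith)
    (by positivity) (by rw [hXe]; linarith) (by positivity) hJQ (e0_sup hR) hXi hc hdep
  obtain ⟨hr1, hr2⟩ := hroot
  set E := S.expP R K J B (12 * ρ) with hE
  set Sm : SPool MO → ℝ := fun p => ∑ O ∈ S.Om (n, 0), Sys.mu K p (S.cl O) O with hSm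
  have hT : S.T (n, 0) = t n := by
    change ((Om (n, 0)).card : ℝ) = t n
    rw [card_Om hn]
    simp
  set a : ℝ := ((J : ℝ) / S.W) ^ ((n, 0) : ℕ × ℕ).1.pred * t n with ha
  -- second moment of `Sm`
  have e1 : E (fun p => Sm p ^ 2) = ∑ O ∈ S.Om (n, 0), ∑ Y ∈ S.Om (n, 0),
      S.expP R K J B (12 * ρ) (fun p => Sys.mu K p (S.cl O) O * Sys.mu K p (S.cl Y) Y) := by
    have : (fun p => Sm p ^ 2) = fun p => ∑ O ∈ S.Om (n, 0), ∑ Y ∈ S.Om (n, 0),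
        Sys.mu K p (S.cl O) O * Sys.mu K p (S.cl Y) Y := by
      funext p
      rw [hSm, sq, Finset.sum_mul_sum]
    rw [this, hE, expP_sum]
    refine Finset.sum_congr rfl fun O _ => ?_
    rw [expP_sum]
  have e2 : E Sm = ∑ O ∈ S.Om (n, 0), S.expP R K J B (12 * ρ) (fun p => Sys.mu K p (S.cl O) O) := by
    rw [hSm, hE, expP_sum]
  have ha' : ((J : ℝ) / S.W) ^ (((n, 0) : ℕ × ℕ).1 - 1) * S.T (n, 0) = a := by
    rw [ha, hT]; rfl
  rw [ha'] at hr1 hr2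
  rw [← e1] at hr1
  rw [← e2] at hr2
  have ha0 : 0 ≤ a := by rw [ha]; positivity
  have e3 : E (fun p => (Sm p - a) ^ 2) ≤ 1 / 2 ^ q * a ^ 2 := by
    have h1 : (fun p => (Sm p - a) ^ 2) = fun p => (Sm p ^ 2 + (-(2 * a)) * Sm p) + a ^ 2 := by
      funext p; ring
    have h2 : E (fun p => (Sm p - a) ^ 2) = E (fun p => Sm p ^ 2) + (-(2 * a)) * E Sm + a ^ 2 := by
      rw [h1, hE, expP_add, expP_add, expP_smul, expP_const]
    rw [h2]
    have h3 : 0 ≤ 2 * a * (E Sm - (1 - δ) * a) :=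
      mul_nonneg (by positivity) (by linarith)
    have h4 : (1 + δ) * (1 + X) * a ^ 2 - 2 * a * ((1 - δ) * a) + a ^ 2 =
        (3 * δ + X + δ * X) * a ^ 2 := by ring
    have h5 : 3 * δ + X + δ * X ≤ 1 / 2 ^ q := by
      rw [hδe, hXe]
      have : (1 : ℝ) / 2 ^ q * (1 / 2 ^ q) ≤ 1 / 2 ^ q := by nlinarith
      nlinarith
    have h6 : (3 * δ + X + δ * X) * a ^ 2 ≤ 1 / 2 ^ q * a ^ 2 :=
      mul_le_mul_of_nonneg_right h5 (by positivity)
    nlinarith [h3, h4, h6, hr1]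
  -- relation with the total weight
  have hKa : (K : ℝ) * a = 2 ^ sE ρ q n * t n := by
    have h1 : (J : ℝ) / S.W = 2 ^ (14 * ρ) := by
      rw [hSW, hJdef, hRdef]
      push_cast
      rw [← pow_mul, div_eq_iff (by positivity), ← pow_add]
      congr 1
      unfold jE
      ring
    rw [ha, h1, hKdef]
    push_cast
    rw [← mul_assoc, ← pow_mul, ← pow_add]
    congr 2
  have e4 : ∀ p, S.Good K J p →
      ((∑ i ∈ Finset.range K, ((p (n, 0) i).1 : ℝ)) - 2 ^ sE ρ q n * t n) ^ 2 ≤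
        (K : ℝ) ^ 2 * (Sm p - a) ^ 2 := by
    intro p hp
    have h1 := e0_total hR hc hp
    have h2 : Sm p = (∑ i ∈ Finset.range K, ((p (n, 0) i).1 : ℝ)) / K := h1
    have hK0 : (K : ℝ) ≠ 0 := by positivity
    rw [← hKa, h2, ← mul_pow, mul_sub, mul_div_cancel₀ _ hK0]
  calc E (fun p => ((∑ i ∈ Finset.range K, ((p (n, 0) i).1 : ℝ)) - 2 ^ sE ρ q n * t n) ^ 2)
      ≤ E (fun p => (K : ℝ) ^ 2 * (Sm p - a) ^ 2) := expP_mono S hJ1 hW1 hcls _ e4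
    _ = (K : ℝ) ^ 2 * E (fun p => (Sm p - a) ^ 2) := by rw [hE, expP_smul]
    _ ≤ (K : ℝ) ^ 2 * (1 / 2 ^ q * a ^ 2) := mul_le_mul_of_nonneg_left e3 (by positivity)
    _ = 1 / 2 ^ q * (2 ^ sE ρ q n * t n) ^ 2 := by rw [← hKa]; ring

theorem dev {ρ q n : ℕ} (hρ : 3 ≤ ρ) (hn : 1 ≤ n) (hn2 : n < 2 ^ ρ) {M : ℕ} (hM : 2 ^ kE ρ q ≤ M)
    {L : ℕ} (hL : nbF ρ q ≤ L) {τ : ℝ} (hτ : 0 < τ) :
    avgB L (fun r => if τ * (2 ^ sE ρ q n * t n) <
      |(totW (min (2 ^ kE ρ q) M) (arrF ρ q r M) n : ℝ) - 2 ^ sE ρ q n * t n| then 1 else 0) ≤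
      1 / (2 ^ q * τ ^ 2) := by
  have hR : 8 ≤ 2 ^ ρ := by
    calc 8 = 2 ^ 3 := by norm_num
      _ ≤ 2 ^ ρ := Nat.pow_le_pow_right (by norm_num) hρ
  obtain ⟨m1, m2, m3, m4⟩ := e0_min hM
  have hnb := e0_nbM hM
  set b : ℝ := 2 ^ sE ρ q n * t n with hb
  have hb0 : 0 < b := by
    have : 1 ≤ t n := t_pos n
    have : (0 : ℝ) < t n := by exact_mod_cast this
    positivity
  set G : List Bool → ℝ := fun r => if τ * b <
      |(totW (2 ^ kE ρ q) (runF (2 ^ ρ) (2 ^ kE ρ q) (2 ^ jE ρ) (bE ρ q (2 ^ ρ)) r) n : ℝ) - b| then 1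
      else 0 with hG
  have h1 : avgB L (fun r => if τ * b <
      |(totW (min (2 ^ kE ρ q) M) (arrF ρ q r M) n : ℝ) - b| then 1 else 0) = avgB (nbF ρ q) G := by
    rw [← e0_take hL]
    refine c1_congr fun r _ => ?_
    rw [hG]
    unfold arrF
    rw [m1, m2, m3, hnb]
  rw [h1]
  set F : SPool MO → ℝ := fun p => if τ * b <
      |(∑ i ∈ Finset.range (2 ^ kE ρ q), ((p (n, 0) i).1 : ℝ)) - b| then 1 else 0 with hF
  have h2 : avgB (nbF ρ q) G = avgB (nbF ρ q) (fun r => F ((sysM (2 ^ ρ) hR).runP (2 ^ ρ)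
      (2 ^ kE ρ q) (2 ^ jE ρ) (bE ρ q (2 ^ ρ)) (12 * ρ) r)) := by
    refine c1_congr fun r hr => ?_
    have h3 := toP_runF (R := 2 ^ ρ) (K := 2 ^ kE ρ q) (J := 2 ^ jE ρ) (B := bE ρ q (2 ^ ρ))
      (H := 12 * ρ) hR Nat.one_le_two_pow Nat.one_le_two_pow (by unfold bE; omega) (r := r) hr
    rw [← h3, hG, hF]
    dsimp only
    have h4 : (totW (2 ^ kE ρ q) (runF (2 ^ ρ) (2 ^ kE ρ q) (2 ^ jE ρ) (bE ρ q (2 ^ ρ)) r) n : ℝ) =
        ∑ i ∈ Finset.range (2 ^ kE ρ q), ((toP (2 ^ kE ρ q)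
          (runF (2 ^ ρ) (2 ^ kE ρ q) (2 ^ jE ρ) (bE ρ q (2 ^ ρ)) r) (n, 0) i).1 : ℝ) := by
      unfold totW
      rw [← List.sum_toFinset _ List.nodup_range]
      push_cast
      rw [List.toFinset_range]
      refine Finset.sum_congr rfl fun i hi => ?_
      unfold toP
      rw [if_pos (Finset.mem_range.1 hi)]
    rw [h4]
  rw [h2]
  unfold nbF
  rw [avgB_runP]
  have hτb : 0 < τ * b := mul_pos hτ hb0
  have h5 : ∀ p, F p ≤ 1 / (τ * b) ^ 2 *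
      ((∑ i ∈ Finset.range (2 ^ kE ρ q), ((p (n, 0) i).1 : ℝ)) - b) ^ 2 := by
    intro p
    rw [hF]
    dsimp only
    split_ifs with h6
    · rw [one_div, ← div_eq_inv_mul, one_le_div (by positivity), ← sq_abs
        ((∑ i ∈ Finset.range (2 ^ kE ρ q), ((p (n, 0) i).1 : ℝ)) - b)]
      exact pow_le_pow_left₀ hτb.le h6.le 2
    · positivity
  have hcls : ∀ c ∈ (sysM (2 ^ ρ) hR).Cls, c.1 < 2 ^ ρ ∧ c.2 < 7 := fun c hc => e0_cls c hc
  have hW1 : 1 ≤ (sysM (2 ^ ρ) hR).W := by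
    change 1 ≤ (2 ^ ρ) ^ 9
    exact Nat.one_le_pow _ _ (by omega)
  refine (expP_mono (sysM (2 ^ ρ) hR) (Nat.one_le_two_pow) hW1 hcls _ (fun p _ => h5 p)).trans ?_
  rw [expP_smul]
  refine (mul_le_mul_of_nonneg_left (e0_second hρ hn hn2 hR) (by positivity)).trans ?_
  rw [← hb]
  have : 1 / (τ * b) ^ 2 * (1 / 2 ^ q * b ^ 2) = 1 / (2 ^ q * τ ^ 2) := by
    field_simp
  rw [this]

end Pool.Agent.Lib.MP_104326_lc.FP
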