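import Pool.Agent.Lib.MP_104326_lc.FP.Defs
import Pool.Agent.Lib.MP_104326_lc.KR.D1

/-! FP, module P1: gluing of marked polyominoes is a polynomial time function. -/

set_option autoImplicit false

namespace Pool.Agent.Lib.MP_104326_lc.FP

open Pool.Agent.Lib.PolyTime Pool.Agent.Lib.MP_104326_lc.KR

variable {β : Type} [Enc β]

theorem PT_mem {p : β → NC} {L : β → List NC} (hp : PT p) (hL : PT L) :
    PT (fun b => mem (p b) (L b)) :=
  PT.any (f := L) (p := fun b q => decide (p b = q)) hL
    (PT.eq (hp.comp PT.fst) PT.snd)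

theorem PT_cw {W L : β → List NC} (hW : PT W) (hL : PT L) : PT (fun b => cw (W b) (L b)) :=
  PT.length (PT.filter (f := L) (p := fun b p => mem p (W b)) hL
    (PT_mem PT.snd (hW.comp PT.fst)))

theorem largestW_fold_sublist (W L l : List NC) :
    (l.foldl (fun best c => if cw W best < cw W (comp L c) then comp L c else best)
      []).Sublist L := by
  induction l using List.reverseRecOn with
  | nil => exact List.nil_sublist _
  | append_singleton l c ih =>
    rw [List.foldl_append, List.foldl_cons, List.foldl_nil]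
    split_ifs
    · exact comp_sublist L c
    · exact ih

theorem largestW_sub (W L : List NC) : (largestW W L).Sublist L := largestW_fold_sublist W L L

theorem stepW_sub (W Z B : List NC) : (stepW W Z B).Sublist B := by
  unfold stepW
  split_ifs
  · exact List.Sublist.refl _
  · cases pick Z B with
    | none => exact List.Sublist.refl _
    | some b => exact (largestW_sub _ _).trans List.filter_sublist

theorem stepW_iter_sub (W Z B : List NC) (i : ℕ) : ((stepW W Z)^[i] B).Sublist B := by
  induction i with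
  | zero => exact List.Sublist.refl _
  | succ i ih => rw [Function.iterate_succ_apply']; exact (stepW_sub _ _ _).trans ih

theorem PT_largestW {W L : β → List NC} (hW : PT W) (hL : PT L) :
    PT (fun b => largestW (W b) (L b)) := by
  obtain ⟨p, hp⟩ := hL.size_le
  refine PT.foldl (f := L) (init := fun _ => ([] : List NC))
    (step := fun b best c => if cw (W b) best < cw (W b) (comp (L b) c) then comp (L b) c else best)
    hL (PT.const _) ?_ (PB.poly p)
    (fun a l' _ => (size_sublist (largestW_fold_sublist (W a) (L a) l')).trans (hp a))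
  have hc : PT (fun y : β × (List NC × NC) => comp (L y.1) y.2.2) :=
    PT_comp (hL.comp PT.fst) PT.snd.snd'
  have hw : PT (fun y : β × (List NC × NC) => W y.1) := hW.comp PT.fst
  exact PT.ite (c := fun y : β × (List NC × NC) => cw (W y.1) y.2.1 <
      cw (W y.1) (comp (L y.1) y.2.2))
    (PT.lt (PT_cw hw PT.snd.fst') (PT_cw hw hc)) hc PT.snd.fst'

theorem PT_stepW {W Z B : β → List NC} (hW : PT W) (hZ : PT Z) (hB : PT B) :
    PT (fun b => stepW (W b) (Z b) (B b)) := by
  refine PT.ite (c := fun b => cw (W b) (Z b) ≤ 4 * cw (W b) (diff (Z b) (B b)) + 1)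
    (PT.le (PT_cw hW hZ) ((PT_cw hW (PT_diff hZ hB)).mulConst 4).succ) hB ?_
  exact (PT.optCases (f := fun b => pick (Z b) (B b)) (g := B)
    (h := fun b c => largestW (W b) ((B b).filter (fun p => !decide (p = c)))) (PT_pick hZ hB) hB
    (PT_largestW (hW.comp PT.fst)
      (PT.filter (f := fun y : β × NC => B y.1) (p := fun y p => !decide (p = y.2))
        (hB.comp PT.fst) (PT.not (PT.eq PT.snd PT.fst.snd'))))).congr
    (fun b => by cases pick (Z b) (B b) <;> rfl)

theorem PT_splitW {W Z : β → List NC} (hW : PT W) (hZ : PT Z) :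
    PT (fun b => splitW (W b) (Z b)) := by
  obtain ⟨p, hp⟩ := hZ.size_le
  exact PT.iterate (f := fun b => (Z b).length) (init := Z)
    (step := fun b B => stepW (W b) (Z b) B)
    (PT.length hZ) hZ (PT_stepW (hW.comp PT.fst) (hZ.comp PT.fst) PT.snd) (PB.poly p)
    (fun a i _ => (size_sublist (stepW_iter_sub (W a) (Z a) (Z a) i)).trans (hp a))

theorem PT_heavy {O : β → MO} (hO : PT O) : PT (fun b => heavy (O b)) :=
  PT.ite (c := fun b => (O b).2.length ≤ 5) (PT.le (PT.length hO.snd') (PT.const 5))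
    hO.fst' hO.snd'

theorem PT_firstAdj {A B : β → List NC} (hA : PT A) (hB : PT B) :
    PT (fun b => firstAdj (A b) (B b)) := by
  have h1 : PT (fun b => (A b).flatMap (fun p =>
      ((B b).filter (fun q => isAdj p q)).map (fun q => (p, q)))) :=
    PT.flatMap (f := A) (g := fun b p => ((B b).filter (fun q => isAdj p q)).map (fun q => (p, q)))
      hA
      (PT.map (f := fun z : β × NC => (B z.1).filter (fun q => isAdj z.2 q))
        (g := fun z q => (z.2, q))
        (PT.filter (f := fun z : β × NC => B z.1) (p := fun z q => isAdj z.2 q)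
          (hB.comp PT.fst) (PT_isAdj PT.fst.snd' PT.snd))
        (PT.pair PT.fst.snd' PT.snd))
  have h2 := PT.head? h1
  refine (PT.optCases (f := fun b => ((A b).flatMap (fun p =>
      ((B b).filter (fun q => isAdj p q)).map (fun q => (p, q)))).head?)
    (g := fun _ => (((0, 0), (0, 0)) : NC × NC)) (h := fun _ x => x) h2 (PT.const _)
    PT.snd).congr (fun b => ?_)
  unfold firstAdj
  cases ((A b).flatMap (fun p =>
      ((B b).filter (fun q => isAdj p q)).map (fun q => (p, q)))).head? <;> rfl

theorem PT_zB {O : β → MO} (hO : PT O) : PT (fun b => zB (O b)) :=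
  PT_splitW (PT_heavy hO) hO.fst'

theorem PT_zA {O : β → MO} (hO : PT O) : PT (fun b => zA (O b)) :=
  PT_diff hO.fst' (PT_zB hO)

theorem PT_yy {O : β → MO} (hO : PT O) : PT (fun b => yy (O b)) :=
  PT_firstAdj (PT_zA hO) (PT_zB hO)

theorem PT_partA {O : β → MO} (hO : PT O) : PT (fun b => partA (O b)) :=
  PT.pair (PT_zA hO) (PT.filter (f := fun b => zA (O b))
    (p := fun b p => mem p (O b).2 || decide (p = (yy (O b)).1)) (PT_zA hO)
    (PT.or (PT_mem PT.snd (hO.comp PT.fst).snd') (PT.eq PT.snd ((PT_yy hO).comp PT.fst).fst')))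

theorem PT_partB {O : β → MO} (hO : PT O) : PT (fun b => partB (O b)) :=
  PT.pair (PT_zB hO) (PT.filter (f := fun b => zB (O b))
    (p := fun b p => mem p (O b).2 || decide (p = (yy (O b)).2)) (PT_zB hO)
    (PT.or (PT_mem PT.snd (hO.comp PT.fst).snd') (PT.eq PT.snd ((PT_yy hO).comp PT.fst).snd')))

theorem PT_dig {R w : β → ℕ} (hR : PT R) (hw : PT w) (i : ℕ) :
    PT (fun b => dig (R b) (w b) i) :=
  PT_mod (PT_div hw (PT_powC hR i)) hR

theorem PT_glued {R w : β → ℕ} {A B : β → MO} (hR : PT R) (hw : PT w) (hA : PT A)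
    (hB : PT B) : PT (fun b => glued (R b) (w b) (A b) (B b)) := by
  have hs : PT (fun b => ((dig (R b) (w b) 3, dig (R b) (w b) 4) : NC)) :=
    PT.pair (PT_dig hR hw 3) (PT_dig hR hw 4)
  have ht : PT (fun b => ((dig (R b) (w b) 5, dig (R b) (w b) 6) : NC)) :=
    PT.pair (PT_dig hR hw 5) (PT_dig hR hw 6)
  have hsA := PT_shift hs hA.fst'
  have htB := PT_shift ht hB.fst'
  have hsA2 := PT_shift hs hA.snd'
  have htB2 := PT_shift ht hB.snd'
  have hZ := PT_union hR hsA htB
  have hy := PT_firstAdj hsA htB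
  have h7 : PT (fun b => decide (dig (R b) (w b) 7 = 1)) := PT.eq (PT_dig hR hw 7) (PT.const 1)
  have h8 : PT (fun b => decide (dig (R b) (w b) 8 = 1)) := PT.eq (PT_dig hR hw 8) (PT.const 1)
  exact PT.pair hZ (PT.filter
    (f := fun b => union (R b) (shift (dig (R b) (w b) 3, dig (R b) (w b) 4) (A b).1)
      (shift (dig (R b) (w b) 5, dig (R b) (w b) 6) (B b).1))
    (p := fun b p =>
      (mem p (shift (dig (R b) (w b) 3, dig (R b) (w b) 4) (A b).2) &&
        (!decide (p = (firstAdj (shift (dig (R b) (w b) 3, dig (R b) (w b) 4) (A b).1)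
          (shift (dig (R b) (w b) 5, dig (R b) (w b) 6) (B b).1)).1) ||
          decide (dig (R b) (w b) 7 = 1))) ||
      (mem p (shift (dig (R b) (w b) 5, dig (R b) (w b) 6) (B b).2) &&
        (!decide (p = (firstAdj (shift (dig (R b) (w b) 3, dig (R b) (w b) 4) (A b).1)
          (shift (dig (R b) (w b) 5, dig (R b) (w b) 6) (B b).1)).2) ||
          decide (dig (R b) (w b) 8 = 1)))) hZ
    (PT.or
      (PT.and (PT_mem PT.snd (hsA2.comp PT.fst))
        (PT.or (PT.not (PT.eq PT.snd (hy.comp PT.fst).fst')) (h7.comp PT.fst)))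
      (PT.and (PT_mem PT.snd (htB2.comp PT.fst))
        (PT.or (PT.not (PT.eq PT.snd (hy.comp PT.fst).snd')) (h8.comp PT.fst)))))

theorem PT_cl {O : β → MO} (hO : PT O) : PT (fun b => cl (O b)) :=
  PT.pair (PT.length hO.fst') (PT.length hO.snd')

theorem PT_glueM {R w : β → ℕ} {c : β → ℕ × ℕ} {A B : β → MO} (hR : PT R)
    (hc : PT c) (hw : PT w) (hA : PT A) (hB : PT B) :
    PT (fun b => glueM (R b) (c b) (w b) (A b) (B b)) := by
  have hs : PT (fun b => ((dig (R b) (w b) 3, dig (R b) (w b) 4) : NC)) :=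
    PT.pair (PT_dig hR hw 3) (PT_dig hR hw 4)
  have ht : PT (fun b => ((dig (R b) (w b) 5, dig (R b) (w b) 6) : NC)) :=
    PT.pair (PT_dig hR hw 5) (PT_dig hR hw 6)
  have hG := PT_glued hR hw hA hB
  refine PT.ite (c := fun b => cl (glued (R b) (w b) (A b) (B b)) = c b ∧ (c b).2 ≤ 6 ∧
      isConn (glued (R b) (w b) (A b) (B b)).1 = true ∧
      isNorm (glued (R b) (w b) (A b) (B b)).1 = true ∧
      (A b).1.length = dig (R b) (w b) 0 ∧ (A b).2.length = dig (R b) (w b) 1 ∧
      (B b).2.length = dig (R b) (w b) 2 ∧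
      dig (R b) (w b) 7 ≤ 1 ∧ dig (R b) (w b) 8 ≤ 1 ∧ isNorm (A b).1 = true ∧
      isNorm (B b).1 = true ∧
      partA (glued (R b) (w b) (A b) (B b)) =
        (shift (dig (R b) (w b) 3, dig (R b) (w b) 4) (A b).1,
          shift (dig (R b) (w b) 3, dig (R b) (w b) 4) (A b).2) ∧
      partB (glued (R b) (w b) (A b) (B b)) =
        (shift (dig (R b) (w b) 5, dig (R b) (w b) 6) (B b).1,
          shift (dig (R b) (w b) 5, dig (R b) (w b) 6) (B b).2))
    ?_ hG.some (PT.const none)
  refine (PT.and (PT.eq (PT_cl hG) hc) (PT.and (PT.le hc.snd' (PT.const 6))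
    (PT.and (PT_isConn hG.fst') (PT.and (PT_isNorm hG.fst')
      (PT.and (PT.eq (PT.length hA.fst') (PT_dig hR hw 0))
        (PT.and (PT.eq (PT.length hA.snd') (PT_dig hR hw 1))
          (PT.and (PT.eq (PT.length hB.snd') (PT_dig hR hw 2))
            (PT.and (PT.le (PT_dig hR hw 7) (PT.const 1))
              (PT.and (PT.le (PT_dig hR hw 8) (PT.const 1))
                (PT.and (PT_isNorm hA.fst') (PT.and (PT_isNorm hB.fst')
                  (PT.and (PT.eq (PT_partA hG) (PT.pair (PT_shift hs hA.fst') (PT_shift hs hA.snd')))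
                    (PT.eq (PT_partB hG)
                      (PT.pair (PT_shift ht hB.fst') (PT_shift ht hB.snd'))))))))))))))).congr
    (fun b => ?_)
  simp only [Bool.decide_and, Bool.decide_eq_true]

theorem glueM_size {R : ℕ} {c : ℕ × ℕ} {w : ℕ} {A B O : MO} (h : glueM R c w A B = some O) :
    O.1.Sublist (grid R) ∧ O.2.Sublist (grid R) := by
  unfold glueM at h
  split_ifs at h
  have hO : glued R w A B = O := Option.some.inj h
  have h1 : O.1.Sublist (grid R) := by
    rw [← hO]
    exact List.filter_sublist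
  have h2 : O.2.Sublist O.1 := by
    rw [← hO]
    exact List.filter_sublist
  exact ⟨h1, h2.trans h1⟩

end Pool.Agent.Lib.MP_104326_lc.FP
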