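import Pool.Agent.Lib.MP_104326_lc.FP.PDefs
import Pool.Agent.Lib.MP_104326_lc.FP.P1
import Pool.Agent.Lib.MP_104326_lc.KR.D3

/-!
# FP, module P3: the sampling algorithm with pools runs in polynomial time
-/

set_option autoImplicit false

namespace Pool.Agent.Lib.MP_104326_lc.FP

open Pool.Agent.Lib.PolyTime Pool.Agent.Lib.MP_104326_lc.KR

/-! ### The same functions with capped indices -/

/-- One trial, indices capped. -/
def trialC (R K : ℕ) (c : ℕ × ℕ) (u : BN) (x y : LPool) : BN × MO :=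
  match glueM R c (min (u.val % R ^ 9) (R ^ 9))
      (pAt K x (lcl R c (min (u.val % R ^ 9) (R ^ 9))) (min (u.val / R ^ 9 % K) K)).2
      (pAt K y (rcl R c (min (u.val % R ^ 9) (R ^ 9))) (min (u.val / R ^ 9 / K % K) K)).2 with
  | some Z => (⟨(pAt K x (lcl R c (min (u.val % R ^ 9) (R ^ 9))) (min (u.val / R ^ 9 % K) K)).1.val *
      (pAt K y (rcl R c (min (u.val % R ^ 9) (R ^ 9))) (min (u.val / R ^ 9 / K % K) K)).1.val⟩, Z)
  | none => (⟨0⟩, unitO 0)

/-- The sample of a slot, indices capped. -/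
def slotC (R K B : ℕ) (c : ℕ × ℕ) (x y : LPool) (p : List Bool) (J : ℕ) : BN × MO :=
  (List.range J).foldl (fun a i => mrgL B ⟨msb ((p.drop (i * (2 * B) + B)).take B)⟩ a
    (trialC R K c ⟨msb ((p.drop (i * (2 * B))).take B)⟩ x y)) (⟨0⟩, unitO 0)

/-- The pool of a node, indices capped. -/
def nodeC (R K J B : ℕ) (r : List Bool) (x y : LPool) : LPool :=
  (List.range (7 * R * K)).map (fun σ =>
    if σ / K / 7 = 1 then unitL (σ / K / 7, σ / K % 7)
    else slotC R K B (σ / K / 7, σ / K % 7) x y (Sys.piece (J * (2 * B)) σ r) J)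

theorem trialC_eq {R K : ℕ} (hR : 0 < R) (hK : 0 < K) (c : ℕ × ℕ) (u : BN) (x y : LPool) :
    trialC R K c u x y = trialL R K c u x y := by
  have h1 : min (u.val % R ^ 9) (R ^ 9) = u.val % R ^ 9 :=
    min_eq_left (Nat.mod_lt _ (pow_pos hR 9)).le
  have h2 : min (u.val / R ^ 9 % K) K = u.val / R ^ 9 % K := min_eq_left (Nat.mod_lt _ hK).le
  have h3 : min (u.val / R ^ 9 / K % K) K = u.val / R ^ 9 / K % K :=
    min_eq_left (Nat.mod_lt _ hK).le
  unfold trialC trialL
  simp only [h1, h2, h3]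
  rcases glueM R c (u.val % R ^ 9) (pAt K x (lcl R c (u.val % R ^ 9)) (u.val / R ^ 9 % K)).2
    (pAt K y (rcl R c (u.val % R ^ 9)) (u.val / R ^ 9 / K % K)).2 with _ | Z <;> rfl

theorem slotC_eq {R K : ℕ} (hR : 0 < R) (hK : 0 < K) (B : ℕ) (c : ℕ × ℕ) (x y : LPool)
    (p : List Bool) (J : ℕ) : slotC R K B c x y p J = slotL R K B c x y p J := by
  unfold slotC slotL
  simp only [trialC_eq hR hK]

theorem nodeC_eq (R K J B : ℕ) (r : List Bool) (x y : LPool) :
    nodeC R K J B r x y = nodeL R K J B r x y := by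
  unfold nodeC nodeL
  refine List.map_congr_left fun σ hσ => ?_
  have h := List.mem_range.1 hσ
  have hR : 0 < R := by
    rcases Nat.eq_zero_or_pos R with h0 | h0
    · subst h0; simp at h
    · exact h0
  have hK : 0 < K := by
    rcases Nat.eq_zero_or_pos K with h0 | h0
    · subst h0; simp at h
    · exact h0
  rw [slotC_eq hR hK]

/-! ### Polynomial time of the parts -/

section PT
variable {β : Type} [Enc β]

theorem PT_unitO {x : β → ℕ} (hx : PT x) : PT (fun b => unitO (x b)) := by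
  refine (PT.ite (c := fun b => x b = 0) ((PT.eqConst 0).comp hx)
    (PT.const (([(0, 0)], []) : MO)) (PT.const (([(0, 0)], [(0, 0)]) : MO))).congr fun b => ?_
  unfold unitO
  by_cases h : x b = 0
  · rw [if_pos h, if_pos h]
  · rw [if_neg h, if_neg h]

theorem PT_unitL {c : β → ℕ × ℕ} (hc : PT c) : PT (fun b => unitL (c b)) := by
  refine (PT.ite (c := fun b => (c b).1 = 1 ∧ (c b).2 ≤ 1) ?_
    (PT.pair (PT.const (⟨1⟩ : BN)) (PT_unitO hc.snd')) (PT.const ((⟨0⟩, unitO 0) : BN × MO)))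
  refine (PT.and ((PT.eqConst 1).comp hc.fst') (PT.le hc.snd' (PT.const 1))).congr fun b => ?_
  rw [Bool.decide_and]

theorem PT_pAt {K : β → ℕ} {x : β → LPool} {c : β → ℕ × ℕ} {s : β → ℕ} (hK : PT K) (hx : PT x)
    (hc : PT c) (hs : PT s) : PT (fun b => pAt (K b) (x b) (c b) (s b)) := by
  have hi : PT (fun b => Sys.idx (K b) (c b) (s b)) :=
    PT.add (PT.mul (PT.add (hc.fst'.mulConst 7) hc.snd' |>.congr fun b => by ring) hK) hs
  exact PT.ite (c := fun b => (c b).2 < 7) (PT.lt hc.snd' (PT.const 7)) (PT_getD' hx hi _)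
    (PT.const ((⟨0⟩, unitO 0) : BN × MO))

theorem PT_trialC {R K : β → ℕ} {c : β → ℕ × ℕ} {u : β → BN} {x y : β → LPool} (hR : PT R)
    (hK : PT K) (hc : PT c) (hu : PT u) (hx : PT x) (hy : PT y) :
    PT (fun b => trialC (R b) (K b) (c b) (u b) (x b) (y b)) := by
  have h9 : PT (fun b => R b ^ 9) := PT_powC hR 9
  have hw : PT (fun b => min ((u b).val % R b ^ 9) (R b ^ 9)) :=
    PT.bnCap (PT.bnMod hu (PT.toBN h9)) h9
  have hd : PT (fun b => (⟨(u b).val / R b ^ 9⟩ : BN)) := PT.bnDiv hu (PT.toBN h9)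
  have hs : PT (fun b => min ((u b).val / R b ^ 9 % K b) (K b)) :=
    PT.bnCap (PT.bnMod hd (PT.toBN hK)) hK
  have hs' : PT (fun b => min ((u b).val / R b ^ 9 / K b % K b) (K b)) :=
    PT.bnCap (PT.bnMod (PT.bnDiv hd (PT.toBN hK)) (PT.toBN hK)) hK
  have hl : PT (fun b => lcl (R b) (c b) (min ((u b).val % R b ^ 9) (R b ^ 9))) :=
    PT.pair (PT_dig hR hw 0) (PT_dig hR hw 1)
  have hr : PT (fun b => rcl (R b) (c b) (min ((u b).val % R b ^ 9) (R b ^ 9))) :=
    PT.pair (PT.sub hc.fst' (PT_dig hR hw 0)) (PT_dig hR hw 2)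
  have hX := PT_pAt hK hx hl hs
  have hY := PT_pAt hK hy hr hs'
  have hM := PT.optCases
    (h := fun b Z => ((⟨(pAt (K b) (x b) (lcl (R b) (c b) (min ((u b).val % R b ^ 9) (R b ^ 9)))
      (min ((u b).val / R b ^ 9 % K b) (K b))).1.val *
      (pAt (K b) (y b) (rcl (R b) (c b) (min ((u b).val % R b ^ 9) (R b ^ 9)))
      (min ((u b).val / R b ^ 9 / K b % K b) (K b))).1.val⟩, Z) : BN × MO))
    (PT_glueM hR hc hw hX.snd' hY.snd') (PT.const ((⟨0⟩, unitO 0) : BN × MO))
    (PT.pair ((PT.bnMul hX.fst' hY.fst').comp PT.fst) PT.snd)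
  refine hM.congr fun b => ?_
  unfold trialC
  rcases glueM (R b) (c b) (min ((u b).val % R b ^ 9) (R b ^ 9))
      (pAt (K b) (x b) (lcl (R b) (c b) (min ((u b).val % R b ^ 9) (R b ^ 9)))
        (min ((u b).val / R b ^ 9 % K b) (K b))).2
      (pAt (K b) (y b) (rcl (R b) (c b) (min ((u b).val % R b ^ 9) (R b ^ 9)))
        (min ((u b).val / R b ^ 9 / K b % K b) (K b))).2 with _ | Z <;> rfl

theorem PT_mrgL {B : β → ℕ} {u : β → BN} {x y : β → BN × MO} (hB : PT B) (hu : PT u) (hx : PT x)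
    (hy : PT y) : PT (fun b => mrgL (B b) (u b) (x b) (y b)) := by
  have hs := PT.bnAdd hx.fst' hy.fst'
  exact PT.ite (c := fun b => (u b).val * ((x b).1.val + (y b).1.val) < (y b).1.val * 2 ^ B b)
    (PT.bnLt (PT.bnMul hu hs) (PT.bnMul hy.fst' (PT.bnTwoPow hB))) (PT.pair hs hy.snd')
    (PT.pair hs hx.snd')

end PT

/-! ### Sizes -/

/-- bound for the size of the objects -/
def SM (R : ℕ) : ℕ := SB R + SB R + 1

theorem size_unitO (R x : ℕ) : size (unitO x) ≤ SM R := by
  have h1 := size_cell R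
  have h2 : size ([] : List NC) ≤ SB R := by
    rw [size_nil]
    exact (size_pos _).trans_le h1
  unfold unitO SM
  by_cases h : x = 0
  · rw [if_pos h, size_prod]
    show size ([(0, 0)] : List NC) + size ([] : List NC) + 1 ≤ _
    omega
  · rw [if_neg h, size_prod]
    show size ([(0, 0)] : List NC) + size ([(0, 0)] : List NC) + 1 ≤ _
    omega

theorem size_grid_le (R : ℕ) : size (grid R) ≤ SB R := by
  have h1 : (grid R).length = R * R := by
    unfold grid
    rw [List.length_flatMap]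
    simp
  have h2 : ∀ p ∈ grid R, size p ≤ 4 * R + 3 := by
    intro p hp
    unfold grid at hp
    simp only [List.mem_flatMap, List.mem_map, List.mem_range] at hp
    obtain ⟨x, hx, y, hy, rfl⟩ := hp
    rw [size_prod, size_nat, size_nat]
    omega
  have h3 := size_list_le _ h2
  rw [h1] at h3
  have h4 : R * R * (4 * R + 3 + 1) = R * R * (4 * R + 4) := rfl
  rw [h4] at h3
  unfold SB
  omega

theorem glueM_size' {R : ℕ} {c : ℕ × ℕ} {w : ℕ} {A B O : MO} (h : glueM R c w A B = some O) :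
    size O ≤ SM R := by
  obtain ⟨h1, h2⟩ := glueM_size h
  have h3 := (size_sublist h1).trans (size_grid_le R)
  have h4 := (size_sublist h2).trans (size_grid_le R)
  unfold SM
  rw [size_prod]
  omega

theorem trialC_cases (R K : ℕ) (c : ℕ × ℕ) (u : BN) (x y : LPool) :
    size (trialC R K c u x y).2 ≤ SM R ∧ ((trialC R K c u x y).1.val = 0 ∨
      (trialC R K c u x y).1.val =
        (pAt K x (lcl R c (min (u.val % R ^ 9) (R ^ 9))) (min (u.val / R ^ 9 % K) K)).1.val *
        (pAt K y (rcl R c (min (u.val % R ^ 9) (R ^ 9))) (min (u.val / R ^ 9 / K % K) K)).1.val) := by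
  unfold trialC
  rcases h : glueM R c (min (u.val % R ^ 9) (R ^ 9))
      (pAt K x (lcl R c (min (u.val % R ^ 9) (R ^ 9))) (min (u.val / R ^ 9 % K) K)).2
      (pAt K y (rcl R c (min (u.val % R ^ 9) (R ^ 9))) (min (u.val / R ^ 9 / K % K) K)).2 with _ | Z
  · exact ⟨size_unitO R 0, Or.inl rfl⟩
  · exact ⟨glueM_size' h, Or.inr rfl⟩

theorem mrgL_cases (B : ℕ) (u : BN) (a b : BN × MO) :
    (mrgL B u a b).1.val = a.1.val + b.1.val ∧ ((mrgL B u a b).2 = a.2 ∨ (mrgL B u a b).2 = b.2) := by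
  unfold mrgL
  split_ifs
  · exact ⟨rfl, Or.inr rfl⟩
  · exact ⟨rfl, Or.inl rfl⟩

theorem slot_fold {R B M : ℕ} (f : ℕ → BN × MO) (v : ℕ → BN)
    (hf : ∀ i, (f i).1.val ≤ M ∧ size (f i).2 ≤ SM R) (l : List ℕ) :
    (l.foldl (fun a i => mrgL B (v i) a (f i)) (⟨0⟩, unitO 0)).1.val ≤ l.length * M ∧
      size (l.foldl (fun a i => mrgL B (v i) a (f i)) (⟨0⟩, unitO 0)).2 ≤ SM R := by
  induction l using List.reverseRecOn with
  | nil => exact ⟨by simp, size_unitO R 0⟩
  | append_singleton l i ih =>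
    rw [List.foldl_append, List.foldl_cons, List.foldl_nil]
    obtain ⟨h1, h2⟩ := mrgL_cases B (v i) (l.foldl (fun a i => mrgL B (v i) a (f i)) (⟨0⟩, unitO 0)) (f i)
    refine ⟨?_, ?_⟩
    · rw [h1, List.length_append, List.length_singleton, Nat.add_mul, Nat.one_mul]
      exact Nat.add_le_add ih.1 (hf i).1
    · rcases h2 with h2 | h2
      · rw [h2]; exact ih.2
      · rw [h2]; exact (hf i).2

theorem at_lt (x : LPool) (σ : ℕ) : (LPool.at x σ).1.val < 2 ^ size x := by
  unfold LPool.at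
  rw [List.getD_eq_getElem?_getD]
  by_cases h : σ < x.length
  · rw [List.getElem?_eq_getElem h]
    have h1 := size_mem_lt (List.getElem_mem h)
    have h2 := lt_two_pow_size (x[σ]).1
    refine h2.trans_le (Nat.pow_le_pow_right (by norm_num) ?_)
    have h3 : size x[σ] = size (x[σ]).1 + size (x[σ]).2 + 1 := size_prod _
    omega
  · rw [List.getElem?_eq_none (by omega)]
    exact pow_pos (by norm_num) _

theorem pAt_lt (K : ℕ) (x : LPool) (c : ℕ × ℕ) (s : ℕ) : (pAt K x c s).1.val < 2 ^ size x := by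
  unfold pAt
  split_ifs
  · exact at_lt _ _
  · exact pow_pos (by norm_num) _

section PT
variable {β : Type} [Enc β]

theorem PT_slotC {R K B J : β → ℕ} {c : β → ℕ × ℕ} {x y : β → LPool} {p : β → List Bool} (hR : PT R)
    (hK : PT K) (hB : PT B) (hJ : PT J) (hc : PT c) (hx : PT x) (hy : PT y) (hp : PT p) :
    PT (fun b => slotC (R b) (K b) (B b) (c b) (x b) (y b) (p b) (J b)) := by
  obtain ⟨pR, hpR⟩ := hR.size_le
  obtain ⟨pJ, hpJ⟩ := hJ.size_le
  obtain ⟨px, hpx⟩ := hx.size_le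
  obtain ⟨py, hpy⟩ := hy.size_le
  have hi : PT (fun z : β × ((BN × MO) × ℕ) => z.2.2) := PT.snd.snd'
  have h2B : PT (fun z : β × ((BN × MO) × ℕ) => z.2.2 * (2 * B z.1)) :=
    PT.mul hi ((hB.comp PT.fst).mulConst 2)
  have hu : PT (fun z : β × ((BN × MO) × ℕ) =>
      (⟨msb (((p z.1).drop (z.2.2 * (2 * B z.1))).take (B z.1))⟩ : BN)) :=
    PT.ofMSB (PT_take' (hB.comp PT.fst) (PT.drop h2B (hp.comp PT.fst)))
  have hu' : PT (fun z : β × ((BN × MO) × ℕ) =>
      (⟨msb (((p z.1).drop (z.2.2 * (2 * B z.1) + B z.1)).take (B z.1))⟩ : BN)) :=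
    PT.ofMSB (PT_take' (hB.comp PT.fst) (PT.drop (PT.add h2B (hB.comp PT.fst)) (hp.comp PT.fst)))
  have hst : PT (fun z : β × ((BN × MO) × ℕ) => mrgL (B z.1)
      ⟨msb (((p z.1).drop (z.2.2 * (2 * B z.1) + B z.1)).take (B z.1))⟩ z.2.1
      (trialC (R z.1) (K z.1) (c z.1) ⟨msb (((p z.1).drop (z.2.2 * (2 * B z.1))).take (B z.1))⟩
        (x z.1) (y z.1))) :=
    PT_mrgL (hB.comp PT.fst) hu' PT.snd.fst' (PT_trialC (hR.comp PT.fst) (hK.comp PT.fst)
      (hc.comp PT.fst) hu (hx.comp PT.fst) (hy.comp PT.fst))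
  have hpoly : PB (fun n => (4 * (pJ.eval n + (px.eval n + py.eval n)) + 1) + SM (pR.eval n) + 1) := by
    have e2 := PB.poly pR
    have c := PB.const
    have hSB : PB (fun n => SB (pR.eval n)) := ((e2.mul e2).mul (((c 4).mul e2).add (c 4))).add (c 5)
    have hSM : PB (fun n => SM (pR.eval n)) := (hSB.add hSB).add (c 1)
    exact ((((c 4).mul ((PB.poly pJ).add ((PB.poly px).add (PB.poly py)))).add (c 1)).add hSM).add (c 1)
  refine PT.foldl (f := fun b => List.range (J b)) (init := fun _ => ((⟨0⟩, unitO 0) : BN × MO))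
    (step := fun b a i => mrgL (B b) ⟨msb (((p b).drop (i * (2 * B b) + B b)).take (B b))⟩ a
      (trialC (R b) (K b) (c b) ⟨msb (((p b).drop (i * (2 * B b))).take (B b))⟩ (x b) (y b)))
    hJ.range (PT.const _) hst hpoly ?_
  intro b l' hl'
  have h1 := slot_fold (R := R b) (B := B b) (M := 2 ^ (size (x b) + size (y b)))
    (fun i => trialC (R b) (K b) (c b) ⟨msb (((p b).drop (i * (2 * B b))).take (B b))⟩ (x b) (y b))
    (fun i => ⟨msb (((p b).drop (i * (2 * B b) + B b)).take (B b))⟩) (fun i => by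
      obtain ⟨h2, h3⟩ := trialC_cases (R b) (K b) (c b)
        ⟨msb (((p b).drop (i * (2 * B b))).take (B b))⟩ (x b) (y b)
      refine ⟨?_, h2⟩
      rcases h3 with h3 | h3
      · rw [h3]; exact Nat.zero_le _
      · rw [h3, pow_add]
        exact Nat.mul_le_mul (pAt_lt _ _ _ _).le (pAt_lt _ _ _ _).le) l'
  have hlen : l'.length ≤ pJ.eval (size b) := by
    have h4 := hl'.length_le
    rw [List.length_range] at h4
    have h5 := hpJ b
    rw [size_nat] at h5
    omega
  have h6 : (l'.foldl (fun a i => mrgL (B b) ⟨msb (((p b).drop (i * (2 * B b) + B b)).take (B b))⟩ a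
      (trialC (R b) (K b) (c b) ⟨msb (((p b).drop (i * (2 * B b))).take (B b))⟩ (x b) (y b)))
      (⟨0⟩, unitO 0)).1.val < 2 ^ (pJ.eval (size b) + (px.eval (size b) + py.eval (size b))) := by
    refine h1.1.trans_lt ?_
    rw [pow_add 2 (pJ.eval (size b))]
    have h7 : l'.length < 2 ^ pJ.eval (size b) := hlen.trans_lt Nat.lt_two_pow_self
    have h8 : 2 ^ (size (x b) + size (y b)) ≤ 2 ^ (px.eval (size b) + py.eval (size b)) :=
      Nat.pow_le_pow_right (by norm_num) (Nat.add_le_add (hpx b) (hpy b))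
    calc l'.length * 2 ^ (size (x b) + size (y b)) ≤ l'.length * 2 ^ (px.eval (size b) + py.eval (size b)) :=
          Nat.mul_le_mul_left _ h8
      _ < 2 ^ pJ.eval (size b) * 2 ^ (px.eval (size b) + py.eval (size b)) :=
          Nat.mul_lt_mul_of_pos_right h7 (pow_pos (by norm_num) _)
  have h9 := size_BN_le_of_lt h6
  have h10 : R b ≤ pR.eval (size b) := by
    have := hpR b
    rw [size_nat] at this
    omega
  have h11 : SM (R b) ≤ SM (pR.eval (size b)) := by
    unfold SM SB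
    gcongr
  have h12 := h1.2
  rw [size_prod]
  omega

theorem PT_nodeC {R K J B : β → ℕ} {r : β → List Bool} {x y : β → LPool} (hR : PT R) (hK : PT K)
    (hJ : PT J) (hB : PT B) (hr : PT r) (hx : PT x) (hy : PT y) :
    PT (fun b => nodeC (R b) (K b) (J b) (B b) (r b) (x b) (y b)) := by
  have hn : PT (fun b => 7 * R b * K b) := PT.mul (hR.mulConst 7) hK
  have hσK : PT (fun z : β × ℕ => z.2 / K z.1) := PT_div PT.snd (hK.comp PT.fst)
  have hc1 : PT (fun z : β × ℕ => z.2 / K z.1 / 7) := PT_div hσK (PT.const 7)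
  have hc2 : PT (fun z : β × ℕ => z.2 / K z.1 % 7) := PT_mod hσK (PT.const 7)
  have hc : PT (fun z : β × ℕ => ((z.2 / K z.1 / 7, z.2 / K z.1 % 7) : ℕ × ℕ)) := PT.pair hc1 hc2
  have hm : PT (fun z : β × ℕ => J z.1 * (2 * B z.1)) :=
    PT.mul (hJ.comp PT.fst) ((hB.comp PT.fst).mulConst 2)
  have hpc : PT (fun z : β × ℕ => Sys.piece (J z.1 * (2 * B z.1)) z.2 (r z.1)) :=
    PT_take' hm (PT.drop (PT.mul PT.snd hm) (hr.comp PT.fst))
  refine PT.map (f := fun b => List.range (7 * R b * K b)) (g := fun b σ =>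
    if σ / K b / 7 = 1 then unitL (σ / K b / 7, σ / K b % 7)
    else slotC (R b) (K b) (B b) (σ / K b / 7, σ / K b % 7) (x b) (y b)
      (Sys.piece (J b * (2 * B b)) σ (r b)) (J b)) hn.range ?_
  exact PT.ite (c := fun z : β × ℕ => z.2 / K z.1 / 7 = 1) ((PT.eqConst 1).comp hc1) (PT_unitL hc)
    (PT_slotC (hR.comp PT.fst) (hK.comp PT.fst) (hB.comp PT.fst) (hJ.comp PT.fst) hc (hx.comp PT.fst)
      (hy.comp PT.fst) hpc)

theorem PT_nodeL {R K J B : β → ℕ} {r : β → List Bool} {x y : β → LPool} (hR : PT R) (hK : PT K)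
    (hJ : PT J) (hB : PT B) (hr : PT r) (hx : PT x) (hy : PT y) :
    PT (fun b => nodeL (R b) (K b) (J b) (B b) (r b) (x b) (y b)) :=
  (PT_nodeC hR hK hJ hB hr hx hy).congr fun _ => nodeC_eq _ _ _ _ _ _ _

theorem PT_leafF {K : β → ℕ} (hK : PT K) : PT (fun b => leafF (K b)) := by
  have hσK : PT (fun z : β × ℕ => z.2 / K z.1) := PT_div PT.snd (hK.comp PT.fst)
  exact PT.map (f := fun b => List.range (14 * K b)) (g := fun b σ =>
    unitL (σ / K b / 7, σ / K b % 7)) (hK.mulConst 14).range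
    (PT_unitL (PT.pair (PT_div hσK (PT.const 7)) (PT_mod hσK (PT.const 7))))

theorem PT_stepF {R K J B : β → ℕ} {st : β → List (ℕ × LPool)} {w : β → List Bool} (hR : PT R)
    (hK : PT K) (hJ : PT J) (hB : PT B) (hst : PT st) (hw : PT w) :
    PT (fun b => stepF (R b) (K b) (J b) (B b) (st b) (w b)) := by
  have hl := PT_leafF hK
  set P : β → List (ℕ × LPool) := fun b => (1, nodeL (R b) (K b) (J b) (B b) (w b) (leafF (K b))
      (leafF (K b))) :: st b with hP
  have hp : PT P := PT.cons (PT.pair (PT.const 1) (PT_nodeL hR hK hJ hB hw hl hl)) hst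
  have hc : PT (fun x : (β × ((ℕ × LPool) × List (ℕ × LPool))) × ((ℕ × LPool) × List (ℕ × LPool)) =>
      if x.1.2.1.1 = x.2.1.1 then (x.1.2.1.1 + 1, nodeL (R x.1.1) (K x.1.1) (J x.1.1) (B x.1.1)
        (w x.1.1) x.2.1.2 x.1.2.1.2) :: x.2.2
      else P x.1.1) := by
    have b1 : PT (fun x : (β × ((ℕ × LPool) × List (ℕ × LPool))) × ((ℕ × LPool) × List (ℕ × LPool)) =>
      x.1.1) := PT.fst.fst'
    refine PT.ite (c := fun x : (β × ((ℕ × LPool) × List (ℕ × LPool))) ×
      ((ℕ × LPool) × List (ℕ × LPool)) => x.1.2.1.1 = x.2.1.1)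
      (PT.eq PT.fst.snd'.fst'.fst' PT.snd.fst'.fst') ?_ (hp.comp b1)
    exact PT.cons (PT.pair PT.fst.snd'.fst'.fst'.succ (PT_nodeL (hR.comp b1) (hK.comp b1) (hJ.comp b1)
      (hB.comp b1) (hw.comp b1) PT.snd.fst'.snd' PT.fst.snd'.fst'.snd')) PT.snd.snd'
  have h2 := PT.listCases (f := fun x : β × ((ℕ × LPool) × List (ℕ × LPool)) => x.2.2)
    (g := fun x => P x.1)
    (h := fun x q rest => if x.2.1.1 = q.1 then (x.2.1.1 + 1, nodeL (R x.1) (K x.1) (J x.1) (B x.1)
        (w x.1) q.2 x.2.1.2) :: rest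
      else P x.1) PT.snd.snd' (hp.comp PT.fst) hc
  have h3 := PT.listCases (f := st) (g := P) (h := fun b p l => match l with
    | [] => P b
    | q :: rest => if p.1 = q.1 then (p.1 + 1, nodeL (R b) (K b) (J b) (B b) (w b) q.2 p.2) :: rest
      else P b) hst hp (h2.congr fun x => by rcases x.2.2 with _ | ⟨q, rest⟩ <;> rfl)
  refine h3.congr fun b => ?_
  unfold stepF
  simp only [hP]
  rcases st b with _ | ⟨⟨h1, y⟩, _ | ⟨⟨h2, x⟩, rest⟩⟩ <;> rfl

end PT

/-! ### The invariant -/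

/-- bound for the weights of the class with `n` cells -/
def wt (J n : ℕ) : ℕ := if n = 0 then 0 else J ^ (n - 1)

/-- bound for the weight of a trial -/
def tw (J n : ℕ) : ℕ := if n ≤ 1 then 0 else J ^ (n - 2)

theorem wt_mul (J n m : ℕ) : wt J m * wt J (n - m) ≤ tw J n := by
  unfold wt tw
  by_cases h0 : m = 0
  · rw [if_pos h0, Nat.zero_mul]; exact Nat.zero_le _
  by_cases h1 : n - m = 0
  · rw [if_pos h1, Nat.mul_zero]; exact Nat.zero_le _
  rw [if_neg h0, if_neg h1, if_neg (by omega), ← pow_add, show m - 1 + (n - m - 1) = n - 2 by omega]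

theorem tw_mul (J n : ℕ) : J * tw J n ≤ wt J n := by
  unfold wt tw
  by_cases h1 : n ≤ 1
  · rw [if_pos h1, Nat.mul_zero]; exact Nat.zero_le _
  rw [if_neg h1, if_neg (by omega), ← pow_succ', show n - 2 + 1 = n - 1 by omega]

/-- the invariant of the pools -/
def GdF (R K J : ℕ) (x : LPool) : Prop :=
  x.length ≤ 7 * R * K + 14 * K ∧
    ∀ σ, (LPool.at x σ).1.val ≤ wt J (σ / K / 7) ∧ size (LPool.at x σ).2 ≤ SM R

theorem lat_range_map (m : ℕ) (f : ℕ → BN × MO) (n : ℕ) :
    LPool.at ((List.range m).map f) n = if n < m then f n else (⟨0⟩, unitO 0) := by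
  unfold LPool.at
  rw [List.getD_eq_getElem?_getD]
  by_cases h : n < m
  · rw [if_pos h, List.getElem?_eq_getElem (by simpa using h)]
    simp
  · rw [if_neg h, List.getElem?_eq_none (by simpa using h)]
    rfl

theorem GdF_map {R K J m : ℕ} {f : ℕ → BN × MO} (hm : m ≤ 7 * R * K + 14 * K)
    (hf : ∀ σ, σ < m → (f σ).1.val ≤ wt J (σ / K / 7) ∧ size (f σ).2 ≤ SM R) :
    GdF R K J ((List.range m).map f) := by
  refine ⟨by simpa using hm, fun σ => ?_⟩
  rw [lat_range_map]
  by_cases hn : σ < m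
  · rw [if_pos hn]
    exact hf σ hn
  · rw [if_neg hn]
    exact ⟨Nat.zero_le _, size_unitO R 0⟩

theorem unitL_le (R J : ℕ) (c : ℕ × ℕ) : (unitL c).1.val ≤ wt J c.1 ∧ size (unitL c).2 ≤ SM R := by
  unfold unitL
  split_ifs with h
  · refine ⟨?_, size_unitO R _⟩
    rw [h.1]
    simp [wt]
  · exact ⟨Nat.zero_le _, size_unitO R 0⟩

theorem GdF_leaf (R K J : ℕ) : GdF R K J (leafF K) :=
  GdF_map (by omega) fun _ _ => unitL_le R J _

theorem pAt_le {R K J : ℕ} {x : LPool} (hx : GdF R K J x) (hK : 0 < K) {s : ℕ} (hs : s < K)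
    (c : ℕ × ℕ) : (pAt K x c s).1.val ≤ wt J c.1 := by
  unfold pAt
  split_ifs with h
  · have h1 := (hx.2 (Sys.idx K c s)).1
    have h2 : Sys.idx K c s / K / 7 = c.1 := by
      unfold Sys.idx
      rw [show (c.1 * 7 + c.2) * K + s = s + K * (c.1 * 7 + c.2) by ring, Nat.add_mul_div_left _ _ hK,
        Nat.div_eq_of_lt hs]
      omega
    rwa [h2] at h1
  · exact Nat.zero_le _

theorem GdF_node {R K J B : ℕ} {r : List Bool} {x y : LPool} (hx : GdF R K J x) (hy : GdF R K J y) :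
    GdF R K J (nodeL R K J B r x y) := by
  rw [← nodeC_eq]
  refine GdF_map (by omega) fun σ hσ => ?_
  have hK : 0 < K := by
    rcases Nat.eq_zero_or_pos K with h0 | h0
    · subst h0; simp at hσ
    · exact h0
  by_cases h1 : σ / K / 7 = 1
  · rw [if_pos h1]
    exact unitL_le R J _
  · rw [if_neg h1]
    have h2 := slot_fold (R := R) (B := B) (M := tw J (σ / K / 7))
      (fun i => trialC R K (σ / K / 7, σ / K % 7)
        ⟨msb (((Sys.piece (J * (2 * B)) σ r).drop (i * (2 * B))).take B)⟩ x y)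
      (fun i => ⟨msb (((Sys.piece (J * (2 * B)) σ r).drop (i * (2 * B) + B)).take B)⟩) (fun i => by
        obtain ⟨h3, h4⟩ := trialC_cases R K (σ / K / 7, σ / K % 7)
          ⟨msb (((Sys.piece (J * (2 * B)) σ r).drop (i * (2 * B))).take B)⟩ x y
        refine ⟨?_, h3⟩
        rcases h4 with h4 | h4
        · rw [h4]; exact Nat.zero_le _
        · rw [h4]
          refine (Nat.mul_le_mul (pAt_le hx hK (lt_of_le_of_lt (min_le_left _ _) (Nat.mod_lt _ hK)) _)
            (pAt_le hy hK (lt_of_le_of_lt (min_le_left _ _) (Nat.mod_lt _ hK)) _)).trans ?_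
          exact wt_mul _ _ _) (List.range J)
    refine ⟨h2.1.trans ?_, h2.2⟩
    rw [List.length_range]
    exact tw_mul _ _

/-- bound for the size of a pool -/
def AF (R K J : ℕ) : ℕ :=
  (7 * R * K + 14 * K) * (4 * (J * (R + 2) + 1) + 1 + SM R + 1 + 1) + 1

theorem GdF_size {R K J : ℕ} {x : LPool} (hx : GdF R K J x) : size x ≤ AF R K J := by
  have h1 : ∀ b ∈ x, size b ≤ 4 * (J * (R + 2) + 1) + 1 + SM R + 1 := by
    intro b hb
    obtain ⟨n, hn, rfl⟩ := List.mem_iff_getElem.1 hb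
    have h2 : LPool.at x n = x[n] := by
      unfold LPool.at
      rw [List.getD_eq_getElem?_getD, List.getElem?_eq_getElem hn]
      rfl
    obtain ⟨h3, h4⟩ := hx.2 n
    rw [h2] at h3 h4
    have h5 : n < 7 * R * K + 14 * K := hn.trans_le hx.1
    have hK : 0 < K := by
      rcases Nat.eq_zero_or_pos K with h0 | h0
      · subst h0; simp at h5
      · exact h0
    have h6 : n / K / 7 < R + 2 := by
      have h7 : n / K < 7 * (R + 2) := by
        rw [Nat.div_lt_iff_lt_mul hK]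
        refine h5.trans_le (le_of_eq ?_)
        ring
      omega
    have h8 : wt J (n / K / 7) < 2 ^ (J * (R + 2) + 1) := by
      unfold wt
      split_ifs with h0
      · exact pow_pos (by norm_num) _
      · calc J ^ (n / K / 7 - 1) ≤ (2 ^ J) ^ (n / K / 7 - 1) :=
              Nat.pow_le_pow_left (Nat.lt_two_pow_self).le _
          _ = 2 ^ (J * (n / K / 7 - 1)) := by rw [← pow_mul]
          _ < 2 ^ (J * (R + 2) + 1) := by
              refine Nat.pow_lt_pow_right (by norm_num) ?_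
              have : J * (n / K / 7 - 1) ≤ J * (R + 2) := Nat.mul_le_mul_left _ (by omega)
              omega
    have h9 := size_BN_le_of_lt (lt_of_le_of_lt h3 h8)
    rw [size_prod]
    omega
  have h2 := size_list_le _ h1
  have h3 := Nat.mul_le_mul_right (4 * (J * (R + 2) + 1) + 1 + SM R + 1 + 1) hx.1
  unfold AF
  omega

theorem AF_mono {R K J R' K' J' : ℕ} (h1 : R ≤ R') (h2 : K ≤ K') (h3 : J ≤ J') :
    AF R K J ≤ AF R' K' J' := by
  unfold AF SM SB
  gcongr

/-- the invariant of the stack -/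
def InvF (R K J i : ℕ) (st : List (ℕ × LPool)) : Prop :=
  st.length ≤ i ∧ ∀ p ∈ st, p.1 ≤ i ∧ GdF R K J p.2

theorem InvF_step {R K J B i : ℕ} {st : List (ℕ × LPool)} (h : InvF R K J i st) (w : List Bool) :
    InvF R K J (i + 1) (stepF R K J B st w) := by
  have hpush : InvF R K J (i + 1) ((1, nodeL R K J B w (leafF K) (leafF K)) :: st) := by
    refine ⟨by simpa using h.1, ?_⟩
    intro p hp
    rcases List.mem_cons.1 hp with rfl | hp
    · exact ⟨by simp, GdF_node (GdF_leaf R K J) (GdF_leaf R K J)⟩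
    · exact ⟨(h.2 p hp).1.trans (Nat.le_succ i), (h.2 p hp).2⟩
  unfold stepF
  rcases st with _ | ⟨⟨h1, y⟩, _ | ⟨⟨h2, x⟩, rest⟩⟩
  · exact hpush
  · exact hpush
  · dsimp only
    split_ifs with he
    · subst he
      have a1 := h.2 (h1, y) (by simp)
      have a2 := h.2 (h1, x) (by simp)
      refine ⟨?_, ?_⟩
      · have := h.1
        simp only [List.length_cons] at this ⊢
        omega
      · intro p hp
        rcases List.mem_cons.1 hp with rfl | hp
        · exact ⟨Nat.succ_le_succ a1.1, GdF_node a2.2 a1.2⟩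
        · have := h.2 p (by simp [hp])
          exact ⟨this.1.trans (Nat.le_succ i), this.2⟩
    · exact hpush

theorem InvF_foldl {R K J B : ℕ} : ∀ (l : List (List Bool)) (i : ℕ) (st : List (ℕ × LPool)),
    InvF R K J i st → InvF R K J (i + l.length) (l.foldl (stepF R K J B) st) := by
  intro l
  induction l with
  | nil => intro i st h; exact h
  | cons w l ih =>
    intro i st h
    rw [List.foldl_cons, List.length_cons]
    have := ih (i + 1) _ (InvF_step (B := B) h w)
    rw [show i + (l.length + 1) = i + 1 + l.length by omega]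
    exact this

theorem InvF_size {R K J i : ℕ} {st : List (ℕ × LPool)} (h : InvF R K J i st) :
    size st ≤ i * (2 * i + 1 + AF R K J + 1 + 1) + 1 := by
  have h1 : ∀ p ∈ st, size p ≤ 2 * i + 1 + AF R K J + 1 := by
    intro p hp
    obtain ⟨h2, h3⟩ := h.2 p hp
    have h4 := GdF_size h3
    rw [size_prod, size_nat]
    omega
  have h2 := size_list_le _ h1
  have h3 := Nat.mul_le_mul_right (2 * i + 1 + AF R K J + 1 + 1) h.1
  omega

theorem PT_runF {β : Type} [Enc β] {R K J B : β → ℕ} {r : β → List Bool}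
    (hR : PT R) (hK : PT K) (hJ : PT J) (hB : PT B) (hr : PT r) :
    PT (fun b => runF (R b) (K b) (J b) (B b) (r b)) := by
  have hnb : PT (fun b => Sys.nodeBits (R b) (K b) (J b) (B b)) :=
    PT.mul (PT.mul (hR.mulConst 7) hK) (PT.mul hJ (hB.mulConst 2))
  have hch := PT_chunks hnb hr
  obtain ⟨p, hp⟩ := hch.size_le
  obtain ⟨pR, hpR⟩ := hR.size_le
  obtain ⟨pK, hpK⟩ := hK.size_le
  obtain ⟨pJ, hpJ⟩ := hJ.size_le
  have hs : PT (fun x : β × (List (ℕ × LPool) × List Bool) =>
      stepF (R x.1) (K x.1) (J x.1) (B x.1) x.2.1 x.2.2) :=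
    PT_stepF (hR.comp PT.fst) (hK.comp PT.fst) (hJ.comp PT.fst) (hB.comp PT.fst) PT.snd.fst' PT.snd.snd'
  have hpoly : PB (fun n => p.eval n *
      (2 * p.eval n + 1 + AF (pR.eval n) (pK.eval n) (pJ.eval n) + 1 + 1) + 1) := by
    have e1 := PB.poly p
    have e2 := PB.poly pR
    have e3 := PB.poly pK
    have e4 := PB.poly pJ
    have c := PB.const
    have hSB : PB (fun n => SB (pR.eval n)) := ((e2.mul e2).mul (((c 4).mul e2).add (c 4))).add (c 5)
    have hSM : PB (fun n => SM (pR.eval n)) := (hSB.add hSB).add (c 1)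
    have hY := (((c 4).mul ((e4.mul (e2.add (c 2))).add (c 1))).add (c 1)).add hSM
    have hX := (hY.add (c 1)).add (c 1)
    have hL := (((c 7).mul e2).mul e3).add ((c 14).mul e3)
    have hAF : PB (fun n => AF (pR.eval n) (pK.eval n) (pJ.eval n)) := (hL.mul hX).add (c 1)
    have hZ := ((((c 2).mul e1).add (c 1)).add hAF).add (c 1)
    exact (e1.mul (hZ.add (c 1))).add (c 1)
  have hfold := PT.foldl (f := fun b => chunks (Sys.nodeBits (R b) (K b) (J b) (B b)) (r b))
    (init := fun _ => ([] : List (ℕ × LPool)))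
    (step := fun b st w => stepF (R b) (K b) (J b) (B b) st w) hch (PT.const _) hs hpoly (by
      intro b l' hl'
      have h1 : InvF (R b) (K b) (J b) (0 + l'.length) (l'.foldl (stepF (R b) (K b) (J b) (B b)) []) :=
        InvF_foldl l' 0 [] ⟨le_rfl, by simp⟩
      have h2 := InvF_size h1
      rw [Nat.zero_add] at h2
      have h3 : l'.length ≤ p.eval (size b) := hl'.length_le.trans ((length_le_size _).trans (hp b))
      have h4 : R b ≤ pR.eval (size b) := by
        have := hpR b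
        rw [size_nat] at this
        omega
      have h5 : K b ≤ pK.eval (size b) := by
        have := hpK b
        rw [size_nat] at this
        omega
      have h5' : J b ≤ pJ.eval (size b) := by
        have := hpJ b
        rw [size_nat] at this
        omega
      have h6 := AF_mono h4 h5 h5'
      refine h2.trans ?_
      gcongr)
  have hhead : PT (fun b => ((chunks (Sys.nodeBits (R b) (K b) (J b) (B b)) (r b)).foldl
      (stepF (R b) (K b) (J b) (B b)) []).headD (0, leafF (K b))) := by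
    refine (PT.listCases (f := fun b => (chunks (Sys.nodeBits (R b) (K b) (J b) (B b)) (r b)).foldl
      (stepF (R b) (K b) (J b) (B b)) [])
      (g := fun b => ((0, leafF (K b)) : ℕ × LPool)) (h := fun _ p _ => p) hfold
      (PT.pair (PT.const 0) (PT_leafF hK)) PT.snd.fst').congr fun b => ?_
    rcases (chunks (Sys.nodeBits (R b) (K b) (J b) (B b)) (r b)).foldl
      (stepF (R b) (K b) (J b) (B b)) [] with _ | ⟨a, l⟩ <;> rfl
  exact hhead.snd'

end Pool.Agent.Lib.MP_104326_lc.FP
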