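import Pool.Agent.Lib.MP_104326_lc.FP.Par
import Pool.Agent.Lib.MP_104326_lc.FP.P3
import Pool.Agent.Lib.MP_104326_lc.KC.D0b
import Pool.Agent.Lib.MP_33f9c4_lc.Pad

/-!
# FP, module E1a: the machine for Klarner's constant
-/

set_option autoImplicit false

namespace Pool.Agent.Lib.MP_104326_lc.FP

open Pool.Agent.Lib.PolyTime Pool.Agent.Lib.MP_104326_lc.KR MP_33f9c4_lc

section PT
variable {β : Type} [Enc β]

private theorem PT_kE {ρ q : β → ℕ} (h : PT ρ) (hq : PT q) : PT (fun b => kE (ρ b) (q b)) :=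
  PT.add (h.mulConst 215) hq

private theorem PT_bE {ρ q R : β → ℕ} (h : PT ρ) (hq : PT q) (hR : PT R) :
    PT (fun b => bE (ρ b) (q b) (R b)) :=
  (PT.add (PT.add (PT.mul (h.mulConst 23) (hR.addConst 1)) (h.mulConst 474)) (hq.mulConst 3)).addConst 7

private theorem PT_sE {ρ q p : β → ℕ} (h : PT ρ) (hq : PT q) (hp : PT p) :
    PT (fun b => sE (ρ b) (q b) (p b)) :=
  PT.add (PT_kE h hq) (PT.mul (h.mulConst 14) (PT.sub hp (PT.const 1)))

private theorem PT_arrF {ρ q M : β → ℕ} {r : β → List Bool} (h : PT ρ) (hq : PT q) (hr : PT r) (hM : PT M) :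
    PT (fun b => arrF (ρ b) (q b) (r b) (M b)) := by
  have hR : PT (fun b => min (2 ^ ρ b) (M b)) := PT.bnCap (PT.bnTwoPow h) hM
  have hK : PT (fun b => min (2 ^ kE (ρ b) (q b)) (M b)) := PT.bnCap (PT.bnTwoPow (PT_kE h hq)) hM
  have hJ : PT (fun b => min (2 ^ jE (ρ b)) (M b)) := PT.bnCap (PT.bnTwoPow (h.mulConst 23)) hM
  have hB := PT_bE h hq hR
  have hnb : PT (fun b => nbM (ρ b) (q b) (M b)) :=
    PT.mul (PT.mul (PT.mul (hR.mulConst 7) hK) (PT.mul hJ (hB.mulConst 2)))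
      (PT.sub (PT.bnCap (PT.bnTwoPow (h.mulConst 12)) hM) (PT.const 1))
  exact PT_runF hR hK hJ hB (PT_take' hnb hr)

private theorem PT_LPat {x : β → LPool} {n : β → ℕ} (hx : PT x) (hn : PT n) :
    PT (fun b => LPool.at (x b) (n b)) :=
  PT_getD' hx hn _

private theorem PT_totW {K p : β → ℕ} {x : β → LPool} (hK : PT K) (hx : PT x) (hp : PT p) :
    PT (fun b => (⟨totW (K b) (x b) (p b)⟩ : BN)) := by
  have hi : PT (fun y : β × ℕ => Sys.idx (K y.1) (p y.1, 0) y.2) := by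
    refine (PT.add (PT.mul ((hp.comp PT.fst).mulConst 7) (hK.comp PT.fst)) PT.snd).congr fun y => ?_
    show 7 * p y.1 * K y.1 + y.2 = (p y.1 * 7 + 0) * K y.1 + y.2
    ring
  exact PT.bnSum (g := fun b i => (pAt (K b) (x b) (p b, 0) i).1) hK.range
    ((PT_LPat (hx.comp PT.fst) hi).fst')

private theorem PT_goodF {ρ q N K D y : β → ℕ} {A : β → LPool} (h : PT ρ) (hq : PT q) (hN : PT N) (hK : PT K)
    (hD : PT D) (hA : PT A) (hy : PT y) :
    PT (fun b => goodF (ρ b) (q b) (N b) (K b) (D b) (A b) (y b)) := by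
  refine PT.any ((hK.mulConst 4).addConst 1).range ?_
  refine PT.and (PT.le (hK.comp PT.fst) PT.snd) ?_
  have h1 : PT (fun x : β × ℕ => (⟨(y x.1 + 1) ^ x.2⟩ : BN)) :=
    PT_bnPow (f := fun x : β × ℕ => (⟨y x.1 + 1⟩ : BN)) (PT.toBN (hy.comp PT.fst).succ) PT.snd
  have h2 : PT (fun x : β × ℕ => (⟨D x.1 ^ x.2⟩ : BN)) :=
    PT_bnPow (f := fun x : β × ℕ => (⟨D x.1⟩ : BN)) (PT.toBN (hD.comp PT.fst)) PT.snd
  have h3 := PT.bnTwoPow (PT_sE (h.comp PT.fst) (hq.comp PT.fst) (PT.snd (α := β) (β := ℕ)))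
  exact PT.bnLe (PT.bnMul h1 h3) (PT.bnMul (PT.bnMul (PT.bnConst 2) h2)
    (PT_totW (hN.comp PT.fst) (hA.comp PT.fst) PT.snd))

private theorem PT_outLamF (M1 Lc : ℕ) {n M : β → ℕ} {r : β → List Bool} (hn : PT n) (hr : PT r)
    (hM : PT M) : PT (fun b => outLamF M1 Lc (n b) (r b) (M b)) := by
  have h10 : PT (fun b => (⟨10 ^ (n b + 2)⟩ : BN)) :=
    PT_bnPow (f := fun _ : β => (⟨10⟩ : BN)) (PT.bnConst 10) (hn.addConst 2)
  have hD : PT (fun b => min (10 ^ (n b + 2)) (M b)) := PT.bnCap h10 hM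
  have hρ : PT (fun b => rL M1 (n b)) := hn.mulConst (M1 + 15)
  have hq : PT (fun b => qL M1 (n b)) := (PT.add hρ hn).addConst 2
  have hN : PT (fun b => min (2 ^ kE (rL M1 (n b)) (qL M1 (n b))) (M b)) :=
    PT.bnCap (PT.bnTwoPow (PT_kE hρ hq)) hM
  have hK : PT (fun b => M1 * (n b + 1) * min (10 ^ (n b + 2)) (M b)) :=
    PT.mul ((hn.addConst 1).mulConst M1) hD
  have hA := PT_arrF hρ hq hr hM
  refine PT.addConst (PT.length (PT.filter (hD.mulConst Lc).range ?_)) 500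
  exact PT_goodF (hρ.comp PT.fst) (hq.comp PT.fst) (hN.comp PT.fst) (hK.comp PT.fst) (hD.comp PT.fst)
    (hA.comp PT.fst) PT.snd

end PT

private theorem idxOf_input (n : ℕ) (r : List Bool) : (List.replicate n true ++ false :: r).idxOf false = n := by
  induction n with
  | zero => simp
  | succ n ih =>
    rw [List.replicate_succ, List.cons_append, List.idxOf_cons_ne _ (by decide), ih]

private theorem drop_input (n : ℕ) (r : List Bool) : (List.replicate n true ++ false :: r).drop (n + 1) = r := by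
  induction n with
  | zero => simp
  | succ n ih =>
    rw [List.replicate_succ, List.cons_append, List.drop_succ_cons, ih]

theorem machine_lam (M1 Lc : ℕ) : ∃ (U : Machine) (Q : Polynomial ℕ), ∀ (n : ℕ) (r : List Bool),
    Outputs U (List.replicate n true ++ false :: r)
      (Nat.bits (outLamF M1 Lc n r (2 ^ kE (rL M1 n) (qL M1 n))))
      (Q.eval (n + 1 + r.length + 2 ^ kE (rL M1 n) (qL M1 n))) := by
  have hi : PT (fun x : List Bool => x.idxOf false) := PT.idxOf PT.id (PT.const false)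
  have hρ : PT (fun x : List Bool => rL M1 (x.idxOf false)) := hi.mulConst (M1 + 15)
  have he : PT (fun x : List Bool => kE (rL M1 (x.idxOf false)) (qL M1 (x.idxOf false))) :=
    PT_kE hρ ((PT.add hρ hi).addConst 2)
  have hi' : PT (fun y : List Bool × ℕ => y.1.idxOf false) := hi.comp PT.fst
  have hF : PT (fun y : List Bool × ℕ => Nat.bits (outLamF M1 Lc (y.1.idxOf false)
      (y.1.drop (y.1.idxOf false + 1)) y.2)) :=
    PT.bits (PT.toBN (PT_outLamF M1 Lc hi' (PT.drop (hi'.addConst 1) PT.fst) PT.snd))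
  obtain ⟨U, Q, h⟩ := Qt.exists_pad_machine he hF
  refine ⟨U, Q, fun n r => ?_⟩
  have h1 := h (List.replicate n true ++ false :: r)
  simp only [idxOf_input, drop_input] at h1
  have h2 : (List.replicate n true ++ false :: r).length = n + 1 + r.length := by
    simp
    omega
  rw [h2] at h1
  exact h1

end Pool.Agent.Lib.MP_104326_lc.FP
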