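import Pool.Agent.Lib.MP_104326_lc.FP.Par
import Pool.Agent.Lib.MP_104326_lc.FP.P3
import Pool.Agent.Lib.MP_104326_lc.KC.D0b
import Pool.Agent.Lib.MP_33f9c4_lc.Pad

/-!
# FP, module E1b: the machine for the number `t n` (helper42)
-/

set_option autoImplicit false

namespace Pool.Agent.Lib.MP_104326_lc.FP

open Pool.Agent.Lib.PolyTime Pool.Agent.Lib.MP_104326_lc.KR MP_33f9c4_lc

section PT
variable {β : Type} [Enc β]

private theorem e1b_size {f : β → ℕ} (h : PT f) : PT (fun b => Nat.size (f b)) :=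
  PT.bnSize (f := fun b => (⟨f b⟩ : BN)) (PT.toBN h)

private theorem e1b_at {K p i : β → ℕ} {x : β → LPool} (hK : PT K) (hx : PT x) (hp : PT p) (hi : PT i) :
    PT (fun b => pAt (K b) (x b) (p b, 0) (i b)) := by
  have h1 : PT (fun b => Sys.idx (K b) (p b, 0) (i b)) := PT.add (PT.mul ((hp.mulConst 7).congr (fun b => by ring)) hK) hi
  exact (PT_getD' hx h1 _).congr fun b => rfl

private theorem e1b_totW {K p : β → ℕ} {x : β → LPool} (hK : PT K) (hx : PT x) (hp : PT p) :
    PT (fun b => (⟨totW (K b) (x b) (p b)⟩ : BN)) :=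
  PT.bnSum (f := fun b => List.range (K b)) (g := fun b i => (pAt (K b) (x b) (p b, 0) i).1) hK.range
    (e1b_at (hK.comp PT.fst) (hx.comp PT.fst) (hp.comp PT.fst) PT.snd).fst'

private theorem e1b_arr {ρ q M : β → ℕ} {r : β → List Bool} (h : PT ρ) (hq : PT q) (hr : PT r) (hM : PT M) :
    PT (fun b => arrF (ρ b) (q b) (r b) (M b)) := by
  have hR : PT (fun b => min (2 ^ ρ b) (M b)) := PT.bnCap (PT.bnTwoPow h) hM
  have hk : PT (fun b => kE (ρ b) (q b)) := PT.add (h.mulConst 215) hq
  have hK : PT (fun b => min (2 ^ kE (ρ b) (q b)) (M b)) := PT.bnCap (PT.bnTwoPow hk) hM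
  have hj : PT (fun b => jE (ρ b)) := h.mulConst 23
  have hJ : PT (fun b => min (2 ^ jE (ρ b)) (M b)) := PT.bnCap (PT.bnTwoPow hj) hM
  have hB : PT (fun b => bE (ρ b) (q b) (min (2 ^ ρ b) (M b))) :=
    (PT.add (PT.add (PT.mul (h.mulConst 23) hR.succ) (h.mulConst 474)) (hq.mulConst 3)).addConst 7
  have hnb : PT (fun b => nbM (ρ b) (q b) (M b)) :=
    PT.mul (PT.mul (PT.mul (hR.mulConst 7) hK) (PT.mul hJ (hB.mulConst 2)))
      (PT.sub (PT.bnCap (PT.bnTwoPow (h.mulConst 12)) hM) (PT.const 1))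
  exact PT_runF hR hK hJ hB (PT_take' hnb hr)

private theorem e1b_sE {ρ q p : β → ℕ} (h : PT ρ) (hq : PT q) (hp : PT p) :
    PT (fun b => sE (ρ b) (q b) (p b)) :=
  PT.add (PT.add (h.mulConst 215) hq) (PT.mul (h.mulConst 14) hp.pred)

private theorem e1b_rC {n : β → ℕ} (hn : PT n) : PT (fun b => rC (n b)) := (e1b_size hn).addConst 3

private theorem e1b_qC {j : β → ℕ} (hj : PT j) : PT (fun b => qC (j b)) := ((e1b_size hj).mulConst 3).addConst 2

private theorem e1b_kE {n j : β → ℕ} (hn : PT n) (hj : PT j) : PT (fun b => kE (rC (n b)) (qC (j b))) :=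
  PT.add ((e1b_rC hn).mulConst 215) (e1b_qC hj)

private theorem e1b_outCnt {n j M : β → ℕ} {r : β → List Bool} (hn : PT n) (hj : PT j) (hr : PT r) (hM : PT M) :
    PT (fun b => (⟨outCntF (n b) (j b) (r b) (M b)⟩ : BN)) := by
  have hρ := e1b_rC hn
  have hq := e1b_qC hj
  have hK : PT (fun b => min (2 ^ kE (rC (n b)) (qC (j b))) (M b)) := PT.bnCap (PT.bnTwoPow (e1b_kE hn hj)) hM
  have hA := e1b_arr hρ hq hr hM
  have hW := e1b_totW hK hA hn
  have hs := PT.bnTwoPow (e1b_sE hρ hq hn)
  exact PT.bnDiv (PT.bnAdd (PT.bnMul (PT.bnConst 2) hW) hs) (PT.bnMul (PT.bnConst 2) hs)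

end PT

private theorem e1b_idxOf (n : ℕ) (r : List Bool) : (List.replicate n true ++ false :: r).idxOf false = n := by
  induction n with
  | zero => simp
  | succ n ih =>
    rw [List.replicate_succ, List.cons_append, List.idxOf_cons_ne _ (by decide), ih]

private theorem e1b_drop (n : ℕ) (r : List Bool) : (List.replicate n true ++ false :: r).drop (n + 1) = r := by
  induction n with
  | zero => simp
  | succ n ih =>
    rw [List.replicate_succ, List.cons_append, List.drop_succ_cons, ih]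

theorem machine_cnt : ∃ (U : Machine) (Q : Polynomial ℕ), ∀ (n j : ℕ) (r : List Bool),
    Outputs U (List.replicate n true ++ false :: (List.replicate j true ++ false :: r))
      (Nat.bits (outCntF n j r (2 ^ kE (rC n) (qC j))))
      (Q.eval (n + 1 + (j + 1 + r.length) + 2 ^ kE (rC n) (qC j))) := by
  have hi : PT (fun x : List Bool => x.idxOf false) := PT.idxOf PT.id (PT.const false)
  have hs : PT (fun x : List Bool => x.drop (x.idxOf false + 1)) := PT.drop (hi.addConst 1) PT.id
  have hj : PT (fun x : List Bool => (x.drop (x.idxOf false + 1)).idxOf false) := hi.comp hs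
  have he : PT (fun x : List Bool => kE (rC (x.idxOf false)) (qC ((x.drop (x.idxOf false + 1)).idxOf false))) :=
    e1b_kE hi hj
  have hr : PT (fun x : List Bool => (x.drop (x.idxOf false + 1)).drop
      ((x.drop (x.idxOf false + 1)).idxOf false + 1)) := PT.drop (hj.addConst 1) hs
  have hF : PT (fun y : List Bool × ℕ => Nat.bits (outCntF (y.1.idxOf false)
      ((y.1.drop (y.1.idxOf false + 1)).idxOf false)
      ((y.1.drop (y.1.idxOf false + 1)).drop ((y.1.drop (y.1.idxOf false + 1)).idxOf false + 1)) y.2)) :=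
    PT.bits (e1b_outCnt (hi.comp PT.fst) (hj.comp PT.fst) (hr.comp PT.fst) PT.snd)
  obtain ⟨U, Q, h⟩ := Qt.exists_pad_machine he hF
  refine ⟨U, Q, fun n j r => ?_⟩
  have h1 := h (List.replicate n true ++ false :: (List.replicate j true ++ false :: r))
  simp only [e1b_idxOf, e1b_drop] at h1
  have h2 : (List.replicate n true ++ false :: (List.replicate j true ++ false :: r)).length =
      n + 1 + (j + 1 + r.length) := by
    simp
    omega
  rw [h2] at h1
  exact h1

end Pool.Agent.Lib.MP_104326_lc.FP
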