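import Pool.Agent.Lib.MP_104326_lc.FP.Par
import Pool.Agent.Lib.MP_104326_lc.KR.E2a

/-! # FP: numerical bounds (E2a), with `BdL`, `BdE` of KR/E2a -/

set_option autoImplicit false

namespace Pool.Agent.Lib.MP_104326_lc.FP

open Pool.Agent.Lib.PolyTime Pool.Agent.Lib.MP_104326_lc.KR

/-- The number of random bits, if `ρ` and `q` are at most multiples of `w`. -/
theorem bd_nbF {ι : Type} {w ρ q : ι → ℕ} (hw : ∀ i, 1 ≤ w i) (hρ : BdL w ρ) (hq : BdL w q) :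
    BdE w (fun i => nbF (ρ i) (q i)) := by
  have hk : BdL w (fun i => kE (ρ i) (q i)) := (hρ.cmul 215).add hq
  have hj : BdL w (fun i => jE (ρ i)) := hρ.cmul 23
  have hb : BdE w (fun i => bE (ρ i) (q i) (2 ^ ρ i)) := by
    have h1 : BdE w (fun i => (23 * ρ i) * (2 ^ ρ i + 1)) :=
      (hρ.cmul 23).toE.mul (hρ.pow.add hw (BdE.const hw 1))
    have h2 : BdE w (fun i => 474 * ρ i + 3 * q i + 7) :=
      (((hρ.cmul 474).add (hq.cmul 3)).add (BdL.const hw 7)).toE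
    refine (h1.add hw h2).mono (fun i => ?_)
    unfold bE
    apply le_of_eq
    ring
  have hN : BdE w (fun i => 7 * 2 ^ ρ i * 2 ^ kE (ρ i) (q i) *
      (2 ^ jE (ρ i) * (2 * bE (ρ i) (q i) (2 ^ ρ i)))) :=
    (((BdE.const hw 7).mul hρ.pow).mul hk.pow).mul (hj.pow.mul ((BdE.const hw 2).mul hb))
  refine (hN.mul (hρ.cmul 12).pow).mono (fun i => ?_)
  unfold nbF Sys.nodeBits
  exact Nat.mul_le_mul_left _ (Nat.sub_le _ _)

theorem bound_lam (M1 : ℕ) (Q : Polynomial ℕ) : ∃ c d : ℕ, ∀ n : ℕ, 1 ≤ n →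
    nbF (rL M1 n) (qL M1 n) ≤ 2 ^ (c * n) ∧
    Q.eval (n + 1 + 2 ^ (c * n) + 2 ^ kE (rL M1 n) (qL M1 n)) ≤ 2 ^ (d * n) := by
  let w : {n : ℕ // 1 ≤ n} → ℕ := fun i => i.1
  have hw : ∀ i, 1 ≤ w i := fun i => i.2
  have hn : BdL w (fun i => i.1) := BdL.self w
  have hρ : BdL w (fun i => rL M1 i.1) := hn.cmul (M1 + 15)
  have hq : BdL w (fun i => qL M1 i.1) := ((hn.cmul (M1 + 15)).add hn).add (BdL.const hw 2)
  obtain ⟨c, hc⟩ := bd_nbF hw hρ hq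
  have hp : BdE w (fun i => 2 ^ kE (rL M1 i.1) (qL M1 i.1)) := ((hρ.cmul 215).add hq).pow
  have hs : BdE w (fun i => i.1 + 1 + 2 ^ (c * i.1) + 2 ^ kE (rL M1 i.1) (qL M1 i.1)) :=
    ((hn.add (BdL.const hw 1)).toE.add hw (hn.cmul c).pow).add hw hp
  obtain ⟨d, hd⟩ := hs.poly hw Q
  exact ⟨c, d, fun n hn1 => ⟨hc ⟨n, hn1⟩, hd ⟨n, hn1⟩⟩⟩

end Pool.Agent.Lib.MP_104326_lc.FP
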