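import Pool.Agent.Lib.MP_104326_lc.FP.Par

/-! # FP, E2b: the number of bits and the running time for the counting problem are polynomial -/

set_option autoImplicit false

namespace Pool.Agent.Lib.MP_104326_lc.FP

open Pool.Agent.Lib.PolyTime Pool.Agent.Lib.MP_104326_lc.KR

private theorem e2b_eval (Q : Polynomial ℕ) {m m' : ℕ} (h : m ≤ m') : Q.eval m ≤ Q.eval m' := by
  rw [Polynomial.eval_eq_sum_range, Polynomial.eval_eq_sum_range]
  exact Finset.sum_le_sum fun i _ => Nat.mul_le_mul_left _ (Nat.pow_le_pow_left h _)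

private theorem e2b_size {n : ℕ} (hn : 1 ≤ n) : 2 ^ Nat.size n ≤ 2 * n := by
  have h1 : 0 < Nat.size n := Nat.size_pos.2 hn
  obtain ⟨k, hk⟩ : ∃ k, Nat.size n = k + 1 := ⟨Nat.size n - 1, by omega⟩
  have h2 : 2 ^ k ≤ n := Nat.lt_size.1 (by omega)
  rw [hk, pow_succ]
  omega

private theorem e2b_rho {n N : ℕ} (hn : 1 ≤ n) (hN : n ≤ N) : 2 ^ rC n ≤ 16 * N := by
  unfold rC
  have := e2b_size hn
  rw [pow_add]
  omega

private theorem e2b_q {j N : ℕ} (hj : 1 ≤ j) (hN : j ≤ N) : 2 ^ qC j ≤ 32 * N ^ 3 := by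
  unfold qC
  have h1 := e2b_size hj
  have h2 : 2 ^ (3 * Nat.size j + 2) = 4 * (2 ^ Nat.size j) ^ 3 := by
    rw [pow_add, mul_comm 3, pow_mul]
    ring
  rw [h2]
  calc 4 * (2 ^ Nat.size j) ^ 3 ≤ 4 * (2 * N) ^ 3 :=
        Nat.mul_le_mul_left _ (Nat.pow_le_pow_left (h1.trans (Nat.mul_le_mul_left _ hN)) _)
    _ = 32 * N ^ 3 := by ring

private theorem e2b_k {ρ q a b : ℕ} (ha : 2 ^ ρ ≤ a) (hb : 2 ^ q ≤ b) : 2 ^ kE ρ q ≤ a ^ 215 * b := by
  unfold kE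
  rw [pow_add, mul_comm 215, pow_mul]
  exact Nat.mul_le_mul (Nat.pow_le_pow_left ha _) hb

private theorem e2b_nb {ρ q a b : ℕ} (ha : 2 ^ ρ ≤ a) (hb : 2 ^ q ≤ b) :
    nbF ρ q ≤ 7 * a * (a ^ 215 * b) * (a ^ 23 * (2 * (23 * a * (a + 1) + 474 * a + 3 * b + 7))) * a ^ 12 := by
  have hρ : ρ ≤ a := (Nat.lt_two_pow_self.le).trans ha
  have hq : q ≤ b := (Nat.lt_two_pow_self.le).trans hb
  unfold nbF Sys.nodeBits
  have h1 : 2 ^ jE ρ ≤ a ^ 23 := by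
    unfold jE
    rw [mul_comm 23, pow_mul]
    exact Nat.pow_le_pow_left ha _
  have h2 : bE ρ q (2 ^ ρ) ≤ 23 * a * (a + 1) + 474 * a + 3 * b + 7 := by
    unfold bE
    have h3 : 23 * ρ * (2 ^ ρ + 1) ≤ 23 * a * (a + 1) :=
      Nat.mul_le_mul (Nat.mul_le_mul_left _ hρ) (Nat.add_le_add_right ha _)
    omega
  have h3 : 2 ^ (12 * ρ) - 1 ≤ a ^ 12 := by
    refine (Nat.sub_le _ _).trans ?_
    rw [mul_comm 12, pow_mul]
    exact Nat.pow_le_pow_left ha _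
  exact Nat.mul_le_mul (Nat.mul_le_mul (Nat.mul_le_mul (Nat.mul_le_mul_left _ ha) (e2b_k ha hb))
    (Nat.mul_le_mul h1 (Nat.mul_le_mul_left _ h2))) h3

private theorem e2b_pow (p : Polynomial ℕ) : ∃ c : ℕ, ∀ N : ℕ, 2 ≤ N → p.eval N ≤ N ^ c := by
  refine ⟨p.eval 1 + p.natDegree, fun N hN => ?_⟩
  have h1 : p.eval N ≤ p.eval 1 * N ^ p.natDegree := by
    rw [Polynomial.eval_eq_sum_range, Polynomial.eval_eq_sum_range, Finset.sum_mul]
    refine Finset.sum_le_sum fun i hi => ?_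
    rw [one_pow, mul_one]
    exact Nat.mul_le_mul_left _ (Nat.pow_le_pow_right (by omega)
      (by rw [Finset.mem_range] at hi; omega))
  refine h1.trans ?_
  rw [pow_add]
  refine Nat.mul_le_mul_right _ ?_
  exact (Nat.lt_two_pow_self.le).trans (Nat.pow_le_pow_left hN _)

theorem bound_cnt (Q : Polynomial ℕ) : ∃ c d : ℕ, ∀ n j : ℕ, 1 ≤ n → 1 ≤ j →
    nbF (rC n) (qC j) ≤ (n + j) ^ c ∧
    Q.eval (n + 1 + (j + 1 + (n + j) ^ c) + 2 ^ kE (rC n) (qC j)) ≤ (n + j) ^ d := by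
  let a : Polynomial ℕ := 16 * Polynomial.X
  let b : Polynomial ℕ := 32 * Polynomial.X ^ 3
  let p1 : Polynomial ℕ := 7 * a * (a ^ 215 * b) * (a ^ 23 * (2 * (23 * a * (a + 1) + 474 * a + 3 * b + 7))) * a ^ 12
  obtain ⟨c, hc⟩ := e2b_pow p1
  let p2 : Polynomial ℕ := Polynomial.X + 1 + (Polynomial.X + 1 + Polynomial.X ^ c) + a ^ 215 * b
  obtain ⟨d, hd⟩ := e2b_pow (Q.comp p2)
  refine ⟨c, d, fun n j hn hj => ?_⟩
  have ha : a.eval (n + j) = 16 * (n + j) := by simp [a]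
  have hb : b.eval (n + j) = 32 * (n + j) ^ 3 := by simp [b]
  have h1 : 2 ^ rC n ≤ a.eval (n + j) := by rw [ha]; exact e2b_rho hn (by omega)
  have h2 : 2 ^ qC j ≤ b.eval (n + j) := by rw [hb]; exact e2b_q hj (by omega)
  have h3 : nbF (rC n) (qC j) ≤ p1.eval (n + j) := by
    refine (e2b_nb h1 h2).trans (le_of_eq ?_)
    simp [p1]
  have h4 : 2 ^ kE (rC n) (qC j) ≤ (a ^ 215 * b).eval (n + j) := by
    refine (e2b_k h1 h2).trans (le_of_eq ?_)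
    simp
  refine ⟨h3.trans (hc _ (by omega)), ?_⟩
  refine le_trans (e2b_eval Q ?_) ((Polynomial.eval_comp (p := Q) (q := p2)).symm.le.trans
    (hd (n + j) (by omega)))
  have h5 : p2.eval (n + j) = (n + j) + 1 + ((n + j) + 1 + (n + j) ^ c) + (a ^ 215 * b).eval (n + j) := by
    simp only [p2, Polynomial.eval_add, Polynomial.eval_X, Polynomial.eval_one, Polynomial.eval_pow]
  rw [h5]
  omega

end Pool.Agent.Lib.MP_104326_lc.FP
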