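import Pool.Agent.Lib.MP_104326_lc.FP.E0
import Pool.Agent.Lib.MP_104326_lc.KR.E0
import Pool.Agent.Lib.MP_104326_lc.KR.E3b

/-! # FP, E3b: the output of the counting algorithm is good with probability `1 - 1 / j` -/

set_option autoImplicit false

namespace Pool.Agent.Lib.MP_104326_lc.FP

open Pool.Agent.Lib.PolyTime Pool.Agent.Lib.MP_104326_lc.KR

namespace E3b

/-- counting from the deviation bound, abstract form -/
theorem count_of_dev {L s q e j : ℕ} (hj : 1 ≤ j) (hjs : j ≤ 2 ^ s) (hq : q = 3 * s + 2)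
    (f : List Bool → ℕ) (tn : ℕ)
    (hd : avgB L (fun r => if 1 / 2 ^ (s + 1) * (2 ^ e * (tn : ℝ)) < |(f r : ℝ) - 2 ^ e * tn|
      then 1 else 0) ≤ 1 / (2 ^ q * (1 / 2 ^ (s + 1)) ^ 2)) :
    j * (Finset.univ.filter (fun v : Fin L → Bool =>
      ¬ (|(((2 * f (List.ofFn v) + 2 ^ e) / (2 * 2 ^ e) : ℕ) : ℝ) - tn| ≤ (tn : ℝ) / j))).card
      ≤ 2 ^ L := by
  have hj0 : (0 : ℝ) < j := by exact_mod_cast hj
  have hjs' : (j : ℝ) ≤ 2 ^ s := by exact_mod_cast hjs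
  rw [avgB_card L (fun r => 1 / 2 ^ (s + 1) * (2 ^ e * (tn : ℝ)) < |(f r : ℝ) - 2 ^ e * tn|)] at hd
  have hsub : (Finset.univ.filter (fun v : Fin L → Bool =>
      ¬ (|(((2 * f (List.ofFn v) + 2 ^ e) / (2 * 2 ^ e) : ℕ) : ℝ) - tn| ≤ (tn : ℝ) / j))).card ≤
      (Finset.univ.filter (fun v : Fin L → Bool =>
        1 / 2 ^ (s + 1) * (2 ^ e * (tn : ℝ)) < |(f (List.ofFn v) : ℝ) - 2 ^ e * tn|)).card := by
    refine Finset.card_le_card fun v hv => ?_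
    rw [Finset.mem_filter] at hv ⊢
    refine ⟨hv.1, ?_⟩
    by_contra hcon
    apply hv.2
    rw [not_lt] at hcon
    have h1 := KR.E3b.round_ok (W := f (List.ofFn v)) (s := 2 ^ e) (T := tn) (j := s)
      (by positivity) (by push_cast; exact hcon)
    exact le_trans h1 (div_le_div_of_nonneg_left (Nat.cast_nonneg _) hj0 hjs')
  have hcard : ((Finset.univ.filter (fun v : Fin L → Bool =>
      ¬ (|(((2 * f (List.ofFn v) + 2 ^ e) / (2 * 2 ^ e) : ℕ) : ℝ) - tn| ≤ (tn : ℝ) / j))).card : ℝ) ≤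
      2 ^ L * (1 / (2 ^ q * (1 / 2 ^ (s + 1)) ^ 2)) := by
    have hc2 := (Nat.cast_le (α := ℝ)).2 hsub
    rw [div_le_iff₀ (by positivity)] at hd
    calc _ ≤ _ := hc2
      _ ≤ 1 / (2 ^ q * (1 / 2 ^ (s + 1)) ^ 2) * 2 ^ L := hd
      _ = _ := by ring
  have hval : (2 : ℝ) ^ s * (1 / (2 ^ q * (1 / 2 ^ (s + 1)) ^ 2)) = 1 := by
    rw [hq]
    have e1 : (2 : ℝ) ^ (3 * s + 2) = 4 * (2 ^ s * 2 ^ s * 2 ^ s) := by
      rw [pow_add, show 3 * s = s + s + s by ring, pow_add, pow_add]; ring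
    have e2 : (2 : ℝ) ^ (s + 1) = 2 * 2 ^ s := by ring
    rw [e1, e2]
    have : (2 : ℝ) ^ s ≠ 0 := by positivity
    field_simp
    norm_num
  have hfin : (j : ℝ) * ((Finset.univ.filter (fun v : Fin L → Bool =>
      ¬ (|(((2 * f (List.ofFn v) + 2 ^ e) / (2 * 2 ^ e) : ℕ) : ℝ) - tn| ≤ (tn : ℝ) / j))).card : ℝ) ≤
      2 ^ L := by
    calc _ ≤ (2 : ℝ) ^ s * (2 ^ L * (1 / (2 ^ q * (1 / 2 ^ (s + 1)) ^ 2))) :=
          mul_le_mul hjs' hcard (Nat.cast_nonneg _) (by positivity)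
      _ = 2 ^ L * ((2 : ℝ) ^ s * (1 / (2 ^ q * (1 / 2 ^ (s + 1)) ^ 2))) := by ring
      _ = 2 ^ L := by rw [hval, mul_one]
  exact_mod_cast hfin

end E3b

theorem good_cnt {n j L : ℕ} (hn : 1 ≤ n) (hj : 1 ≤ j) (hL : nbF (rC n) (qC j) ≤ L) :
    j * (Finset.univ.filter (fun v : Fin L → Bool =>
      ¬ (|(outCntF n j (List.ofFn v) (2 ^ kE (rC n) (qC j)) : ℝ) - t n| ≤ (t n : ℝ) / j))).card
      ≤ 2 ^ L := by
  have hρ3 : 3 ≤ rC n := by rw [rC]; omega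
  have hn2 : n < 2 ^ rC n := by
    rw [rC]
    exact (Nat.lt_size_self n).trans_le (Nat.pow_le_pow_right (by norm_num) (by omega))
  have hτ : (0 : ℝ) < 1 / 2 ^ (Nat.size j + 1) := by positivity
  have hd := dev (ρ := rC n) (q := qC j) (M := 2 ^ kE (rC n) (qC j)) hρ3 hn hn2 le_rfl hL hτ
  have h := E3b.count_of_dev (L := L) (s := Nat.size j) (q := qC j)
    (e := sE (rC n) (qC j) n) hj (Nat.lt_size_self j).le (by rw [qC])
    (fun r => totW (min (2 ^ kE (rC n) (qC j)) (2 ^ kE (rC n) (qC j)))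
      (arrF (rC n) (qC j) r (2 ^ kE (rC n) (qC j))) n) (t n) hd
  simp only [outCntF]
  exact h

end Pool.Agent.Lib.MP_104326_lc.FP
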