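import Pool.Agent.Lib.MP_104326_lc.FP.E1b
import Pool.Agent.Lib.MP_104326_lc.FP.E2b
import Pool.Agent.Lib.MP_104326_lc.FP.E3b
import Pool.Agent.Lib.MP_104326_lc.KC.F1

/-! # FP: approximate counting of polyominoes in polynomial time, assembly -/

set_option autoImplicit false

namespace Pool.Agent.Lib.MP_104326_lc.FP

open Pool.Agent.Lib.PolyTime MP_33f9c4_lc

theorem mainCnt :
    ∃ (U : Machine) (c d : ℕ), ∀ n j : ℕ, 1 ≤ n → 1 ≤ j →
      ∃ a : (Fin ((n + j) ^ c) → Bool) → ℕ,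
        (∀ r : Fin ((n + j) ^ c) → Bool, Outputs U
          (List.replicate n true ++ false :: (List.replicate j true ++ false :: List.ofFn r))
          (Nat.bits (a r)) ((n + j) ^ d)) ∧
        j * (Finset.univ.filter (fun r : Fin ((n + j) ^ c) → Bool =>
          ¬ (|(a r : ℝ) - t n| ≤ (t n : ℝ) / j))).card ≤ 2 ^ ((n + j) ^ c) := by
  obtain ⟨U, Q, hU⟩ := machine_cnt
  obtain ⟨c, d, hc⟩ := bound_cnt Q
  refine ⟨U, c, d, fun n j hn hj => ?_⟩
  obtain ⟨hc1, hc2⟩ := hc n j hn hj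
  refine ⟨fun r => outCntF n j (List.ofFn r) (2 ^ kE (rC n) (qC j)), fun r => ?_, ?_⟩
  · have h4 := hU n j (List.ofFn r)
    rw [List.length_ofFn] at h4
    exact outputs_mono h4 hc2
  · exact good_cnt hn hj hc1

end Pool.Agent.Lib.MP_104326_lc.FP
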