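import Pool.Agent.Lib.MP_104326_lc.KR.B
import Pool.Agent.Lib.MP_104326_lc.FP.E1a
import Pool.Agent.Lib.MP_104326_lc.FP.E2a
import Pool.Agent.Lib.MP_104326_lc.FP.E3a
import Pool.Agent.Lib.MP_104326_lc.KC.F1

/-! # FP: Klarner's constant in randomised time `2 ^ O(n)`, assembly -/

set_option autoImplicit false

namespace Pool.Agent.Lib.MP_104326_lc.FP

open Pool.Agent.Lib.PolyTime MP_33f9c4_lc Filter Topology

theorem mainLam :
    ∃ lam : ℝ, Tendsto (fun n : ℕ => (t n : ℝ) ^ ((1 : ℝ) / n)) atTop (𝓝 lam) ∧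
    ∃ (U : Machine) (c d : ℕ), ∀ n : ℕ, 1 ≤ n →
      ∃ a : (Fin (2 ^ (c * n)) → Bool) → ℕ,
        (∀ r : Fin (2 ^ (c * n)) → Bool,
          Outputs U (List.replicate n true ++ false :: List.ofFn r)
          (Nat.bits (a r)) (2 ^ (d * n))) ∧
        2 ^ n * (Finset.univ.filter (fun r : Fin (2 ^ (c * n)) → Bool =>
          ¬ ((10 : ℝ) ^ (-(n : ℤ)) < |(a r : ℝ) / 10 ^ (n + 2) - lam| ∧
            |(a r : ℝ) / 10 ^ (n + 2) - lam| < (10 : ℝ) ^ (-(n : ℤ) + 1)))).card ≤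
          2 ^ (2 ^ (c * n)) := by
  obtain ⟨lam, h1, hlim, h2, h3⟩ := growth (f := t) t_pos
    (fun _ _ ha hb => t_mul_le ha hb) (fun _ hn => t_split hn)
  obtain ⟨Lc, M1, hM1, hap⟩ := KR.approxR (f := t) h1 h2 h3 t_pos
  obtain ⟨U, Q, hU⟩ := machine_lam M1 Lc
  obtain ⟨c, d, hc⟩ := bound_lam M1 Q
  refine ⟨lam, hlim, U, c, d, fun n hn => ?_⟩
  obtain ⟨hc1, hc2⟩ := hc n hn
  refine ⟨fun r => outLamF M1 Lc n (List.ofFn r) (2 ^ kE (rL M1 n) (qL M1 n)), fun r => ?_, ?_⟩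
  · have h4 := hU n (List.ofFn r)
    rw [List.length_ofFn] at h4
    exact outputs_mono h4 hc2
  · exact good_lam hM1 hap hn hc1

end Pool.Agent.Lib.MP_104326_lc.FP
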