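import Pool.Agent.Lib.MP_104326_lc.FP.PDefs

/-!
# FP / P2a: the list version computes the pools (general form)
-/

set_option autoImplicit false

namespace Pool.Agent.Lib.MP_104326_lc.FP

open Pool.Agent.Lib.PolyTime Pool.Agent.Lib.MP_104326_lc.KR

/-- The fields of a system which the list version uses. -/
structure P2like (R : ℕ) (S : Sys MO) : Prop where
  G_eq : S.G = glueM R
  lcl_eq : S.lcl = lcl R
  rcl_eq : S.rcl = rcl R
  W_eq : S.W = R ^ 9
  unit_eq : ∀ c : ℕ × ℕ, S.unit c = if c.1 = 1 ∧ c.2 ≤ 1 then (1, unitO c.2) else (0, unitO 0)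

/-! ### entries -/

private theorem p2_at_range_map (m : ℕ) (f : ℕ → BN × MO) (n : ℕ) :
    LPool.at ((List.range m).map f) n = if n < m then f n else (⟨0⟩, unitO 0) := by
  unfold LPool.at
  rw [List.getD_eq_getElem?_getD]
  by_cases h : n < m
  · rw [if_pos h, List.getElem?_eq_getElem (by simpa using h)]
    simp
  · rw [if_neg h, List.getElem?_eq_none (by simpa using h)]
    rfl

private theorem p2_idx_div {K : ℕ} {c : ℕ × ℕ} {s : ℕ} (hs : s < K) : Sys.idx K c s / K = c.1 * 7 + c.2 := by
  unfold Sys.idx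
  have hK : 0 < K := by omega
  rw [Nat.mul_comm, Nat.mul_add_div hK, Nat.div_eq_of_lt hs, add_zero]

private theorem p2_idx_lt {K m : ℕ} {c : ℕ × ℕ} {s : ℕ} (hs : s < K) (h2 : c.2 < 7) :
    Sys.idx K c s < 7 * m * K ↔ c.1 < m := by
  have hK : 0 < K := by omega
  have h1 : Sys.idx K c s < 7 * m * K ↔ Sys.idx K c s / K < 7 * m := by
    rw [Nat.div_lt_iff_lt_mul hK]
  rw [h1, p2_idx_div hs]
  omega

private theorem p2_unit {R : ℕ} {S : Sys MO} (hS : P2like R S) (c : ℕ × ℕ) :
    ((unitL c).1.val, (unitL c).2) = S.unit c := by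
  rw [hS.unit_eq]
  unfold unitL
  split_ifs <;> rfl

private theorem p2_unit0 {R : ℕ} {S : Sys MO} (hS : P2like R S) : (S.unit (1, 0)).2 = unitO 0 := by
  rw [hS.unit_eq]
  simp

theorem toP_leafF {R : ℕ} {S : Sys MO} (hS : P2like R S) (K : ℕ) : toP K (leafF K) = S.leafP K := by
  funext c s
  obtain ⟨a, b⟩ := c
  unfold toP Sys.leafP pAt leafF
  rw [p2_unit0 hS, p2_at_range_map]
  by_cases hs : s < K
  · have h14 : 14 * K = 7 * 2 * K := by ring
    rw [if_pos hs]
    by_cases hb : b < 7
    · have e1 : Sys.idx K (a, b) s / K / 7 = a := by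
        rw [p2_idx_div hs]
        simp only
        omega
      have e2 : Sys.idx K (a, b) s / K % 7 = b := by
        rw [p2_idx_div hs]
        simp only
        omega
      rw [e1, e2, h14]
      by_cases ha : a = 1
      · have h3 : Sys.idx K (a, b) s < 7 * 2 * K := (p2_idx_lt hs hb).2 (by simp only; omega)
        rw [if_pos hb, if_pos h3, if_pos ⟨ha, hs⟩]
        exact p2_unit hS _
      · have h4 : ¬ (a = 1 ∧ s < K) := fun h => ha h.1
        rw [if_pos hb, if_neg h4]
        by_cases h3 : Sys.idx K (a, b) s < 7 * 2 * K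
        · rw [if_pos h3]
          unfold unitL
          have h5 : ¬ (a = 1 ∧ b ≤ 1) := fun h => ha h.1
          rw [if_neg h5]
        · rw [if_neg h3]
    · rw [if_neg hb]
      by_cases ha : a = 1
      · rw [if_pos ⟨ha, hs⟩, hS.unit_eq]
        have h5 : ¬ (a = 1 ∧ b ≤ 1) := fun h => by omega
        rw [if_neg h5]
      · have h4 : ¬ (a = 1 ∧ s < K) := fun h => ha h.1
        rw [if_neg h4]
  · have h4 : ¬ (a = 1 ∧ s < K) := fun h => hs h.2
    rw [if_neg hs, if_neg h4]

private theorem p2_toP {K : ℕ} {x : LPool} {c : ℕ × ℕ} {s : ℕ} (hs : s < K) :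
    toP K x c s = ((pAt K x c s).1.val, (pAt K x c s).2) := by
  unfold toP
  rw [if_pos hs]

private theorem p2_trial {R : ℕ} {S : Sys MO} (hS : P2like R S) {K : ℕ} (hK : 1 ≤ K) (c : ℕ × ℕ) (u : BN)
    (x y : LPool) :
    ((trialL R K c u x y).1.val, (trialL R K c u x y).2) = S.trial K c u.val (toP K x) (toP K y) := by
  unfold trialL Sys.trial
  rw [hS.G_eq, hS.lcl_eq, hS.rcl_eq, hS.W_eq, p2_unit0 hS,
    p2_toP (Nat.mod_lt _ (by omega)), p2_toP (Nat.mod_lt _ (by omega))]
  dsimp only
  split <;> simp_all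

private theorem p2_mrg (B : ℕ) (u : BN) (a b : BN × MO) :
    ((mrgL B u a b).1.val, (mrgL B u a b).2) = Sys.mrg B u.val (a.1.val, a.2) (b.1.val, b.2) := by
  unfold mrgL Sys.mrg
  dsimp only
  split_ifs <;> rfl

private theorem p2_slot {R : ℕ} {S : Sys MO} (hS : P2like R S) {K : ℕ} (hK : 1 ≤ K) (B : ℕ) (c : ℕ × ℕ)
    (x y : LPool) (p : List Bool) : ∀ J : ℕ,
    ((slotL R K B c x y p J).1.val, (slotL R K B c x y p J).2) =
      S.slot K B c (toP K x) (toP K y) (Sys.usOf B p) J
  | 0 => by
    unfold slotL Sys.slot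
    rw [p2_unit0 hS]
    rfl
  | J + 1 => by
    have ih := p2_slot hS hK B c x y p J
    have e1 : slotL R K B c x y p (J + 1) = mrgL B ⟨msb ((p.drop (J * (2 * B) + B)).take B)⟩
        (slotL R K B c x y p J) (trialL R K c ⟨msb ((p.drop (J * (2 * B))).take B)⟩ x y) := by
      unfold slotL
      rw [List.range_succ, List.foldl_append]
      rfl
    rw [e1, p2_mrg, ih, p2_trial hS hK]
    rfl

theorem toP_nodeL {R : ℕ} {S : Sys MO} (hS : P2like R S) {K : ℕ} (hK : 1 ≤ K) (J B : ℕ) (r : List Bool)
    (x y : LPool) : toP K (nodeL R K J B r x y) = S.nodeP R K J B r (toP K x) (toP K y) := by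
  funext c s
  obtain ⟨a, b⟩ := c
  unfold Sys.nodeP
  rw [p2_unit0 hS]
  by_cases hs : s < K
  · rw [p2_toP hs]
    by_cases hb : b < 7
    · have e1 : Sys.idx K (a, b) s / K / 7 = a := by
        rw [p2_idx_div hs]
        simp only
        omega
      have e2 : Sys.idx K (a, b) s / K % 7 = b := by
        rw [p2_idx_div hs]
        simp only
        omega
      have e3 : pAt K (nodeL R K J B r x y) (a, b) s = if Sys.idx K (a, b) s < 7 * R * K then
          (if a = 1 then unitL (a, b) else
            slotL R K B (a, b) x y (Sys.piece (J * (2 * B)) (Sys.idx K (a, b) s) r) J)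
          else (⟨0⟩, unitO 0) := by
        unfold pAt nodeL
        rw [if_pos hb, p2_at_range_map, e1, e2]
      rw [e3]
      by_cases ha : a < R
      · have h5 : s < K ∧ (a, b).1 < R ∧ (a, b).2 < 7 := ⟨hs, ha, hb⟩
        rw [if_pos ((p2_idx_lt hs hb).2 ha), if_pos h5]
        by_cases h1 : a = 1
        · rw [if_pos h1, if_pos (show (a, b).1 = 1 from h1)]
          exact p2_unit hS _
        · rw [if_neg h1, if_neg (show ¬ (a, b).1 = 1 from h1)]
          exact p2_slot hS hK B _ x y _ J
      · rw [if_neg (fun h => ha ((p2_idx_lt hs hb).1 h)), if_neg (fun h => ha h.2.1)]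
    · have e3 : pAt K (nodeL R K J B r x y) (a, b) s = (⟨0⟩, unitO 0) := by
        unfold pAt
        rw [if_neg hb]
      rw [e3, if_neg (fun h => hb h.2.2)]
  · unfold toP
    rw [if_neg hs, if_neg (fun h => hs h.1)]

/-! ### the stack -/

/-- The list version of `Sys.runP`. -/
def runRF (R K J B : ℕ) : ℕ → List Bool → LPool
  | 0, _ => leafF K
  | h + 1, r => nodeL R K J B (r.drop (2 * (Sys.nodeBits R K J B * (2 ^ h - 1))))
      (runRF R K J B h (r.take (Sys.nodeBits R K J B * (2 ^ h - 1))))
      (runRF R K J B h ((r.drop (Sys.nodeBits R K J B * (2 ^ h - 1))).take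
        (Sys.nodeBits R K J B * (2 ^ h - 1))))

theorem toP_runRF {R : ℕ} {S : Sys MO} (hS : P2like R S) {K : ℕ} (hK : 1 ≤ K) (J B : ℕ) :
    ∀ (h : ℕ) (r : List Bool), toP K (runRF R K J B h r) = S.runP R K J B h r
  | 0, _ => by rw [runRF, Sys.runP, toP_leafF hS]
  | h + 1, r => by
    rw [runRF, Sys.runP, toP_nodeL hS hK, toP_runRF hS hK J B h, toP_runRF hS hK J B h]

/-- A stack over which a full tree of height `h` can be processed. -/
def OKf (h : ℕ) : List (ℕ × LPool) → Prop
  | [] => True
  | [(h1, _)] => h ≤ h1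
  | (h1, _) :: (h2, _) :: _ => h ≤ h1 ∧ h1 ≠ h2

theorem fold_treeF {R K J B : ℕ} (hB : 1 ≤ Sys.nodeBits R K J B) :
    ∀ (h : ℕ) (r : List Bool) (st : List (ℕ × LPool)),
    r.length = Sys.nodeBits R K J B * (2 ^ (h + 1) - 1) → OKf (h + 1) st →
    (chunks (Sys.nodeBits R K J B) r).foldl (stepF R K J B) st = (h + 1, runRF R K J B (h + 1) r) :: st
  | 0, r, st, hr, hst => by
    have hr' : r.length = Sys.nodeBits R K J B := by simpa using hr
    rw [chunks_single hB hr', List.foldl_cons, List.foldl_nil]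
    have e : runRF R K J B (0 + 1) r = nodeL R K J B r (leafF K) (leafF K) := by
      simp [runRF]
    rw [e]
    unfold stepF
    match st, hst with
    | [], _ => rfl
    | [(h1, x)], _ => rfl
    | (h1, y) :: (h2, x) :: rest, hst =>
      simp only [OKf] at hst
      simp [hst.2]
  | h + 1, r, st, hr, hst => by
    set M := Sys.nodeBits R K J B * (2 ^ (h + 1) - 1) with hM
    have h2 : r.length = M + M + Sys.nodeBits R K J B := by
      rw [hr, hM, pow_succ 2 (h + 1)]
      have : 1 ≤ 2 ^ (h + 1) := Nat.one_le_two_pow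
      obtain ⟨q, hq⟩ := Nat.exists_eq_add_of_le this
      rw [hq]
      have e1 : (1 + q) * 2 - 1 = 2 * q + 1 := by omega
      have e2 : 1 + q - 1 = q := by omega
      rw [e1, e2]
      ring
    have hsplit : r = r.take M ++ ((r.drop M).take M ++ r.drop (2 * M)) := by
      have : r.drop (2 * M) = (r.drop M).drop M := by rw [List.drop_drop]; congr 1; ring
      rw [this, List.take_append_drop, List.take_append_drop]
    have l1 : (r.take M).length = M := by rw [List.length_take]; omega
    have l2 : ((r.drop M).take M).length = M := by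
      rw [List.length_take, List.length_drop]; omega
    have l3 : (r.drop (2 * M)).length = Sys.nodeBits R K J B := by rw [List.length_drop]; omega
    have hch : chunks (Sys.nodeBits R K J B) r = chunks (Sys.nodeBits R K J B) (r.take M) ++
        (chunks (Sys.nodeBits R K J B) ((r.drop M).take M) ++ [r.drop (2 * M)]) := by
      conv_lhs => rw [hsplit]
      rw [chunks_append hB (m := 2 ^ (h + 1) - 1) l1, chunks_append hB (m := 2 ^ (h + 1) - 1) l2,
        chunks_single hB l3]
    have ok1 : OKf (h + 1) st := by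
      match st, hst with
      | [], _ => trivial
      | [(h1, x)], hst => simp only [OKf] at hst ⊢; omega
      | (h1, y) :: (h2, x) :: rest, hst => simp only [OKf] at hst ⊢; exact ⟨by omega, hst.2⟩
    have ok2 : OKf (h + 1) ((h + 1, runRF R K J B (h + 1) (r.take M)) :: st) := by
      match st, hst with
      | [], _ => simp [OKf]
      | [(h1, x)], hst => simp only [OKf] at hst ⊢; omega
      | (h1, y) :: (h2, x) :: rest, hst => simp only [OKf] at hst ⊢; omega
    rw [hch, List.foldl_append, List.foldl_append, fold_treeF hB h _ _ l1 ok1,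
      fold_treeF hB h _ _ l2 ok2, List.foldl_cons, List.foldl_nil]
    have e : runRF R K J B (h + 1 + 1) r = nodeL R K J B (r.drop (2 * M))
        (runRF R K J B (h + 1) (r.take M)) (runRF R K J B (h + 1) ((r.drop M).take M)) := rfl
    rw [e]
    simp [stepF]

/-- The sampler on lists computes the pools of every system of the kind of `glueM R`. -/
theorem toP_runF_of {R K J B H : ℕ} {S : Sys MO} (hS : P2like R S) (hR : 8 ≤ R) (hK : 1 ≤ K) (hJ : 1 ≤ J)
    (hB : 1 ≤ B) {r : List Bool} (hr : r.length = Sys.nodeBits R K J B * (2 ^ H - 1)) :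
    toP K (runF R K J B r) = S.runP R K J B H r := by
  have hnb : 1 ≤ Sys.nodeBits R K J B := by
    unfold Sys.nodeBits
    have h1 : 0 < 7 * R * K * (J * (2 * B)) := by
      have : 0 < R := by omega
      positivity
    omega
  unfold runF
  match H with
  | 0 =>
    have : r = [] := List.length_eq_zero_iff.1 (by simpa using hr)
    rw [this, chunks_nil, List.foldl_nil, Sys.runP, List.headD_nil, toP_leafF hS]
  | H + 1 =>
    rw [fold_treeF hnb H r [] hr trivial, List.headD_cons, toP_runRF hS hK]

end Pool.Agent.Lib.MP_104326_lc.FP
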