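import Pool.Agent.Lib.MP_104326_lc.KR.Defs

/-!
# FP: abstract systems of objects with a canonical decomposition, pools of samples
-/

set_option autoImplicit false

namespace Pool.Agent.Lib.MP_104326_lc.FP

open Pool.Agent.Lib.PolyTime Pool.Agent.Lib.MP_104326_lc.KR

/-- Objects of several classes, with a canonical decomposition of the objects of size at least two
into two objects. `W` is the number of parameters of a gluing. -/
structure Sys (α : Type) [DecidableEq α] where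
  /-- the classes: (size, number of marks) -/
  Cls : Finset (ℕ × ℕ)
  /-- the objects of a class -/
  Om : ℕ × ℕ → Finset α
  /-- the class of an object -/
  cl : α → ℕ × ℕ
  /-- first part -/
  Lf : α → α
  /-- second part -/
  Rf : α → α
  /-- parameter of the decomposition -/
  ch : α → ℕ
  /-- gluing -/
  G : ℕ × ℕ → ℕ → α → α → Option α
  /-- class of the left operand -/
  lcl : ℕ × ℕ → ℕ → ℕ × ℕ
  /-- class of the right operand -/
  rcl : ℕ × ℕ → ℕ → ℕ × ℕ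
  /-- the number of parameters -/
  W : ℕ
  /-- the object and weight for the classes of size one -/
  unit : ℕ × ℕ → ℕ × α
  pos : ∀ c ∈ Cls, 1 ≤ c.1
  cl_eq : ∀ c ∈ Cls, ∀ O ∈ Om c, cl O = c
  unit_card : ∀ c ∈ Cls, c.1 = 1 → ((Om c = ∅ ∧ (unit c).1 = 0) ∨ (Om c = {(unit c).2} ∧ (unit c).1 = 1))
  G_some : ∀ c ∈ Cls, 2 ≤ c.1 → ∀ w < W, ∀ A B O, G c w A B = some O →
    O ∈ Om c ∧ A = Lf O ∧ B = Rf O ∧ w = ch O
  G_ch : ∀ c ∈ Cls, 2 ≤ c.1 → ∀ O ∈ Om c, ch O < W ∧ G c (ch O) (Lf O) (Rf O) = some O ∧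
    lcl c (ch O) = cl (Lf O) ∧ rcl c (ch O) = cl (Rf O) ∧ cl (Lf O) ∈ Cls ∧ cl (Rf O) ∈ Cls ∧
    Lf O ∈ Om (cl (Lf O)) ∧ Rf O ∈ Om (cl (Rf O)) ∧ (cl (Lf O)).1 + (cl (Rf O)).1 = c.1

variable {α : Type} [DecidableEq α]

namespace Sys

variable (S : Sys α)

/-- Size at least two. -/
def big (O : α) : Bool := decide (2 ≤ (S.cl O).1)

/-- The piece at a node of the decomposition tree. -/
def nd : List Bool → α → α
  | [], O => O
  | b :: v, O => nd v (if b then S.Lf O else S.Rf O)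

/-- The node exists and its piece has size at least two. -/
def okv : List Bool → α → Bool
  | [], O => S.big O
  | b :: v, O => S.big O && okv v (if b then S.Lf O else S.Rf O)

/-- The number of objects of a class. -/
def T (c : ℕ × ℕ) : ℝ := ((S.Om c).card : ℝ)

/-- The excess correlation of two objects at height `h`. -/
noncomputable def Xi (κ : ℝ) : ℕ → α → α → ℝ
  | 0, _, _ => 0
  | h + 1, O, Y => if S.big O && S.big Y then
      (if O = Y then κ * S.T (S.cl O) else 0) + Xi κ h (S.Lf O) (S.Lf Y) * Xi κ h (S.Rf O) (S.Rf Y) +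
        Xi κ h (S.Lf O) (S.Lf Y) + Xi κ h (S.Rf O) (S.Rf Y)
    else 0

end Sys

/-! ### Pools -/

/-- For every class and every index a weight and an object. -/
abbrev SPool (α : Type) := ℕ × ℕ → ℕ → ℕ × α

namespace Sys

variable (S : Sys α)

/-- One trial, with the random number `u`. -/
def trial (K : ℕ) (c : ℕ × ℕ) (u : ℕ) (L R : SPool α) : ℕ × α :=
  match S.G c (u % S.W) (L (S.lcl c (u % S.W)) (u / S.W % K)).2
      (R (S.rcl c (u % S.W)) (u / S.W / K % K)).2 with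
  | some Z => ((L (S.lcl c (u % S.W)) (u / S.W % K)).1 *
      (R (S.rcl c (u % S.W)) (u / S.W / K % K)).1, Z)
  | none => (0, (S.unit (1, 0)).2)

/-- Merge two weighted samples, with the random number `u < 2 ^ B`. -/
def mrg (B u : ℕ) (a b : ℕ × α) : ℕ × α :=
  if u * (a.1 + b.1) < b.1 * 2 ^ B then (a.1 + b.1, b.2) else (a.1 + b.1, a.2)

/-- The sample of a slot: `J` trials, merged one after the other. The `i`-th trial uses the random
numbers `(us i).1` and `(us i).2`. -/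
def slot (K B : ℕ) (c : ℕ × ℕ) (L R : SPool α) (us : ℕ → ℕ × ℕ) : ℕ → ℕ × α
  | 0 => (0, (S.unit (1, 0)).2)
  | J + 1 => mrg B (us J).2 (slot K B c L R us J) (S.trial K c (us J).1 L R)

/-- The average over the random numbers of a slot with `J` trials. -/
noncomputable def avgS (K B : ℕ) (c : ℕ × ℕ) (L R : SPool α) : ℕ → (ℕ × α → ℝ) → ℝ
  | 0, F => F (0, (S.unit (1, 0)).2)
  | J + 1, F => avgS K B c L R J (fun a =>
      (∑ u ∈ Finset.range (2 ^ B), (∑ u' ∈ Finset.range (2 ^ B),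
        F (mrg B u' a (S.trial K c u L R))) / 2 ^ B) / 2 ^ B)

/-- The pool at height zero. -/
def leafP (K : ℕ) : SPool α := fun c s =>
  if c.1 = 1 ∧ s < K then S.unit c else (0, (S.unit (1, 0)).2)

/-- The random numbers of a slot, from its bits. -/
def usOf (B : ℕ) (p : List Bool) (i : ℕ) : ℕ × ℕ :=
  (msb ((p.drop (i * (2 * B))).take B), msb ((p.drop (i * (2 * B) + B)).take B))

/-- The number of a slot. -/
def idx (K : ℕ) (c : ℕ × ℕ) (s : ℕ) : ℕ := (c.1 * 7 + c.2) * K + s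

/-- The bits of a slot. -/
def piece (m σ : ℕ) (r : List Bool) : List Bool := (r.drop (σ * m)).take m

/-- The number of bits of a node. -/
def nodeBits (R K J B : ℕ) : ℕ := 7 * R * K * (J * (2 * B))

/-- The pool of a node, from its bits and the pools of its children. -/
def nodeP (R K J B : ℕ) (r : List Bool) (x y : SPool α) : SPool α := fun c s =>
  if s < K ∧ c.1 < R ∧ c.2 < 7 then
    (if c.1 = 1 then S.unit c
      else S.slot K B c x y (usOf B (piece (J * (2 * B)) (idx K c s) r)) J)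
  else (0, (S.unit (1, 0)).2)

/-- The pool of height `h`, from `nodeBits * (2 ^ h - 1)` bits. -/
def runP (R K J B : ℕ) : ℕ → List Bool → SPool α
  | 0, _ => S.leafP K
  | h + 1, r => S.nodeP R K J B (r.drop (2 * (nodeBits R K J B * (2 ^ h - 1))))
      (runP R K J B h (r.take (nodeBits R K J B * (2 ^ h - 1))))
      (runP R K J B h ((r.drop (nodeBits R K J B * (2 ^ h - 1))).take
        (nodeBits R K J B * (2 ^ h - 1))))

/-- Expectations at height `h`. -/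
noncomputable def expP (R K J B : ℕ) : ℕ → (SPool α → ℝ) → ℝ
  | 0, F => F (S.leafP K)
  | h + 1, F => expP R K J B h (fun x => expP R K J B h (fun y =>
      avgB (nodeBits R K J B) (fun r => F (S.nodeP R K J B r x y))))

/-- Empirical measure. -/
noncomputable def mu (K : ℕ) (p : SPool α) (c : ℕ × ℕ) (O : α) : ℝ :=
  (∑ i ∈ Finset.range K, if (p c i).2 = O then ((p c i).1 : ℝ) else 0) / K

/-- Empirical second moments. -/
noncomputable def nu (K : ℕ) (p : SPool α) (c : ℕ × ℕ) (O : α) : ℝ :=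
  (∑ i ∈ Finset.range K, if (p c i).2 = O then ((p c i).1 : ℝ) ^ 2 else 0) / K

/-- Mean of a trial. -/
noncomputable def tm (K : ℕ) (c : ℕ × ℕ) (x y : SPool α) (f : α → ℝ) : ℝ :=
  (∑ O ∈ S.Om c, mu K x (S.cl (S.Lf O)) (S.Lf O) * mu K y (S.cl (S.Rf O)) (S.Rf O) * f O) / S.W

/-- Second moment of a trial. -/
noncomputable def tq (K : ℕ) (c : ℕ × ℕ) (x y : SPool α) (f : α → ℝ) : ℝ :=
  (∑ O ∈ S.Om c, nu K x (S.cl (S.Lf O)) (S.Lf O) * nu K y (S.cl (S.Rf O)) (S.Rf O) * f O) / S.W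

/-- The tree of `O` has height at most `h`. -/
def dep : ℕ → α → Prop
  | 0, O => S.big O = false
  | h + 1, O => S.big O = true → dep h (S.Lf O) ∧ dep h (S.Rf O)

/-- The properties of the pools which occur. -/
def Good (K J : ℕ) (p : SPool α) : Prop := ∀ c ∈ S.Cls,
  (∀ i, (p c i).1 ≤ J ^ (c.1 - 1) ∧ ((p c i).1 ≠ 0 → (p c i).2 ∈ S.Om c)) ∧
  (c.1 = 1 → ∀ i < K, p c i = S.unit c)

/-- The recursions for first and second moments. -/
structure Moments (K J : ℕ) (η : ℝ) (m : ℕ → α → ℝ) (V : ℕ → α → α → ℝ) (N : ℕ → α → ℝ) :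
    Prop where
  m_nn : ∀ h O, 0 ≤ m h O
  V_nn : ∀ h O Y, 0 ≤ V h O Y
  N_nn : ∀ h O, 0 ≤ N h O
  unit : ∀ h, ∀ c ∈ S.Cls, c.1 = 1 → ∀ O ∈ S.Om c, m h O = 1 ∧ N h O = 1 ∧
    (∀ Y, V h O Y = m h Y) ∧ (∀ Y, V h Y O = m h Y)
  zero : ∀ c ∈ S.Cls, 2 ≤ c.1 → ∀ O ∈ S.Om c, m 0 O = 0 ∧ N 0 O = 0 ∧
    ∀ Y, V 0 O Y = 0 ∧ V 0 Y O = 0
  m_up : ∀ h, ∀ c ∈ S.Cls, 2 ≤ c.1 → ∀ O ∈ S.Om c,
    m (h + 1) O ≤ (1 + η) ^ J * ((J : ℝ) / S.W) * (m h (S.Lf O) * m h (S.Rf O))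
  m_lo : ∀ h, ∀ c ∈ S.Cls, 2 ≤ c.1 → ∀ O ∈ S.Om c,
    (1 - η) ^ J * ((J : ℝ) / S.W) * (m h (S.Lf O) * m h (S.Rf O)) ≤ m (h + 1) O
  V_up : ∀ h, ∀ c ∈ S.Cls, 2 ≤ c.1 → ∀ c' ∈ S.Cls, 2 ≤ c'.1 → ∀ O ∈ S.Om c, ∀ Y ∈ S.Om c',
    V (h + 1) O Y ≤ ((1 + η) ^ J * ((J : ℝ) / S.W)) ^ 2 *
      (V h (S.Lf O) (S.Lf Y) * V h (S.Rf O) (S.Rf Y)) + (if O = Y then N (h + 1) O / K else 0)
  N_up : ∀ h, ∀ c ∈ S.Cls, 2 ≤ c.1 → ∀ O ∈ S.Om c,
    N (h + 1) O ≤ (1 + η) ^ J * (((J : ℝ) / S.W) * (N h (S.Lf O) * N h (S.Rf O)) +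
      ((J : ℝ) / S.W) ^ 2 * ∑ Y ∈ S.Om c, V h (S.Lf O) (S.Lf Y) * V h (S.Rf O) (S.Rf Y))

end Sys

end Pool.Agent.Lib.MP_104326_lc.FP
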