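import Pool.Agent.Lib.MP_104326_lc.FP.Defs
import Pool.Agent.Lib.MP_104326_lc.FP.Sys
import Pool.Agent.Lib.MP_104326_lc.KR.D2

/-!
# FP: the list version of the pools
-/

set_option autoImplicit false

namespace Pool.Agent.Lib.MP_104326_lc.FP

open Pool.Agent.Lib.PolyTime Pool.Agent.Lib.MP_104326_lc.KR

/-- Pools as lists; the entry of class `c` and index `s` is at the place `Sys.idx K c s`. -/
abbrev LPool := List (BN × MO)

/-- Entry of a pool. -/
def LPool.at (x : LPool) (σ : ℕ) : BN × MO := x.getD σ (⟨0⟩, unitO 0)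

/-- Entry of class `c` and index `s`. -/
def pAt (K : ℕ) (x : LPool) (c : ℕ × ℕ) (s : ℕ) : BN × MO :=
  if c.2 < 7 then LPool.at x (Sys.idx K c s) else (⟨0⟩, unitO 0)

/-- The function given by a list. -/
def toP (K : ℕ) (x : LPool) : SPool MO := fun c s =>
  if s < K then ((pAt K x c s).1.val, (pAt K x c s).2) else (0, unitO 0)

/-- Weight and object of the classes of size one. -/
def unitL (c : ℕ × ℕ) : BN × MO :=
  if c.1 = 1 ∧ c.2 ≤ 1 then (⟨1⟩, unitO c.2) else (⟨0⟩, unitO 0)

/-- One trial. -/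
def trialL (R K : ℕ) (c : ℕ × ℕ) (u : BN) (x y : LPool) : BN × MO :=
  match glueM R c (u.val % R ^ 9) (pAt K x (lcl R c (u.val % R ^ 9)) (u.val / R ^ 9 % K)).2
      (pAt K y (rcl R c (u.val % R ^ 9)) (u.val / R ^ 9 / K % K)).2 with
  | some Z => (⟨(pAt K x (lcl R c (u.val % R ^ 9)) (u.val / R ^ 9 % K)).1.val *
      (pAt K y (rcl R c (u.val % R ^ 9)) (u.val / R ^ 9 / K % K)).1.val⟩, Z)
  | none => (⟨0⟩, unitO 0)

/-- Merging. -/
def mrgL (B : ℕ) (u : BN) (a b : BN × MO) : BN × MO :=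
  if u.val * (a.1.val + b.1.val) < b.1.val * 2 ^ B then (⟨a.1.val + b.1.val⟩, b.2)
  else (⟨a.1.val + b.1.val⟩, a.2)

/-- The sample of a slot. -/
def slotL (R K B : ℕ) (c : ℕ × ℕ) (x y : LPool) (p : List Bool) (J : ℕ) : BN × MO :=
  (List.range J).foldl (fun a i => mrgL B ⟨msb ((p.drop (i * (2 * B) + B)).take B)⟩ a
    (trialL R K c ⟨msb ((p.drop (i * (2 * B))).take B)⟩ x y)) (⟨0⟩, unitO 0)

/-- The pool of a node. -/
def nodeL (R K J B : ℕ) (r : List Bool) (x y : LPool) : LPool :=
  (List.range (7 * R * K)).map (fun σ =>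
    if σ / K / 7 = 1 then unitL (σ / K / 7, σ / K % 7)
    else slotL R K B (σ / K / 7, σ / K % 7) x y (Sys.piece (J * (2 * B)) σ r) J)

/-- The pool at height zero. -/
def leafF (K : ℕ) : LPool := (List.range (14 * K)).map (fun σ => unitL (σ / K / 7, σ / K % 7))

/-- One step: if the two uppermost pools have the same height combine them, otherwise push the
combination of two leaves. -/
def stepF (R K J B : ℕ) (st : List (ℕ × LPool)) (w : List Bool) : List (ℕ × LPool) :=
  match st with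
  | (h1, y) :: (h2, x) :: rest =>
    if h1 = h2 then (h1 + 1, nodeL R K J B w x y) :: rest
    else (1, nodeL R K J B w (leafF K) (leafF K)) :: st
  | _ => (1, nodeL R K J B w (leafF K) (leafF K)) :: st

/-- The sampler on lists. -/
def runF (R K J B : ℕ) (r : List Bool) : LPool :=
  (((chunks (Sys.nodeBits R K J B) r).foldl (stepF R K J B) []).headD (0, leafF K)).2

end Pool.Agent.Lib.MP_104326_lc.FP
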