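import Pool.Agent.Lib.MP_104326_lc.FP.Sys
import Pool.Agent.Lib.MP_104326_lc.KR.C2b

/-!
# FP, module V1: one slot

Mean and second moment of a trial, and of a slot (`J` trials merged one after the other).
-/

set_option autoImplicit false

namespace Pool.Agent.Lib.MP_104326_lc.FP

open Pool.Agent.Lib.PolyTime Pool.Agent.Lib.MP_104326_lc.KR

variable {α : Type} [DecidableEq α] (S : Sys α)

/-! ### uniform numbers -/

theorem v1_divmod (m q : ℕ) (hm : 0 < m) (F : ℕ → ℕ → ℝ) :
    ∑ u ∈ Finset.range (m * q), F (u % m) (u / m) =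
      ∑ w ∈ Finset.range m, ∑ v ∈ Finset.range q, F w v := by
  induction q with
  | zero => simp
  | succ q ih =>
    rw [Nat.mul_succ, Finset.sum_range_add, ih]
    have h1 : ∑ x ∈ Finset.range m, F ((m * q + x) % m) ((m * q + x) / m) =
        ∑ w ∈ Finset.range m, F w q := by
      refine Finset.sum_congr rfl fun w hw => ?_
      rw [Nat.mul_add_mod, Nat.mod_eq_of_lt (Finset.mem_range.1 hw), Nat.mul_add_div hm,
        Nat.div_eq_of_lt (Finset.mem_range.1 hw), Nat.add_zero]
    rw [h1, ← Finset.sum_add_distrib]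
    refine Finset.sum_congr rfl fun w _ => ?_
    rw [Finset.sum_range_succ]

theorem v1_unif {W K B : ℕ} (hW : 1 ≤ W) (hK : 1 ≤ K) (hB : W * K * K ∣ 2 ^ B) (F : ℕ → ℕ → ℕ → ℝ) :
    (∑ u ∈ Finset.range (2 ^ B), F (u % W) (u / W % K) (u / W / K % K)) / 2 ^ B =
      (∑ w ∈ Finset.range W, ∑ i ∈ Finset.range K, ∑ j ∈ Finset.range K, F w i j) / (W * K * K) := by
  obtain ⟨q, hq⟩ := hB
  have hq' : 2 ^ B = W * (K * (K * q)) := by rw [hq]; ring
  have h1 : ∑ u ∈ Finset.range (W * (K * (K * q))), F (u % W) (u / W % K) (u / W / K % K) =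
      q * ∑ w ∈ Finset.range W, ∑ i ∈ Finset.range K, ∑ j ∈ Finset.range K, F w i j := by
    rw [v1_divmod W (K * (K * q)) hW (fun a b => F a (b % K) (b / K % K)), Finset.mul_sum]
    refine Finset.sum_congr rfl fun w _ => ?_
    rw [v1_divmod K (K * q) hK (fun a b => F w a (b % K)), Finset.mul_sum]
    refine Finset.sum_congr rfl fun i _ => ?_
    rw [v1_divmod K q hK (fun a _ => F w i a), Finset.mul_sum]
    refine Finset.sum_congr rfl fun j _ => ?_
    rw [Finset.sum_const, Finset.card_range, nsmul_eq_mul]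
  have hq0 : 0 < q := by
    rcases Nat.eq_zero_or_pos q with h | h
    · exfalso
      rw [h, Nat.mul_zero] at hq
      exact absurd hq (by positivity)
    · exact h
  have hqr : (0 : ℝ) < q := by exact_mod_cast hq0
  have hWr : (0 : ℝ) < W := by exact_mod_cast hW
  have hKr : (0 : ℝ) < K := by exact_mod_cast hK
  have h2 : (2 : ℝ) ^ B = W * K * K * q := by exact_mod_cast hq
  rw [hq', h1, h2, div_eq_div_iff (by positivity) (by positivity)]
  ring

/-! ### trials -/

/-- empirical moments -/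
private noncomputable def v1M (g : ℕ → ℝ) (K : ℕ) (p : SPool α) (c : ℕ × ℕ) (O : α) : ℝ :=
  (∑ i ∈ Finset.range K, if (p c i).2 = O then g (p c i).1 else 0) / K

private theorem v1_gen {K B : ℕ} (hK : 1 ≤ K) (hW : 1 ≤ S.W) (hB : S.W * K * K ∣ 2 ^ B) {c : ℕ × ℕ}
    (hc : c ∈ S.Cls) (h2 : 2 ≤ c.1) (x y : SPool α) (f : α → ℝ) (g : ℕ → ℝ) (g0 : g 0 = 0)
    (gm : ∀ a b, g (a * b) = g a * g b) :
    (∑ u ∈ Finset.range (2 ^ B), g (S.trial K c u x y).1 * f (S.trial K c u x y).2) / 2 ^ B =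
      (∑ O ∈ S.Om c, v1M g K x (S.cl (S.Lf O)) (S.Lf O) * v1M g K y (S.cl (S.Rf O)) (S.Rf O) * f O) / S.W := by
  classical
  obtain ⟨F, hF⟩ : ∃ F : ℕ → ℕ → ℕ → ℝ, F = fun w i j =>
      ∑ O ∈ S.Om c, if S.G c w (x (S.lcl c w) i).2 (y (S.rcl c w) j).2 = some O then
        g (x (S.lcl c w) i).1 * g (y (S.rcl c w) j).1 * f O else 0 := ⟨_, rfl⟩
  have h1 : ∀ u, g (S.trial K c u x y).1 * f (S.trial K c u x y).2 =
      F (u % S.W) (u / S.W % K) (u / S.W / K % K) := by
    intro u
    have hw : u % S.W < S.W := Nat.mod_lt _ hW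
    rw [hF]
    unfold Sys.trial
    cases hG : S.G c (u % S.W) (x (S.lcl c (u % S.W)) (u / S.W % K)).2
        (y (S.rcl c (u % S.W)) (u / S.W / K % K)).2 with
    | none =>
      simp only [hG, g0, zero_mul]
      symm
      refine Finset.sum_eq_zero fun O _ => ?_
      rw [if_neg (by simp)]
    | some Z =>
      simp only [hG]
      obtain ⟨hZ, _⟩ := S.G_some c hc h2 _ hw _ _ _ hG
      rw [Finset.sum_eq_single_of_mem Z hZ]
      · rw [if_pos rfl, gm]
      · intro O _ hO
        rw [if_neg]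
        intro h
        exact hO (Option.some.inj h).symm
  rw [Finset.sum_congr rfl fun u _ => h1 u, v1_unif hW hK hB F]
  have h3 : ∑ w ∈ Finset.range S.W, ∑ i ∈ Finset.range K, ∑ j ∈ Finset.range K, F w i j =
      ∑ O ∈ S.Om c, (∑ i ∈ Finset.range K, if (x (S.cl (S.Lf O)) i).2 = S.Lf O then
        g (x (S.cl (S.Lf O)) i).1 else 0) * (∑ j ∈ Finset.range K,
        if (y (S.cl (S.Rf O)) j).2 = S.Rf O then g (y (S.cl (S.Rf O)) j).1 else 0) * f O := by
    have e1 : ∑ w ∈ Finset.range S.W, ∑ i ∈ Finset.range K, ∑ j ∈ Finset.range K, F w i j =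
        ∑ O ∈ S.Om c, ∑ w ∈ Finset.range S.W, ∑ i ∈ Finset.range K, ∑ j ∈ Finset.range K,
          if S.G c w (x (S.lcl c w) i).2 (y (S.rcl c w) j).2 = some O then
            g (x (S.lcl c w) i).1 * g (y (S.rcl c w) j).1 * f O else 0 := by
      symm
      rw [Finset.sum_comm]
      refine Finset.sum_congr rfl fun w _ => ?_
      rw [Finset.sum_comm]
      refine Finset.sum_congr rfl fun i _ => ?_
      rw [Finset.sum_comm]
      refine Finset.sum_congr rfl fun j _ => ?_
      rw [hF]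
    rw [e1]
    refine Finset.sum_congr rfl fun O hO => ?_
    obtain ⟨k1, k2, k3, k4, _⟩ := S.G_ch c hc h2 O hO
    rw [Finset.sum_eq_single_of_mem (S.ch O) (Finset.mem_range.2 k1)]
    · rw [Finset.sum_mul_sum, Finset.sum_mul]
      refine Finset.sum_congr rfl fun i _ => ?_
      rw [Finset.sum_mul]
      refine Finset.sum_congr rfl fun j _ => ?_
      rw [k3, k4]
      by_cases hA : (x (S.cl (S.Lf O)) i).2 = S.Lf O
      · by_cases hB' : (y (S.cl (S.Rf O)) j).2 = S.Rf O
        · rw [if_pos hA, if_pos hB', hA, hB', if_pos k2]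
        · rw [if_neg hB', if_neg, mul_zero, zero_mul]
          intro h
          exact hB' (S.G_some c hc h2 _ k1 _ _ _ h).2.2.1
      · rw [if_neg hA, if_neg, zero_mul, zero_mul]
        intro h
        exact hA (S.G_some c hc h2 _ k1 _ _ _ h).2.1
    · intro w hw hne
      refine Finset.sum_eq_zero fun i _ => Finset.sum_eq_zero fun j _ => ?_
      rw [if_neg]
      intro h
      exact hne (S.G_some c hc h2 _ (Finset.mem_range.1 hw) _ _ _ h).2.2.2
  rw [h3]
  have hWr : (0 : ℝ) < S.W := by exact_mod_cast hW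
  have hKr : (0 : ℝ) < K := by exact_mod_cast hK
  rw [div_eq_div_iff (by positivity) (by positivity), Finset.sum_mul, Finset.sum_mul]
  refine Finset.sum_congr rfl fun O _ => ?_
  unfold v1M
  field_simp

theorem trial_mean {K B : ℕ} (hK : 1 ≤ K) (hW : 1 ≤ S.W) (hB : S.W * K * K ∣ 2 ^ B) {c : ℕ × ℕ}
    (hc : c ∈ S.Cls) (h2 : 2 ≤ c.1) (x y : SPool α) (f : α → ℝ) :
    (∑ u ∈ Finset.range (2 ^ B), ((S.trial K c u x y).1 : ℝ) * f (S.trial K c u x y).2) / 2 ^ B =
      S.tm K c x y f :=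
  v1_gen S hK hW hB hc h2 x y f (fun a => (a : ℝ)) Nat.cast_zero (fun a b => Nat.cast_mul a b)

theorem trial_sq {K B : ℕ} (hK : 1 ≤ K) (hW : 1 ≤ S.W) (hB : S.W * K * K ∣ 2 ^ B) {c : ℕ × ℕ}
    (hc : c ∈ S.Cls) (h2 : 2 ≤ c.1) (x y : SPool α) (f : α → ℝ) :
    (∑ u ∈ Finset.range (2 ^ B), ((S.trial K c u x y).1 : ℝ) ^ 2 * f (S.trial K c u x y).2) / 2 ^ B =
      S.tq K c x y f :=
  v1_gen S hK hW hB hc h2 x y f (fun a => (a : ℝ) ^ 2) (by simp)
    (fun a b => by rw [Nat.cast_mul, mul_pow])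

theorem trial_good {K J : ℕ} (hJ : 1 ≤ J) {c : ℕ × ℕ} (hc : c ∈ S.Cls) (h2 : 2 ≤ c.1) {x y : SPool α}
    (hx : S.Good K J x) (hy : S.Good K J y) (hW : 1 ≤ S.W) (u : ℕ) :
    (S.trial K c u x y).1 ≤ J ^ (c.1 - 2) ∧
      ((S.trial K c u x y).1 ≠ 0 → (S.trial K c u x y).2 ∈ S.Om c) := by
  have hw : u % S.W < S.W := Nat.mod_lt _ hW
  unfold Sys.trial
  cases hG : S.G c (u % S.W) (x (S.lcl c (u % S.W)) (u / S.W % K)).2
      (y (S.rcl c (u % S.W)) (u / S.W / K % K)).2 with
  | none => exact ⟨Nat.zero_le _, fun h => absurd rfl h⟩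
  | some Z =>
    obtain ⟨hZ, _, _, hch⟩ := S.G_some c hc h2 _ hw _ _ _ hG
    refine ⟨?_, fun _ => hZ⟩
    obtain ⟨_, _, k3, k4, k5, k6, _, _, k9⟩ := S.G_ch c hc h2 Z hZ
    rw [hch, k3, k4]
    have g1 := ((hx _ k5).1 (u / S.W % K)).1
    have g2 := ((hy _ k6).1 (u / S.W / K % K)).1
    have p1 := S.pos _ k5
    have p2 := S.pos _ k6
    refine (Nat.mul_le_mul g1 g2).trans ?_
    rw [← pow_add]
    exact Nat.pow_le_pow_right hJ (by omega)

/-! ### merging -/

omit [DecidableEq α] in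
/-- The average over the random number used by a merging. -/
theorem v1_merge {B : ℕ} {a b : ℕ × α} {η : ℝ} (hη0 : 0 ≤ η) (hη : (a.1 : ℝ) + b.1 ≤ η * 2 ^ B)
    {f : α → ℝ} (hf : ∀ z, 0 ≤ f z) :
    (∑ u ∈ Finset.range (2 ^ B), ((Sys.mrg B u a b).1 : ℝ) * f (Sys.mrg B u a b).2) / 2 ^ B ≤
      (1 + η) * ((a.1 : ℝ) * f a.2 + (b.1 : ℝ) * f b.2) ∧
    (1 - η) * ((a.1 : ℝ) * f a.2 + (b.1 : ℝ) * f b.2) ≤
      (∑ u ∈ Finset.range (2 ^ B), ((Sys.mrg B u a b).1 : ℝ) * f (Sys.mrg B u a b).2) / 2 ^ B := by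
  have h := merge_avg (x := fun _ : ℕ => a) (y := fun _ : ℕ => b) (n := 0) (B := B) (η := η) hη0
    (by
      rw [div_le_iff₀ (by positivity)]
      push_cast
      exact hη) (f := f) hf
  exact h

omit [DecidableEq α] in
/-- The weight after a merging. -/
theorem v1_mrg_fst (B u : ℕ) (a b : ℕ × α) : (Sys.mrg B u a b).1 = a.1 + b.1 := by
  unfold Sys.mrg
  split_ifs <;> rfl

/-! ### algebra of `avgS` -/

variable (K B : ℕ) (c : ℕ × ℕ) (x y : SPool α)

theorem avgS_succ (J : ℕ) (F : ℕ × α → ℝ) : S.avgS K B c x y (J + 1) F =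
    S.avgS K B c x y J (fun a => (∑ u ∈ Finset.range (2 ^ B), (∑ u' ∈ Finset.range (2 ^ B),
        F (Sys.mrg B u' a (S.trial K c u x y))) / 2 ^ B) / 2 ^ B) := rfl

theorem avgS_add (J : ℕ) : ∀ F F' : ℕ × α → ℝ,
    S.avgS K B c x y J (fun a => F a + F' a) = S.avgS K B c x y J F + S.avgS K B c x y J F' := by
  induction J with
  | zero => exact fun _ _ => rfl
  | succ J ih =>
    intro F F'
    rw [avgS_succ, avgS_succ, avgS_succ, ← ih]
    congr 1
    funext a
    rw [← add_div, ← Finset.sum_add_distrib]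
    congr 1
    refine Finset.sum_congr rfl fun u _ => ?_
    rw [← add_div, ← Finset.sum_add_distrib]

theorem avgS_smul (J : ℕ) (r : ℝ) : ∀ F : ℕ × α → ℝ,
    S.avgS K B c x y J (fun a => r * F a) = r * S.avgS K B c x y J F := by
  induction J with
  | zero => exact fun _ => rfl
  | succ J ih =>
    intro F
    rw [avgS_succ, avgS_succ, ← ih]
    congr 1
    funext a
    rw [← mul_div_assoc, Finset.mul_sum]
    congr 1
    refine Finset.sum_congr rfl fun u _ => ?_
    rw [← mul_div_assoc, Finset.mul_sum]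

theorem avgS_const (J : ℕ) (r : ℝ) : S.avgS K B c x y J (fun _ => r) = r := by
  induction J with
  | zero => rfl
  | succ J ih =>
    rw [avgS_succ]
    have h1 : (∑ _u ∈ Finset.range (2 ^ B), (∑ _u' ∈ Finset.range (2 ^ B), r) / 2 ^ B) / 2 ^ B = r := by
      rw [Finset.sum_const, Finset.sum_const, Finset.card_range, nsmul_eq_mul, nsmul_eq_mul]
      push_cast
      have : (2 : ℝ) ^ B ≠ 0 := by positivity
      field_simp
    simp only [h1]
    exact ih

theorem avgS_mono {m J : ℕ} (ht : ∀ u, (S.trial K c u x y).1 ≤ m) :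
    ∀ F F' : ℕ × α → ℝ, (∀ a, a.1 ≤ J * m → F a ≤ F' a) →
      S.avgS K B c x y J F ≤ S.avgS K B c x y J F' := by
  induction J with
  | zero =>
    intro F F' h
    exact h _ (Nat.zero_le _)
  | succ J ih =>
    intro F F' h
    rw [avgS_succ, avgS_succ]
    refine ih _ _ fun a ha => ?_
    refine div_le_div_of_nonneg_right (Finset.sum_le_sum fun u _ =>
      div_le_div_of_nonneg_right (Finset.sum_le_sum fun u' _ => h _ ?_) (by positivity)) (by positivity)
    rw [v1_mrg_fst]
    have := ht u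
    rw [Nat.succ_mul]
    omega

variable {K B c x y}

/-! ### moments of a slot -/

private theorem v1_avg_le {B : ℕ} {F F' : ℕ → ℝ} (h : ∀ u, F u ≤ F' u) :
    (∑ u ∈ Finset.range (2 ^ B), F u) / 2 ^ B ≤ (∑ u ∈ Finset.range (2 ^ B), F' u) / 2 ^ B :=
  div_le_div_of_nonneg_right (Finset.sum_le_sum fun u _ => h u) (by positivity)

private theorem v1_avg_const {B : ℕ} (r : ℝ) :
    (∑ _u ∈ Finset.range (2 ^ B), r) / 2 ^ B = r := by
  rw [Finset.sum_const, Finset.card_range, nsmul_eq_mul]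
  push_cast
  have : (2 : ℝ) ^ B ≠ 0 := by positivity
  field_simp

private theorem v1_tm_nonneg {f : α → ℝ} (hf : ∀ O, 0 ≤ f O) : 0 ≤ S.tm K c x y f := by
  unfold Sys.tm Sys.mu
  refine div_nonneg (Finset.sum_nonneg fun O _ => ?_) (Nat.cast_nonneg _)
  refine mul_nonneg (mul_nonneg ?_ ?_) (hf O)
  · refine div_nonneg (Finset.sum_nonneg fun i _ => ?_) (Nat.cast_nonneg _)
    split_ifs
    · exact Nat.cast_nonneg _
    · exact le_rfl
  · refine div_nonneg (Finset.sum_nonneg fun i _ => ?_) (Nat.cast_nonneg _)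
    split_ifs
    · exact Nat.cast_nonneg _
    · exact le_rfl

private theorem v1_tq_nonneg {f : α → ℝ} (hf : ∀ O, 0 ≤ f O) : 0 ≤ S.tq K c x y f := by
  unfold Sys.tq Sys.nu
  refine div_nonneg (Finset.sum_nonneg fun O _ => ?_) (Nat.cast_nonneg _)
  refine mul_nonneg (mul_nonneg ?_ ?_) (hf O)
  · refine div_nonneg (Finset.sum_nonneg fun i _ => ?_) (Nat.cast_nonneg _)
    split_ifs
    · positivity
    · exact le_rfl
  · refine div_nonneg (Finset.sum_nonneg fun i _ => ?_) (Nat.cast_nonneg _)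
    split_ifs
    · positivity
    · exact le_rfl

theorem slot_moments {K J B : ℕ} (hK : 1 ≤ K) (hJ : 1 ≤ J) (hW : 1 ≤ S.W) (hB : S.W * K * K ∣ 2 ^ B)
    {c : ℕ × ℕ} (hc : c ∈ S.Cls) (h2 : 2 ≤ c.1) {x y : SPool α} (hx : S.Good K J x)
    (hy : S.Good K J y) {η : ℝ} (hη0 : 0 ≤ η) (hη1 : η ≤ 1)
    (hη : (J : ℝ) * J ^ (c.1 - 2) ≤ η * 2 ^ B) (f : α → ℝ) (hf : ∀ O, 0 ≤ f O) :
    S.avgS K B c x y J (fun a => (a.1 : ℝ) * f a.2) ≤ (1 + η) ^ J * (J * S.tm K c x y f) ∧
    (1 - η) ^ J * (J * S.tm K c x y f) ≤ S.avgS K B c x y J (fun a => (a.1 : ℝ) * f a.2) ∧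
    S.avgS K B c x y J (fun a => (a.1 : ℝ) ^ 2 * f a.2) ≤ (1 + η) ^ J *
      (J * S.tq K c x y f + J ^ 2 * (S.tm K c x y (fun _ => 1) * S.tm K c x y f)) := by
  have hgood := trial_good S (K := K) hJ hc h2 hx hy hW
  have ht : ∀ u, (S.trial K c u x y).1 ≤ J ^ (c.1 - 2) := fun u => (hgood u).1
  -- size of the weights at stage `k`
  have hsz : ∀ k, k + 1 ≤ J → ∀ a : ℕ × α, a.1 ≤ k * J ^ (c.1 - 2) → ∀ u,
      (a.1 : ℝ) + (S.trial K c u x y).1 ≤ η * 2 ^ B := by
    intro k hk a ha u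
    refine le_trans ?_ hη
    have h3 : a.1 + (S.trial K c u x y).1 ≤ J * J ^ (c.1 - 2) := by
      calc a.1 + (S.trial K c u x y).1 ≤ k * J ^ (c.1 - 2) + J ^ (c.1 - 2) := Nat.add_le_add ha (ht u)
        _ = (k + 1) * J ^ (c.1 - 2) := by ring
        _ ≤ J * J ^ (c.1 - 2) := Nat.mul_le_mul_right _ hk
    exact_mod_cast h3
  -- first moments, for every `g`
  have hfirst : ∀ g : α → ℝ, (∀ O, 0 ≤ g O) → ∀ k, k ≤ J →
      S.avgS K B c x y k (fun a => (a.1 : ℝ) * g a.2) ≤ (1 + η) ^ k * (k * S.tm K c x y g) ∧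
      (1 - η) ^ k * (k * S.tm K c x y g) ≤ S.avgS K B c x y k (fun a => (a.1 : ℝ) * g a.2) := by
    intro g hg k
    have hT := v1_tm_nonneg S (K := K) (c := c) (x := x) (y := y) hg
    induction k with
    | zero =>
      intro _
      have e : S.avgS K B c x y 0 (fun a => (a.1 : ℝ) * g a.2) = 0 := by
        change ((0 : ℕ) : ℝ) * g (S.unit (1, 0)).2 = 0
        simp
      rw [e]
      simp
    | succ k ih =>
      intro hk
      obtain ⟨i1, i2⟩ := ih (by omega)
      have hsum : ∀ a : ℕ × α, (∑ u ∈ Finset.range (2 ^ B), ((a.1 : ℝ) * g a.2 +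
          ((S.trial K c u x y).1 : ℝ) * g (S.trial K c u x y).2)) / 2 ^ B =
            (a.1 : ℝ) * g a.2 + S.tm K c x y g := by
        intro a
        rw [Finset.sum_add_distrib, add_div, v1_avg_const, trial_mean S hK hW hB hc h2]
      constructor
      · calc S.avgS K B c x y (k + 1) (fun a => (a.1 : ℝ) * g a.2)
            ≤ S.avgS K B c x y k (fun a => (1 + η) * ((a.1 : ℝ) * g a.2 + S.tm K c x y g)) := by
              rw [avgS_succ]
              refine avgS_mono S K B c x y ht _ _ fun a ha => ?_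
              rw [← hsum a, ← mul_div_assoc, Finset.mul_sum]
              exact v1_avg_le fun u => (v1_merge hη0 (hsz k hk a ha u) hg).1
          _ = (1 + η) * (S.avgS K B c x y k (fun a => (a.1 : ℝ) * g a.2) + S.tm K c x y g) := by
              rw [avgS_smul, avgS_add, avgS_const]
          _ ≤ (1 + η) * ((1 + η) ^ k * (k * S.tm K c x y g) + (1 + η) ^ k * S.tm K c x y g) := by
              refine mul_le_mul_of_nonneg_left (add_le_add i1 ?_) (by linarith)
              have : (1 : ℝ) ≤ (1 + η) ^ k := one_le_pow₀ (by linarith)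
              nlinarith
          _ = (1 + η) ^ (k + 1) * (((k + 1 : ℕ) : ℝ) * S.tm K c x y g) := by
              push_cast
              ring
      · calc (1 - η) ^ (k + 1) * (((k + 1 : ℕ) : ℝ) * S.tm K c x y g)
            = (1 - η) * ((1 - η) ^ k * (k * S.tm K c x y g) + (1 - η) ^ k * S.tm K c x y g) := by
              push_cast
              ring
          _ ≤ (1 - η) * (S.avgS K B c x y k (fun a => (a.1 : ℝ) * g a.2) + S.tm K c x y g) := by
              refine mul_le_mul_of_nonneg_left (add_le_add i2 ?_) (by linarith)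
              have : (1 - η) ^ k ≤ 1 := pow_le_one₀ (by linarith) (by linarith)
              nlinarith
          _ = S.avgS K B c x y k (fun a => (1 - η) * ((a.1 : ℝ) * g a.2 + S.tm K c x y g)) := by
              rw [avgS_smul, avgS_add, avgS_const]
          _ ≤ S.avgS K B c x y (k + 1) (fun a => (a.1 : ℝ) * g a.2) := by
              rw [avgS_succ]
              refine avgS_mono S K B c x y ht _ _ fun a ha => ?_
              rw [← hsum a, ← mul_div_assoc, Finset.mul_sum]
              exact v1_avg_le fun u => (v1_merge hη0 (hsz k hk a ha u) hg).2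
  refine ⟨(hfirst f hf J le_rfl).1, (hfirst f hf J le_rfl).2, ?_⟩
  -- second moments
  have hT := v1_tm_nonneg S (K := K) (c := c) (x := x) (y := y) hf
  have hT1 := v1_tm_nonneg S (K := K) (c := c) (x := x) (y := y) (f := fun _ => (1 : ℝ))
    (fun _ => zero_le_one)
  have hQ := v1_tq_nonneg S (K := K) (c := c) (x := x) (y := y) hf
  have hsecond : ∀ k, k ≤ J → S.avgS K B c x y k (fun a => (a.1 : ℝ) ^ 2 * f a.2) ≤ (1 + η) ^ k *
      (k * S.tq K c x y f + k ^ 2 * (S.tm K c x y (fun _ => 1) * S.tm K c x y f)) := by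
    intro k
    induction k with
    | zero =>
      intro _
      have e : S.avgS K B c x y 0 (fun a => (a.1 : ℝ) ^ 2 * f a.2) = 0 := by
        change ((0 : ℕ) : ℝ) ^ 2 * f (S.unit (1, 0)).2 = 0
        simp
      rw [e]
      simp
    | succ k ih =>
      intro hk
      have i1 := ih (by omega)
      have i2 := (hfirst f hf k (by omega)).1
      have i3 := (hfirst (fun _ => (1 : ℝ)) (fun _ => zero_le_one) k (by omega)).1
      have hmean1 : (∑ u ∈ Finset.range (2 ^ B), ((S.trial K c u x y).1 : ℝ)) / 2 ^ B =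
          S.tm K c x y (fun _ => 1) := by
        rw [← trial_mean S hK hW hB hc h2]
        congr 1
        exact Finset.sum_congr rfl fun u _ => by rw [mul_one]
      have hsum : ∀ a : ℕ × α, (∑ u ∈ Finset.range (2 ^ B),
          (((a.1 : ℝ) + (S.trial K c u x y).1) * ((a.1 : ℝ) * f a.2 +
            ((S.trial K c u x y).1 : ℝ) * f (S.trial K c u x y).2))) / 2 ^ B =
          (a.1 : ℝ) ^ 2 * f a.2 + (a.1 : ℝ) * 1 * S.tm K c x y f +
            (a.1 : ℝ) * f a.2 * S.tm K c x y (fun _ => 1) + S.tq K c x y f := by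
        intro a
        rw [← trial_sq S hK hW hB hc h2, ← trial_mean S hK hW hB hc h2 x y f, ← hmean1]
        have e : ∀ u, (((a.1 : ℝ) + (S.trial K c u x y).1) * ((a.1 : ℝ) * f a.2 +
            ((S.trial K c u x y).1 : ℝ) * f (S.trial K c u x y).2)) =
            (a.1 : ℝ) ^ 2 * f a.2 + (a.1 : ℝ) * 1 * (((S.trial K c u x y).1 : ℝ) * f (S.trial K c u x y).2) +
            (a.1 : ℝ) * f a.2 * ((S.trial K c u x y).1 : ℝ) +
            ((S.trial K c u x y).1 : ℝ) ^ 2 * f (S.trial K c u x y).2 := by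
          intro u
          ring
        rw [Finset.sum_congr rfl fun u _ => e u, Finset.sum_add_distrib, Finset.sum_add_distrib,
          Finset.sum_add_distrib, add_div, add_div, add_div, v1_avg_const, ← Finset.mul_sum,
          ← Finset.mul_sum, mul_div_assoc, mul_div_assoc]
      have hpk : (1 : ℝ) ≤ (1 + η) ^ k := one_le_pow₀ (by linarith)
      calc S.avgS K B c x y (k + 1) (fun a => (a.1 : ℝ) ^ 2 * f a.2)
          ≤ S.avgS K B c x y k (fun a => (1 + η) * ((a.1 : ℝ) ^ 2 * f a.2 +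
              (S.tm K c x y f * ((a.1 : ℝ) * 1) + S.tm K c x y (fun _ => 1) * ((a.1 : ℝ) * f a.2) +
                S.tq K c x y f))) := by
            rw [avgS_succ]
            refine avgS_mono S K B c x y ht _ _ fun a ha => ?_
            have e1 : (1 + η) * ((a.1 : ℝ) ^ 2 * f a.2 +
                (S.tm K c x y f * ((a.1 : ℝ) * 1) + S.tm K c x y (fun _ => 1) * ((a.1 : ℝ) * f a.2) +
                S.tq K c x y f)) = (1 + η) * ((∑ u ∈ Finset.range (2 ^ B),
                (((a.1 : ℝ) + (S.trial K c u x y).1) * ((a.1 : ℝ) * f a.2 +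
                ((S.trial K c u x y).1 : ℝ) * f (S.trial K c u x y).2))) / 2 ^ B) := by
              rw [hsum a]
              ring
            rw [e1, ← mul_div_assoc, Finset.mul_sum]
            refine v1_avg_le fun u => ?_
            have e2 := (v1_merge hη0 (hsz k hk a ha u) hf).1
            have e3 : ∀ u', ((Sys.mrg B u' a (S.trial K c u x y)).1 : ℝ) ^ 2 *
                f (Sys.mrg B u' a (S.trial K c u x y)).2 = ((a.1 : ℝ) + (S.trial K c u x y).1) *
                (((Sys.mrg B u' a (S.trial K c u x y)).1 : ℝ) *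
                  f (Sys.mrg B u' a (S.trial K c u x y)).2) := by
              intro u'
              rw [v1_mrg_fst]
              push_cast
              ring
            rw [Finset.sum_congr rfl fun u' _ => e3 u', ← Finset.mul_sum, mul_div_assoc]
            have e4 : (0 : ℝ) ≤ (a.1 : ℝ) + (S.trial K c u x y).1 := by positivity
            have e5 := mul_le_mul_of_nonneg_left e2 e4
            linarith
        _ = (1 + η) * (S.avgS K B c x y k (fun a => (a.1 : ℝ) ^ 2 * f a.2) +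
              (S.tm K c x y f * S.avgS K B c x y k (fun a => (a.1 : ℝ) * 1) +
                S.tm K c x y (fun _ => 1) * S.avgS K B c x y k (fun a => (a.1 : ℝ) * f a.2) +
                S.tq K c x y f)) := by
            rw [avgS_smul, avgS_add, avgS_add, avgS_add, avgS_const, avgS_smul, avgS_smul]
        _ ≤ (1 + η) * ((1 + η) ^ k *
              (k * S.tq K c x y f + k ^ 2 * (S.tm K c x y (fun _ => 1) * S.tm K c x y f)) +
              (S.tm K c x y f * ((1 + η) ^ k * (k * S.tm K c x y (fun _ => 1))) +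
                S.tm K c x y (fun _ => 1) * ((1 + η) ^ k * (k * S.tm K c x y f)) +
                (1 + η) ^ k * S.tq K c x y f)) := by
            refine mul_le_mul_of_nonneg_left (add_le_add i1 (add_le_add (add_le_add ?_ ?_) ?_)) (by linarith)
            · exact mul_le_mul_of_nonneg_left i3 hT
            · exact mul_le_mul_of_nonneg_left i2 hT1
            · nlinarith
        _ ≤ (1 + η) ^ (k + 1) * (((k + 1 : ℕ) : ℝ) * S.tq K c x y f + ((k + 1 : ℕ) : ℝ) ^ 2 *
              (S.tm K c x y (fun _ => 1) * S.tm K c x y f)) := by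
            push_cast
            have e1 : (0 : ℝ) ≤ (1 + η) ^ (k + 1) * (S.tm K c x y (fun _ => 1) * S.tm K c x y f) := by
              have : (0 : ℝ) ≤ 1 + η := by linarith
              positivity
            have e2 : (1 + η) ^ (k + 1) = (1 + η) * (1 + η) ^ k := pow_succ' _ _
            rw [e2] at e1 ⊢
            nlinarith
  exact hsecond J le_rfl

end Pool.Agent.Lib.MP_104326_lc.FP
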