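import Pool.Agent.Lib.MP_104326_lc.FP.V1
import Pool.Agent.Lib.MP_104326_lc.KR.E0

/-! # FP / V2a: the pools that occur, algebra of `expP` -/

set_option autoImplicit false

namespace Pool.Agent.Lib.MP_104326_lc.FP

open Pool.Agent.Lib.PolyTime Pool.Agent.Lib.MP_104326_lc.KR

section Abstract
variable {α : Type} [DecidableEq α] (S : Sys α)

theorem v2a_unit {J : ℕ} {c : ℕ × ℕ} (hc : c ∈ S.Cls) (h1 : c.1 = 1) :
    (S.unit c).1 ≤ J ^ (c.1 - 1) ∧ ((S.unit c).1 ≠ 0 → (S.unit c).2 ∈ S.Om c) := by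
  rw [h1]
  rcases S.unit_card c hc h1 with ⟨h2, h3⟩ | ⟨h2, h3⟩
  · exact ⟨by rw [h3]; exact Nat.zero_le _, fun h => absurd h3 h⟩
  · refine ⟨by rw [h3]; simp, fun _ => ?_⟩
    rw [h2]
    exact Finset.mem_singleton_self _

theorem good_leaf {K J : ℕ} : S.Good K J (S.leafP K) := by
  intro c hc
  refine ⟨fun i => ?_, fun h1 i hi => ?_⟩
  · unfold Sys.leafP
    split_ifs with h
    · exact v2a_unit S hc h.1
    · exact ⟨Nat.zero_le _, fun h => absurd rfl h⟩
  · unfold Sys.leafP
    rw [if_pos ⟨h1, hi⟩]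

theorem v2a_usOf_lt (B : ℕ) (p : List Bool) (i : ℕ) : (Sys.usOf B p i).2 < 2 ^ B := by
  unfold Sys.usOf
  refine lt_of_lt_of_le (msb_lt _) (Nat.pow_le_pow_right (by norm_num) ?_)
  exact List.length_take_le _ _

theorem v2a_slot {K J : ℕ} (hJ : 1 ≤ J) (hW : 1 ≤ S.W) {c : ℕ × ℕ} (hc : c ∈ S.Cls) (h2 : 2 ≤ c.1)
    {x y : SPool α} (hx : S.Good K J x) (hy : S.Good K J y) (B : ℕ) (us : ℕ → ℕ × ℕ)
    (hus : ∀ i, (us i).2 < 2 ^ B) (j : ℕ) :
    (S.slot K B c x y us j).1 ≤ j * J ^ (c.1 - 2) ∧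
      ((S.slot K B c x y us j).1 ≠ 0 → (S.slot K B c x y us j).2 ∈ S.Om c) := by
  induction j with
  | zero => exact ⟨Nat.zero_le _, fun h => absurd rfl h⟩
  | succ j ih =>
    obtain ⟨ih1, ih2⟩ := ih
    obtain ⟨t1, t2⟩ := trial_good S hJ hc h2 hx hy hW (us j).1
    have hu := hus j
    show (Sys.mrg B (us j).2 (S.slot K B c x y us j) (S.trial K c (us j).1 x y)).1 ≤ _ ∧
      ((Sys.mrg B (us j).2 (S.slot K B c x y us j) (S.trial K c (us j).1 x y)).1 ≠ 0 →
        (Sys.mrg B (us j).2 (S.slot K B c x y us j) (S.trial K c (us j).1 x y)).2 ∈ S.Om c)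
    generalize S.slot K B c x y us j = a at ih1 ih2 ⊢
    generalize S.trial K c (us j).1 x y = b at t1 t2 ⊢
    generalize (us j).2 = u at hu ⊢
    unfold Sys.mrg
    split_ifs with h
    · refine ⟨?_, fun _ => t2 ?_⟩
      · show a.1 + b.1 ≤ _
        rw [Nat.succ_mul]
        exact Nat.add_le_add ih1 t1
      · intro h0
        rw [h0, zero_mul] at h
        exact absurd h (Nat.not_lt_zero _)
    · refine ⟨?_, fun hne => ih2 ?_⟩
      · show a.1 + b.1 ≤ _
        rw [Nat.succ_mul]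
        exact Nat.add_le_add ih1 t1
      · intro h0
        have hne' : a.1 + b.1 ≠ 0 := hne
        rw [h0, zero_add] at hne' h
        apply h
        rw [mul_comm]
        exact Nat.mul_lt_mul_of_pos_left hu (Nat.pos_of_ne_zero hne')

theorem good_node {R K J B : ℕ} (hJ : 1 ≤ J) (hW : 1 ≤ S.W) (hR : ∀ c ∈ S.Cls, c.1 < R ∧ c.2 < 7)
    {x y : SPool α} (hx : S.Good K J x) (hy : S.Good K J y) (r : List Bool) :
    S.Good K J (S.nodeP R K J B r x y) := by
  intro c hc
  obtain ⟨hc1, hc2⟩ := hR c hc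
  refine ⟨fun i => ?_, fun h1 i hi => ?_⟩
  · unfold Sys.nodeP
    by_cases hi : i < K ∧ c.1 < R ∧ c.2 < 7
    · rw [if_pos hi]
      by_cases h1 : c.1 = 1
      · rw [if_pos h1]
        exact v2a_unit S hc h1
      · rw [if_neg h1]
        have hp := S.pos c hc
        have h2 : 2 ≤ c.1 := by omega
        obtain ⟨s1, s2⟩ := v2a_slot S hJ hW hc h2 hx hy B
          (Sys.usOf B (Sys.piece (J * (2 * B)) (Sys.idx K c i) r)) (v2a_usOf_lt B _) J
        refine ⟨s1.trans (le_of_eq ?_), s2⟩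
        have : c.1 - 1 = (c.1 - 2) + 1 := by omega
        rw [this, pow_succ, mul_comm]
    · rw [if_neg hi]
      exact ⟨Nat.zero_le _, fun h => absurd rfl h⟩
  · unfold Sys.nodeP
    rw [if_pos ⟨hi, hc1, hc2⟩, if_pos h1]

theorem expP_mono {R K J B : ℕ} (hJ : 1 ≤ J) (hW : 1 ≤ S.W) (hR : ∀ c ∈ S.Cls, c.1 < R ∧ c.2 < 7)
    (h : ℕ) {F F' : SPool α → ℝ} (hF : ∀ p, S.Good K J p → F p ≤ F' p) :
    S.expP R K J B h F ≤ S.expP R K J B h F' := by
  induction h generalizing F F' with
  | zero => exact hF _ (good_leaf S)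
  | succ h ih =>
    exact ih (fun x hx => ih (fun y hy => avgB_mono (fun r _ => hF _ (good_node S hJ hW hR hx hy r))))

theorem v2a_avgB_add {L : ℕ} (F F' : List Bool → ℝ) :
    avgB L (fun r => F r + F' r) = avgB L F + avgB L F' := by
  unfold avgB
  rw [Finset.sum_add_distrib, add_div]

theorem v2a_avgB_const (L : ℕ) (a : ℝ) : avgB L (fun _ => a) = a := by
  unfold avgB
  rw [Finset.sum_const, nsmul_eq_mul, Finset.card_univ, Fintype.card_fun, Fintype.card_bool,
    Fintype.card_fin]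
  push_cast
  field_simp

theorem expP_add (R K J B h : ℕ) (F F' : SPool α → ℝ) :
    S.expP R K J B h (fun p => F p + F' p) = S.expP R K J B h F + S.expP R K J B h F' := by
  induction h generalizing F F' with
  | zero => rfl
  | succ h ih =>
    show S.expP R K J B h (fun x => S.expP R K J B h (fun y => avgB (Sys.nodeBits R K J B)
      (fun r => F (S.nodeP R K J B r x y) + F' (S.nodeP R K J B r x y)))) = _
    simp only [v2a_avgB_add, ih]
    rfl

theorem expP_smul (R K J B h : ℕ) (a : ℝ) (F : SPool α → ℝ) :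
    S.expP R K J B h (fun p => a * F p) = a * S.expP R K J B h F := by
  induction h generalizing F with
  | zero => rfl
  | succ h ih =>
    show S.expP R K J B h (fun x => S.expP R K J B h (fun y => avgB (Sys.nodeBits R K J B)
      (fun r => a * F (S.nodeP R K J B r x y)))) = _
    simp only [avgB_mul, ih]
    rfl

theorem expP_const (R K J B h : ℕ) (a : ℝ) : S.expP R K J B h (fun _ => a) = a := by
  induction h with
  | zero => rfl
  | succ h ih =>
    show S.expP R K J B h (fun x => S.expP R K J B h (fun y => avgB (Sys.nodeBits R K J B)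
      (fun r => a))) = a
    simp only [v2a_avgB_const, ih]

theorem expP_sum (R K J B h : ℕ) {ι : Type} (s : Finset ι) (F : ι → SPool α → ℝ) :
    S.expP R K J B h (fun p => ∑ i ∈ s, F i p) = ∑ i ∈ s, S.expP R K J B h (F i) := by
  classical
  induction s using Finset.induction_on with
  | empty =>
    simp only [Finset.sum_empty]
    exact expP_const S R K J B h 0
  | insert i s hi ih =>
    simp only [Finset.sum_insert hi]
    rw [expP_add, ih]

end Abstract

end Pool.Agent.Lib.MP_104326_lc.FP
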